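import Pool.Agent.GC.Tens

/-! Graded complexes over a field: contracting homotopies, decomposition by degree. -/

set_option linter.unusedSectionVars false
set_option linter.unusedSimpArgs false

namespace Pool.Agent.GC

open Matrix

section

variable {K : Type*} [Field K] {I : Type*} [Fintype I] [DecidableEq I] {deg : I → Gr}

/-- every matrix over a field has a generalized inverse -/
theorem exists_ginv (d : Matrix I I K) : ∃ g : Matrix I I K, d * g * d = d := by
  classical
  set f : (I → K) →ₗ[K] (I → K) := Matrix.toLin' d with hf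
  obtain ⟨r, hr⟩ := f.rangeRestrict.exists_rightInverse_of_surjective f.range_rangeRestrict
  obtain ⟨p, hp⟩ := (LinearMap.range f).subtype.exists_leftInverse_of_injective
    (Submodule.ker_subtype _)
  refine ⟨LinearMap.toMatrix' (r ∘ₗ p), ?_⟩
  apply Matrix.toLin'.injective
  rw [Matrix.toLin'_mul, Matrix.toLin'_mul, Matrix.toLin'_toMatrix', ← hf]
  ext1
  apply LinearMap.ext
  intro x
  simp only [LinearMap.comp_apply]
  set y := f (LinearMap.single K (fun _ => K) _ x) with hy
  have h1 : p y = ⟨y, LinearMap.mem_range.mpr ⟨_, rfl⟩⟩ := by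
    have := congrArg (fun g => g ⟨y, LinearMap.mem_range.mpr ⟨_, rfl⟩⟩) hp
    simpa using this
  rw [h1]
  have h2 := congrArg (fun g => g ⟨y, LinearMap.mem_range.mpr ⟨_, rfl⟩⟩) hr
  simp only [LinearMap.comp_apply, LinearMap.id_apply] at h2
  have h3 := congrArg Subtype.val h2
  simpa using h3

/-- the homogeneous component of a matrix -/
def hcomp (deg : I → Gr) (δ : Gr) (M : Matrix I I K) : Matrix I I K :=
  fun a b => if deg a = deg b + δ then M a b else 0

theorem hm_hcomp (δ : Gr) (M : Matrix I I K) : Hm deg δ (hcomp deg δ M) := by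
  intro a b h
  unfold hcomp at h
  by_contra h'
  rw [if_neg h'] at h
  exact h rfl

theorem exists_ginv_hm {δ : Gr} {d : Matrix I I K} (hd : Hm deg δ d) :
    ∃ g : Matrix I I K, Hm deg (-δ) g ∧ d * g * d = d := by
  obtain ⟨g, hg⟩ := exists_ginv d
  refine ⟨hcomp deg (-δ) g, hm_hcomp _ _, ?_⟩
  ext a b
  by_cases hab : deg a = deg b + δ
  · have h1 := congrFun (congrFun hg a) b
    rw [← h1]
    simp only [Matrix.mul_apply, Finset.sum_mul]
    apply Finset.sum_congr rfl
    intro x _
    apply Finset.sum_congr rfl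
    intro y _
    unfold hcomp
    by_cases hy : d a y = 0
    · simp [hy]
    · by_cases hx : d x b = 0
      · simp [hx]
      · rw [if_pos]
        rw [hd x b hx]
        have := hd a y hy
        rw [hab] at this
        have e : deg b = deg y := add_right_cancel this
        rw [e]; abel
  · have h0 : Hm deg (δ + -δ + δ) (d * hcomp deg (-δ) g * d) :=
      (hd.mul (hm_hcomp _ _)).mul hd
    have h1 : d a b = 0 := by
      by_contra h; exact hab (hd a b h)
    rw [h1]
    by_contra h
    exact hab (by rw [h0 a b h]; abel)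

/-- strong deformation retraction onto the homology -/
theorem exists_sdr {δ : Gr} {d : Matrix I I K} (hd : Hm deg δ d) (h2 : d * d = 0) :
    ∃ h π : Matrix I I K, Hm deg (-δ) h ∧ Hm deg 0 π ∧ d * h + h * d + π = 1 ∧
      π * d = 0 ∧ d * π = 0 ∧ π * π = π := by
  obtain ⟨g, hg, hdg⟩ := exists_ginv_hm hd
  have e1 : d * (g * d) = d := by rw [← mul_assoc]; exact hdg
  have hpd : (1 - d * g) * (1 - g * d) * d = 0 := by
    have : (1 - g * d) * d = d := by
      rw [sub_mul, one_mul, mul_assoc, h2, mul_zero, sub_zero]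
    rw [mul_assoc, this, sub_mul, one_mul, hdg, sub_self]
  have hdp : d * ((1 - d * g) * (1 - g * d)) = 0 := by
    have : d * (1 - d * g) = d := by
      rw [mul_sub, mul_one, ← mul_assoc, h2, zero_mul, sub_zero]
    rw [← mul_assoc, this, mul_sub, mul_one, e1, sub_self]
  have key : d * (g - g * g * d) + (g - g * g * d) * d + (1 - d * g) * (1 - g * d) = 1 := by
    have h3 : g * g * d * d = 0 := by rw [mul_assoc, h2, mul_zero]
    have h4 : d * (g * g * d) = d * g * (g * d) := by simp only [mul_assoc]
    rw [mul_sub, sub_mul, h3, sub_zero, h4, sub_mul, one_mul, mul_sub, mul_one]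
    abel
  refine ⟨g - g * g * d, (1 - d * g) * (1 - g * d), ?_, ?_, key, hpd, hdp, ?_⟩
  · refine hg.sub ?_
    exact ((hg.mul hg).mul hd).congr (by abel)
  · have a1 : Hm deg 0 (1 - d * g) := Hm.one.sub ((hd.mul hg).congr (by abel))
    have a2 : Hm deg 0 (1 - g * d) := Hm.one.sub ((hg.mul hd).congr (by abel))
    exact (a1.mul a2).congr (by abel)
  · set π := (1 - d * g) * (1 - g * d) with hπ
    have h5 : π * (g - g * g * d) * d = 0 := by
      have h6 : (g - g * g * d) * d = g * d := by
        rw [sub_mul, mul_assoc (g * g), h2, mul_zero, sub_zero]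
      have h7 : (1 - g * d) * (g * d) = 0 := by
        rw [sub_mul, one_mul, ← mul_assoc (g * d) g d, mul_assoc g d g, mul_assoc g (d * g) d, hdg,
          sub_self]
      rw [mul_assoc, h6, hπ, mul_assoc, h7, mul_zero]
    have h8 : π * 1 = π * (d * (g - g * g * d) + (g - g * g * d) * d + π) := by rw [key]
    rw [mul_one, mul_add, mul_add, ← mul_assoc, hpd, zero_mul, zero_add, ← mul_assoc, h5, zero_add]
      at h8
    exact h8.symm

/-- the projection onto the homology vanishes in the degrees where the complex is exact -/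
theorem sdr_zero {d π : Matrix I I K} {P : Gr → Prop} (hπ : Hm deg 0 π) (hpd : π * d = 0)
    (hdp : d * π = 0) (hpp : π * π = π) (hE : Ex deg d P) :
    ∀ v, Sup deg P v → π *ᵥ v = 0 := by
  intro v hv
  have h1 : Sup deg P (π *ᵥ v) := hv.mulVec hπ (by intro g hg; simpa using hg)
  obtain ⟨w, hw⟩ := hE _ h1 (by rw [Matrix.mulVec_mulVec, hdp, Matrix.zero_mulVec])
  rw [← hpp, ← Matrix.mulVec_mulVec, ← hw, Matrix.mulVec_mulVec, hpd, Matrix.zero_mulVec]

/-- the part of a vector in the degree `g` -/
def vcomp (deg : I → Gr) (g : Gr) (v : I → K) : I → K := fun a => if deg a = g then v a else 0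

theorem sup_vcomp (g : Gr) (v : I → K) : Sup deg (fun x => x = g) (vcomp deg g v) := by
  intro a ha
  unfold vcomp at ha
  by_contra h
  rw [if_neg h] at ha; exact ha rfl

theorem vcomp_eq_zero {P : Gr → Prop} {v : I → K} (hv : Sup deg P v) {g : Gr} (hg : ¬ P g) :
    vcomp deg g v = 0 := by
  funext a
  unfold vcomp
  by_cases h : deg a = g
  · rw [if_pos h]
    by_contra h0
    exact hg (h ▸ hv a h0)
  · rw [if_neg h]; rfl

theorem sum_vcomp (v : I → K) : ∑ g ∈ Finset.univ.image deg, vcomp deg g v = v := by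
  funext a
  rw [Finset.sum_apply]
  unfold vcomp
  rw [Finset.sum_ite_eq]
  simp

theorem mulVec_vcomp {δ : Gr} {M : Matrix I I K} (h : Hm deg δ M) (g : Gr) (v : I → K) :
    M *ᵥ vcomp deg g v = vcomp deg (g + δ) (M *ᵥ v) := by
  funext a
  unfold vcomp
  simp only [Matrix.mulVec, dotProduct]
  by_cases ha : deg a = g + δ
  · rw [if_pos ha]
    apply Finset.sum_congr rfl
    intro b _
    by_cases hb : M a b = 0
    · simp [hb]
    · have := h a b hb
      rw [ha] at this
      rw [if_pos (add_right_cancel this).symm]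
  · rw [if_neg ha]
    apply Finset.sum_eq_zero
    intro b _
    by_cases hb : M a b = 0
    · simp [hb]
    · rw [if_neg, mul_zero]
      intro h'
      exact ha (by rw [h a b hb, h'])

theorem ex_of_forall {δ : Gr} {d : Matrix I I K} (hd : Hm deg δ d) {P : Gr → Prop}
    (h : ∀ g, P g → Ex deg d (fun x => x = g)) : Ex deg d P := by
  classical
  intro v hv hdv
  have h1 : ∀ g, ∃ w, d *ᵥ w = vcomp deg g v := by
    intro g
    by_cases hg : P g
    · apply h g hg _ (sup_vcomp g v)
      rw [mulVec_vcomp hd, hdv]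
      funext a; simp [vcomp]
    · exact ⟨0, by rw [vcomp_eq_zero hv hg, Matrix.mulVec_zero]⟩
  choose w hw using h1
  refine ⟨∑ g ∈ Finset.univ.image deg, w g, ?_⟩
  rw [Matrix.mulVec_sum, Finset.sum_congr rfl (fun g _ => hw g), sum_vcomp]

theorem hinj_of_forall {δ τ : Gr} {d T : Matrix I I K} (hd : Hm deg δ d) (hT : Hm deg τ T)
    {P : Gr → Prop} (h : ∀ g, P g → HInj deg d T (fun x => x = g)) : HInj deg d T P := by
  classical
  intro v hv hdv hTv
  obtain ⟨u, hu⟩ := hTv
  have h1 : ∀ g, ∃ w, d *ᵥ w = vcomp deg g v := by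
    intro g
    by_cases hg : P g
    · apply h g hg _ (sup_vcomp g v)
      · rw [mulVec_vcomp hd, hdv]
        funext a; simp [vcomp]
      · refine ⟨vcomp deg (g + τ - δ) u, ?_⟩
        rw [mulVec_vcomp hd, mulVec_vcomp hT, hu]
        congr 1
        abel
    · exact ⟨0, by rw [vcomp_eq_zero hv hg, Matrix.mulVec_zero]⟩
  choose w hw using h1
  refine ⟨∑ g ∈ Finset.univ.image deg, w g, ?_⟩
  rw [Matrix.mulVec_sum, Finset.sum_congr rfl (fun g _ => hw g), sum_vcomp]

end

end Pool.Agent.GC
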