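import Pool.Agent.GC.Sdr

/-! Contraction data for the forms in three and in seven variables. -/

set_option linter.unusedSectionVars false
set_option linter.unusedSimpArgs false
set_option linter.unusedVariables false
set_option maxRecDepth 100000

namespace Pool.Agent.GC

/-- the monomials -/
def flThree : FL := [(0, 1, 2, 1)]

/-- homotopy table -/
def hThreeT : Tr := (.n (.l 0) (.n (.l 0) (.n (.l 0) (.l 1))))

/-- projection table -/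
def pThreeT : Tr := (.n (.n (.n (.l 0) (.l 0x11)) (.n (.l 9) (.l 0x11))) (.n (.n (.l 1) (.l 9)) (.n (.l 1) (.l 0))))

/-- the data -/
def datThree : Dat where
  n := 3
  fl := flThree
  lo := 1
  hi := 0
  r := fun t => bif Nat.beq t 1 then 3 else 0
  hC := fun m => unc 64 (hThreeT.get m)
  iC := fun t j => []
  p0 := fun m => unc 64 (pThreeT.get m)

theorem ckThree : allR datThree.c1 8 = true := by
  decide +kernel

/-- the monomials -/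
def flSeven : FL := [(0, 1, 2, 1), (3, 4, 5, 1), (6, 0, 3, 1), (6, 1, 4, 1), (6, 2, 5, 1)]

/-- homotopy table -/
def hSevenT : Tr := (.n (.n (.n (.l 0) (.n (.l 0) (.n (.l 0) (.n (.l 0) (.n (.l 0x26) (.l 0x226)))))) (.n (.n (.l 0) (.n (.l 0) (.n (.l 0) (.n (.l 0x16) (.l 0x216))))) (.n (.n (.l 0) (.n (.l 0) (.n (.l 0) (.l 0x1230093004c)))) (.n (.n (.l 0) (.n (.l 0) (.l 0x56))) (.n (.n (.l 0) (.l 0x61)) (.n (.l 0x2460031) (.l 0))))))) (.n (.n (.n (.l 0) (.n (.l 0) (.n (.l 0) (.n (.l 0xe) (.l 0x20e))))) (.n (.n (.l 0) (.n (.l 0) (.n (.l 0) (.l 0x8e)))) (.n (.n (.l 0) (.n (.l 0) (.l 0x1230094004b))) (.n (.n (.l 0) (.l 0xa6)) (.n (.l 0x2810029) (.l 0)))))) (.n (.n (.n (.l 0) (.n (.l 0) (.n (.l 0) (.l 0x109)))) (.n (.n (.l 0) (.n (.l 0) (.l 0x116))) (.n (.n (.l 0) (.l 0x1240093004b)) (.n (.l 0x3060019) (.l 0))))) (.n (.n (.n (.n (.l 1) (.l 0x201)) (.n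 (.l 0x101) (.l 0x301))) (.n (.n (.l 0x81) (.l 0x281)) (.n (.l 0x2090181) (.l 0)))) (.n (.n (.n (.l 0x41) (.l 0x241)) (.n (.l 0x2160141) (.l 0))) (.n (.n (.l 0x22100c1) (.l 0)) (.l 0)))))))

/-- projection table -/
def pSevenT : Tr := (.n (.n (.n (.n (.n (.l 0) (.n (.l 0) (.n (.l 0) (.l 0xd1)))) (.n (.n (.l 0) (.n (.l 0) (.l 0xc9))) (.n (.n (.l 0) (.l 0xa9)) (.n (.l 0) (.l 0xd1))))) (.n (.n (.n (.l 0) (.n (.l 0) (.l 0xc1))) (.n (.n (.l 0) (.l 0xa1)) (.n (.l 0x59) (.l 0xc9)))) (.n (.n (.n (.l 0) (.l 0x89)) (.n (.l 0x41) (.l 0xb1))) (.n (.n (.l 0x19) (.l 0x81)) (.n (.l 0x690049) (.l 0)))))) (.n (.n (.n (.n (.l 0) (.n (.l 0) (.l 0xb9))) (.n (.n (.l 0) (.l 0x99)) (.n (.l 0x51) (.l 0xc1)))) (.n (.n (.n (.l 0) (.l 0x81)) (.n (.l 0x39) (.l 0xa9))) (.n (.n (.l 0) (.l 0x79)) (.n (.l 0x9e0041) (.l 0))))) (.n (.n (.n (.n (.l 0) (.l 0x71)) (.n (.l 0x31) (.l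 0x99))) (.n (.n (.l 0x11) (.l 0x69)) (.n (.l 0x39) (.l 0)))) (.n (.n (.n (.l 1) (.l 0x51)) (.n (.l 0x21) (.l 0))) (.n (.n (.l 9) (.l 0)) (.l 0)))))) (.n (.n (.n (.n (.n (.l 0) (.n (.l 0) (.l 0xb1))) (.n (.n (.l 0) (.l 0x91)) (.n (.l 0x49) (.l 0xb9)))) (.n (.n (.n (.l 0) (.l 0x79)) (.n (.l 0) (.l 0xa1))) (.n (.n (.l 0) (.l 0x71)) (.n (.l 0x96005e) (.l 0))))) (.n (.n (.n (.n (.l 0) (.l 0x69)) (.n (.l 0x29) (.l 0x91))) (.n (.n (.l 9) (.l 0x61)) (.n (.l 0x31) (.l 0)))) (.n (.n (.n (.l 0) (.l 0x49)) (.n (.l 0x19) (.l 0))) (.n (.n (.l 1) (.l 0)) (.l 0))))) (.n (.n (.n (.n (.n (.l 0) (.l 0x61)) (.n (.l 0x21) (.l 0x89))) (.n (.n (.l 0) (.l 0x59)) (.n (.l 0x29) (.l 0)))) (.n (.n (.n (.l 0) (.l 0x41)) (.n (.l 0x11) (.l 0))) (.l 0))) (.n (.n (.n (.n (.l 0xc6009e007e) (.l 0xd6)) (.n (.l 0xc100a1) (.l 0))) (.n (.n (.l 0xce0071) (.l 0)) (.l 0))) (.n (.n (.n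 (.l 0xb6007e) (.l 0)) (.l 0)) (.l 0))))))

/-- the data -/
def datSeven : Dat where
  n := 7
  fl := flSeven
  lo := 3
  hi := 2
  r := fun t => bif Nat.beq t 3 then 27 else 0
  hC := fun m => unc 64 (hSevenT.get m)
  iC := fun t j => []
  p0 := fun m => unc 64 (pSevenT.get m)

theorem ckSeven : allR datSeven.c1 128 = true := by
  decide +kernel

end Pool.Agent.GC
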