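import Pool.Agent.GC.CertB
import Pool.Agent.GC.CertP
import Pool.Agent.GC.CertA
import Pool.Agent.GC.CertG
import Pool.Agent.GC.DataS

/-! The base cases. -/

set_option linter.unusedSectionVars false
set_option linter.unusedSimpArgs false
set_option linter.unusedVariables false

namespace Pool.Agent.GC

open Matrix

theorem good : Good datF datE where
  f1 := fun m hm => allR_iff.mp ckF1 m hm
  g1 := fun m hm => allR_iff.mp ckE1 m hm
  f4 := fun m hm => allR_iff.mp ckFh m hm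

theorem hP_aux (n c t1 t2 : ℕ) {b1 : Finset (Fin datF.n)} {b2 : Finset (Fin datE.n)}
    (hall : ∀ c1 < 7, ∀ c2 < 11, c1 + c2 = n → c1 % 3 = c % 3 →
      (c1 < 2 ∧ c1 ≤ 3 ∧ c1 ≠ t1) ∨ (c2 < 4 ∧ c2 ≤ 5 ∧ c2 ≠ t2) ∨
        (c1 = t1 ∧ c2 = t2 ∧ ¬ t1 < 2 ∧ t1 ≤ 3 ∧ ¬ t2 < 4 ∧ t2 ≤ 5))
    (h : ((((b1.card + b2.card : ℕ) : ℤ), ((b1.card : ℕ) : ZMod 3)) : Gr) =
      ((n : ℤ), (c : ZMod 3))) :
    (b1.card < datF.lo ∧ b1.card ≤ datF.hi ∧ b1.card ≠ t1) ∨
    (b2.card < datE.lo ∧ b2.card ≤ datE.hi ∧ b2.card ≠ t2) ∨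
    (b1.card = t1 ∧ b2.card = t2 ∧ ¬ t1 < datF.lo ∧ t1 ≤ datF.hi ∧ ¬ t2 < datE.lo ∧
      t2 ≤ datE.hi) := by
  have h1 : b1.card ≤ 6 := by
    have := Finset.card_le_univ b1
    rw [Fintype.card_fin] at this
    exact this
  have h2 : b2.card ≤ 10 := by
    have := Finset.card_le_univ b2
    rw [Fintype.card_fin] at this
    exact this
  have h3 := congrArg Prod.fst h
  have h4 := congrArg Prod.snd h
  simp only at h3 h4
  exact hall b1.card (by omega) b2.card (by omega) (by exact_mod_cast h3)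
    ((ZMod.natCast_eq_natCast_iff' _ _ 3).mp h4)

theorem dg_cond {b : Bool} {x y i : ℕ} (hx : dg i x ≤ 7) (hy : dg i y ≤ 7) :
    dg i (bif b then x else y) ≤ 7 := by
  cases b
  · exact hy
  · exact hx

theorem len_cond {b : Bool} {x y : SV} (hx : x.length ≤ 64) (hy : y.length ≤ 64) :
    (bif b then x else y).length ≤ 64 := by
  cases b
  · exact hy
  · exact hx

theorem hinj_beta : HInj (dP (St (ZMod 7) datF.n) (St (ZMod 7) datE.n)) (DD datF datE)
    (Tt (St (ZMod 7) datF.n) (St (ZMod 7) datE.n) (Tco datF.n datE.n Xi))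
    (fun g => g = (((7 : ℕ) : ℤ), ((2 : ℕ) : ZMod 3))) := by
  refine hinj_T good Xi (t1 := 2) (t2 := 5) (s1 := 3) (s2 := 6) (N := 1458) (PT := CB.PT)
    (UT := CB.UT) (Mt := CB.Mt) (Yt := CB.Yt) (S := CB.S)
    (fun m hm => allR_iff.mp ckF3 m hm) (fun m hm => allR_iff.mp ckE6 m hm) ?_
    (fun κ hκ e he => allR_iff.mp (allR_iff.mp CB.ckM κ hκ) e he)
    (fun κ hκ e he => allR_iff.mp (allR_iff.mp CB.ckY κ hκ) e he) (by decide) ?_ ?_ ?_ ?_
  · intro b1 b2 h
    exact hP_aux 7 2 2 5 (by intro c1 _ c2 _ _ _; omega) h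
  · intro κ φ
    exact unc_length 1 _
  · intro κ e
    unfold CB.Yt
    iterate 6 refine len_cond (unc_length 64 _) ?_
    simp
  · intro u t i
    unfold CB.S
    iterate 18 refine dg_cond (ldS_le _ _ _) ?_
    rw [dg_z]; norm_num
  · intro φ hφ e he
    have hφ' : φ < 9 := hφ
    have he' : e < 162 := he
    interval_cases φ
    · exact allR_iff.mp CB.ckN0 e he'
    · exact allR_iff.mp CB.ckN1 e he'
    · exact allR_iff.mp CB.ckN2 e he'
    · exact allR_iff.mp CB.ckN3 e he'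
    · exact allR_iff.mp CB.ckN4 e he'
    · exact allR_iff.mp CB.ckN5 e he'
    · exact allR_iff.mp CB.ckN6 e he'
    · exact allR_iff.mp CB.ckN7 e he'
    · exact allR_iff.mp CB.ckN8 e he'

theorem hinj_beta2 : HInj (dP (St (ZMod 7) datF.n) (St (ZMod 7) datE.n)) (DD datF datE)
    (Tt (St (ZMod 7) datF.n) (St (ZMod 7) datE.n) (Tco datF.n datE.n Xi))
    (fun g => g = (((7 : ℕ) : ℤ), ((3 : ℕ) : ZMod 3))) := by
  refine hinj_T good Xi (t1 := 3) (t2 := 4) (s1 := 4) (s2 := 5) (N := 1458) (PT := CP.PT)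
    (UT := CP.UT) (Mt := CP.Mt) (Yt := CP.Yt) (S := CP.S)
    (fun m hm => allR_iff.mp ckF4 m hm) (fun m hm => allR_iff.mp ckE5 m hm) ?_
    (fun κ hκ e he => allR_iff.mp (allR_iff.mp CP.ckM κ hκ) e he)
    (fun κ hκ e he => allR_iff.mp (allR_iff.mp CP.ckY κ hκ) e he) (by decide) ?_ ?_ ?_ ?_
  · intro b1 b2 h
    exact hP_aux 7 3 3 4 (by intro c1 _ c2 _ _ _; omega) h
  · intro κ φ
    exact unc_length 1 _
  · intro κ e
    unfold CP.Yt
    iterate 6 refine len_cond (unc_length 64 _) ?_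
    simp
  · intro u t i
    unfold CP.S
    iterate 9 refine dg_cond (ldS_le _ _ _) ?_
    rw [dg_z]; norm_num
  · intro φ hφ e he
    have hφ' : φ < 18 := hφ
    have he' : e < 81 := he
    interval_cases φ
    · exact allR_iff.mp CP.ckN0 e he'
    · exact allR_iff.mp CP.ckN1 e he'
    · exact allR_iff.mp CP.ckN2 e he'
    · exact allR_iff.mp CP.ckN3 e he'
    · exact allR_iff.mp CP.ckN4 e he'
    · exact allR_iff.mp CP.ckN5 e he'
    · exact allR_iff.mp CP.ckN6 e he'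
    · exact allR_iff.mp CP.ckN7 e he'
    · exact allR_iff.mp CP.ckN8 e he'
    · exact allR_iff.mp CP.ckN9 e he'
    · exact allR_iff.mp CP.ckN10 e he'
    · exact allR_iff.mp CP.ckN11 e he'
    · exact allR_iff.mp CP.ckN12 e he'
    · exact allR_iff.mp CP.ckN13 e he'
    · exact allR_iff.mp CP.ckN14 e he'
    · exact allR_iff.mp CP.ckN15 e he'
    · exact allR_iff.mp CP.ckN16 e he'
    · exact allR_iff.mp CP.ckN17 e he'

theorem hinj_alpha : HInj (dP (St (ZMod 7) datF.n) (St (ZMod 7) datE.n)) (DD datF datE)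
    (Tt (St (ZMod 7) datF.n) (St (ZMod 7) datE.n) (Tco datF.n datE.n Xi) *
      Tt (St (ZMod 7) datF.n) (St (ZMod 7) datE.n) (Tco datF.n datE.n Xi))
    (fun g => g = (((6 : ℕ) : ℤ), ((2 : ℕ) : ZMod 3))) := by
  refine hinj_TT good Xi (t1 := 2) (t2 := 4) (s1 := 4) (s2 := 6) (N := 729) (PT := CA.PT)
    (UT := CA.UT) (Mt := CA.Mt) (Yt := CA.Yt) (S := CA.S) rfl
    (fun m hm => allR_iff.mp ckF4 m hm) (fun m hm => allR_iff.mp ckE6 m hm) ?_
    (fun κ hκ l hl e he => allR_iff.mp (allR_iff.mp (allR_iff.mp CA.ckZ κ hκ) l hl) e he)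
    (fun κ hκ l hl e he => allR_iff.mp (allR_iff.mp (allR_iff.mp CA.ckZ2 κ hκ) l hl) e he)
    (fun q hq e he => allR_iff.mp (allR_iff.mp CA.ckM q hq) e he)
    (fun q hq e he => allR_iff.mp (allR_iff.mp CA.ckY q hq) e he) ?_ ?_ ?_ ?_
  · intro b1 b2 h
    exact hP_aux 6 2 2 4 (by intro c1 _ c2 _ _ _; omega) h
  · intro κ φ
    exact unc_length 1 _
  · intro κ e
    unfold CA.Yt
    iterate 9 refine len_cond (unc_length 64 _) ?_
    simp
  · intro u t i
    unfold CA.S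
    iterate 9 refine dg_cond (ldS_le _ _ _) ?_
    rw [dg_z]; norm_num
  · intro φ hφ e he
    have hφ' : φ < 9 := hφ
    have he' : e < 81 := he
    interval_cases φ
    · exact allR_iff.mp CA.ckN0 e he'
    · exact allR_iff.mp CA.ckN1 e he'
    · exact allR_iff.mp CA.ckN2 e he'
    · exact allR_iff.mp CA.ckN3 e he'
    · exact allR_iff.mp CA.ckN4 e he'
    · exact allR_iff.mp CA.ckN5 e he'
    · exact allR_iff.mp CA.ckN6 e he'
    · exact allR_iff.mp CA.ckN7 e he'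
    · exact allR_iff.mp CA.ckN8 e he'

theorem exE (w : Fin datE.n → ZMod 3) :
    Ex ((St (ZMod 7) datE.n).deg w) datE.E (fun g => g.1 < (4 : ℤ)) :=
  ex_lo (D := datE) (fun m hm => allR_iff.mp ckE1 m hm) (by decide) w

theorem exF (w : Fin datF.n → ZMod 3) :
    Ex ((St (ZMod 7) datF.n).deg w) datF.E (fun g => g.1 < (2 : ℤ)) :=
  ex_lo (D := datF) (fun m hm => allR_iff.mp ckF1 m hm) (by decide) w

theorem gg23 : GG (ZMod 7) 2 3 := by
  have h2 : (2 : ZMod 7) ≠ 0 := by decide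
  have q := Q_pair (St (ZMod 7) datF.n) (St (ZMod 7) datE.n) (cof datF.n datF.fl)
    (cof datE.n datE.fl) h2 (exF 1) (exE 0)
  refine gg_of_hl h2 (by norm_num) (by norm_num) (St (ZMod 7) datF.n) (St (ZMod 7) datE.n)
    (by rw [Fintype.card_fin]; rfl) (by rw [Fintype.card_fin]; rfl) (cof datF.n datF.fl)
    (cof datE.n datE.fl) (Tco datF.n datE.n Xi) ?_ ?_ ?_ ?_
  · have e1 : (2 * ((2 : ℕ) : ℤ) - 2 + (2 * ((3 : ℕ) : ℤ) - 2)) = 2 + 4 := by norm_num
    have e2 : (2 * ((2 : ℕ) : ℤ) - 2) = 2 := by norm_num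
    rw [e1, e2]
    exact q
  · refine hinj_alpha.mono ?_
    intro g hg
    rw [hg]
    ext
    · norm_num
    · norm_num
  · refine hinj_beta.mono ?_
    intro g hg
    rw [hg]
    ext
    · norm_num
    · norm_num
  · refine hinj_beta2.mono ?_
    intro g hg
    rw [hg]
    ext
    · norm_num
    · norm_num

theorem cc3 : CC (ZMod 7) 3 := by
  refine cc_of_om (St (ZMod 7) datE.n) (by rw [Fintype.card_fin]; rfl) (cof datE.n datE.fl)
    (Tco datE.n datE.n Om) ?_ ?_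
  · refine (exE 0).mono ?_
    intro g hg
    norm_num at hg
    exact hg
  · refine (hinj_W (D := datE) (fun m hm => allR_iff.mp ckE1 m hm) Om (t := 4) (s := 6) (N := 81)
      (PT := CG.PT) (UT := CG.UT) (Y := CG.Yt 0) (S := CG.S) (by decide) (by decide)
      (fun m hm => allR_iff.mp ckE6 m hm) (fun e he => allR_iff.mp CG.ckY e he) ?_ ?_
      (fun e he => allR_iff.mp CG.ckN e he)).mono ?_
    · intro e
      unfold CG.Yt
      refine len_cond (unc_length 64 _) ?_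
      simp
    · intro u t i
      unfold CG.S
      refine dg_cond (ldS_le _ _ _) ?_
      rw [dg_z]; norm_num
    · intro g hg
      rw [hg]; norm_num

theorem cc1 : CC (ZMod 7) 1 := by
  refine ⟨cof 3 flThree, ?_⟩
  have h := ex_lo (D := datThree) (fun m hm => allR_iff.mp ckThree m hm) (by decide) 0
  refine (show Ex ((St (ZMod 7) 3).deg 0) (cub (St (ZMod 7) 3).x (cof 3 flThree))
    (fun g => g.1 < ((1 : ℕ) : ℤ)) from h).mono ?_
  intro g hg
  norm_num at hg ⊢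
  exact hg

/-- the form as a sum -/
def csum {n : ℕ} {A : Type*} [Ring A] [Algebra (ZMod 7) A] (x : Fin n → A) : FL → A
  | [] => 0
  | t :: fl => (t.2.2.2 : ZMod 7) • (ex0 x t.1 * ex0 x t.2.1 * ex0 x t.2.2.1) + csum x fl

theorem cub_cof {n : ℕ} {A : Type*} [Ring A] [Algebra (ZMod 7) A] (x : Fin n → A) (fl : FL) :
    cub x (cof n fl) = csum x fl := by
  induction fl with
  | nil => simp [cub, cof, csum]
  | cons t fl ih => rw [cof, cub_add, cub_mono, ih]; rfl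

/-- the variables of the form in seven variables -/
def fSeven : (Fin (4 * 1 - 1) ⊕ Fin (4 * 1 - 1)) ⊕ Unit → Fin 7
  | .inl (.inl i) => ⟨i.val, by have := i.isLt; omega⟩
  | .inl (.inr j) => ⟨3 + j.val, by have := j.isLt; omega⟩
  | .inr _ => 6

theorem fSeven_bij : Function.Bijective fSeven := by decide

noncomputable def eSeven : (Fin (4 * 1 - 1) ⊕ Fin (4 * 1 - 1)) ⊕ Unit ≃ Fin 7 :=
  Equiv.ofBijective fSeven fSeven_bij

theorem gg11 : GG (ZMod 7) 1 1 := by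
  refine ⟨cof 3 flThree, cof 3 flThree, fun i j => if i = j then 1 else 0, ?_⟩
  rw [gg_to_std eSeven]
  have h := ex_lo (D := datSeven) (fun m hm => allR_iff.mp ckSeven m hm) (by decide)
    (fun i => wGT 1 1 (eSeven.symm i))
  have e1 : cub (St (ZMod 7) 7).x (fun i j k => glueT (cof 3 flThree) (cof 3 flThree)
      (fun i j : Fin 3 => if i = j then (1 : ZMod 7) else 0) (eSeven.symm i) (eSeven.symm j)
      (eSeven.symm k)) = datSeven.E := by
    have e2 : datSeven.E = csum (St (ZMod 7) 7).x flSeven := cub_cof _ _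
    rw [e2, cub_equiv eSeven, cub_glueT, cub_cof, cub_cof]
    unfold bil
    have a0 : eSeven (.inl (.inl (0 : Fin 3))) = 0 := rfl
    have a1 : eSeven (.inl (.inl (1 : Fin 3))) = 1 := rfl
    have a2 : eSeven (.inl (.inl (2 : Fin 3))) = 2 := rfl
    have b0 : eSeven (.inl (.inr (0 : Fin 3))) = 3 := rfl
    have b1 : eSeven (.inl (.inr (1 : Fin 3))) = 4 := rfl
    have b2 : eSeven (.inl (.inr (2 : Fin 3))) = 5 := rfl
    have c0 : eSeven (.inr ()) = 6 := rfl
    have l1 : csum (fun i : Fin 3 => (St (ZMod 7) 7).x (eSeven (.inl (.inl i)))) flThree =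
        (1 : ZMod 7) • ((St (ZMod 7) 7).x 0 * (St (ZMod 7) 7).x 1 * (St (ZMod 7) 7).x 2) + 0 := rfl
    have l2 : csum (fun i : Fin 3 => (St (ZMod 7) 7).x (eSeven (.inl (.inr i)))) flThree =
        (1 : ZMod 7) • ((St (ZMod 7) 7).x 3 * (St (ZMod 7) 7).x 4 * (St (ZMod 7) 7).x 5) + 0 := rfl
    have l3 : csum (St (ZMod 7) 7).x flSeven =
        (1 : ZMod 7) • ((St (ZMod 7) 7).x 0 * (St (ZMod 7) 7).x 1 * (St (ZMod 7) 7).x 2) +
        ((1 : ZMod 7) • ((St (ZMod 7) 7).x 3 * (St (ZMod 7) 7).x 4 * (St (ZMod 7) 7).x 5) +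
        ((1 : ZMod 7) • ((St (ZMod 7) 7).x 6 * (St (ZMod 7) 7).x 0 * (St (ZMod 7) 7).x 3) +
        ((1 : ZMod 7) • ((St (ZMod 7) 7).x 6 * (St (ZMod 7) 7).x 1 * (St (ZMod 7) 7).x 4) +
        ((1 : ZMod 7) • ((St (ZMod 7) 7).x 6 * (St (ZMod 7) 7).x 2 * (St (ZMod 7) 7).x 5) +
          0)))) := rfl
    rw [l1, l2, l3]
    have l4 : ∑ i : Fin (4 * 1 - 1), ∑ j : Fin (4 * 1 - 1), (if i = j then (1 : ZMod 7) else 0) •
        ((St (ZMod 7) 7).x (eSeven (.inl (.inl i))) * (St (ZMod 7) 7).x (eSeven (.inl (.inr j)))) =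
        (St (ZMod 7) 7).x 0 * (St (ZMod 7) 7).x 3 + (St (ZMod 7) 7).x 1 * (St (ZMod 7) 7).x 4 +
        (St (ZMod 7) 7).x 2 * (St (ZMod 7) 7).x 5 := by
      show ∑ i : Fin 3, ∑ j : Fin 3, (if i = j then (1 : ZMod 7) else 0) •
        ((St (ZMod 7) 7).x (eSeven (.inl (.inl i))) * (St (ZMod 7) 7).x (eSeven (.inl (.inr j)))) = _
      simp only [ite_smul, one_smul, zero_smul, Finset.sum_ite_eq, Finset.mem_univ, if_true]
      rw [Fin.sum_univ_three, a0, a1, a2, b0, b1, b2]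
    rw [l4, c0]
    simp only [one_smul, add_zero, Matrix.mul_add, ← Matrix.mul_assoc, add_assoc]
  refine (show Ex ((St (ZMod 7) 7).deg (fun i => wGT 1 1 (eSeven.symm i)))
    (cub (St (ZMod 7) 7).x (fun i j k => glueT (cof 3 flThree) (cof 3 flThree)
      (fun i j : Fin 3 => if i = j then (1 : ZMod 7) else 0) (eSeven.symm i) (eSeven.symm j)
      (eSeven.symm k))) (fun g => g.1 < ((3 : ℕ) : ℤ)) from by rw [e1]; exact h).mono ?_
  intro g hg
  rw [hg]
  norm_num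

/-- the minimal forms exist for all `q` in characteristic zero -/
theorem cc_all (K : Type*) [Field K] [CharZero K] : ∀ q, 1 ≤ q → CC K q :=
  all_cc (by norm_num) (cc_lift 7 K cc1) (cc_lift 7 K cc3) (gg_lift 7 K gg11) (gg_lift 7 K gg23)

end Pool.Agent.GC
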