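import Pool.Agent.GC.GOne

/-! Adding one variable with a bilinear form. -/

set_option linter.unusedSectionVars false
set_option linter.unusedSimpArgs false
set_option linter.unusedVariables false

namespace Pool.Agent.GC

open Matrix

/-- the form `σ + u ω` -/
def glueW {K ι : Type*} [Zero K] (σ : ι → ι → ι → K) (ω : ι → ι → K) :
    ι ⊕ Unit → ι ⊕ Unit → ι ⊕ Unit → K
  | .inl a, .inl b, .inl c => σ a b c
  | .inr _, .inl a, .inl b => ω a b
  | _, _, _ => 0

theorem cub_glueW {K A ι : Type*} [Field K] [Ring A] [Algebra K A] [Fintype ι]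
    (σ : ι → ι → ι → K) (ω : ι → ι → K) (x : ι ⊕ Unit → A) :
    cub x (glueW σ ω) = cub (fun i => x (.inl i)) σ +
      x (.inr ()) * bil (fun i => x (.inl i)) (fun i => x (.inl i)) ω := by
  unfold cub bil
  simp [Fintype.sum_sum_type, glueW, Finset.mul_sum, mul_assoc]

section

variable {K : Type*} [Field K]

theorem cc_of_om {q : ℕ} {V : Type} [DecidableEq V] [Fintype V] {I : Type} [Fintype I]
    [DecidableEq I] (F : Fock K V I) (hV : Fintype.card V + 2 = 4 * q)
    (σ : V → V → V → K) (ω : V → V → K)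
    (hE : Ex (F.deg 0) (cub F.x σ) (fun g => g.1 < 2 * q - 2))
    (hW : HInj (F.deg 0) (cub F.x σ) (bil F.x F.x ω) (fun g => g.1 = 2 * q - 2)) :
    CC K q := by
  have hd : Hm (F.deg 0) (3, 0) (cub F.x σ) := hm_cub (fun i => F.x_hm 0 i) σ
    (fun i j k => by simp only [Pi.zero_apply]; decide)
  have hT : Hm (F.deg 0) (2, 0) (bil F.x F.x ω) := by
    have := hm_bil (a := 0) (b := 0) (fun i => F.x_hm 0 i) (fun i => F.x_hm 0 i) ω
    simpa using this
  have hdT : cub F.x σ * bil F.x F.x ω = bil F.x F.x ω * cub F.x σ :=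
    cub_bil_comm (fun i j => F.anti j i) (fun i j => F.anti j i) _ _
  have hH : HInj (F.deg 0) (cub F.x σ) (bil F.x F.x ω) (fun g => g.1 < 2 * q - 1) := by
    apply hinj_of_forall hd hT
    intro g hg
    by_cases h1 : g.1 < 2 * q - 2
    · exact (hE.mono (fun x hx => by rw [hx]; exact h1)).hinj _
    · exact hW.mono (fun x hx => by rw [hx]; omega)
  have key := cone_ex (δ := (3, 0)) (τ := (2, 0)) (δu := (1, 0)) (by decide) hd hT
    (by ext <;> simp) hdT hH (hE.mono (fun x hx => by
      simp only [Prod.fst_add] at hx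
      omega))
  have e : V ⊕ Unit ≃ Fin (4 * q - 1) :=
    Fintype.equivFinOfCardEq (by rw [Fintype.card_sum, Fintype.card_unit]; omega)
  obtain ⟨Φ, Ψ, h3, h4, h5, h6, h7⟩ := (((F.prod (Fock.one K)).relabel e).transfer
    (St K (4 * q - 1)))
  refine ⟨fun i j k => glueW σ ω (e.symm i) (e.symm j) (e.symm k), ?_⟩
  refine ex_transfer (degI := (((F.prod (Fock.one K)).relabel e).deg 0)) h3 h4 ?_
    (d := cone (F.deg 0) (cub F.x σ) (bil F.x F.x ω)) ?_ ?_
  · intro a b hab
    unfold Fock.deg
    rw [h7 a b hab]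
  · have h8 : ∀ k, Φ * (F.prod (Fock.one K)).x k = (St K (4 * q - 1)).x (e k) * Φ := by
      intro k
      have := h5 (e k)
      simpa [Fock.relabel] using this
    have h9 : cone (F.deg 0) (cub F.x σ) (bil F.x F.x ω) =
        cub (fun i => (F.prod (Fock.one K)).x (.inl i)) σ +
        (F.prod (Fock.one K)).x (.inr ()) *
          bil (fun i => (F.prod (Fock.one K)).x (.inl i))
            (fun i => (F.prod (Fock.one K)).x (.inl i)) ω := by
      have e1 : (fun i => (F.prod (Fock.one K)).x (.inl i)) =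
          fun i => kr (F.x i) (1 : Matrix Bool Bool K) := rfl
      have e2 : (F.prod (Fock.one K)).x (.inr ()) = kr (sg K (F.deg 0)) (nn K) := rfl
      rw [e1, e2, cub_kr_one F.x, bil_kr_one, kr_mul, mul_one]
      rfl
    rw [cub_equiv e, ← cub_conj h8, cub_glueW, h9]
  · refine ex_deg ?_ key
    intro a ha
    have e1 : ((((F.prod (Fock.one K)).relabel e).deg 0) a).1 =
        (dg2 (F.deg 0) (dU (1, 0)) a).1 := by
      rw [Fock.relabel_deg, prod_deg, dU_one]
      obtain ⟨a, b⟩ := a
      cases b <;> rfl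
    rw [← e1]
    exact ha

end

end Pool.Agent.GC
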