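import Pool.Agent.GC.Kun

/-! Cones: adjoining one variable `u` and the term `u T`; the assembly with two extra
variables `s`, `s'` and the term `u s s'`. -/

set_option linter.unusedSectionVars false
set_option linter.unusedSimpArgs false
set_option linter.unusedVariables false

namespace Pool.Agent.GC

open Matrix

section

variable {K : Type*} [Field K] {I : Type*} [Fintype I] [DecidableEq I] {deg : I → Gr}

/-- multiplication by a single variable on `Bool` -/
def nn (K : Type*) [Field K] : Matrix Bool Bool K :=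
  Matrix.of fun a b => if a = true ∧ b = false then 1 else 0

/-- the degree on `Bool` -/
def dU (δ : Gr) : Bool → Gr := fun b => if b then δ else 0

/-- the operator `d + u T` -/
def cone (deg : I → Gr) (d T : Matrix I I K) : Matrix (I × Bool) (I × Bool) K :=
  kr d 1 + kr (sg K deg * T) (nn K)

theorem kr_one_bool (M : Matrix I I K) (v : I × Bool → K) (a : I) (i : Bool) :
    (kr M (1 : Matrix Bool Bool K) *ᵥ v) (a, i) = (M *ᵥ fun b => v (b, i)) a := by
  simp only [Matrix.mulVec, dotProduct, Fintype.sum_prod_type, Fintype.sum_bool, kr_apply]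
  cases i <;> simp

theorem kr_nn_true (M : Matrix I I K) (v : I × Bool → K) (a : I) :
    (kr M (nn K) *ᵥ v) (a, true) = (M *ᵥ fun b => v (b, false)) a := by
  simp only [Matrix.mulVec, dotProduct, Fintype.sum_prod_type, Fintype.sum_bool, kr_apply, nn,
    Matrix.of_apply]
  simp

theorem kr_nn_false (M : Matrix I I K) (v : I × Bool → K) (a : I) :
    (kr M (nn K) *ᵥ v) (a, false) = 0 := by
  simp only [Matrix.mulVec, dotProduct, Fintype.sum_prod_type, Fintype.sum_bool, kr_apply, nn,
    Matrix.of_apply]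
  simp

theorem cone_false (d T : Matrix I I K) (v : I × Bool → K) :
    (fun a => (cone deg d T *ᵥ v) (a, false)) = d *ᵥ fun b => v (b, false) := by
  funext a
  rw [cone, Matrix.add_mulVec, Pi.add_apply, kr_one_bool, kr_nn_false, add_zero]

theorem cone_true (d T : Matrix I I K) (v : I × Bool → K) :
    (fun a => (cone deg d T *ᵥ v) (a, true)) =
      d *ᵥ (fun b => v (b, true)) + (sg K deg * T) *ᵥ fun b => v (b, false) := by
  funext a
  rw [cone, Matrix.add_mulVec, Pi.add_apply, kr_one_bool, kr_nn_true, Pi.add_apply]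

theorem bool_ext {v w : I × Bool → K} (h0 : (fun a => v (a, false)) = fun a => w (a, false))
    (h1 : (fun a => v (a, true)) = fun a => w (a, true)) : v = w := by
  funext ⟨a, i⟩
  cases i
  · exact congrFun h0 a
  · exact congrFun h1 a

theorem sg_mulVec_sg (v : I → K) : sg K deg *ᵥ (sg K deg *ᵥ v) = v := by
  rw [Matrix.mulVec_mulVec, sg_mul_sg, Matrix.one_mulVec]

theorem hm_nn (δu : Gr) : Hm (dU δu) δu (nn K) := by
  intro a b h
  unfold nn at h
  cases a <;> cases b <;> simp [dU] at h ⊢

theorem hm_cone {δ τ δu : Gr} {d T : Matrix I I K} (hd : Hm deg δ d) (hT : Hm deg τ T)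
    (hδu : δ = τ + δu) : Hm (dg2 deg (dU δu)) δ (cone deg d T) := by
  refine (hd.tl).add ?_
  exact (((Hm.sg.mul hT).kr (hm_nn δu))).congr (by rw [hδu]; abel)

theorem cone_ex1 {δ τ δu : Gr} (hδ : Odd δ.1) {d T : Matrix I I K} (hd : Hm deg δ d)
    (hT : Hm deg τ T) (hδu : δ = τ + δu)
    (hdT : d * T = T * d) {g : Gr} (hH : HInj deg d T (fun x => x = g))
    (hE : Ex deg d (fun x => x = g - δu)) :
    Ex (dg2 deg (dU δu)) (cone deg d T) (fun x => x = g) := by
  intro v hv hc
  have c0 := cone_false (deg := deg) d T v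
  have c1 := cone_true (deg := deg) d T v
  rw [hc] at c0 c1
  set v0 : I → K := fun b => v (b, false) with hv0
  set v1 : I → K := fun b => v (b, true) with hv1
  have z : (fun a : I => (0 : I × Bool → K) (a, false)) = 0 := rfl
  have z' : (fun a : I => (0 : I × Bool → K) (a, true)) = 0 := rfl
  rw [z] at c0
  rw [z'] at c1
  have hsd : d * sg K deg = -(sg K deg * d) := hd.odd hδ
  have hT0 : T *ᵥ v0 = d *ᵥ (sg K deg *ᵥ v1) := by
    have h1 : sg K deg *ᵥ (sg K deg *ᵥ (T *ᵥ v0)) = sg K deg *ᵥ (-(d *ᵥ v1)) := by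
      congr 1
      rw [← Matrix.mulVec_mulVec] at c1
      exact eq_neg_of_add_eq_zero_right c1.symm
    rw [sg_mulVec_sg] at h1
    rw [h1, Matrix.mulVec_mulVec, hsd, Matrix.neg_mulVec, Matrix.mulVec_neg, Matrix.mulVec_mulVec]
  have hs0 : Sup deg (fun x => x = g) v0 := by
    intro a ha
    have := hv (a, false) ha
    simpa [dg2, dU] using this
  have hs1 : Sup deg (fun x => x = g - δu) v1 := by
    intro a ha
    have := hv (a, true) ha
    simp only [dg2, dU, if_true] at this
    exact eq_sub_of_add_eq this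
  obtain ⟨w, hw⟩ := hH v0 hs0 c0.symm ⟨_, hT0.symm⟩
  set w0 := vcomp deg (g - δ) w with hw0'
  have hw0 : d *ᵥ w0 = v0 := by
    rw [hw0', mulVec_vcomp hd, hw, sub_add_cancel]
    funext a
    unfold vcomp
    by_cases ha : deg a = g
    · rw [if_pos ha]
    · rw [if_neg ha]
      by_contra h
      exact ha (hs0 a (fun h' => h h'.symm))
  have hdv1 : d *ᵥ (v1 - (sg K deg * T) *ᵥ w0) = 0 := by
    rw [Matrix.mulVec_sub, Matrix.mulVec_mulVec, ← mul_assoc, hsd, Matrix.neg_mul, mul_assoc, hdT,
      Matrix.neg_mulVec, sub_neg_eq_add, ← mul_assoc, ← Matrix.mulVec_mulVec w0 _ d, hw0]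
    exact c1.symm
  have hs2 : Sup deg (fun x => x = g - δu) (v1 - (sg K deg * T) *ᵥ w0) := by
    have h3 : Sup deg (fun x => x = g - δu) ((sg K deg * T) *ᵥ w0) := by
      refine (sup_vcomp (g - δ) w).mulVec ((Hm.sg.mul hT)) ?_
      intro x hx
      rw [hx, hδu]; abel
    intro a ha
    by_cases h4 : v1 a = 0
    · apply h3 a
      intro h5
      apply ha
      rw [Pi.sub_apply, h4, h5, sub_zero]
    · exact hs1 a h4
  obtain ⟨w1, hw1⟩ := hE _ hs2 hdv1
  refine ⟨fun p => if p.2 then w1 p.1 else w0 p.1, ?_⟩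
  apply bool_ext
  · rw [cone_false]
    simpa using hw0
  · rw [cone_true]
    simp only [if_true, Bool.false_eq_true, if_false]
    have h6 : (fun b => w1 b) = w1 := rfl
    have h7 : (fun b => w0 b) = w0 := rfl
    rw [h6, h7, hw1]
    funext a
    simp [hv1]

theorem cone_ex {δ τ δu : Gr} (hδ : Odd δ.1) {d T : Matrix I I K} (hd : Hm deg δ d)
    (hT : Hm deg τ T) (hδu : δ = τ + δu)
    (hdT : d * T = T * d) {P : Gr → Prop} (hH : HInj deg d T P)
    (hE : Ex deg d (fun g => P (g + δu))) : Ex (dg2 deg (dU δu)) (cone deg d T) P := by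
  apply ex_of_forall (hm_cone hd hT hδu)
  intro g hg
  apply cone_ex1 hδ hd hT hδu hdT
  · exact hH.mono (fun x hx => hx ▸ hg)
  · exact hE.mono (fun x hx => by rw [hx, sub_add_cancel]; exact hg)

/-- converse: exactness of the cone gives injectivity on the homology -/
theorem hinj_of_cone {δ τ δu : Gr} (hδ : Odd δ.1) {d T : Matrix I I K} (hd : Hm deg δ d)
    (hT : Hm deg τ T) (hδu : δ = τ + δu) {g : Gr}
    (hE : Ex (dg2 deg (dU δu)) (cone deg d T) (fun x => x = g)) :
    HInj deg d T (fun x => x = g) := by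
  intro v hv hdv hTv
  obtain ⟨w, hw⟩ := hTv
  have hsd : d * sg K deg = -(sg K deg * d) := hd.odd hδ
  set w' := vcomp deg (g + τ - δ) w with hw'
  have h1 : d *ᵥ w' = T *ᵥ v := by
    rw [hw', mulVec_vcomp hd, hw, sub_add_cancel]
    funext a
    unfold vcomp
    by_cases ha : deg a = g + τ
    · rw [if_pos ha]
    · rw [if_neg ha]
      by_contra h
      refine ha ?_
      have := hv.mulVec (P' := fun x => x = g + τ) hT (by intro x hx; rw [hx])
      exact this a (fun h' => h h'.symm)
  obtain ⟨z, hz⟩ := hE (fun p => if p.2 then (sg K deg *ᵥ w') p.1 else v p.1) (by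
    rintro ⟨a, i⟩ ha
    cases i
    · simp only [Bool.false_eq_true, if_false] at ha
      have := hv a ha
      simpa [dg2, dU] using this
    · simp only [if_true] at ha
      have h3 : Sup deg (fun x => x = g + τ - δ) (sg K deg *ᵥ w') :=
        (sup_vcomp _ w).mulVec Hm.sg (by intro x hx; rw [hx, add_zero])
      have := h3 a ha
      simp only [dg2, dU, if_true]
      rw [this, hδu]; abel) (by
    apply bool_ext
    · rw [cone_false]
      simp only [Bool.false_eq_true, if_false]
      exact hdv
    · rw [cone_true]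
      simp only [if_true, Bool.false_eq_true, if_false]
      have h6 : (fun b => (sg K deg *ᵥ w') b) = sg K deg *ᵥ w' := rfl
      have h7 : (fun b => v b) = v := rfl
      rw [h6, h7, Matrix.mulVec_mulVec, hsd, Matrix.neg_mulVec, ← Matrix.mulVec_mulVec,
        ← Matrix.mulVec_mulVec, h1]
      funext a
      simp)
  refine ⟨fun b => z (b, false), ?_⟩
  rw [← cone_false (deg := deg) d T z, hz]
  simp

end

section Asm

variable {K : Type*} [Field K] {I : Type*} [Fintype I] [DecidableEq I] {deg : I → Gr}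

/-- The operator `T + s s'` on `I × Bool × Bool`. -/
def TA (T : Matrix I I K) : Matrix ((I × Bool) × Bool) ((I × Bool) × Bool) K :=
  kr (kr T 1) 1 + kr (kr 1 (nn K)) (nn K)

/-- the differential on `I × Bool × Bool` -/
def dA (d : Matrix I I K) : Matrix ((I × Bool) × Bool) ((I × Bool) × Bool) K := kr (kr d 1) 1

/-- the degrees on `I × Bool × Bool` -/
def degA (deg : I → Gr) : (I × Bool) × Bool → Gr := dg2 (dg2 deg (dU (1, 1))) (dU (1, 0))

theorem dA_apply (d : Matrix I I K) (v : (I × Bool) × Bool → K) (a : I) (i j : Bool) :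
    (dA d *ᵥ v) ((a, i), j) = (d *ᵥ fun b => v ((b, i), j)) a := by
  unfold dA
  rw [kr_one_bool, kr_one_bool]

theorem TA_ff (T : Matrix I I K) (v : (I × Bool) × Bool → K) (a : I) :
    (TA T *ᵥ v) ((a, false), false) = (T *ᵥ fun b => v ((b, false), false)) a := by
  unfold TA
  rw [Matrix.add_mulVec, Pi.add_apply, kr_one_bool, kr_one_bool, kr_nn_false, add_zero]

theorem TA_tf (T : Matrix I I K) (v : (I × Bool) × Bool → K) (a : I) :
    (TA T *ᵥ v) ((a, true), false) = (T *ᵥ fun b => v ((b, true), false)) a := by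
  unfold TA
  rw [Matrix.add_mulVec, Pi.add_apply, kr_one_bool, kr_one_bool, kr_nn_false, add_zero]

theorem TA_ft (T : Matrix I I K) (v : (I × Bool) × Bool → K) (a : I) :
    (TA T *ᵥ v) ((a, false), true) = (T *ᵥ fun b => v ((b, false), true)) a := by
  unfold TA
  rw [Matrix.add_mulVec, Pi.add_apply, kr_one_bool, kr_one_bool, kr_nn_true, kr_nn_false, add_zero]

theorem TA_tt (T : Matrix I I K) (v : (I × Bool) × Bool → K) (a : I) :
    (TA T *ᵥ v) ((a, true), true) =
      (T *ᵥ fun b => v ((b, true), true)) a + v ((a, false), false) := by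
  unfold TA
  rw [Matrix.add_mulVec, Pi.add_apply, kr_one_bool, kr_one_bool, kr_nn_true, kr_nn_true,
    Matrix.one_mulVec]

theorem asm_hinj {d T : Matrix I I K} (hd : Hm deg (3, 0) d) (hdT : d * T = T * d)
    {l : ℤ} {c : ZMod 3}
    (hsq : HInj deg d (T * T) (fun x => x = (l, c)))
    (h10 : HInj deg d T (fun x => x = (l + 1, c)))
    (h01 : HInj deg d T (fun x => x = (l + 1, c + 1))) :
    HInj (degA deg) (dA d) (TA T) (fun x => x = (l + 2, c + 1)) := by
  rintro v hv hdv ⟨w, hw⟩
  have hd' : ∀ i j, d *ᵥ (fun b => v ((b, i), j)) = 0 := by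
    intro i j
    funext a
    rw [← dA_apply, hdv]; rfl
  have s00 : Sup deg (fun x => x = (l + 2, c + 1)) (fun b => v ((b, false), false)) := by
    intro a ha
    have := hv _ ha
    simpa [degA, dg2, dU] using this
  have s10 : Sup deg (fun x => x = (l + 1, c)) (fun b => v ((b, true), false)) := by
    intro a ha
    have := hv _ ha
    simp only [degA, dg2, dU, if_true, Bool.false_eq_true, if_false, add_zero] at this
    have h2 : deg a = (l + 2, c + 1) - (1, 1) := eq_sub_of_add_eq this
    rw [h2]; ext <;> simp <;> ring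
  have s01 : Sup deg (fun x => x = (l + 1, c + 1)) (fun b => v ((b, false), true)) := by
    intro a ha
    have := hv _ ha
    simp only [degA, dg2, dU, if_true, Bool.false_eq_true, if_false, add_zero] at this
    have h2 : deg a = (l + 2, c + 1) - (1, 0) := eq_sub_of_add_eq this
    rw [h2]; ext <;> simp <;> ring
  have s11 : Sup deg (fun x => x = (l, c)) (fun b => v ((b, true), true)) := by
    intro a ha
    have := hv _ ha
    simp only [degA, dg2, dU, if_true] at this
    have h2 : deg a = (l + 2, c + 1) - (1, 0) - (1, 1) := eq_sub_of_add_eq (eq_sub_of_add_eq this)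
    rw [h2]; ext <;> simp <;> ring
  have w00 : T *ᵥ (fun b => v ((b, false), false)) = d *ᵥ fun b => w ((b, false), false) := by
    funext a
    rw [← TA_ff, ← hw, dA_apply]
  have w10 : T *ᵥ (fun b => v ((b, true), false)) = d *ᵥ fun b => w ((b, true), false) := by
    funext a
    rw [← TA_tf, ← hw, dA_apply]
  have w01 : T *ᵥ (fun b => v ((b, false), true)) = d *ᵥ fun b => w ((b, false), true) := by
    funext a
    rw [← TA_ft, ← hw, dA_apply]
  have w11 : T *ᵥ (fun b => v ((b, true), true)) + (fun b => v ((b, false), false)) =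
      d *ᵥ fun b => w ((b, true), true) := by
    funext a
    rw [Pi.add_apply, ← TA_tt, ← hw, dA_apply]
  obtain ⟨z10, hz10⟩ := h10 _ s10 (hd' _ _) ⟨_, w10.symm⟩
  obtain ⟨z01, hz01⟩ := h01 _ s01 (hd' _ _) ⟨_, w01.symm⟩
  have hTT : (T * T) *ᵥ (fun b => v ((b, true), true)) =
      d *ᵥ (T *ᵥ (fun b => w ((b, true), true)) - fun b => w ((b, false), false)) := by
    have h1 : T *ᵥ (fun b => v ((b, true), true)) =
        d *ᵥ (fun b => w ((b, true), true)) - (fun b => v ((b, false), false)) :=
      eq_sub_of_add_eq w11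
    rw [← Matrix.mulVec_mulVec, h1, Matrix.mulVec_sub, w00, Matrix.mulVec_sub,
      Matrix.mulVec_mulVec, Matrix.mulVec_mulVec, hdT]
  obtain ⟨z11, hz11⟩ := hsq _ s11 (hd' _ _) ⟨_, hTT.symm⟩
  have h00 : d *ᵥ ((fun b => w ((b, true), true)) - T *ᵥ z11) =
      fun b => v ((b, false), false) := by
    rw [Matrix.mulVec_sub, Matrix.mulVec_mulVec, hdT, ← Matrix.mulVec_mulVec, hz11, ← w11]
    abel
  refine ⟨fun p => if p.2 then (if p.1.2 then z11 p.1.1 else z01 p.1.1) else
    (if p.1.2 then z10 p.1.1 else ((fun b => w ((b, true), true)) - T *ᵥ z11) p.1.1), ?_⟩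
  funext ⟨⟨a, i⟩, j⟩
  rw [dA_apply]
  cases i <;> cases j
  · simp only [Bool.false_eq_true, if_false]
    exact congrFun h00 a
  · simpa using congrFun hz01 a
  · simpa using congrFun hz10 a
  · simpa using congrFun hz11 a

theorem asm_ex {d : Matrix I I K} (hd : Hm deg (3, 0) d) {l : ℤ} {c : ZMod 3}
    (hQ : Q deg d l c) : Ex (degA deg) (dA d) (fun x => x = (l + 1, c + 2)) := by
  intro v hv hdv
  have hd' : ∀ i j, d *ᵥ (fun b => v ((b, i), j)) = 0 := by
    intro i j
    funext a
    rw [← dA_apply, hdv]; rfl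
  have key : ∀ i j, ∃ z, d *ᵥ z = fun b => v ((b, i), j) := by
    intro i j
    apply hQ _ _ (hd' i j)
    intro a ha
    have h0 := hv _ ha
    cases i <;> cases j
    · simp only [degA, dg2, dU, Bool.false_eq_true, if_false, add_zero] at h0
      right; right
      rw [h0]; exact ⟨rfl, rfl⟩
    · simp only [degA, dg2, dU, if_true, Bool.false_eq_true, if_false, add_zero] at h0
      have h2 : deg a = (l + 1, c + 2) - (1, 0) := eq_sub_of_add_eq h0
      right; left
      rw [h2]
      refine ⟨by simp, ?_⟩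
      simp only [Prod.mk_sub_mk, sub_zero]
      intro h3
      have h4 : (2 : ZMod 3) = 0 := by
        have h5 := congrArg (fun x => x - c) h3
        simp at h5
        exact h5
      exact absurd h4 (by decide)
    · simp only [degA, dg2, dU, if_true, Bool.false_eq_true, if_false, add_zero] at h0
      have h2 : deg a = (l + 1, c + 2) - (1, 1) := eq_sub_of_add_eq h0
      right; left
      rw [h2]
      refine ⟨by simp, ?_⟩
      simp only [Prod.mk_sub_mk]
      intro h3
      have h4 : (2 : ZMod 3) - 1 = 0 := by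
        have := congrArg (fun x => x - c) h3
        ring_nf at this ⊢
        simpa using this
      exact absurd h4 (by decide)
    · simp only [degA, dg2, dU, if_true] at h0
      have h2 : deg a = (l + 1, c + 2) - (1, 0) - (1, 1) :=
        eq_sub_of_add_eq (eq_sub_of_add_eq h0)
      left
      rw [h2]
      simp
  choose z hz using key
  refine ⟨fun p => z p.1.2 p.2 p.1.1, ?_⟩
  funext ⟨⟨a, i⟩, j⟩
  rw [dA_apply]
  exact congrFun (hz i j) a

/-- the assembled complex with the variables `s`, `s'`, `u` -/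
theorem asm {d T : Matrix I I K} (hd : Hm deg (3, 0) d) (hT : Hm deg (2, 1) T)
    (hdT : d * T = T * d) {l : ℤ} {c : ZMod 3} (hQ : Q deg d l c)
    (hsq : HInj deg d (T * T) (fun x => x = (l, c)))
    (h10 : HInj deg d T (fun x => x = (l + 1, c)))
    (h01 : HInj deg d T (fun x => x = (l + 1, c + 1))) :
    Ex (dg2 (degA deg) (dU (1, -1))) (cone (degA deg) (dA d) (TA T))
      (fun x => x = (l + 2, c + 1)) := by
  have hdA : Hm (degA deg) (3, 0) (dA d) := (hd.tl).tl
  have hTA : Hm (degA deg) (2, 1) (TA T) := by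
    refine ((hT.tl).tl).add ?_
    exact ((Hm.one.kr (hm_nn (1, 1))).kr (hm_nn (1, 0))).congr (by ext <;> simp)
  refine cone_ex1 (δ := (3, 0)) (τ := (2, 1)) (by decide) hdA hTA (by ext <;> simp) ?_
    (asm_hinj hd hdT hsq h10 h01) ?_
  · unfold dA TA
    simp only [mul_add, add_mul, kr_mul, mul_one, one_mul, hdT]
  · have h := asm_ex hd hQ
    refine h.mono ?_
    intro x hx
    rw [hx]
    ext
    · simp; ring
    · simp; ring

end Asm

end Pool.Agent.GC
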