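import Pool.Agent.GC.Sdr

/-! Contraction data for the form in ten variables. -/

set_option linter.unusedSectionVars false
set_option linter.unusedSimpArgs false
set_option linter.unusedVariables false
set_option maxRecDepth 100000

namespace Pool.Agent.GC

/-- the monomials -/
def flE : FL := [(0, 1, 2, 1), (0, 3, 9, 1), (0, 4, 8, 6), (1, 4, 9, 1), (1, 5, 6, 6), (2, 3, 7, 6), (2, 5, 9, 1), (3, 7, 8, 6), (4, 6, 8, 1), (5, 6, 7, 6)]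

/-- homotopy table -/
def hET : Tr := (.n (.n (.n (.n (.l 0) (.n (.l 0) (.n (.l 0) (.n (.l 0) (.n (.l 0) (.n (.l 0) (.n (.l 0) (.l 0x138610e102d1)))))))) (.n (.n (.l 0) (.n (.l 0) (.n (.l 0) (.n (.l 0) (.n (.l 0) (.n (.l 0x11461066098108a60136) (.l 0x15210c8e051e))))))) (.n (.n (.l 0) (.n (.l 0) (.n (.l 0) (.n (.l 0) (.n (.l 0) (.l 0x13210a8e02ae)))))) (.n (.n (.l 0) (.n (.l 0) (.n (.l 0) (.n (.l 0) (.l 0x12a1))))) (.n (.n (.l 0) (.n (.l 0) (.n (.l 0) (.l 0xcc104760391034e02b6026900f6)))) (.n (.n (.l 0) (.n (.l 0) (.l 0xac10276))) (.n (.n (.l 0) (.l 0x10e102d1)) (.n (.l 0x3a102c9) (.l 0xec60676))))))))) (.n (.n (.n (.l 0) (.n (.l 0) (.n (.l 0) (.n (.l 0) (.n (.l 0) (.n (.l 0) (.l 0x1436130e122e10b10f010e210c610c2e08710691064e))))))) (.n (.n (.l 0) (.n (.l 0) (.n (.l 0) (.n (.l 0) (.n (.l 0) (.l 0x1856)))))) (.n (.n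 (.l 0) (.n (.l 0) (.n (.l 0) (.n (.l 0x118104c104890456009e) (.l 0x1291066602a9))))) (.n (.n (.l 0) (.n (.l 0) (.n (.l 0) (.l 0xd460919)))) (.n (.n (.l 0) (.n (.l 0) (.l 0x11510949))) (.n (.n (.l 0) (.l 0x74604b6046903c1038902a900ee)) (.n (.l 0x391034e00f6) (.l 0xf410cb10c6e)))))))) (.n (.n (.n (.l 0) (.n (.n (.l 0) (.n (.l 0) (.n (.l 0) (.l 0x1446140e1211101e0c16)))) (.n (.n (.l 0) (.n (.l 0) (.l 0x1826))) (.n (.l 0) (.n (.l 0x18460836) (.l 0x1521128e121e0e810e110c8e06a60631051e)))))) (.n (.n (.n (.l 0) (.n (.l 0) (.n (.l 0) (.l 0x18460c210836)))) (.n (.n (.l 0) (.n (.l 0x104608810031) (.l 0x188118111031))) (.n (.n (.l 0) (.l 0x1481120911261096104e0889070106210461042e0311)) (.n (.l 0x14460c810436) (.l 0x12290e26))))) (.n (.n (.n (.l 0) (.n (.l 0) (.l 0x10c61051089104a600b6))) (.n (.n (.l 0) (.l 0x1146110e0491044e02510059))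 (.n (.l 0) (.l 0x112e0c960c490a8e04b604690319)))) (.n (.n (.n (.l 0) (.l 0x10a6)) (.n (.l 0x114109860131) (.l 0x11310c5608990519047602b60269))) (.n (.n (.l 0x4a6) (.l 0x10b10c610871)) (.n (.l 0x118910e10d8606c6053604ce045e036602d2029e016900de) (.l 0x132e0e910e4e))))))) (.n (.n (.n (.n (.l 0) (.n (.l 0) (.n (.l 0) (.l 0x1811)))) (.n (.l 0) (.n (.l 0) (.n (.l 0x12460a810236) (.l 0x12360a2e))))) (.n (.n (.n (.l 0) (.n (.l 0) (.l 0x851))) (.n (.l 0) (.n (.l 0) (.l 0xc56)))) (.n (.n (.l 0) (.n (.l 0) (.l 0xa56))) (.n (.n (.l 0) (.l 0x10e606c1065602d60299)) (.n (.l 0x871) (.l 0xe51)))))) (.n (.n (.n (.n (.l 0) (.n (.l 0) (.l 0x866))) (.n (.n (.l 0) (.l 0x1096)) (.n (.l 0x10c604a600b6) (.l 0xc610871)))) (.n (.n (.n (.l 0) (.l 0x10c61089034103090266006e)) (.n (.l 0x8c60076) (.l 0xa61))) (.n (.n (.l 0x1185111610a2090e04c6048e045103210291024e01290099)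 (.l 0x66102ae)) (.n (.l 0x2b60269) (.l 0xe66))))) (.n (.n (.n (.n (.l 0) (.l 0xd6)) (.n (.l 0) (.l 0x8d10396034900f1))) (.n (.n (.l 0x191014e) (.l 0x4d1)) (.n (.l 0x36602d101b60169) (.l 0xcd6)))) (.n (.n (.n (.l 0xe6) (.l 0x2d1)) (.n (.l 0x8e603a102c9) (.l 0xad6))) (.n (.n (.l 0xf6) (.l 0x6d6)) (.n (.l 0x3b602d9) (.l 0)))))))))) (.n (.n (.n (.n (.l 0) (.n (.l 0) (.n (.l 0) (.n (.l 0) (.n (.l 0) (.n (.l 0x112110911049088e04660316) (.l 0x1509))))))) (.n (.n (.l 0) (.n (.l 0) (.n (.l 0) (.n (.l 0) (.n (.l 0) (.l 0x130910b60c66087606960649)))))) (.n (.n (.l 0) (.n (.l 0) (.n (.l 0) (.n (.l 0) (.l 0x128906a1))))) (.n (.n (.l 0) (.n (.l 0) (.n (.l 0) (.l 0x118904ce036602d1016900de)))) (.n (.n (.l 0) (.n (.l 0) (.l 0xb81087103a6033102ce0259))) (.n (.n (.l 0) (.l 0x78104ae)) (.n (.l 0x3c1038900ee) (.l 0xf8607310659))))))))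 (.n (.n (.n (.l 0) (.n (.n (.l 0) (.n (.l 0) (.n (.l 0) (.l 0x190614160c460c0e081e)))) (.n (.n (.l 0) (.n (.l 0) (.l 0x128612160a0e0229))) (.n (.n (.l 0x10860301002e) (.l 0x13011221102e)) (.n (.l 0x18810b01082e) (.l 0x14190e09)))))) (.n (.n (.n (.n (.l 0) (.n (.l 0) (.l 0x1026))) (.n (.l 0) (.n (.l 0x421) (.l 0x1421)))) (.n (.n (.l 0) (.n (.l 0) (.l 0x1221))) (.n (.l 0) (.n (.l 0x148111261096104e088907010461042e0311) (.l 0x142e0619))))) (.n (.n (.n (.l 0) (.n (.l 0) (.l 0x1121))) (.n (.l 0) (.n (.l 0x1145110d1066098108a605260491044e025101360059) (.l 0xc8e051e)))) (.n (.n (.l 0) (.n (.l 0x11861116090e0129) (.l 0xa8e02ae))) (.n (.n (.l 0x10960461038600a9) (.l 0x68e)) (.n (.l 0x52e0499) (.l 0xe89))))))) (.n (.n (.n (.n (.n (.n (.l 0) (.l 0x21)) (.n (.l 0) (.l 0x826))) (.l 0)) (.n (.n (.n (.l 0) (.l 0x226)) (.n (.l 0)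 (.l 0x1886181610360a21))) (.n (.n (.l 0) (.l 0x120e)) (.n (.l 0x1281022e) (.l 0x122e))))) (.n (.n (.n (.n (.l 0) (.l 0x126)) (.n (.l 0) (.l 0x10c110560921089604a100b1))) (.n (.n (.l 0) (.l 0x110e)) (.n (.l 0x1116090e) (.l 0x112e0a8e02ae)))) (.n (.n (.n (.l 0) (.l 0x1186111610a1090e03210129)) (.n (.l 0) (.l 0x11310c560a910a4e089905190476))) (.n (.n (.l 0x10890309) (.l 0x10b10c6108710691064e)) (.n (.l 0x32e) (.l 0x132e)))))) (.n (.n (.n (.n (.n (.l 0) (.l 0xa6)) (.n (.l 0x66) (.l 0x1066))) (.n (.l 0) (.n (.l 0x10960461) (.l 0x118e10e60d810ca606c1053104c90459036102d50299016e00d9)))) (.n (.n (.n (.l 0) (.l 0x2a1)) (.n (.l 0x10c6108903410309006e) (.l 0xaa6))) (.n (.n (.l 0x289) (.l 0x6a6)) (.n (.l 0x2ae) (.l 0xea1))))) (.n (.n (.n (.n (.l 0) (.l 0x1a1)) (.n (.l 0x16100d6) (.l 0x8c903c6038e015900e9))) (.n (.n (.l 0x189)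 (.l 0x4c9036102d6016e00d9)) (.n (.l 0x1ae) (.l 0xcce0559)))) (.n (.n (.n (.l 0) (.l 0x2c9)) (.n (.l 0x36602d1) (.l 0xace))) (.n (.n (.l 0x3c100ee) (.l 0x6ce)) (.n (.l 0x3ae) (.l 0))))))))) (.n (.n (.n (.n (.l 0) (.n (.l 0) (.n (.n (.n (.l 0) (.l 0x1009)) (.n (.l 0x10110809) (.l 0x1809))) (.n (.n (.l 0) (.l 0x1409)) (.n (.l 0x19060c46081e) (.l 0x181e0c36)))))) (.n (.n (.n (.n (.n (.l 0) (.l 0xe)) (.n (.l 0) (.l 0x1016))) (.n (.n (.l 0) (.l 0x409)) (.n (.l 0) (.l 0x1411)))) (.n (.n (.n (.l 0) (.l 0x209)) (.n (.l 0) (.l 0x1211))) (.n (.n (.l 0) (.l 0x130612261029060e)) (.n (.l 0x1506041e) (.l 0x141e))))) (.n (.n (.n (.n (.l 0) (.l 0x109)) (.n (.l 0) (.l 0x1111))) (.n (.n (.l 0) (.l 0x112110911049088e050e04660316)) (.n (.l 0) (.l 0xd09)))) (.n (.n (.n (.l 0x89) (.l 0x1089)) (.n (.l 0x10490316) (.l 0xb090329))) (.n (.n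 (.l 0x489) (.l 0x709)) (.n (.l 0x51e) (.l 0xf0e))))))) (.n (.n (.n (.n (.n (.n (.l 0) (.l 0x11)) (.n (.l 0) (.l 0x816))) (.n (.n (.l 0) (.l 0x416)) (.n (.l 0x11010446001e) (.l 0x1446140e1211101e)))) (.n (.n (.n (.l 0) (.l 0x216)) (.n (.l 0) (.l 0x182612460a810a110236))) (.n (.n (.l 0) (.l 0x15060611041e)) (.n (.l 0x13060641021e) (.l 0x1521128e121e0e810c8e06a60631051e))))) (.n (.n (.n (.n (.l 0) (.l 0x116)) (.n (.l 0) (.l 0x911))) (.n (.n (.l 0) (.l 0x511)) (.n (.l 0x104905410316011e) (.l 0xd16)))) (.n (.n (.n (.l 0x12600960049) (.l 0x1049)) (.n (.l 0x10c6105209260891084904a600b6) (.l 0xb160871))) (.n (.n (.l 0x114602510059) (.l 0x716051e)) (.n (.l 0x4b1046e031e02ae) (.l 0xf11)))))) (.n (.n (.n (.n (.n (.l 0) (.l 0x96)) (.n (.l 0x56) (.l 0x1056))) (.n (.n (.l 0) (.l 0x1141110904490256005e)) (.n (.l 0x118104c10489009e)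 (.l 0x11290c4e0a8904b1046e031e)))) (.n (.n (.n (.l 0) (.l 0x1181111110a6090903260249012e)) (.n (.l 0x251) (.l 0x11360c510a96089e051e0471))) (.n (.n (.l 0) (.l 0x10b60c6608760696)) (.n (.l 0x10e106c602d1029e) (.l 0x13290e49))))) (.n (.n (.n (.n (.l 0) (.l 0x149)) (.n (.l 0x151) (.l 0x94e))) (.n (.n (.l 0) (.l 0x54e03c6038e00e9)) (.n (.l 0x5560396034900f1) (.l 0xd49)))) (.n (.n (.n (.l 0x1a100c9) (.l 0x34e)) (.n (.l 0x15e) (.l 0xb49))) (.n (.n (.l 0x36602d1016900de) (.l 0x749)) (.n (.l 0x559) (.l 0)))))))) (.n (.n (.n (.n (.n (.n (.n (.l 1) (.l 0x1001)) (.n (.l 0x801) (.l 0x1801))) (.n (.n (.l 0x401) (.l 0x1401)) (.n (.l 0xc01) (.l 0x1c01)))) (.n (.n (.n (.l 0x201) (.l 0x1201)) (.n (.l 0xa01) (.l 0x1a01))) (.n (.n (.l 0x601) (.l 0x1601)) (.n (.l 0xe01) (.l 0x1e01))))) (.n (.n (.n (.n (.l 0x101) (.l 0x1101)) (.n (.l 0x901)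 (.l 0x1901))) (.n (.n (.l 0x501) (.l 0x1501)) (.n (.l 0xd01) (.l 0xc19)))) (.n (.n (.n (.l 0x301) (.l 0x1301)) (.n (.l 0xb01) (.l 0x132612960e460a890a190661))) (.n (.n (.l 0x11261096104e0889070104610311) (.l 0x619)) (.n (.l 0x143112290e260c29) (.l 0xe1e)))))) (.n (.n (.n (.n (.n (.l 0x81) (.l 0x1081)) (.n (.l 0x881) (.l 0x1881))) (.n (.n (.l 0x481) (.l 0x1481)) (.n (.l 0xc81) (.l 0x143112290e26)))) (.n (.n (.n (.l 0x281) (.l 0x1281)) (.n (.l 0xa81) (.l 0xa2e))) (.n (.n (.l 0x681) (.l 0x62e)) (.n (.l 0x1521128e0e810c8e06a6051e) (.l 0xe29))))) (.n (.n (.n (.n (.l 0x181) (.l 0x1181)) (.n (.l 0x981) (.l 0x89e051e047102b1026e))) (.n (.n (.l 0x581) (.l 0x49e)) (.n (.l 0x118e0d8104c9036102d6016e00d9) (.l 0xc99)))) (.n (.n (.n (.l 0x381) (.l 0)) (.n (.l 0x8760336025e) (.l 0xa990676))) (.n (.n (.l 0x4a9) (.l 0x699)) (.n (.l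 0x7310659) (.l 0))))))) (.n (.n (.n (.n (.n (.n (.l 0x41) (.l 0x1041)) (.n (.l 0x841) (.l 0x1841))) (.n (.n (.l 0x441) (.l 0x1441)) (.n (.l 0xc41) (.l 0xc31)))) (.n (.n (.n (.l 0x241) (.l 0x1241)) (.n (.l 0xa41) (.l 0xa31))) (.n (.n (.l 0x641) (.l 0x1521128e0e810c8e06a60631051e)) (.n (.l 0x132112910e410a8e0666) (.l 0xe36))))) (.n (.n (.n (.n (.l 0x141) (.l 0x1141)) (.n (.l 0x941) (.l 0x85e04b1046e031e02ae))) (.n (.n (.l 0x541) (.l 0x10e106c6045e02d1029e)) (.n (.l 0x919) (.l 0xd36)))) (.n (.n (.n (.l 0x341) (.l 0x25e)) (.n (.l 0x11510b410949) (.l 0xa59))) (.n (.n (.l 0x4b6046902a9) (.l 0x659)) (.n (.l 0xcb60c69) (.l 0)))))) (.n (.n (.n (.n (.n (.l 0xc1) (.l 0x10c1)) (.n (.l 0x8c1) (.l 0x11560b46094e08690329))) (.n (.n (.l 0x4c1) (.l 0x4b1)) (.n (.l 0x47102b1026e) (.l 0xcb6)))) (.n (.n (.n (.l 0x2c1) (.l 0x269)) (.n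 (.l 0x271) (.l 0xa6e))) (.n (.n (.l 0x10e606c102d6) (.l 0x66e)) (.n (.l 0x676) (.l 0))))) (.n (.n (.n (.n (.l 0x1c1) (.l 0x36602d10169)) (.n (.l 0x8e603a102c90171) (.l 0x96e))) (.n (.n (.l 0x5510391034e019e00f6) (.l 0x4de)) (.n (.l 0x57603b602d9) (.l 0)))) (.n (.n (.n (.l 0x3c1) (.l 0x2de)) (.n (.l 0x376) (.l 0))) (.n (.n (.l 0x4e9) (.l 0)) (.l 0))))))))))

/-- projection table -/
def pET : Tr := (.n (.n (.n (.n (.n (.n (.l 0) (.n (.n (.l 0) (.n (.l 0) (.n (.l 0) (.l 0x1d9)))) (.n (.n (.l 0) (.n (.l 0) (.l 0x131))) (.n (.n (.l 0) (.l 0x59)) (.n (.l 0) (.l 0x509)))))) (.n (.n (.n (.l 0) (.n (.l 0) (.n (.l 0) (.l 0x281)))) (.n (.n (.l 0) (.n (.l 0) (.l 0x79))) (.n (.n (.l 0) (.l 0x101)) (.n (.l 0) (.l 0x3b9))))) (.n (.n (.n (.l 0) (.n (.l 0) (.l 0x1c9))) (.n (.n (.l 0) (.l 0x249)) (.n (.l 0) (.l 0x119)))) (.n (.n (.l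 0) (.n (.l 0) (.l 0x4d9))) (.n (.n (.l 0) (.l 0x359)) (.n (.l 0) (.l 0x131))))))) (.n (.n (.n (.n (.l 0) (.n (.l 0) (.n (.l 0) (.l 0x89)))) (.n (.n (.l 0) (.n (.l 0) (.l 0x271))) (.n (.n (.l 0) (.l 0x1a9)) (.n (.l 0) (.l 0x269))))) (.n (.n (.n (.l 0) (.n (.l 0) (.l 0x121))) (.n (.n (.l 0) (.l 0x49)) (.n (.l 0) (.l 0x4f9)))) (.n (.n (.n (.l 0) (.l 0x231)) (.n (.l 0) (.l 0xf9))) (.n (.n (.l 0) (.l 0x209)) (.n (.l 0) (.l 0x1d9)))))) (.n (.n (.n (.n (.l 0) (.n (.l 0) (.l 0x69))) (.n (.n (.l 0) (.l 0xf1)) (.n (.l 0) (.l 0x3a9)))) (.n (.n (.n (.l 0) (.l 0x189)) (.n (.l 0) (.l 0x241))) (.n (.n (.l 0) (.l 0xc1)) (.n (.l 0) (.l 0x281))))) (.n (.n (.n (.n (.l 0) (.l 0x31)) (.n (.l 0x211) (.l 0x4b9))) (.n (.n (.l 0x151) (.l 0x339)) (.n (.l 0x191) (.l 0x111)))) (.n (.n (.n (.l 0) (.l 0x1c9)) (.n (.l 0x2d1) (.l 0x1a9))) (.n (.n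 (.l 0x409) (.l 0x241)) (.n (.l 0x29) (.l 0)))))))) (.n (.n (.n (.n (.n (.l 0) (.n (.l 0) (.n (.l 0) (.l 0x1d1)))) (.n (.n (.l 0) (.n (.l 0) (.l 0x129))) (.n (.n (.l 0) (.l 0x51)) (.n (.l 0) (.l 0x501))))) (.n (.n (.n (.l 0) (.n (.l 0) (.l 0x261))) (.n (.l 0) (.n (.l 0xc1) (.l 0x259)))) (.n (.n (.l 0) (.n (.l 0x169) (.l 0x389))) (.n (.n (.l 0x1f1) (.l 0x489)) (.n (.l 0x71) (.l 0x89)))))) (.n (.n (.n (.n (.l 0) (.n (.l 0) (.l 0x1b9))) (.n (.n (.l 0) (.l 0x239)) (.n (.l 0) (.l 0x109)))) (.n (.n (.l 0) (.n (.l 0) (.l 0x4c9))) (.n (.n (.l 0) (.l 0x349)) (.n (.l 0) (.l 0x121))))) (.n (.n (.n (.n (.l 0) (.l 0x179)) (.n (.l 0xb9) (.l 0x221))) (.n (.n (.l 1) (.l 0xa1)) (.n (.l 0x429) (.l 0x261)))) (.n (.n (.n (.l 0) (.l 0x459)) (.n (.l 0x59) (.l 0x61))) (.n (.n (.l 0x141) (.l 0xd1)) (.n (.l 0x1ae01910182017e015e0151014e) (.l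 0))))))) (.n (.n (.n (.n (.n (.l 0) (.n (.l 0) (.l 0x111))) (.n (.n (.l 0) (.l 0x41)) (.n (.l 0) (.l 0x4e9)))) (.n (.n (.n (.l 0) (.l 0x229)) (.n (.l 0) (.l 0xe9))) (.n (.n (.l 0) (.l 0x1f9)) (.n (.l 0) (.l 0x1c9))))) (.n (.n (.n (.n (.l 0) (.l 0xd1)) (.n (.l 0x161) (.l 0x371))) (.n (.n (.l 0x1e9) (.l 0x471)) (.n (.l 0x69) (.l 0x71)))) (.n (.n (.n (.l 0) (.l 0x89)) (.n (.l 0x421) (.l 0x251))) (.n (.n (.l 0x291) (.l 0x179)) (.l 0))))) (.n (.n (.n (.n (.l 0) (.n (.l 0) (.l 0x499))) (.n (.n (.l 0x141) (.l 0x319)) (.n (.l 0x171) (.l 0xf1)))) (.n (.n (.n (.l 0x99) (.l 0x1b1)) (.n (.l 0x2b9) (.l 0x191))) (.n (.n (.l 0x3e9) (.l 0x229)) (.n (.l 0x19) (.l 0))))) (.n (.n (.n (.n (.l 0x1e1) (.l 0x441)) (.n (.l 0x49) (.l 0x51))) (.n (.n (.l 0x139) (.l 0xc1)) (.n (.l 0x151) (.l 0)))) (.n (.n (.n (.l 0x279) (.l 0x169)) (.n (.l 0xa9)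 (.l 0))) (.n (.n (.l 1) (.l 0)) (.l 0)))))))) (.n (.n (.n (.n (.n (.n (.l 0) (.n (.l 0) (.n (.l 0) (.l 0x279)))) (.n (.n (.l 0) (.n (.l 0) (.l 0x71))) (.n (.n (.l 0) (.l 0xf9)) (.n (.l 0) (.l 0x3b1))))) (.n (.n (.n (.l 0) (.n (.l 0) (.l 0x1c1))) (.n (.n (.l 0) (.l 0x241)) (.n (.l 0) (.l 0x111)))) (.n (.n (.n (.l 0) (.l 0x39)) (.n (.l 0) (.l 0x4d1))) (.n (.n (.l 0) (.l 0x351)) (.n (.l 0) (.l 0x129)))))) (.n (.n (.n (.n (.l 0) (.n (.l 0) (.l 0x259))) (.n (.n (.l 0) (.l 0x199)) (.n (.l 0) (.l 0x251)))) (.n (.n (.l 0) (.n (.l 0) (.l 0x381))) (.n (.n (.l 0) (.l 0x481)) (.n (.l 0) (.l 0x81))))) (.n (.n (.n (.n (.l 0) (.l 0x221)) (.n (.l 0x11) (.l 0xd9))) (.n (.n (.l 0xa9) (.l 0x1e9)) (.n (.l 0x2d9) (.l 0x1b9)))) (.n (.n (.n (.l 0) (.l 0x301)) (.n (.l 0x161) (.l 0xe9))) (.n (.n (.l 0x31) (.l 0x49)) (.n (.l 0x201) (.l 0)))))))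 (.n (.n (.n (.n (.l 0) (.n (.n (.l 0) (.l 0xe1)) (.n (.l 0) (.l 0x399)))) (.n (.n (.n (.l 0) (.l 0x181)) (.n (.l 0) (.l 0x231))) (.n (.n (.l 0) (.l 0xb1)) (.n (.l 0) (.l 0x271))))) (.n (.n (.n (.l 0) (.n (.l 0x201) (.l 0x4a9))) (.n (.n (.l 0) (.l 0x329)) (.n (.l 0x181) (.l 0x101)))) (.n (.n (.n (.l 0xa1) (.l 0x1b9)) (.n (.l 0x2c1) (.l 0x199))) (.n (.n (.l 0x3f9) (.l 0x231)) (.n (.l 0x21) (.l 0)))))) (.n (.n (.n (.n (.n (.l 0) (.l 0xc9)) (.n (.l 0) (.l 0x361))) (.n (.n (.l 0) (.l 0x461)) (.n (.l 0) (.l 0x69)))) (.n (.n (.n (.l 0) (.l 0x81)) (.n (.l 0) (.l 0x249))) (.n (.n (.l 0) (.l 0x171)) (.n (.l 0x11100c200be00b10099) (.l 0))))) (.n (.n (.n (.n (.l 0x139) (.l 0x2e9)) (.n (.l 0x159) (.l 0xd9))) (.n (.n (.l 0x21) (.l 0x39)) (.n (.l 0x1f9) (.l 0)))) (.n (.n (.n (.l 0x3d1) (.l 0x209)) (.n (.l 9) (.l 0))) (.n (.n (.l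 0x99) (.l 0)) (.l 0))))))) (.n (.n (.n (.n (.n (.n (.l 0) (.n (.l 0) (.l 0x1b1))) (.n (.l 0) (.n (.l 0) (.l 0x101)))) (.n (.n (.l 0) (.n (.l 0) (.l 0x4c1))) (.n (.n (.l 0) (.l 0x341)) (.n (.l 0) (.l 0x119))))) (.n (.n (.n (.l 0) (.n (.l 0xb1) (.l 0x219))) (.n (.n (.l 0) (.l 0x99)) (.n (.l 0) (.l 0x2810279027602590236)))) (.n (.n (.n (.l 0) (.l 0x451)) (.n (.l 0x51) (.l 0x89))) (.n (.l 0) (.n (.l 0x1d9019e) (.l 0)))))) (.n (.n (.n (.n (.l 0) (.n (.l 9) (.l 0xc9))) (.n (.n (.l 0) (.l 0x1d9)) (.n (.l 0) (.l 0x1d9019e)))) (.n (.n (.n (.l 0) (.l 0x2f1)) (.n (.l 0x24602210215020901be017601690161) (.l 0x136012e00f600e9))) (.n (.n (.l 0x29) (.l 0x7e0071006900660059004900260019)) (.n (.l 0x2810266025a02360201) (.l 0))))) (.n (.n (.n (.n (.l 0) (.l 0x79)) (.n (.l 0x411) (.l 0x24e024602310211020e0201))) (.n (.n (.l 0x289) (.l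 0x1b101ae01a60181015e)) (.l 0))) (.n (.n (.n (.l 0) (.l 0xf100d6)) (.n (.l 0x1a9018501560149) (.l 0))) (.n (.n (.l 0x211) (.l 0)) (.l 0)))))) (.n (.n (.n (.n (.n (.n (.l 0) (.l 0x19)) (.n (.l 0) (.l 0x491))) (.n (.n (.l 0) (.l 0x309)) (.n (.l 0x169) (.l 0x12e)))) (.n (.n (.n (.l 0) (.l 0x1a1)) (.n (.l 0x2a9) (.l 0x189))) (.n (.l 0) (.n (.l 0x66005a0019) (.l 0))))) (.n (.n (.n (.n (.l 0) (.l 0x431)) (.n (.l 0x39) (.l 0x21))) (.n (.n (.l 0) (.l 0xb1)) (.n (.l 0x149) (.l 0)))) (.n (.n (.n (.l 0) (.l 0x159)) (.n (.l 0xa1) (.l 0))) (.l 0)))) (.n (.n (.n (.n (.n (.l 0) (.l 0x2e1)) (.n (.l 0x149) (.l 0xa6))) (.n (.n (.l 0x11) (.l 0x69004e)) (.n (.l 0x2460211020e) (.l 0)))) (.n (.n (.n (.l 0x3c9) (.l 0x25e024602390211020d01e9)) (.n (.l 0x56002e000e) (.l 0))) (.n (.n (.l 0x115010100f500ee00d200c400b900b5009e) (.l 0)) (.l 0))))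 (.n (.n (.n (.n (.l 0x121) (.l 0x99)) (.n (.l 0x141) (.l 0))) (.n (.n (.l 0x1fe01e9) (.l 0)) (.l 0))) (.n (.n (.n (.l 1) (.l 0)) (.l 0)) (.l 0)))))))) (.n (.n (.n (.n (.n (.n (.n (.l 0) (.n (.l 0) (.n (.l 0) (.l 0x81)))) (.n (.n (.l 0) (.n (.l 0) (.l 0x269))) (.n (.n (.l 0) (.l 0x1a1)) (.n (.l 0) (.l 0x261))))) (.n (.n (.n (.l 0) (.n (.l 0) (.l 0x119))) (.n (.l 0) (.n (.l 0) (.l 0x4f1)))) (.n (.n (.l 0) (.n (.l 0) (.l 0xf1))) (.n (.n (.l 0) (.l 0x201)) (.n (.l 0) (.l 0x1d1)))))) (.n (.n (.n (.n (.l 0) (.n (.l 0) (.l 0x61))) (.n (.n (.l 0) (.l 0xe9)) (.n (.l 0) (.l 0x3a1)))) (.n (.n (.l 0) (.n (.l 0) (.l 0x239))) (.n (.n (.l 0) (.l 0xb9)) (.n (.l 0) (.l 0x279))))) (.n (.n (.n (.l 0) (.n (.l 0x209) (.l 0x4b1))) (.n (.n (.l 0x149) (.l 0x331)) (.n (.l 0x189) (.l 0x109)))) (.n (.n (.n (.l 0) (.l 0x1c1)) (.n (.l 0x2c9) (.l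 0x1a1))) (.n (.n (.l 0x401) (.l 0x239)) (.n (.l 0x76006e0061005e004900410021001e) (.l 0))))))) (.n (.n (.n (.n (.n (.l 0) (.n (.l 0) (.l 0x251))) (.n (.n (.l 0) (.l 0x191)) (.n (.l 0) (.l 0x249)))) (.n (.n (.n (.l 0) (.l 0xd9)) (.n (.l 0) (.l 0x379))) (.n (.n (.l 0) (.l 0x479)) (.n (.l 0) (.l 0x79))))) (.n (.n (.n (.n (.l 0) (.l 0x219)) (.n (.l 0) (.l 0xd1))) (.n (.n (.l 0) (.l 0x1e1)) (.n (.l 0) (.l 0x1b1)))) (.n (.n (.n (.l 0) (.l 0x2f9)) (.n (.l 0) (.l 0xe1))) (.n (.n (.l 0) (.l 0x41)) (.l 0))))) (.n (.n (.n (.n (.n (.l 0) (.l 0x171)) (.n (.l 0) (.l 0x211))) (.n (.n (.l 0) (.l 0x91)) (.n (.l 0) (.l 0x259)))) (.n (.n (.n (.l 0) (.l 0x449)) (.n (.l 0) (.l 0x59))) (.n (.n (.l 0) (.l 0xc9)) (.l 0)))) (.n (.n (.n (.n (.l 0x91) (.l 0x199)) (.n (.l 0x2a1) (.l 0x181))) (.n (.n (.l 0x3d9) (.l 0x219)) (.n (.l 0x11) (.l 0))))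 (.n (.n (.n (.l 9) (.l 0x31)) (.n (.l 0x1e9) (.l 0))) (.n (.n (.l 0x139) (.l 0)) (.l 0))))))) (.n (.n (.n (.n (.n (.n (.l 0) (.n (.l 0) (.l 0x109))) (.n (.l 0) (.n (.l 0) (.l 0x4e1)))) (.n (.n (.l 0) (.n (.l 0) (.l 0xe1))) (.n (.n (.l 0) (.l 0x1f1)) (.n (.l 0) (.l 0x1c1))))) (.n (.n (.n (.l 0) (.n (.l 0x159) (.l 0x369))) (.n (.n (.l 0) (.l 0x469)) (.n (.l 0x61) (.l 0x81007200690026)))) (.n (.n (.l 0) (.n (.l 0x419) (.l 0x2860271022e))) (.n (.n (.l 0x3ae03590319030502fe02c902b10291) (.l 0x1d901ce01a10179)) (.n (.l 0x13600f600ea00e1) (.l 0)))))) (.n (.n (.n (.n (.n (.l 0) (.l 0x21)) (.n (.l 0x1f9) (.l 0x4e904ce04890456))) (.n (.n (.l 0) (.l 0x311)) (.n (.l 0x1d901d1) (.l 0x126)))) (.n (.n (.n (.l 0) (.l 0x1a9)) (.n (.l 0x2b1) (.l 0x1ce))) (.n (.n (.l 0x3e1) (.l 0x221)) (.n (.l 0x71006900660059004900260019) (.l 0)))))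 (.n (.n (.n (.n (.l 0) (.l 0x439)) (.n (.l 0x41) (.l 0x760061))) (.n (.n (.l 0x131) (.l 0xb9)) (.n (.l 0x1b201ad01a501910183017e015d0151014e) (.l 0)))) (.n (.n (.n (.l 0) (.l 0x161)) (.n (.l 0x116010100ee00c600b6) (.l 0))) (.n (.n (.l 0x69004e0036002e00190001) (.l 0)) (.l 0)))))) (.n (.n (.n (.n (.n (.n (.l 0) (.l 0x1f901f6)) (.n (.l 0) (.l 0xce00710056))) (.n (.n (.l 0) (.l 0x1d1)) (.l 0))) (.n (.n (.n (.l 0) (.l 0x2f602b1)) (.n (.l 0) (.l 0x131012900f100ee))) (.n (.n (.l 0) (.l 0x79)) (.n (.l 0x2810229) (.l 0))))) (.n (.n (.n (.n (.l 0) (.l 0x7e0069005e0041)) (.n (.l 0) (.l 0x24902410236021602090206))) (.n (.n (.l 0x281) (.l 0x1b101a6)) (.n (.l 0x10100ee00b6) (.l 0)))) (.n (.n (.n (.l 0x129) (.l 0x116010100f600ee00d100c600b6)) (.l 0)) (.n (.n (.l 0x25e02390211) (.l 0)) (.l 0))))) (.n (.n (.n (.n (.n (.l 0) (.l 0x1710146))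 (.n (.l 0x2e102b90296) (.l 0x191017e015e))) (.n (.n (.l 0) (.l 0x211)) (.n (.l 0x69004e0019) (.l 0)))) (.n (.n (.n (.l 1) (.l 0x1e)) (.n (.l 0x25e024602390211020d01e9) (.l 0))) (.n (.n (.l 0x166) (.l 0)) (.l 0)))) (.n (.n (.n (.n (.l 0x271) (.l 0x156)) (.n (.l 0xae0099) (.l 0))) (.n (.n (.l 0x16) (.l 0)) (.l 0))) (.n (.n (.n (.l 0x1e1) (.l 0)) (.l 0)) (.l 0))))))) (.n (.n (.n (.n (.n (.n (.l 0) (.n (.l 0) (.n (.l 0) (.l 0x391)))) (.n (.n (.l 0) (.n (.l 0) (.l 0x229))) (.n (.n (.l 0) (.l 0xa9)) (.n (.l 0) (.l 0x269))))) (.n (.n (.n (.n (.l 0) (.l 0x29)) (.n (.l 0) (.l 0x4a1))) (.n (.n (.l 0) (.l 0x321)) (.n (.l 0x179) (.l 0xf9)))) (.n (.n (.n (.l 0) (.l 0x24e0239020601d6)) (.n (.l 0x39e0381036e0356030e) (.l 0x1d6))) (.n (.n (.l 0x3f1) (.l 0x27e)) (.n (.l 0x7200690026) (.l 0)))))) (.n (.n (.n (.n (.l 0) (.n (.l 0) (.l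 0x399038603510309))) (.n (.n (.l 0) (.l 0x46e03f6)) (.n (.l 0) (.l 0x86)))) (.n (.n (.l 0) (.n (.l 0) (.l 0x276))) (.n (.n (.l 0) (.l 0x1de01c901a6017e)) (.n (.l 0x136010e) (.l 0))))) (.n (.n (.n (.n (.l 0) (.l 0x2c90281)) (.n (.l 0x151) (.l 0x10600e900b1))) (.n (.n (.l 0x19) (.l 0x76006e0061005e004900410021001e)) (.n (.l 0x1f1) (.l 0)))) (.n (.n (.n (.l 0x4390401) (.l 0x25e02390211)) (.n (.l 0x5e00410021) (.l 0))) (.n (.n (.l 0xbe) (.l 0)) (.l 0)))))) (.n (.n (.n (.n (.n (.l 0) (.n (.l 0) (.l 0x2190169))) (.n (.n (.l 0) (.l 0x99)) (.n (.l 0x4f904de04b60475046603fe03f6) (.l 0x2810279027602590236)))) (.n (.n (.n (.l 0) (.l 0x451)) (.n (.l 0) (.l 0x890066005a0019))) (.n (.n (.l 0) (.l 0x136010e)) (.n (.l 0x1de01a6017d0176) (.l 0))))) (.n (.n (.n (.n (.l 0) (.l 0x18101660151)) (.n (.l 0x299) (.l 0x149))) (.n (.n (.l 0)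 (.l 0x20601f1)) (.n (.l 0x5e0041003e002e00210011) (.l 0)))) (.n (.n (.n (.l 0x7d0069005e004100360016) (.l 0x5e0041)) (.n (.l 0x24d024602320211020e0201) (.l 0))) (.n (.n (.l 0x1ae0181015e) (.l 0)) (.l 0))))) (.n (.n (.n (.n (.n (.l 0) (.l 0x7e00360016)) (.n (.l 0x43603fe) (.l 0x2490236))) (.n (.n (.l 0) (.l 0x1b601a901a101860159)) (.n (.l 0x11100c200be0099) (.l 0)))) (.n (.n (.n (.l 0) (.l 0x111010600f100e900d600c100b1)) (.n (.l 0x15e) (.l 0))) (.l 0))) (.n (.n (.n (.n (.l 0x3c1) (.l 0x1ee)) (.n (.l 0xe) (.l 0))) (.n (.n (.l 0x91) (.l 0)) (.l 0))) (.n (.n (.n (.l 0x156013e) (.l 0)) (.l 0)) (.l 0)))))) (.n (.n (.n (.n (.n (.n (.n (.l 0) (.l 0x89007e0061005900410039)) (.n (.l 0x26102590251) (.l 0x50904e904d1))) (.n (.n (.l 0x1990191) (.l 0x3b903a60351)) (.n (.l 0x25e0256024e) (.l 0x129)))) (.n (.n (.n (.l 0xd9) (.l 0x269023e01fe))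 (.n (.l 0x38e0386037e) (.l 0x1ce))) (.n (.n (.l 0x48e0486047e) (.l 0x279)) (.n (.l 0x8900810079) (.l 0))))) (.n (.n (.n (.n (.l 0x2210219020e01ee) (.l 0x4f904de04b60476)) (.n (.l 0xde00d6006e) (.l 0x76))) (.n (.n (.l 0x1ee01e60189) (.l 0x1310109)) (.n (.l 0x1b901b1) (.l 0)))) (.n (.n (.n (.l 0x30602fe02c90291) (.l 0x1d901a10179)) (.n (.l 0xe900e1) (.l 0))) (.n (.n (.l 0x7100690066005900260019) (.l 0)) (.l 0))))) (.n (.n (.n (.n (.n (.l 0x17e01710146) (.l 0x3a9035e031e0301)) (.n (.l 0x221021601760161) (.l 0x13600f600e9))) (.n (.n (.l 0xa100960031) (.l 0x49)) (.n (.l 0x26602590201) (.l 0)))) (.n (.n (.n (.l 0x459044e03e9) (.l 0x2810229)) (.n (.l 0x6600590019) (.l 0))) (.n (.n (.l 0xd600c9) (.l 0)) (.l 0)))) (.n (.n (.n (.n (.l 0x19e01910139) (.l 0x11100c1)) (.n (.l 0x1810151) (.l 0))) (.n (.n (.l 0x219) (.l 0)) (.l 0)))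 (.n (.n (.n (.l 0x3100290006) (.l 0)) (.l 0)) (.l 0))))) (.n (.n (.n (.n (.n (.n (.l 0xd600ce00a1) (.l 0x2410211020e01b9)) (.n (.l 0x371036102c1) (.l 0x1de0199))) (.n (.n (.l 0x471046103f9) (.l 0x286025e0231)) (.n (.l 0x76006e0021) (.l 0)))) (.n (.n (.n (.l 0x890081) (.l 0x5e)) (.n (.l 0x256024e) (.l 0))) (.n (.n (.l 0x17e0176) (.l 0)) (.l 0)))) (.n (.n (.n (.n (.l 0x2e902d102a6) (.l 0x1a90186)) (.n (.l 0xde) (.l 0))) (.n (.n (.l 0x3e002e0011) (.l 0)) (.l 0))) (.n (.n (.n (.l 0x20e01e9) (.l 0)) (.l 0)) (.l 0)))) (.n (.n (.n (.n (.n (.l 0x446040903d1) (.l 0x2410209)) (.n (.l 0x5100290009) (.l 0))) (.n (.n (.l 0xc10099) (.l 0)) (.l 0))) (.n (.n (.n (.l 0x169) (.l 0)) (.l 0)) (.l 0))) (.l 0)))))))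

/-- inclusion table -/
def iE4T : Tr := (.n (.n (.n (.n (.n (.n (.n (.l 0x5a104c9036102d6016e00d9) (.l 0x951)) (.n (.l 0x16810629) (.l 0))) (.n (.n (.l 0x1c0918190c31) (.l 0x1c811435130e122d10b10f010e220c610c2e08710691064e)) (.n (.l 0x125111310c560a91089905190476) (.l 0)))) (.n (.n (.n (.l 0x146112a111890d860ca10656053604ce045e036602d1016900de) (.l 0x151114311309122910b60f060e260d090c660c29087606960649)) (.n (.l 0x4e100f6) (.l 0))) (.n (.n (.l 0x112d0d210c960c490a8d04b60469031902ae) (.l 0)) (.n (.l 0x19110c56) (.l 0))))) (.n (.n (.n (.n (.l 0x118e10e610a90d810ca606c10689053104c90459036102d50299016e00d9) (.l 0x11910d41091e04d6)) (.n (.l 0x1941085904b60469031902a9) (.l 0))) (.n (.n (.l 0x351015e) (.l 0)) (.n (.l 0x1609) (.l 0)))) (.n (.n (.n (.l 0x18891509118e10e60d810ca60b0e06c1053104c904590361032e02d50299016e00d9)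 (.l 0x1921)) (.n (.l 0x96108d60391034e00f6) (.l 0))) (.n (.n (.l 0x14511291112e0c490a8e066604b60469031902a9) (.l 0)) (.n (.l 0x1e1) (.l 0)))))) (.n (.n (.n (.n (.n (.l 0x991094e036102d601b1016e) (.l 0x9c108e103a602ce0176)) (.n (.l 0x186113210a8e0a5602ae) (.l 0))) (.n (.n (.l 0x1c9) (.l 0)) (.n (.l 0x14491289071106a10519) (.l 0)))) (.n (.n (.n (.l 0x1621142e0619) (.l 0x1849130910b60c660b11087506960649)) (.n (.l 0x5c1055603960349019900f1) (.l 0))) (.n (.n (.l 0x11610ac608ce03c103890271015e00ee) (.l 0)) (.n (.l 0x1c211521128e121e0e810e110c8e06a60631051e) (.l 0))))) (.n (.n (.n (.n (.l 0x11c1036102d6016e) (.l 0x13410b81087103a6033102ce025a)) (.n (.l 0x1b01132212910e410a8d0a1e066602ae) (.l 0))) (.n (.n (.l 0x931085904b60469031902a9) (.l 0)) (.n (.l 0x18311521128e121e0e810e110c8e06a60631051e) (.l 0)))) (.n (.n (.n (.l 0x1a1112360a2e)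 (.l 0x1a410a36)) (.n (.l 0x10c9078604a90349) (.l 0))) (.n (.n (.l 0x14c1074604b5046903c1038902a900ee) (.l 0)) (.n (.l 0x10b20c62087207210691064e0529049e) (.l 0))))))) (.n (.n (.n (.n (.n (.n (.l 0x118e115110e60d810b41094908b1086e06c1053104c904590361032e02d50299016e00d9) (.l 0x98901a9)) (.n (.l 0x18291419132112910e410e090a8e0a1e0666) (.l 0))) (.n (.n (.l 0x1c4118560c36) (.l 0)) (.n (.l 0x12c1026e) (.l 0)))) (.n (.n (.n (.l 0x15411381118910e506c104ce0459036602d60299016900de) (.l 0x15810499)) (.n (.l 0x589) (.l 0))) (.n (.n (.l 0x10d1074104b1046e03c6038e02ae00e9) (.l 0)) (.n (.l 0x19810cc10899051904750391034e02b5026a00f6) (.l 0))))) (.n (.n (.n (.n (.l 0x111910e60d160b0e06c10459032e02d60299) (.l 0x12610aa1)) (.n (.l 0x1a21) (.l 0))) (.n (.n (.l 0x591054e03c6038e00e9) (.l 0)) (.n (.l 0x16411526128a0e860c8906a206360519)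 (.l 0)))) (.n (.n (.n (.l 0x18c11386115210e10b41094a086e032e02d1) (.l 0x1a09122e)) (.n (.l 0x11320c550b210a910a4e089a051a047502b60269) (.l 0))) (.n (.n (.l 0x1489070e) (.l 0)) (.n (.l 0x56104d603a102c901ae) (.l 0)))))) (.n (.n (.n (.n (.n (.l 0x115610e110710b460a61094e086906c60651032902d1029e) (.l 0x11490b86087603a1033602c9025e)) (.n (.l 0x1909112e0a8e02ae) (.l 0))) (.n (.n (.l 0x2e1) (.l 0)) (.n (.l 0x1491) (.l 0)))) (.n (.n (.n (.l 0x1701150e061e) (.l 0x18911436130e122e10b10f010e210c620c2e08720691064e)) (.n (.l 0x929089e051e047102b1026e) (.l 0))) (.n (.n (.l 0x1249) (.l 0)) (.n (.l 0x1d010c1e) (.l 0))))) (.n (.n (.n (.n (.l 0x1851131110e10b0906c60651032902d1029e) (.l 0x14a110b10c610871)) (.n (.l 0x1d1) (.l 0))) (.n (.n (.l 0x9a108c903c6038e015900e9) (.l 0)) (.n (.l 0x18a1152111310c8e0c560899047602b60269) (.l 0))))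 (.n (.n (.n (.l 0x1a8112a10a29) (.l 0x1c11)) (.n (.l 0x11a10cc604710396034902b1026e00f1) (.l 0))) (.n (.n (.l 0x1611141e) (.l 0)) (.n (.l 0x8a908710529049e03310259) (.l 0))))))))

/-- inclusion table -/
def iE5T : Tr := (.n (.n (.n (.n (.n (.n (.n (.n (.l 0x2e9) (.l 0x789)) (.n (.l 0x1709) (.l 0))) (.n (.n (.l 0x1c31) (.l 0x1e21)) (.n (.l 0x13910f460cb60c6906d6) (.l 0)))) (.n (.n (.n (.l 0x12d1) (.l 0x1691)) (.n (.l 0x56904de03a9) (.l 0))) (.n (.n (.l 0xd51) (.l 0)) (.n (.l 0x1a910e61) (.l 0))))) (.n (.n (.n (.n (.l 0x9a9) (.l 0x11e1)) (.n (.l 0x1ac10a69) (.l 0))) (.n (.n (.l 0x7a106c9) (.l 0)) (.n (.l 0x16310e29) (.l 0)))) (.n (.n (.n (.l 0x16c10669) (.l 0x1a31)) (.n (.l 0xb51) (.l 0))) (.n (.n (.l 0x13890f81073606ce065e) (.l 0)) (.n (.l 0x1d9) (.l 0)))))) (.n (.n (.n (.n (.n (.l 0x5d1) (.l 0xb610ad6)) (.n (.l 0x19a1)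 (.l 0))) (.n (.n (.l 0x1f1) (.l 0)) (.n (.l 0x15190f0e) (.l 0)))) (.n (.n (.n (.l 0x15a1) (.l 0x19190d31)) (.n (.l 0x9c9) (.l 0))) (.n (.n (.l 0x12710a69) (.l 0)) (.n (.l 0x1c890f09) (.l 0))))) (.n (.n (.n (.n (.l 0xd290c9e) (.l 0x14d1)) (.n (.l 0x1e09) (.l 0))) (.n (.n (.l 0xb910b4e03b602d9) (.l 0)) (.n (.l 0x18d10f460cb60c69) (.l 0)))) (.n (.n (.n (.l 0x1a29) (.l 0x1c290e19)) (.n (.l 0x10f106d6) (.l 0))) (.n (.n (.l 0x15490f8607310659) (.l 0)) (.n (.l 0x6a9) (.l 0))))))) (.n (.n (.n (.n (.n (.n (.l 0x4f1) (.l 0x9b1096e)) (.n (.l 0x18c90f810b4e0736065e) (.l 0))) (.n (.n (.l 0x1d11) (.l 0)) (.n (.l 0x14a9069e) (.l 0)))) (.n (.n (.n (.l 0x14c9074e) (.l 0x18710e56)) (.n (.l 0x76106d603a9) (.l 0))) (.n (.n (.l 0xdc1057103b102de) (.l 0)) (.n (.l 0x1c19) (.l 0))))) (.n (.n (.n (.n (.l 0xb310a59) (.l 0x13310e510a990676))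 (.n (.l 0x1c91) (.l 0))) (.n (.n (.l 0x999057603b602d9) (.l 0)) (.n (.l 0x17110f09) (.l 0)))) (.n (.n (.n (.l 0x1949) (.l 0x1b110e56)) (.n (.l 0xbc10371) (.l 0))) (.n (.n (.l 0x14690ea6065e) (.l 0)) (.n (.l 0x3d1) (.l 0)))))) (.n (.n (.n (.n (.n (.l 0x791074e) (.l 0x11710ad60969)) (.n (.l 0x1a51) (.l 0))) (.n (.n (.l 0x5a9) (.l 0)) (.n (.l 0x1589) (.l 0)))) (.n (.n (.n (.l 0x165113290e49) (.l 0x19890cc9055e)) (.n (.l 0xaa9) (.l 0))) (.n (.n (.l 0x12e1) (.l 0)) (.n (.l 0x1e11) (.l 0))))) (.n (.n (.n (.n (.l 0x132a0f210e960e49) (.l 0x15610ec60cce06760559)) (.n (.l 0x1e9) (.l 0))) (.n (.n (.l 0xce103b602d9) (.l 0)) (.n (.l 0x1961) (.l 0)))) (.n (.n (.n (.l 0x1b091329) (.l 0x1d09)) (.n (.l 0x12b10e66) (.l 0))) (.n (.n (.l 0x1629) (.l 0)) (.n (.l 0x719) (.l 0)))))))) (.n (.n (.n (.n (.n (.n (.n (.l 0x3c9) (.l 0x7c104ee))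 (.n (.l 0x17410f810736065d) (.l 0))) (.n (.n (.l 0x1ca1132e0e910e4e) (.l 0x1f010e19)) (.n (.l 0x14710e610cb1) (.l 0)))) (.n (.n (.n (.l 0x13610ace) (.l 0x17210e8e)) (.n (.l 0x5b104de) (.l 0))) (.n (.n (.l 0xd89) (.l 0)) (.n (.l 0x1b21) (.l 0))))) (.n (.n (.n (.n (.l 0x9e1) (.l 0x12c9)) (.n (.l 0x1c490f16) (.l 0))) (.n (.n (.l 0x8f103b602d9) (.l 0)) (.n (.l 0x16a1) (.l 0)))) (.n (.n (.n (.l 0x18b113290e960e49) (.l 0x1aa1)) (.n (.l 0xb8903ae) (.l 0))) (.n (.n (.l 0x13c102d9) (.l 0)) (.n (.l 0x2f1) (.l 0)))))) (.n (.n (.n (.n (.n (.l 0x6b1066e) (.l 0xda10cc9055e)) (.n (.l 0x1a190e31) (.l 0))) (.n (.n (.l 0x36902de) (.l 0)) (.n (.l 0x15510f410d490cb10c6e) (.l 0)))) (.n (.n (.n (.l 0x1619) (.l 0x1951)) (.n (.l 0xa71) (.l 0))) (.n (.n (.l 0x12a90ea1) (.l 0)) (.n (.l 0x1cc10f410cb20c6e) (.l 0))))) (.n (.n (.n (.n (.l 0xd610cd6)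 (.l 0x15290e89)) (.n (.l 0x1e410e31) (.l 0))) (.n (.n (.l 0xc71) (.l 0)) (.n (.l 0x1929) (.l 0)))) (.n (.n (.n (.l 0x1a61) (.l 0x1c610e51)) (.n (.l 0x11d1) (.l 0))) (.n (.n (.l 0x1591) (.l 0)) (.n (.l 0x6e1) (.l 0))))))) (.n (.n (.n (.n (.n (.n (.l 0x599) (.l 0xb290a9e0671)) (.n (.l 0x1931) (.l 0))) (.n (.n (.l 0x1d810c9e) (.l 0)) (.n (.l 0x14e106d6) (.l 0)))) (.n (.n (.n (.l 0x1531132e0e910e4e0c99) (.l 0x18e10ec10ad60671)) (.n (.l 0x959) (.l 0))) (.n (.n (.l 0x11c9) (.l 0)) (.n (.l 0x1c51) (.l 0))))) (.n (.n (.n (.n (.l 0xba10ac9) (.l 0x13a10ec10671)) (.n (.l 0x1d21) (.l 0))) (.n (.n (.l 0x9d1) (.l 0)) (.n (.l 0x1781069e) (.l 0)))) (.n (.n (.n (.l 0x19910cd1) (.l 0x1b810ec10a9e0672)) (.n (.l 0xd910d4e) (.l 0))) (.n (.n (.l 0x14b1) (.l 0)) (.n (.l 0x5c9) (.l 0)))))) (.n (.n (.n (.n (.n (.l 0x971) (.l 0x11a90cce0559))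 (.n (.l 0x1a890ea6) (.l 0))) (.n (.n (.l 0x5e1) (.l 0)) (.n (.l 0x15c104d9) (.l 0)))) (.n (.n (.n (.l 0x1689) (.l 0x19c10969)) (.n (.l 0xae1) (.l 0))) (.n (.n (.l 0x13510b49) (.l 0)) (.n (.l 0x1e810e2e) (.l 0))))) (.n (.n (.n (.n (.l 0x11b10cd6) (.l 0x1649)) (.n (.l 0x3e1) (.l 0))) (.n (.n (.l 0xd19) (.l 0)) (.n (.l 0x1a49) (.l 0)))) (.n (.n (.n (.l 0x1b410a5e) (.l 0x1d410d31)) (.n (.l 0x1349) (.l 0))) (.n (.n (.l 0x16610ea1) (.l 0)) (.n (.l 0x751055e) (.l 0)))))))))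

/-- the data -/
def datE : Dat where
  n := 10
  fl := flE
  lo := 4
  hi := 5
  r := fun t => bif Nat.beq t 4 then 81 else bif Nat.beq t 5 then 162 else bif Nat.beq t 6 then 81 else 0
  hC := fun m => unc 64 (hET.get m)
  iC := fun t j => bif Nat.beq t 4 then unc 64 (iE4T.get j) else bif Nat.beq t 5 then unc 64 (iE5T.get j) else []
  p0 := fun m => unc 64 (pET.get m)

theorem ckE1 : allR datE.c1 1024 = true := by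
  decide +kernel

theorem ckE5 : allR (datE.c2 5) 1024 = true := by
  decide +kernel

theorem ckE6 : allR (datE.c2 6) 1024 = true := by
  decide +kernel

end Pool.Agent.GC
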