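import Pool.Agent.GC.Sdr

/-! Contraction data for the form in six variables. -/

set_option linter.unusedSectionVars false
set_option linter.unusedSimpArgs false
set_option linter.unusedVariables false
set_option maxRecDepth 100000

namespace Pool.Agent.GC

/-- the monomials -/
def flF : FL := [(0, 1, 2, 1), (3, 4, 5, 1)]

/-- homotopy table -/
def hFT : Tr := (.n (.n (.n (.l 0) (.n (.l 0) (.n (.l 0) (.n (.l 0) (.l 0x26))))) (.n (.n (.l 0) (.n (.l 0) (.n (.l 0) (.l 0x16)))) (.n (.l 0) (.n (.l 0) (.n (.l 0) (.l 0x31)))))) (.n (.n (.n (.l 0) (.n (.l 0) (.n (.l 0) (.l 0xe)))) (.n (.l 0) (.n (.l 0) (.n (.l 0) (.l 0x29))))) (.n (.n (.l 0) (.n (.l 0) (.n (.l 0) (.l 0x19)))) (.n (.n (.n (.l 1) (.l 0x101)) (.n (.l 0x81) (.l 0x181))) (.n (.n (.l 0x41) (.l 0x141)) (.n (.l 0xc1) (.l 0x1c1)))))))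

/-- projection table -/
def pFT : Tr := (.n (.n (.n (.l 0) (.n (.n (.n (.l 0) (.l 0x11)) (.n (.l 0x19) (.l 0x69))) (.n (.n (.l 0x29) (.l 0x49)) (.n (.l 0x11) (.l 0))))) (.n (.n (.n (.n (.l 0) (.l 0x21)) (.n (.l 9) (.l 0x89))) (.n (.n (.l 0x39) (.l 0x21)) (.n (.l 0x39) (.l 0)))) (.n (.n (.n (.l 0) (.l 0x61)) (.n (.l 0x79) (.l 0x11))) (.n (.n (.l 1) (.l 0x39)) (.n (.l 0x29) (.l 0)))))) (.n (.n (.n (.n (.n (.l 0) (.l 0x31)) (.n (.l 0x41) (.l 0x29))) (.n (.n (.l 1) (.l 0x81)) (.n (.l 0x59) (.l 0)))) (.n (.n (.n (.l 0) (.l 0x41)) (.n (.l 9) (.l 0x41))) (.n (.n (.l 0x71) (.l 9)) (.n (.l 0x19) (.l 0))))) (.n (.n (.n (.n (.l 0) (.l 0x19)) (.n (.l 0x31) (.l 0x31))) (.n (.n (.l 0x51) (.l 0x21)) (.n (.l 1) (.l 0)))) (.l 0))))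

/-- inclusion table -/
def iF2T : Tr := (.n (.n (.n (.n (.l 0x49) (.l 0x89)) (.n (.l 0x111) (.l 0))) (.n (.n (.l 0x121) (.l 0)) (.n (.l 0x109) (.l 0)))) (.n (.n (.n (.l 0x91) (.l 0)) (.n (.l 0x61) (.l 0))) (.n (.n (.l 0xa1) (.l 0)) (.n (.l 0x51) (.l 0)))))

/-- inclusion table -/
def iF3T : Tr := (.n (.n (.n (.n (.n (.l 0x71) (.l 0x149)) (.n (.l 0x129) (.l 0))) (.n (.n (.l 0x151) (.l 0)) (.n (.l 0x131) (.l 0)))) (.n (.n (.n (.l 0xe1) (.l 0)) (.n (.l 0x59) (.l 0))) (.n (.n (.l 0x99) (.l 0)) (.n (.l 0x69) (.l 0))))) (.n (.n (.n (.n (.l 0xa9) (.l 0x191)) (.n (.l 0x161) (.l 0))) (.n (.n (.l 0x189) (.l 0)) (.n (.l 0x1a1) (.l 0)))) (.n (.n (.n (.l 0x119) (.l 0)) (.n (.l 0xc9) (.l 0))) (.n (.n (.l 0xd1) (.l 0)) (.n (.l 0xb1) (.l 0))))))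

/-- the data -/
def datF : Dat where
  n := 6
  fl := flF
  lo := 2
  hi := 3
  r := fun t => bif Nat.beq t 2 then 9 else bif Nat.beq t 3 then 18 else bif Nat.beq t 4 then 9 else 0
  hC := fun m => unc 64 (hFT.get m)
  iC := fun t j => bif Nat.beq t 2 then unc 64 (iF2T.get j) else bif Nat.beq t 3 then unc 64 (iF3T.get j) else []
  p0 := fun m => unc 64 (pFT.get m)

theorem ckF1 : allR datF.c1 64 = true := by
  decide +kernel

theorem ckF3 : allR (datF.c2 3) 64 = true := by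
  decide +kernel

theorem ckF4 : allR (datF.c2 4) 64 = true := by
  decide +kernel

theorem ckFh : allR datF.c4 64 = true := by
  decide +kernel

end Pool.Agent.GC
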