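import Mathlib

/-!
Generic cubic forms in the exterior algebra: basic definitions.
Vector spaces with a distinguished basis `I`, each basis vector carrying a degree
`(t, c)` (a total degree and a class modulo 3), operators are matrices.
-/

set_option linter.unusedSectionVars false
set_option linter.unusedSimpArgs false

namespace Pool.Agent.GC

open Matrix

/-- Degrees: a total degree and a class modulo 3. -/
abbrev Gr := ℤ × ZMod 3

section Abs

variable {K : Type*} [Field K] {I : Type*} [Fintype I] [DecidableEq I]

/-- The matrix `M` raises the degree by `δ`. -/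
def Hm (deg : I → Gr) (δ : Gr) (M : Matrix I I K) : Prop :=
  ∀ a b, M a b ≠ 0 → deg a = deg b + δ

/-- The vector `v` is supported in the degrees in `P`. -/
def Sup (deg : I → Gr) (P : Gr → Prop) (v : I → K) : Prop := ∀ a, v a ≠ 0 → P (deg a)

/-- The matrix `d` (thought of as a differential) is exact at the degrees in `P`. -/
def Ex (deg : I → Gr) (d : Matrix I I K) (P : Gr → Prop) : Prop :=
  ∀ v : I → K, Sup deg P v → d *ᵥ v = 0 → ∃ w, d *ᵥ w = v

/-- `T` is injective on the homology of `d` at the degrees in `P`. -/
def HInj (deg : I → Gr) (d T : Matrix I I K) (P : Gr → Prop) : Prop :=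
  ∀ v : I → K, Sup deg P v → d *ᵥ v = 0 → (∃ w, d *ᵥ w = T *ᵥ v) → ∃ w, d *ᵥ w = v

/-- The sign operator `(-1)^t`. -/
def sg (K : Type*) [Field K] (deg : I → Gr) : Matrix I I K :=
  Matrix.diagonal fun a => (-1 : K) ^ (deg a).1

/-- The complexes that occur: exact below the degree `l`, in degree `l` the homology is in
the class `c`, and in degree `l + 1` the homology is in the classes `c` and `c + 1`. -/
def Q (deg : I → Gr) (d : Matrix I I K) (l : ℤ) (c : ZMod 3) : Prop :=
  Ex deg d (fun g => g.1 < l ∨ (g.1 = l ∧ g.2 ≠ c) ∨ (g.1 = l + 1 ∧ g.2 = c + 2))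

end Abs

section Tensor

variable {K : Type*} [Field K] {I J : Type*} [Fintype I] [DecidableEq I] [Fintype J] [DecidableEq J]

/-- degrees on a product -/
def dg2 (degI : I → Gr) (degJ : J → Gr) : I × J → Gr := fun p => degI p.1 + degJ p.2

/-- the operator `M ⊗ 1` -/
def tl (M : Matrix I I K) : Matrix (I × J) (I × J) K := Matrix.kroneckerMap (· * ·) M 1

/-- the operator `1 ⊗ N` for `N` of even degree -/
def tr0 (N : Matrix J J K) : Matrix (I × J) (I × J) K := Matrix.kroneckerMap (· * ·) 1 N

/-- the operator `1 ⊗ N` for `N` of odd degree, with the Koszul sign -/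
def tr1 (degI : I → Gr) (N : Matrix J J K) : Matrix (I × J) (I × J) K :=
  Matrix.kroneckerMap (· * ·) (sg K degI) N

end Tensor

/-- A Fock model on the set of variables `ι`: a basis `I` labelled by the finite subsets of `ι`
and the operators `x i` of multiplication by the variables. -/
structure Fock (K : Type*) [Field K] (ι : Type*) [DecidableEq ι] (I : Type*) [Fintype I]
    [DecidableEq I] where
  x : ι → Matrix I I K
  supp : I ≃ Finset ι
  sgn : ι → I → K
  sgn_sq : ∀ i b, sgn i b * sgn i b = 1
  x_apply : ∀ i a b, x i a b = if i ∉ supp b ∧ supp a = insert i (supp b) then sgn i b else 0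
  anti : ∀ i j, x i * x j = -(x j * x i)
  sq : ∀ i, x i * x i = 0

namespace Fock

variable {K : Type*} [Field K] {ι : Type*} [DecidableEq ι] {I : Type*} [Fintype I] [DecidableEq I]

/-- the degree: number of variables, and the weight modulo 3 -/
def deg (F : Fock K ι I) (w : ι → ZMod 3) : I → Gr :=
  fun b => (((F.supp b).card : ℤ), ∑ i ∈ F.supp b, w i)

end Fock

/-- the cubic form with coefficients `c` in the elements `x i` of an algebra -/
def cub {K A ι : Type*} [CommRing K] [Ring A] [Algebra K A] [Fintype ι] (x : ι → A)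
    (c : ι → ι → ι → K) : A :=
  ∑ i, ∑ j, ∑ k, c i j k • (x i * x j * x k)

/-- the bilinear form with coefficients `T` -/
def bil {K A ι κ : Type*} [CommRing K] [Ring A] [Algebra K A] [Fintype ι] [Fintype κ]
    (x : ι → A) (y : κ → A) (T : ι → κ → K) : A :=
  ∑ i, ∑ j, T i j • (x i * y j)

end Pool.Agent.GC
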