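import Pool.Agent.GC.Forms

/-! Duality: exactness in low degrees implies exactness in high degrees. -/

set_option linter.unusedSectionVars false
set_option linter.unusedSimpArgs false
set_option linter.unusedVariables false

namespace Pool.Agent.GC

open Matrix

section Tr

variable {K : Type*} [Field K] {I : Type*} [Fintype I] [DecidableEq I] {deg : I → Gr}

theorem ex_transpose {δ : Gr} {d : Matrix I I K} (hd : Hm deg δ d) (hdd : d * d = 0)
    {P : Gr → Prop} (hE : Ex deg d P) : Ex deg dᵀ P := by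
  obtain ⟨h, hh, hhh⟩ := exists_homotopy hd hdd hE
  intro v hv hdv
  have hN0 : Hm deg 0 (d * h + h * d) :=
    ((hd.mul hh).congr (by abel)).add ((hh.mul hd).congr (by abel))
  have h1 : (d * h + h * d)ᵀ *ᵥ v = (1 : Matrix I I K) *ᵥ v := by
    apply mulVec_congr
    intro a b hb
    rw [Matrix.transpose_apply]
    by_cases h0 : (d * h + h * d) b a = 0
    · rw [h0]
      by_cases hab : a = b
      · subst hab
        have := hhh a (hv a hb) a
        rw [h0] at this
        exact this
      · rw [Matrix.one_apply_ne hab]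
    · have h2 := hN0 b a h0
      rw [add_zero] at h2
      have h3 := hhh a (by rw [← h2]; exact hv b hb) b
      rw [h3]
      by_cases hab : a = b
      · subst hab; rfl
      · rw [Matrix.one_apply_ne hab, Matrix.one_apply_ne (fun h => hab h.symm)]
  rw [Matrix.one_mulVec, Matrix.transpose_add, Matrix.transpose_mul, Matrix.transpose_mul,
    Matrix.add_mulVec, ← Matrix.mulVec_mulVec, hdv, Matrix.mulVec_zero, zero_add,
    ← Matrix.mulVec_mulVec] at h1
  exact ⟨_, h1⟩

end Tr

section Star

variable {K : Type*} [Field K] {ι : Type*} [LinearOrder ι] [Fintype ι]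

/-- sign of the star operator -/
def sJ (K : Type*) [Field K] (S : Finset ι) : K :=
  ∏ i ∈ S, (-1 : K) ^ (Fock.below (Finset.univ : Finset ι) i)

/-- the star operator -/
def JJ (K : Type*) [Field K] (ι : Type*) [LinearOrder ι] [Fintype ι] :
    Matrix (Finset ι) (Finset ι) K :=
  Matrix.of fun a b => if b = aᶜ then sJ K a else 0

/-- inverse of the star operator -/
def JJ' (K : Type*) [Field K] (ι : Type*) [LinearOrder ι] [Fintype ι] :
    Matrix (Finset ι) (Finset ι) K :=
  Matrix.of fun a b => if b = aᶜ then sJ K b else 0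

theorem sJ_sq (S : Finset ι) : sJ K S * sJ K S = 1 := by
  unfold sJ
  rw [← Finset.prod_mul_distrib]
  apply Finset.prod_eq_one
  intro i _
  rw [← mul_pow]; simp

theorem JJ_mul : JJ K ι * JJ' K ι = 1 := by
  ext a b
  rw [Matrix.mul_apply, Finset.sum_eq_single aᶜ]
  · simp only [JJ, JJ', Matrix.of_apply, if_true, compl_compl]
    by_cases h : b = a
    · subst h
      simp [sJ_sq]
    · rw [if_neg h, Matrix.one_apply_ne (fun h' => h h'.symm), mul_zero]
  · intro c _ hc
    simp [JJ, hc]
  · simp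

theorem JJ_mul' : JJ' K ι * JJ K ι = 1 := mul_eq_one_comm.mp JJ_mul

theorem below_compl {a : Finset ι} {i : ι} (hi : i ∉ a) :
    Fock.below a i + Fock.below (insert i a)ᶜ i = Fock.below (Finset.univ : Finset ι) i := by
  unfold Fock.below
  rw [← Finset.card_union_of_disjoint]
  · congr 1
    ext j
    simp only [Finset.mem_union, Finset.mem_filter, Finset.mem_compl, Finset.mem_insert, not_or,
      Finset.mem_univ, true_and]
    constructor
    · rintro (h | h)
      · exact h.2
      · exact h.2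
    · intro h
      by_cases hj : j ∈ a
      · exact Or.inl ⟨hj, h⟩
      · exact Or.inr ⟨⟨h.ne, hj⟩, h⟩
  · rw [Finset.disjoint_left]
    intro j h1 h2
    simp only [Finset.mem_filter, Finset.mem_compl, Finset.mem_insert, not_or] at h1 h2
    exact h2.1.2 h1.1

theorem cr_star (i : ι) : (Fock.cr K i)ᵀ * JJ K ι = JJ K ι * Fock.cr K i := by
  ext a b
  rw [Matrix.mul_apply, Matrix.mul_apply, Finset.sum_eq_single bᶜ, Finset.sum_eq_single aᶜ]
  · simp only [JJ, Matrix.of_apply, Matrix.transpose_apply, if_true, compl_compl, Fock.cr]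
    by_cases h : i ∉ a ∧ bᶜ = insert i a
    · obtain ⟨h1, h2⟩ := h
      have hb : b = (insert i a)ᶜ := by rw [← h2, compl_compl]
      have h3 : i ∉ b ∧ aᶜ = insert i b := by
        constructor
        · rw [hb]; simp
        · rw [hb]
          ext j
          simp only [Finset.mem_compl, Finset.mem_insert, not_or]
          by_cases hj : j = i
          · subst hj; simp [h1]
          · simp [hj]
      rw [if_pos ⟨h1, h2⟩, if_pos h3, h2]
      have h4 : sJ K (insert i a) = (-1 : K) ^ (Fock.below (Finset.univ : Finset ι) i) * sJ K a := by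
        unfold sJ
        rw [Finset.prod_insert h1]
      rw [h4, ← below_compl h1, ← hb, pow_add]
      have h5 : (-1 : K) ^ Fock.below a i * (-1 : K) ^ Fock.below a i = 1 := by
        rw [← mul_pow]; simp
      calc _ = ((-1 : K) ^ Fock.below a i * (-1 : K) ^ Fock.below a i) *
            (-1 : K) ^ Fock.below b i * sJ K a := by ring
        _ = _ := by rw [h5]; ring
    · rw [if_neg h, if_neg, zero_mul, mul_zero]
      rintro ⟨h1, h2⟩
      apply h
      have ha : a = (insert i b)ᶜ := by rw [← h2, compl_compl]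
      constructor
      · rw [ha]; simp
      · rw [ha]
        ext j
        simp only [Finset.mem_compl, Finset.mem_insert, not_or]
        by_cases hj : j = i
        · subst hj; simp [h1]
        · simp [hj]
  · intro c _ hc
    simp [JJ, hc]
  · simp
  · intro c _ hc
    simp only [JJ, Matrix.of_apply]
    rw [if_neg, mul_zero]
    intro h
    exact hc (by rw [h, compl_compl])
  · simp

theorem cub_star (c : ι → ι → ι → K) : (cub (Fock.cr K) c)ᵀ * JJ K ι =
    -(JJ K ι * cub (Fock.cr K) c) := by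
  have hanti := (Fock.std K ι).anti
  unfold cub
  simp only [Matrix.transpose_sum, Matrix.transpose_smul, Matrix.transpose_mul, Matrix.sum_mul,
    Matrix.mul_sum, Matrix.smul_mul, Matrix.mul_smul, ← Finset.sum_neg_distrib, ← smul_neg]
  refine Finset.sum_congr rfl fun i _ => Finset.sum_congr rfl fun j _ =>
    Finset.sum_congr rfl fun k _ => ?_
  congr 1
  have h1 : (Fock.cr K i)ᵀ * JJ K ι = JJ K ι * Fock.cr K i := cr_star i
  have h2 : (Fock.cr K j)ᵀ * JJ K ι = JJ K ι * Fock.cr K j := cr_star j
  have h3 : (Fock.cr K k)ᵀ * JJ K ι = JJ K ι * Fock.cr K k := cr_star k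
  have a1 : Fock.cr K k * Fock.cr K j = -(Fock.cr K j * Fock.cr K k) := hanti k j
  have a2 : Fock.cr K k * Fock.cr K i = -(Fock.cr K i * Fock.cr K k) := hanti k i
  have a3 : Fock.cr K j * Fock.cr K i = -(Fock.cr K i * Fock.cr K j) := hanti j i
  calc (Fock.cr K k)ᵀ * ((Fock.cr K j)ᵀ * (Fock.cr K i)ᵀ) * JJ K ι
      = (Fock.cr K k)ᵀ * ((Fock.cr K j)ᵀ * ((Fock.cr K i)ᵀ * JJ K ι)) := by
        simp only [Matrix.mul_assoc]
    _ = (Fock.cr K k)ᵀ * (((Fock.cr K j)ᵀ * JJ K ι) * Fock.cr K i) := by
        rw [h1]; simp only [Matrix.mul_assoc]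
    _ = ((Fock.cr K k)ᵀ * JJ K ι) * Fock.cr K j * Fock.cr K i := by
        rw [h2]; simp only [Matrix.mul_assoc]
    _ = JJ K ι * (Fock.cr K k * Fock.cr K j * Fock.cr K i) := by
        rw [h3]; simp only [Matrix.mul_assoc]
    _ = JJ K ι * -(Fock.cr K i * Fock.cr K j * Fock.cr K k) := by
        congr 1
        rw [a1, neg_mul, Matrix.mul_assoc, a2, mul_neg, neg_neg, ← Matrix.mul_assoc, a3, neg_mul]
    _ = _ := by rw [mul_neg]

/-- exactness in low degrees implies exactness in high degrees -/
theorem ex_dual (h2 : (2 : K) ≠ 0) (c : ι → ι → ι → K) {l : ℤ}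
    (h : Ex ((Fock.std K ι).deg 0) (cub (Fock.cr K) c) (fun g => g.1 < l)) :
    Ex ((Fock.std K ι).deg 0) (cub (Fock.cr K) c) (fun g => (Fintype.card ι : ℤ) - l < g.1) := by
  have hm : Hm ((Fock.std K ι).deg 0) (3, 0) (cub (Fock.cr K) c) :=
    hm_cub (fun i => (Fock.std K ι).x_hm 0 i) c (fun i j k => by simp only [Pi.zero_apply]; decide)
  have h1 := ex_transpose hm (cub_sq h2 (Fock.std K ι).anti c) h
  have h3 : JJ' K ι * (cub (Fock.cr K) c)ᵀ = -(cub (Fock.cr K) c) * JJ' K ι := by
    have h4 := cub_star c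
    calc JJ' K ι * (cub (Fock.cr K) c)ᵀ = JJ' K ι * ((cub (Fock.cr K) c)ᵀ * (JJ K ι * JJ' K ι)) := by
          rw [JJ_mul, mul_one]
      _ = JJ' K ι * ((cub (Fock.cr K) c)ᵀ * JJ K ι) * JJ' K ι := by simp only [Matrix.mul_assoc]
      _ = JJ' K ι * (-(JJ K ι * cub (Fock.cr K) c)) * JJ' K ι := by rw [h4]
      _ = -(JJ' K ι * JJ K ι * cub (Fock.cr K) c) * JJ' K ι := by
          simp only [Matrix.mul_assoc, mul_neg, neg_mul]
      _ = _ := by rw [JJ_mul', one_mul]
  have h5 : Ex (fun a : Finset ι => (Fock.std K ι).deg 0 aᶜ) (-(cub (Fock.cr K) c))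
      (fun g => g.1 < l) := by
    refine ex_transfer (Φ := JJ' K ι) (Ψ := JJ K ι) JJ_mul' JJ_mul ?_ h3 h1
    intro a b hab
    by_cases hb : b = aᶜ
    · rw [hb, compl_compl]
    · simp [JJ, hb] at hab
  intro v hv hdv
  obtain ⟨w, hw⟩ := h5 v (by
    intro a ha
    have h6 := hv a ha
    simp only [Fock.deg, Fock.std, Equiv.refl_apply] at h6 ⊢
    rw [Finset.card_compl]
    have h7 := Finset.card_le_univ a
    push_cast [Nat.cast_sub h7]
    omega) (by rw [Matrix.neg_mulVec, hdv, neg_zero])
  refine ⟨-w, ?_⟩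
  rw [Matrix.mulVec_neg, ← Matrix.neg_mulVec]
  exact hw

end Star

end Pool.Agent.GC
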