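import Pool.Agent.GC.COne

/-! Lifting the properties `CC` and `GG` from `ZMod p` to characteristic zero. -/

set_option linter.unusedSectionVars false
set_option linter.unusedSimpArgs false
set_option linter.unusedVariables false

namespace Pool.Agent.GC

open Matrix

section Std

variable {ι : Type} [LinearOrder ι] [Fintype ι]

/-- integral creation operators -/
def crZ (i : ι) : Matrix (Finset ι) (Finset ι) ℤ :=
  fun a b => if i ∉ b ∧ a = insert i b then (-1 : ℤ) ^ Fock.below b i else 0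

/-- integral cubic forms -/
def cubZ (c : ι → ι → ι → ℤ) : Matrix (Finset ι) (Finset ι) ℤ :=
  ∑ i, ∑ j, ∑ k, c i j k • (crZ i * crZ j * crZ k)

theorem crZ_map (L : Type*) [Field L] (i : ι) :
    (Int.castRingHom L).mapMatrix (crZ i) = Fock.cr L i := by
  ext a b
  simp only [RingHom.mapMatrix_apply, Matrix.map_apply, crZ, Fock.cr]
  split_ifs <;> simp

theorem cubZ_map (L : Type*) [Field L] (c : ι → ι → ι → ℤ) :
    (Int.castRingHom L).mapMatrix (cubZ c) = cub (Fock.cr L) (fun i j k => (c i j k : L)) := by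
  unfold cubZ cub
  simp only [map_sum, map_zsmul, map_mul, crZ_map]
  refine Finset.sum_congr rfl fun i _ => Finset.sum_congr rfl fun j _ =>
    Finset.sum_congr rfl fun k _ => ?_
  rw [Int.cast_smul_eq_zsmul]

theorem hm_cub' {K : Type*} [Field K] {I : Type*} [Fintype I] [DecidableEq I] {deg : I → Gr}
    {x : ι → Matrix I I K} {w : ι → ZMod 3}
    (h : ∀ i, Hm deg (1, w i) (x i)) (c : ι → ι → ι → K)
    (hc : ∀ i j k, c i j k ≠ 0 → w i + w j + w k = 0) : Hm deg (3, 0) (cub x c) := by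
  unfold cub
  refine Hm.sum _ fun i _ => Hm.sum _ fun j _ => Hm.sum _ fun k _ => ?_
  by_cases h0 : c i j k = 0
  · rw [h0, zero_smul]; exact Hm.zero
  · refine Hm.smul _ ?_
    refine (((h i).mul (h j)).mul (h k)).congr ?_
    ext
    · simp
    · simpa using hc i j k h0

theorem lift_std (p : ℕ) [hp : Fact p.Prime] {K : Type*} [Field K] [CharZero K]
    (c : ι → ι → ι → ℤ) (w : ι → ZMod 3) (hw : ∀ i j k, c i j k ≠ 0 → w i + w j + w k = 0)
    {P : Gr → Prop}
    (hE : Ex ((Fock.std (ZMod p) ι).deg w)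
      (cub (Fock.std (ZMod p) ι).x (fun i j k => (c i j k : ZMod p))) P) :
    Ex ((Fock.std K ι).deg w) (cub (Fock.std K ι).x (fun i j k => (c i j k : K))) P := by
  have eQ : (cubZ c).map (Int.cast : ℤ → ℚ) =
      cub (Fock.std ℚ ι).x (fun i j k => (c i j k : ℚ)) := cubZ_map ℚ c
  have eK : (cubZ c).map (Int.cast : ℤ → K) =
      cub (Fock.std K ι).x (fun i j k => (c i j k : K)) := cubZ_map K c
  have ep : (cubZ c).map (Int.cast : ℤ → ZMod p) =
      cub (Fock.std (ZMod p) ι).x (fun i j k => (c i j k : ZMod p)) := cubZ_map (ZMod p) c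
  have hQ : Hm ((Fock.std ℚ ι).deg w) (3, 0)
      (cub (Fock.std ℚ ι).x (fun i j k => (c i j k : ℚ))) :=
    hm_cub' (fun i => (Fock.std ℚ ι).x_hm w i) _ (fun i j k h => hw i j k (by
      intro h0; apply h; simp [h0]))
  have hsq : cubZ c * cubZ c = 0 := by
    have h1 : (cubZ c * cubZ c).map (Int.cast : ℤ → ℚ) = 0 := by
      rw [imap_mul, eQ]
      exact cub_sq (by norm_num) (Fock.std ℚ ι).anti _
    ext a b
    have h2 := congrFun (congrFun h1 a) b
    simp only [Matrix.map_apply, Matrix.zero_apply] at h2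
    simpa using h2
  have hM : ∀ a b, cubZ c a b ≠ 0 → (Fock.std K ι).deg w a = (Fock.std K ι).deg w b + (3, 0) := by
    intro a b hab
    have h1 := hQ a b (by
      rw [← eQ]
      simpa using hab)
    exact h1
  have h2 := ex_lift (deg := (Fock.std K ι).deg w) p (K := K) hM hsq (P := P) (by
    rw [ep]
    exact hE)
  rw [eK] at h2
  exact h2

end Std

section Lift

theorem cc_lift (p : ℕ) [hp : Fact p.Prime] (K : Type*) [Field K] [CharZero K] {q : ℕ}
    (h : CC (ZMod p) q) : CC K q := by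
  obtain ⟨σ, hσ⟩ := h
  refine ⟨fun i j k => (((σ i j k).val : ℤ) : K), ?_⟩
  apply lift_std p (fun i j k => ((σ i j k).val : ℤ)) 0 (by intros; simp)
  have e : (fun i j k => (((σ i j k).val : ℤ) : ZMod p)) = σ := by
    funext i j k; simp
  rw [e]
  exact hσ

variable {L : Type*} [Field L]

/-- weights on the variables of the glued form -/
def wGT (x y : ℕ) : (Fin (4 * x - 1) ⊕ Fin (4 * y - 1)) ⊕ Unit → ZMod 3 :=
  Sum.elim (Sum.elim 1 0) (fun _ => -1)

theorem gg_to_std {x y N : ℕ} (e : (Fin (4 * x - 1) ⊕ Fin (4 * y - 1)) ⊕ Unit ≃ Fin N)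
    (σ : Fin (4 * x - 1) → Fin (4 * x - 1) → Fin (4 * x - 1) → L)
    (τ : Fin (4 * y - 1) → Fin (4 * y - 1) → Fin (4 * y - 1) → L)
    (T : Fin (4 * x - 1) → Fin (4 * y - 1) → L) (P : Gr → Prop) :
    Ex (dF (St L (4 * x - 1)) (St L (4 * y - 1))) (FF (St L _) (St L _) σ τ T) P ↔
    Ex ((St L N).deg (fun i => wGT x y (e.symm i)))
      (cub (St L N).x (fun i j k => glueT σ τ T (e.symm i) (e.symm j) (e.symm k))) P := by
  set F := St L (4 * x - 1)
  set G := St L (4 * y - 1)
  have d1 : (((F.prod G).prod (Fock.one L)).relabel e).deg (fun i => wGT x y (e.symm i)) =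
      dF F G := by
    rw [Fock.relabel_deg]
    have : (fun i => (fun i => wGT x y (e.symm i)) (e i)) = wGT x y := by
      funext i; simp
    rw [this, prod_deg, prod_deg, dU_one]
    rfl
  constructor
  · intro h
    obtain ⟨Φ, Ψ, h3, h4, h5, h6, h7⟩ :=
      (((F.prod G).prod (Fock.one L)).relabel e).transfer (St L N)
    have h8 : ∀ k, Φ * ((F.prod G).prod (Fock.one L)).x k = (St L N).x (e k) * Φ := by
      intro k
      have := h5 (e k)
      simpa [Fock.relabel] using this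
    refine ex_transfer (degI := dF F G) h3 h4 ?_ ?_ h
    · intro a b hab
      rw [← d1]
      unfold Fock.deg
      rw [h7 a b hab]
    · rw [cub_equiv e, ← cub_conj h8, cub_glueT, FF_prod]
  · intro h
    obtain ⟨Φ, Ψ, h3, h4, h5, h6, h7⟩ :=
      (St L N).transfer (((F.prod G).prod (Fock.one L)).relabel e)
    have h8 : ∀ k, Φ * (St L N).x (e k) = ((F.prod G).prod (Fock.one L)).x k * Φ := by
      intro k
      have := h5 (e k)
      simpa [Fock.relabel] using this
    refine ex_transfer (degI := (St L N).deg (fun i => wGT x y (e.symm i))) h3 h4 ?_ ?_ h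
    · intro a b hab
      rw [← d1]
      unfold Fock.deg
      rw [h7 a b hab]
    · rw [cub_equiv e, cub_conj h8, cub_glueT, FF_prod]

/-- the integral version of `glueT` -/
def glueR {ι₁ ι₂ : Type*} (σ : ι₁ → ι₁ → ι₁ → ℤ) (τ : ι₂ → ι₂ → ι₂ → ℤ) (T : ι₁ → ι₂ → ℤ) :
    (ι₁ ⊕ ι₂) ⊕ Unit → (ι₁ ⊕ ι₂) ⊕ Unit → (ι₁ ⊕ ι₂) ⊕ Unit → ℤ
  | .inl (.inl a), .inl (.inl b), .inl (.inl c) => σ a b c
  | .inl (.inr a), .inl (.inr b), .inl (.inr c) => τ a b c
  | .inr _, .inl (.inl a), .inl (.inr b) => T a b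
  | _, _, _ => 0

theorem glueT_cast {ι₁ ι₂ : Type*} (f : ℤ → L) (h0 : f 0 = 0) (σ : ι₁ → ι₁ → ι₁ → ℤ)
    (τ : ι₂ → ι₂ → ι₂ → ℤ) (T : ι₁ → ι₂ → ℤ) (a b c : (ι₁ ⊕ ι₂) ⊕ Unit) :
    f (glueR σ τ T a b c) = glueT (fun i j k => f (σ i j k)) (fun i j k => f (τ i j k))
      (fun i j => f (T i j)) a b c := by
  rcases a with (a | a) | a <;> rcases b with (b | b) | b <;> rcases c with (c | c) | c <;>
    simp [glueT, glueR, h0]

theorem gg_lift (p : ℕ) [hp : Fact p.Prime] (K : Type*) [Field K] [CharZero K] {x y : ℕ}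
    (h : GG (ZMod p) x y) : GG K x y := by
  obtain ⟨σ, τ, T, hE⟩ := h
  refine ⟨fun i j k => (((σ i j k).val : ℤ) : K), fun i j k => (((τ i j k).val : ℤ) : K),
    fun i j => (((T i j).val : ℤ) : K), ?_⟩
  have e : (Fin (4 * x - 1) ⊕ Fin (4 * y - 1)) ⊕ Unit ≃ Fin ((4 * x - 1) + (4 * y - 1) + 1) :=
    Fintype.equivFinOfCardEq (by simp)
  rw [gg_to_std e]
  rw [gg_to_std e] at hE
  let σZ : Fin (4 * x - 1) → Fin (4 * x - 1) → Fin (4 * x - 1) → ℤ := fun i j k => ((σ i j k).val : ℤ)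
  let τZ : Fin (4 * y - 1) → Fin (4 * y - 1) → Fin (4 * y - 1) → ℤ := fun i j k => ((τ i j k).val : ℤ)
  let TZ : Fin (4 * x - 1) → Fin (4 * y - 1) → ℤ := fun i j => ((T i j).val : ℤ)
  have h1 := lift_std p (K := K)
    (fun i j k => glueR σZ τZ TZ (e.symm i) (e.symm j) (e.symm k))
    (fun i => wGT x y (e.symm i)) (by
      intro i j k hijk
      generalize e.symm i = a at hijk ⊢
      generalize e.symm j = b at hijk ⊢
      generalize e.symm k = c at hijk ⊢
      rcases a with (a | a) | a <;> rcases b with (b | b) | b <;> rcases c with (c | c) | c <;>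
        simp only [glueR, wGT, Sum.elim_inl, Sum.elim_inr, Pi.one_apply, Pi.zero_apply, ne_eq,
          not_true_eq_false] at hijk ⊢ <;> decide)
    (P := fun g => g = ((2 * x - 1 : ℤ) + (2 * y - 1 : ℤ), ((2 * x - 1 : ℤ) : ZMod 3))) (by
      have e1 : (fun i j k => ((glueR σZ τZ TZ (e.symm i) (e.symm j) (e.symm k) : ℤ) : ZMod p)) =
          fun i j k => glueT σ τ T (e.symm i) (e.symm j) (e.symm k) := by
        funext i j k
        rw [glueT_cast (fun z : ℤ => (z : ZMod p)) (by simp)]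
        simp [σZ, τZ, TZ]
      rw [e1]
      exact hE)
  have e2 : (fun i j k => ((glueR σZ τZ TZ (e.symm i) (e.symm j) (e.symm k) : ℤ) : K)) =
      fun i j k => glueT (fun i j k => (((σ i j k).val : ℤ) : K))
        (fun i j k => (((τ i j k).val : ℤ) : K)) (fun i j => (((T i j).val : ℤ) : K))
        (e.symm i) (e.symm j) (e.symm k) := by
    funext i j k
    exact glueT_cast (fun z : ℤ => (z : K)) (by simp) _ _ _ _ _ _
  rw [e2] at h1
  exact h1

end Lift

end Pool.Agent.GC
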