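import Pool.Agent.GC.Tmul
import Pool.Agent.GC.Lift

/-! Exactness from contraction data, and the operator of a bilinear form on one complex. -/

set_option linter.unusedSectionVars false
set_option linter.unusedSimpArgs false
set_option linter.unusedVariables false

namespace Pool.Agent.GC

open Matrix

theorem deg_fst {n : ℕ} (w : Fin n → ZMod 3) (b : Finset (Fin n)) :
    ((St (ZMod 7) n).deg w b).1 = (b.card : ℤ) := rfl

/-- exactness below the degree `lo` -/
theorem ex_lo {D : Dat} (hc : ∀ m < Nat.pow 2 D.n, D.c1 m = true) (hl : D.lo ≤ D.hi + 1)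
    (w : Fin D.n → ZMod 3) : Ex ((St (ZMod 7) D.n).deg w) D.E (fun g => g.1 < (D.lo : ℤ)) := by
  intro v hv hdv
  have h1 : D.pi *ᵥ v = 0 := by
    have h2 : D.pi *ᵥ v = (0 : Matrix _ _ (ZMod 7)) *ᵥ v := by
      apply mulVec_congr
      intro a b hb
      have h3 : (b.card : ℤ) < (D.lo : ℤ) := hv b hb
      have h4 : b.card < D.lo := by exact_mod_cast h3
      exact Dat.pi_lo hc h4 (by omega) a
    rw [h2, Matrix.zero_mulVec]
  unfold Dat.pi at h1
  rw [Matrix.sub_mulVec, Matrix.add_mulVec, Matrix.one_mulVec, ← Matrix.mulVec_mulVec,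
    ← Matrix.mulVec_mulVec, hdv, Matrix.mulVec_zero, add_zero] at h1
  exact ⟨_, (sub_eq_zero.mp h1).symm⟩

/-- columns of a bilinear form -/
def ocW (Ω : ℕ → SV) : ℕ → SV → SV
  | 0, _ => []
  | n + 1, L => bindS (colX n) (bindS (colL (Ω n)) L) ++ ocW Ω n L

theorem bil_Tco (n : ℕ) (Ω : ℕ → SV) :
    bil (St (ZMod 7) n).x (St (ZMod 7) n).x (Tco n n Ω) =
      ∑ i ∈ Finset.range n, ex0 (Fock.cr (ZMod 7) (ι := Fin n)) i *
        lin (ex0 (Fock.cr (ZMod 7) (ι := Fin n))) (Ω i) := by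
  unfold bil
  rw [Finset.sum_range]
  apply Finset.sum_congr rfl
  intro i _
  have e1 : ex0 (Fock.cr (ZMod 7) (ι := Fin n)) (i : ℕ) = Fock.cr (ZMod 7) i := by
    unfold ex0
    rw [dif_pos i.isLt]
  rw [e1, ← sum_lin, Matrix.mul_sum]
  apply Finset.sum_congr rfl
  intro j _
  rw [Matrix.mul_smul]
  rfl

theorem ocW_lin {n : ℕ} (Ω : ℕ → SV) (k : ℕ) (L : SV) :
    (∑ i ∈ Finset.range k, ex0 (Fock.cr (ZMod 7) (ι := Fin n)) i *
        lin (ex0 (Fock.cr (ZMod 7) (ι := Fin n))) (Ω i)) *ᵥ lin (bJ n).g L =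
      lin (bJ n).g (ocW Ω k L) := by
  induction k with
  | zero => simp [ocW, lin]
  | succ k ih =>
    rw [Finset.sum_range_succ, Matrix.add_mulVec, ih, ← Matrix.mulVec_mulVec, colL_lin, colX_lin]
    simp only [ocW, lin_append]
    abel

/-- injectivity of one square matrix -/
theorem ninj1 {b b' n PT UT : ℕ} {Y : ℕ → SV} {S : ℕ → ℕ → ℕ}
    (hY : ∀ e, (Y e).length ≤ 64) (hS : ∀ u t i, dg i (S u t) ≤ 7)
    (hchk : ∀ e < b, chkS 1 b n (fun _ _ => [(0, 1)]) (fun _ => Y) (gS 1 b' S) PT UT 0 e = true)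
    {x : Fin b → ZMod 7} (hx : ((bF b').mat (bF b) Y) *ᵥ x = 0) : x = 0 := by
  have h1 := ninj (K := 1) (a := 1) (b := b) (a' := 1) (b' := b') (n := n) (PT := PT) (UT := UT)
    (Mt := fun _ _ => [(0, 1)]) (Yt := fun _ => Y) (S := S) (by norm_num) (by intros; simp)
    (by intro _ e; exact hY e) hS (by
      intro φ hφ e he
      have : φ = 0 := by omega
      subst this
      exact hchk e he) (x := fun s => x s.2) (by
      rw [Finset.sum_range_one]
      funext p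
      have h2 := congrFun hx p.2
      simp only [Matrix.mulVec, dotProduct, Pi.zero_apply] at h2 ⊢
      rw [Fintype.sum_prod_type]
      simp only [Matrix.kroneckerMap_apply, mul_assoc]
      simp only [← Finset.mul_sum, h2, mul_zero, Finset.sum_const_zero])
  funext e
  exact congrFun h1 (0, e)

theorem hinj_W {D : Dat} (hc : ∀ m < Nat.pow 2 D.n, D.c1 m = true) (Ω : ℕ → SV)
    {t s N PT UT : ℕ} (ht : ¬ t < D.lo) (ht' : t ≤ D.hi)
    (h2 : ∀ m < Nat.pow 2 D.n, D.c2 s m = true) {Y : ℕ → SV} {S : ℕ → ℕ → ℕ}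
    (cY : ∀ e < D.r t, D.c3 (ocW Ω D.n) t s Y e = true)
    (hY : ∀ e, (Y e).length ≤ 64) (hS : ∀ u t i, dg i (S u t) ≤ 7)
    (hchk : ∀ e < D.r t, chkS 1 (D.r t) N (fun _ _ => [(0, 1)]) (fun _ => Y)
      (gS 1 (D.r s) S) PT UT 0 e = true) :
    HInj ((St (ZMod 7) D.n).deg 0) D.E
      (bil (St (ZMod 7) D.n).x (St (ZMod 7) D.n).x (Tco D.n D.n Ω)) (fun g => g.1 = (t : ℤ)) := by
  refine hinj_crit (i := D.i t) (p := D.p t) (p' := D.p s) ?_ ?_ (Dat.p_E h2) ?_
  · exact cub_bil_comm (fun i j => (St (ZMod 7) D.n).anti j i)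
      (fun i j => (St (ZMod 7) D.n).anti j i) _ _
  · intro v hv hdv
    refine ⟨D.h *ᵥ v, ?_⟩
    have h1 : D.pi *ᵥ v = D.i t *ᵥ (D.p t *ᵥ v) := by
      rw [Matrix.mulVec_mulVec]
      apply mulVec_congr
      intro a b hb
      have h3 : (b.card : ℤ) = (t : ℤ) := hv b hb
      have h4 : b.card = t := by exact_mod_cast h3
      subst h4
      exact Dat.pi_eq hc ht ht' a
    rw [← h1]
    unfold Dat.pi
    rw [Matrix.sub_mulVec, Matrix.add_mulVec, Matrix.one_mulVec, ← Matrix.mulVec_mulVec,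
      ← Matrix.mulVec_mulVec, hdv, Matrix.mulVec_zero, add_zero]
    abel
  · intro x hx
    rw [bil_Tco, Dat.p_op_i (ocW_lin Ω D.n) cY] at hx
    exact ninj1 hY hS hchk hx

end Pool.Agent.GC
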