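import Pool.Agent.GC.ROne

/-! The induction over all `q`. -/

set_option linter.unusedSectionVars false
set_option linter.unusedSimpArgs false
set_option linter.unusedVariables false

namespace Pool.Agent.GC

section

variable {K : Type*} [Field K] [Infinite K]

theorem ss_diag (h2 : (2 : K) ≠ 0) (h11 : SS K 1 1) {N : ℕ} (hN : ∀ q, 1 ≤ q → q ≤ N → CC K q) :
    ∀ q, 1 ≤ q → q ≤ N → SS K q q := by
  intro q
  induction q with
  | zero => intro h; omega
  | succ q ih =>
    intro _ hq
    by_cases h0 : q = 0
    · subst h0; exact h11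
    · exact pert h2 (r_one h2 (by omega) (by omega) le_rfl le_rfl (ih (by omega) (by omega)) h11)
        (hN _ (by omega) hq) (hN _ (by omega) hq)

theorem ss_next (h2 : (2 : K) ≠ 0) (h11 : SS K 1 1) (h23 : SS K 2 3) {N : ℕ}
    (hN : ∀ q, 1 ≤ q → q ≤ N → CC K q) : ∀ q, 2 ≤ q → q + 1 ≤ N → SS K q (q + 1) := by
  intro q
  induction q with
  | zero => intro h; omega
  | succ q ih =>
    intro h hq
    by_cases h0 : q = 1
    · subst h0; exact h23
    · exact pert h2 (r_one h2 (by omega) (by omega) le_rfl le_rfl (ih (by omega) (by omega)) h11)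
        (hN _ (by omega) (by omega)) (hN _ (by omega) hq)

/-- the minimal forms exist for all `q` -/
theorem all_cc (h2 : (2 : K) ≠ 0) (c1 : CC K 1) (c3 : CC K 3) (g11 : GG K 1 1)
    (g23 : GG K 2 3) : ∀ q, 1 ≤ q → CC K q := by
  have h11 : SS K 1 1 := pert h2 g11 c1 c1
  have c2 : CC K 2 := ss_cc h2 le_rfl le_rfl h11
  have h23 : SS K 2 3 := pert h2 g23 c2 c3
  intro q
  induction q using Nat.strong_induction_on with
  | _ q ih =>
    intro hq
    by_cases q1 : q = 1
    · subst q1; exact c1
    by_cases q3 : q = 3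
    · subst q3; exact c3
    rcases Nat.even_or_odd' q with ⟨x, hx | hx⟩
    · have hS := ss_diag h2 h11 (N := x) (fun m h1 h2 => ih m (by omega) h1) x (by omega) le_rfl
      have := ss_cc h2 (by omega) (by omega) hS
      rw [hx, two_mul]; exact this
    · have hS := ss_next h2 h11 h23 (N := x + 1) (fun m h1 h2 => ih m (by omega) h1) x (by omega)
        le_rfl
      have := ss_cc h2 (by omega) (by omega) hS
      have e : q = x + (x + 1) := by omega
      rw [e]; exact this

end

end Pool.Agent.GC
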