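import Pool.Agent.GC.Hilb
import Pool.Agent.GC.Induct

/-! The generic Hilbert series, from the existence of minimal forms. -/

set_option linter.unusedSectionVars false
set_option linter.unusedSimpArgs false
set_option linter.unusedVariables false

namespace Pool.Agent.GC

open Polynomial

section

variable {K : Type*} [Field K]

/-- direct sum of two forms -/
def glueS {ι₁ ι₂ : Type*} (σ₁ : ι₁ → ι₁ → ι₁ → K) (σ₂ : ι₂ → ι₂ → ι₂ → K) :
    ι₁ ⊕ ι₂ → ι₁ ⊕ ι₂ → ι₁ ⊕ ι₂ → K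
  | .inl a, .inl b, .inl c => σ₁ a b c
  | .inr a, .inr b, .inr c => σ₂ a b c
  | _, _, _ => 0

theorem cub_glueS {A : Type*} [Ring A] [Algebra K A] {ι₁ ι₂ : Type*} [Fintype ι₁] [Fintype ι₂]
    (σ₁ : ι₁ → ι₁ → ι₁ → K) (σ₂ : ι₂ → ι₂ → ι₂ → K) (x : ι₁ ⊕ ι₂ → A) :
    cub x (glueS σ₁ σ₂) = cub (fun i => x (.inl i)) σ₁ + cub (fun i => x (.inr i)) σ₂ := by
  unfold cub
  simp [Fintype.sum_sum_type, glueS]

/-- there is a cubic form in `n` variables exact in the degrees below `l` -/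
def Ef (K : Type*) [Field K] (n l : ℕ) : Prop :=
  ∃ c : Fin n → Fin n → Fin n → K, Ex (dc n) (cub (Fock.cr K) c) (fun g => g.1 < (l : ℤ))

theorem dsum (h2 : (2 : K) ≠ 0) {n1 n2 : ℕ} {l1 l2 : ℤ} {σ : Fin n1 → Fin n1 → Fin n1 → K}
    {τ : Fin n2 → Fin n2 → Fin n2 → K}
    (h1 : Ex (dc n1) (cub (Fock.cr K) σ) (fun g => g.1 < l1))
    (h3 : Ex (dc n2) (cub (Fock.cr K) τ) (fun g => g.1 < l2)) :
    ∃ c : Fin (n1 + n2) → Fin (n1 + n2) → Fin (n1 + n2) → K,
      Ex (dc (n1 + n2)) (cub (Fock.cr K) c) (fun g => g.1 < l1 + l2) := by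
  set F := St K n1 with hF
  set G := St K n2 with hG
  rw [← dc_eq (K := K)] at h1 h3
  have hm1 := hm_cubG F σ
  have hm2 := hm_cubG G τ
  have hE := ex_prod (δ := (3, 0)) (P := fun g => g.1 < l1 + l2) (by decide) hm1
    (cub_sq h2 F.anti σ) hm2 (cub_sq h2 G.anti τ) h1 h3 (by
      intro g1 g2 h
      simp only [Prod.fst_add] at h
      by_contra hc
      push Not at hc
      omega)
  let e : Fin n1 ⊕ Fin n2 ≃ Fin (n1 + n2) := finSumFinEquiv
  obtain ⟨Φ, Ψ, k1, k2, k3, k4, k5⟩ := ((F.prod G).relabel e).transfer (St K (n1 + n2))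
  have k8 : ∀ k, Φ * (F.prod G).x k = (St K (n1 + n2)).x (e k) * Φ := by
    intro k
    have := k3 (e k)
    simpa [Fock.relabel] using this
  refine ⟨fun i j k => glueS σ τ (e.symm i) (e.symm j) (e.symm k), ?_⟩
  rw [← dc_eq (K := K)]
  refine ex_transfer (degI := ((F.prod G).relabel e).deg 0) k1 k2 ?_ ?_ (ex_deg ?_ hE)
  · intro a b hab
    unfold Fock.deg
    rw [k5 a b hab]
  · change _ = cub (St K (n1 + n2)).x _ * Φ
    rw [cub_equiv e, ← cub_conj k8, cub_glueS]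
    congr 1
    have e1 : (fun i => (F.prod G).x (.inl i)) = fun i => kr (F.x i) (1 : Matrix _ _ K) := rfl
    have e2 : (fun i => (F.prod G).x (.inr i)) = fun i => kr (sg K (F.deg 0)) (G.x i) := rfl
    rw [e1, e2, cub_kr_one, cub_kr_sg]
    rfl
  · intro a ha
    rw [Fock.relabel_deg, prod_deg] at ha
    exact ha

theorem Ef.add (h2 : (2 : K) ≠ 0) {n1 n2 l1 l2 : ℕ} (h : Ef K n1 l1) (h' : Ef K n2 l2) :
    Ef K (n1 + n2) (l1 + l2) := by
  obtain ⟨σ, hσ⟩ := h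
  obtain ⟨τ, hτ⟩ := h'
  obtain ⟨c, hc⟩ := dsum h2 hσ hτ
  exact ⟨c, hc.mono (by intro x hx; push_cast at hx; exact hx)⟩

theorem hilb_of_ex (h2 : (2 : K) ≠ 0) {n l : ℕ} (hl : n ≤ 2 * l + 2) (hEf : Ef K n l)
    (hL : ∀ i, (i < l ∨ l + 2 < i) → (LL n).coeff i = 0)
    (hd : (1 + X ^ 3 : ℤ[X]) ∣ (1 + X) ^ n + X ^ 3 * LL n) :
    ∃ P : MvPolynomial (Set.powersetCard (Fin n) 3) K, P ≠ 0 ∧
      ∀ f : ⋀[K]^3 (Fin n → K), MvPolynomial.eval (cf K n f) P ≠ 0 →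
        hs K n f * (1 + X ^ 3) = (1 + X) ^ n + X ^ 3 * LL n := by
  obtain ⟨c, hE⟩ := hEf
  obtain ⟨P, hP, hPf⟩ := generic_ex h2 c hE
  refine ⟨P, hP, ?_⟩
  intro f hf
  obtain ⟨f1, f2⟩ := hPf f hf
  have hmain := main_identity h2 f.2
  rw [hmain]
  have : HH K n f = LL n := by
    refine eq_of_dvd (l := l) ?_ hL (A := (1 + X) ^ n) ?_ hd
    · intro i hi
      unfold HH
      rw [coeff_sum']
      by_cases hin : i < n + 1
      · rw [if_pos hin, zz_eq_bb h2 f.2, sub_self]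
        rcases hi with hi | hi
        · exact f1.mono (by intro x hx; omega)
        · exact f2.mono (by intro x hx; omega)
      · rw [if_neg hin]
    · exact ⟨hs K n f, by rw [← hmain]; ring⟩
  rw [this]

theorem coeff_aux {q : ℤ[X]} (hq : q.natDegree ≤ 2) (m i : ℕ) (hi : i < m ∨ m + 2 < i) :
    (q * X ^ m).coeff i = 0 := by
  rw [Polynomial.coeff_mul_X_pow']
  split_ifs with h
  · apply Polynomial.coeff_eq_zero_of_natDegree_lt
    omega
  · rfl

theorem LL_three (q : ℕ) (hq : 1 ≤ q) : LL (4 * q - 1) = (1 + X) * (3 * X) ^ (2 * q - 1) := by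
  have h1 : (4 * q - 1) % 4 = 3 := by omega
  have h2 : (4 * q - 1) / 4 = q - 1 := by omega
  unfold LL
  rw [h1, h2]
  have h3 : 2 * (q - 1) + 1 = 2 * q - 1 := by omega
  simp only [h3]

theorem LL_zero (q : ℕ) : LL (4 * q) = (1 + X) ^ 2 * (3 * X) ^ (2 * q - 1) := by
  have h1 : (4 * q) % 4 = 0 := by omega
  have h2 : (4 * q) / 4 = q := by omega
  unfold LL
  simp only [h1, h2]

theorem LL_two (q : ℕ) : LL (4 * q + 2) = (1 + X) ^ 2 * (3 * X) ^ (2 * q) := by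
  have h1 : (4 * q + 2) % 4 = 2 := by omega
  have h2 : (4 * q + 2) / 4 = q := by omega
  unfold LL
  simp only [h1, h2]

theorem LL_form (a m : ℕ) (ha : a ≤ 2) : ∀ i, (i < m ∨ m + 2 < i) →
    ((1 + X : ℤ[X]) ^ a * (3 * X) ^ m).coeff i = 0 := by
  intro i hi
  have e : (1 + X : ℤ[X]) ^ a * (3 * X) ^ m = ((1 + X) ^ a * C (3 ^ m)) * X ^ m := by
    rw [mul_pow]
    simp only [map_pow, map_ofNat]
    ring
  rw [e]
  apply coeff_aux _ m i hi
  refine (Polynomial.natDegree_mul_C_le _ _).trans ?_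
  refine (Polynomial.natDegree_pow_le).trans ?_
  have : (1 + X : ℤ[X]).natDegree ≤ 1 := by
    rw [add_comm]
    exact (Polynomial.natDegree_X_add_C (1 : ℤ)).le
  calc a * (1 + X : ℤ[X]).natDegree ≤ a * 1 := Nat.mul_le_mul_left _ this
    _ ≤ 2 := by omega

/-- the generic Hilbert series, `n` not congruent to `1` modulo `4`, from the minimal forms -/
theorem generic_hilbert (h2 : (2 : K) ≠ 0) (hC : ∀ q, 1 ≤ q → CC K q) {n : ℕ} (hn : 3 ≤ n)
    (hn1 : n % 4 ≠ 1) :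
    ∃ P : MvPolynomial (Set.powersetCard (Fin n) 3) K, P ≠ 0 ∧
      ∀ f : ⋀[K]^3 (Fin n → K), MvPolynomial.eval (cf K n f) P ≠ 0 →
        hs K n f * (1 + X ^ 3) = (1 + X) ^ n + X ^ 3 * LL n := by
  have hC' : ∀ q, 1 ≤ q → Ef K (4 * q - 1) (2 * q - 1) := by
    intro q hq
    obtain ⟨σ, hσ⟩ := hC q hq
    rw [dc_eq] at hσ
    refine ⟨σ, hσ.mono ?_⟩
    intro x hx
    omega
  have hdiv : n % 4 = 0 ∨ n % 4 = 2 ∨ n % 4 = 3 := by omega
  rcases hdiv with h | h | h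
  · -- `n = 4q`
    obtain ⟨q, rfl⟩ : ∃ q, n = 4 * q := ⟨n / 4, by omega⟩
    have h0 : Ef K 1 0 := by
      refine ⟨0, ?_⟩
      intro v hv _
      refine ⟨0, ?_⟩
      rw [Matrix.mulVec_zero]
      funext a
      by_contra h3
      have := hv a (fun h => h3 h.symm)
      simp only [dc] at this
      omega
    have h1 := (hC' q (by omega)).add h2 h0
    have e : 4 * q - 1 + 1 = 4 * q := by omega
    rw [e, add_zero] at h1
    refine hilb_of_ex h2 (l := 2 * q - 1) (by omega) h1 ?_ ?_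
    · rw [LL_zero]
      exact LL_form 2 (2 * q - 1) le_rfl
    · rw [LL_zero]
      have h5 := dvd_odd (2 * q - 1)
      obtain ⟨a, ha⟩ := h5
      have e1 : (1 + X : ℤ[X]) ^ (4 * q) = (1 + X) * (1 + X) ^ (2 * (2 * q - 1) + 1) := by
        rw [← pow_succ']
        congr 1
        omega
      rw [e1]
      exact ⟨(1 + X) * a + (1 + X) ^ 2 * (3 * X) ^ (2 * q - 1), by
        linear_combination (1 + X) * ha⟩
  · obtain ⟨q, rfl⟩ : ∃ q, n = 4 * q + 2 := ⟨n / 4, by omega⟩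
    have h1 := (hC' q (by omega)).add h2 (hC' 1 le_rfl)
    have e : 4 * q - 1 + (4 * 1 - 1) = 4 * q + 2 := by omega
    have e' : 2 * q - 1 + (2 * 1 - 1) = 2 * q := by omega
    rw [e, e'] at h1
    refine hilb_of_ex h2 (l := 2 * q) (by omega) h1 ?_ ?_
    · rw [LL_two]
      exact LL_form 2 (2 * q) le_rfl
    · rw [LL_two]
      have h5 := dvd_odd (2 * q)
      obtain ⟨a, ha⟩ := h5
      have e1 : (1 + X : ℤ[X]) ^ (4 * q + 2) = (1 + X) * (1 + X) ^ (2 * (2 * q) + 1) := by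
        rw [← pow_succ']
        congr 1
        omega
      rw [e1]
      exact ⟨(1 + X) * a + (1 + X) ^ 2 * (3 * X) ^ (2 * q), by
        linear_combination (1 + X) * ha⟩
  · obtain ⟨q, hq, rfl⟩ : ∃ q, 1 ≤ q ∧ n = 4 * q - 1 := ⟨n / 4 + 1, by omega, by omega⟩
    refine hilb_of_ex h2 (l := 2 * q - 1) (by omega) (hC' q hq) ?_ ?_
    · rw [LL_three q hq]
      have := LL_form 1 (2 * q - 1) (by norm_num)
      simpa using this
    · rw [LL_three q hq]
      have h5 := dvd_odd (2 * q - 1)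
      have e1 : 2 * (2 * q - 1) + 1 = 4 * q - 1 := by omega
      rw [e1] at h5
      obtain ⟨a, ha⟩ := h5
      exact ⟨a + (1 + X) * (3 * X) ^ (2 * q - 1), by linear_combination ha⟩

end

end Pool.Agent.GC
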