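import Pool.Agent.GC.SDefs
import Pool.Agent.GC.Final

/-! The generic Hilbert series, in the form used in the statement. -/

namespace Pool.Agent.GC

open Polynomial

theorem hser_eq (K : Type*) [Field K] (n : ℕ) (f : ExteriorAlgebra K (Fin n → K)) :
    hser K (Fin n → K) n f = hs K n f := rfl

/-- the form with given coordinates -/
noncomputable def fof (K : Type*) [Field K] (n : ℕ) (c : Set.powersetCard (Fin n) 3 → K) :
    ⋀[K]^3 (Fin n → K) :=
  ∑ s, c s • ((Pi.basisFun K (Fin n)).exteriorPower 3) s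

theorem cf_fof (K : Type*) [Field K] (n : ℕ) (c : Set.powersetCard (Fin n) 3 → K) :
    cf K n (fof K n c) = c := by
  funext s
  unfold fof
  change ((Pi.basisFun K (Fin n)).exteriorPower 3).repr _ s = _
  rw [Module.Basis.repr_sum_self]

theorem coe_fof (K : Type*) [Field K] (n : ℕ) (c : Set.powersetCard (Fin n) 3 → K) :
    (fof K n c : ExteriorAlgebra K (Fin n → K))
      = cubic K (Fin n → K) (fun i => Pi.single i 1) c := by
  unfold fof cubic mono
  rw [Submodule.coe_sum]
  refine Finset.sum_congr rfl ?_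
  intro s _
  rw [Submodule.coe_smul]
  congr 1
  have hb : (⇑(Pi.basisFun K (Fin n)) : Fin n → Fin n → K) = fun i => Pi.single i 1 := by
    funext i
    simp [Pi.basisFun_apply]
  rw [← hb]
  simp

theorem restate {K : Type*} [Field K] {n : ℕ} {R : ℤ[X]}
    (h : ∃ P : MvPolynomial (Set.powersetCard (Fin n) 3) K, P ≠ 0 ∧
      ∀ f : ⋀[K]^3 (Fin n → K), MvPolynomial.eval (cf K n f) P ≠ 0 →
        hs K n f * (1 + X ^ 3) = R) :
    ∃ P : MvPolynomial (Set.powersetCard (Fin n) 3) K, P ≠ 0 ∧
      ∀ c : Set.powersetCard (Fin n) 3 → K, MvPolynomial.eval c P ≠ 0 →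
        hser K (Fin n → K) n (cubic K (Fin n → K) (fun i => Pi.single i 1) c) * (1 + X ^ 3)
          = R := by
  obtain ⟨P, hP, h⟩ := h
  refine ⟨P, hP, ?_⟩
  intro c hc
  have := h (fof K n c) (by rw [cf_fof]; exact hc)
  rw [coe_fof] at this
  exact this

end Pool.Agent.GC
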