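import Pool.Agent.GC.Kun

/-! Exactness is an open condition; exactness modulo `p` implies exactness in characteristic 0. -/

set_option linter.unusedSectionVars false
set_option linter.unusedSimpArgs false
set_option linter.unusedVariables false

namespace Pool.Agent.GC

open Matrix

section

variable {K : Type*} [Field K] {I : Type*} [Fintype I] [DecidableEq I] {deg : I → Gr}

/-- a homotopy that is injective on the vectors of the given degrees forces exactness -/
theorem ex_of_inj {δ : Gr} {d h : Matrix I I K} (hd : Hm deg δ d) (hh : Hm deg (-δ) h)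
    (hdd : d * d = 0) {P : Gr → Prop}
    (hN : ∀ v, Sup deg P v → (d * h + h * d) *ᵥ v = 0 → v = 0) : Ex deg d P := by
  classical
  -- cycles and boundaries supported in `P`
  let S : Submodule K (I → K) :=
    { carrier := {v | Sup deg P v}
      add_mem' := by
        intro v w hv hw a ha
        by_cases h0 : v a = 0
        · exact hw a (fun h1 => ha (by simp [h0, h1]))
        · exact hv a h0
      zero_mem' := by intro a ha; simp at ha
      smul_mem' := by
        intro r v hv a ha
        exact hv a (fun h1 => ha (by simp [h1])) }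
  let Z : Submodule K (I → K) := S ⊓ LinearMap.ker (Matrix.toLin' d)
  let B : Submodule K (I → K) := S ⊓ LinearMap.range (Matrix.toLin' d)
  have hBZ : B ≤ Z := by
    rintro v ⟨h1, w, hw⟩
    refine ⟨h1, ?_⟩
    rw [SetLike.mem_coe, LinearMap.mem_ker, ← hw, Matrix.toLin'_apply, Matrix.toLin'_apply,
      Matrix.mulVec_mulVec, hdd, Matrix.zero_mulVec]
  have hN0 : Hm deg 0 (d * h + h * d) :=
    ((hd.mul hh).congr (by abel)).add ((hh.mul hd).congr (by abel))
  have hmap : ∀ v ∈ Z, (Matrix.toLin' (d * h + h * d)) v ∈ B := by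
    rintro v ⟨h1, h2⟩
    rw [SetLike.mem_coe, LinearMap.mem_ker, Matrix.toLin'_apply] at h2
    refine ⟨?_, h *ᵥ v, ?_⟩
    · exact Sup.mulVec hN0 h1 (by intro g hg; simpa using hg)
    · rw [Matrix.toLin'_apply, Matrix.toLin'_apply, Matrix.add_mulVec, ← Matrix.mulVec_mulVec,
        ← Matrix.mulVec_mulVec v h d, h2, Matrix.mulVec_zero, add_zero]
  let f : Z →ₗ[K] B := LinearMap.restrict (Matrix.toLin' (d * h + h * d)) hmap
  have hf : Function.Injective f := by
    rw [injective_iff_map_eq_zero]
    rintro ⟨v, hv⟩ h0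
    have h1 := congrArg Subtype.val h0
    apply Subtype.ext
    apply hN v hv.1
    exact h1
  have h1 : Module.finrank K Z ≤ Module.finrank K B := LinearMap.finrank_le_finrank_of_injective hf
  have h2 : B = Z := Submodule.eq_of_le_of_finrank_le hBZ h1
  intro v hv hdv
  have h3 : v ∈ Z := ⟨hv, by rw [SetLike.mem_coe, LinearMap.mem_ker, Matrix.toLin'_apply]; exact hdv⟩
  rw [← h2] at h3
  obtain ⟨w, hw⟩ := h3.2
  exact ⟨w, by rw [← Matrix.toLin'_apply]; exact hw⟩

theorem exists_homotopy {δ : Gr} {d : Matrix I I K} (hd : Hm deg δ d) (hdd : d * d = 0)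
    {P : Gr → Prop} (hE : Ex deg d P) :
    ∃ h : Matrix I I K, Hm deg (-δ) h ∧ ∀ b, P (deg b) → ∀ a, (d * h + h * d : Matrix I I K) a b = (1 : Matrix I I K) a b := by
  obtain ⟨h, π, hh, hπ, hs, hpd, hdp, hpp⟩ := exists_sdr hd hdd
  refine ⟨h, hh, ?_⟩
  intro b hb a
  have h0 := sdr_zero' hπ hpd hdp hpp hE b hb a
  have h1 := congrFun (congrFun hs a) b
  rw [Matrix.add_apply, h0, add_zero] at h1
  exact h1

/-- the block of a matrix on the degrees in `P` -/
def blk (deg : I → Gr) (P : Gr → Prop) (N : Matrix I I K) :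
    Matrix {a // P (deg a)} {a // P (deg a)} K := N.submatrix Subtype.val Subtype.val

theorem inj_of_det {P : Gr → Prop} [DecidablePred P] {N : Matrix I I K} (h : (blk deg P N).det ≠ 0)
    {v : I → K} (hv : Sup deg P v) (h0 : N *ᵥ v = 0) : v = 0 := by
  have h1 : blk deg P N *ᵥ (fun a => v a.1) = 0 := by
    funext a
    have h2 := congrFun h0 a.1
    rw [Pi.zero_apply] at h2 ⊢
    rw [← h2]
    simp only [Matrix.mulVec, dotProduct, blk, Matrix.submatrix_apply]
    rw [← Finset.sum_subtype (Finset.univ.filter fun b => P (deg b)) (by simp)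
      (fun b => N a.1 b * v b)]
    apply Finset.sum_subset (Finset.filter_subset _ _)
    intro b _ hb
    by_cases h3 : v b = 0
    · simp [h3]
    · exact absurd (by simpa using hv b h3) hb
  have h2 : (fun a : {a // P (deg a)} => v a.1) = 0 :=
    Matrix.eq_zero_of_mulVec_eq_zero h h1
  funext a
  by_contra h3
  exact h3 (congrFun h2 ⟨a, hv a h3⟩)

/-- exactness is an open condition in a linear family -/
theorem det_family (A B : Matrix I I K) {P : Gr → Prop} [DecidablePred P] (ε : K) :
    Polynomial.eval ε (Matrix.det ((blk deg P A).map Polynomial.C +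
      (Polynomial.X : Polynomial K) • (blk deg P B).map Polynomial.C)) =
      (blk deg P (A + ε • B)).det := by
  have h1 : ∀ q : Polynomial K, q.eval ε = (Polynomial.evalRingHom ε) q := fun q => rfl
  rw [h1, RingHom.map_det]
  congr 1
  ext a b
  simp only [RingHom.mapMatrix_apply, Matrix.map_apply, Matrix.add_apply, Matrix.smul_apply,
    blk, Matrix.submatrix_apply, smul_eq_mul, map_add, map_mul, Polynomial.coe_evalRingHom,
    Polynomial.eval_C, Polynomial.eval_X, Polynomial.eval_mul]

theorem ex_open {δ : Gr} {A B : Matrix I I K} (hA : Hm deg δ A) (hB : Hm deg δ B)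
    (hsq : ∀ ε : K, (A + ε • B) * (A + ε • B) = 0) {P : Gr → Prop} (ε₀ : K)
    (hE : Ex deg (A + ε₀ • B) P) : {ε : K | ¬ Ex deg (A + ε • B) P}.Finite := by
  classical
  obtain ⟨h, hh, hhh⟩ := exists_homotopy (hA.add (hB.smul ε₀)) (hsq ε₀) hE
  let N0 : Matrix I I K := A * h + h * A
  let N1 : Matrix I I K := B * h + h * B
  have hN : ∀ ε : K, (A + ε • B) * h + h * (A + ε • B) = N0 + ε • N1 := by
    intro ε
    simp only [N0, N1, add_mul, mul_add, Matrix.smul_mul, Matrix.mul_smul, smul_add]
    abel
  let p : Polynomial K := (Matrix.det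
    ((blk deg P N0).map Polynomial.C + (Polynomial.X : Polynomial K) • (blk deg P N1).map Polynomial.C))
  have hp : ∀ ε, p.eval ε = (blk deg P (N0 + ε • N1)).det := fun ε => det_family N0 N1 ε
  have hp0 : p ≠ 0 := by
    intro h0
    have h1 := hp ε₀
    rw [h0, Polynomial.eval_zero] at h1
    have h2 : blk deg P (N0 + ε₀ • N1) = 1 := by
      ext a b
      have h3 := hhh b.1 b.2 a.1
      rw [hN] at h3
      simp only [blk, Matrix.submatrix_apply]
      rw [h3]
      by_cases hab : a = b
      · subst hab; rw [Matrix.one_apply_eq, Matrix.one_apply_eq]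
      · rw [Matrix.one_apply_ne hab, Matrix.one_apply_ne (fun h => hab (Subtype.ext h))]
    rw [h2, Matrix.det_one] at h1
    exact zero_ne_one h1
  apply (p.roots.toFinset.finite_toSet).subset
  intro ε hε
  rw [Finset.mem_coe, Multiset.mem_toFinset, Polynomial.mem_roots hp0, Polynomial.IsRoot.def]
  by_contra hne
  apply hε
  apply ex_of_inj (hA.add (hB.smul ε)) hh (hsq ε)
  intro v hv h0
  rw [hN] at h0
  apply inj_of_det _ hv h0
  rw [← hp]; exact hne

end

theorem imap_mul {I : Type*} [Fintype I] {R : Type*} [Ring R] (A B : Matrix I I ℤ) :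
    (A * B).map (Int.cast : ℤ → R) = A.map (Int.cast : ℤ → R) * B.map (Int.cast : ℤ → R) := by
  ext a b
  simp [Matrix.mul_apply]

/-- exactness modulo `p` implies exactness in characteristic 0 -/
theorem ex_lift {I : Type*} [Fintype I] [DecidableEq I] {deg : I → Gr} (p : ℕ) [hp : Fact p.Prime]
    {K : Type*} [Field K] [CharZero K] {δ : Gr} {M : Matrix I I ℤ}
    (hM : ∀ a b, M a b ≠ 0 → deg a = deg b + δ) (hsq : M * M = 0) {P : Gr → Prop}
    (hE : Ex deg (M.map (Int.cast : ℤ → ZMod p)) P) : Ex deg (M.map (Int.cast : ℤ → K)) P := by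
  classical
  have hMp : Hm deg δ (M.map (Int.cast : ℤ → ZMod p)) := by
    intro a b hab
    apply hM
    intro h0
    apply hab
    simp [h0]
  have hMK : Hm deg δ (M.map (Int.cast : ℤ → K)) := by
    intro a b hab
    apply hM
    intro h0
    apply hab
    simp [h0]
  have hsqp : M.map (Int.cast : ℤ → ZMod p) * M.map (Int.cast : ℤ → ZMod p) = 0 := by
    rw [← imap_mul, hsq]; ext; simp
  have hsqK : M.map (Int.cast : ℤ → K) * M.map (Int.cast : ℤ → K) = 0 := by
    rw [← imap_mul, hsq]; ext; simp
  obtain ⟨h, hh, hhh⟩ := exists_homotopy hMp hsqp hE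
  -- lift the homotopy
  let H : Matrix I I ℤ := Matrix.of fun a b => ((h a b).val : ℤ)
  have hH : H.map (Int.cast : ℤ → ZMod p) = h := by
    ext a b
    simp [H]
  have hHK : Hm deg (-δ) (H.map (Int.cast : ℤ → K)) := by
    intro a b hab
    apply hh
    intro h0
    apply hab
    simp [H, h0]
  let N : Matrix I I ℤ := M * H + H * M
  have hNK : N.map (Int.cast : ℤ → K) =
      M.map (Int.cast : ℤ → K) * H.map (Int.cast : ℤ → K) +
        H.map (Int.cast : ℤ → K) * M.map (Int.cast : ℤ → K) := by
    rw [← imap_mul, ← imap_mul]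
    ext a b
    simp [N]
  have hNp : N.map (Int.cast : ℤ → ZMod p) = M.map (Int.cast : ℤ → ZMod p) * h +
      h * M.map (Int.cast : ℤ → ZMod p) := by
    rw [← hH, ← imap_mul, ← imap_mul]
    ext a b
    simp [N]
  let D : ℤ := (N.submatrix (Subtype.val : {a // P (deg a)} → I) Subtype.val).det
  have hDp : (D : ZMod p) = 1 := by
    have h1 : (D : ZMod p) = (Int.castRingHom (ZMod p)) D := rfl
    rw [h1, RingHom.map_det]
    have h2 : (Int.castRingHom (ZMod p)).mapMatrix
        (N.submatrix (Subtype.val : {a // P (deg a)} → I) Subtype.val) = 1 := by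
      ext a b
      have h3 := hhh b.1 b.2 a.1
      rw [← hNp] at h3
      have h4 : ((N a.1 b.1 : ℤ) : ZMod p) = (1 : Matrix I I (ZMod p)) a.1 b.1 := h3
      have h5 : (Int.castRingHom (ZMod p)).mapMatrix
        (N.submatrix (Subtype.val : {a // P (deg a)} → I) Subtype.val) a b =
          ((N a.1 b.1 : ℤ) : ZMod p) := rfl
      rw [h5, h4]
      by_cases hab : a = b
      · subst hab; rw [Matrix.one_apply_eq, Matrix.one_apply_eq]
      · rw [Matrix.one_apply_ne hab, Matrix.one_apply_ne (fun h => hab (Subtype.ext h))]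
    rw [h2, Matrix.det_one]
  have hD0 : D ≠ 0 := by
    intro h0
    rw [h0] at hDp
    have : Fact (1 < p) := ⟨hp.out.one_lt⟩
    simp at hDp
  apply ex_of_inj hMK hHK hsqK
  intro v hv h0
  rw [← hNK] at h0
  apply inj_of_det _ hv h0
  have h1 : (blk deg P (N.map (Int.cast : ℤ → K))).det = (D : K) := by
    have h2 : (D : K) = (Int.castRingHom K) D := rfl
    rw [h2, RingHom.map_det]
    rfl
  rw [h1]
  exact_mod_cast hD0

end Pool.Agent.GC
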