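import Pool.Agent.GC.Models

/-! Relabelling of the variables and comparison of Fock models. -/

set_option linter.unusedSectionVars false
set_option linter.unusedSimpArgs false
set_option linter.unusedVariables false

namespace Pool.Agent.GC

open Matrix

namespace Fock

variable {K : Type*} [Field K] {ι κ : Type*} [DecidableEq ι] [DecidableEq κ] {I I' : Type*}
  [Fintype I] [DecidableEq I] [Fintype I'] [DecidableEq I']

/-- relabelling of the variables -/
def relabel (e : ι ≃ κ) (F : Fock K ι I) : Fock K κ I where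
  x k := F.x (e.symm k)
  supp := F.supp.trans e.finsetCongr
  sgn k := F.sgn (e.symm k)
  sgn_sq k b := F.sgn_sq _ _
  x_apply := by
    intro k a b
    rw [F.x_apply]
    have h1 : (k ∉ (F.supp.trans e.finsetCongr) b) ↔ (e.symm k ∉ F.supp b) := by
      simp [Equiv.finsetCongr_apply, Equiv.symm_apply_eq]
    have h2 : ((F.supp.trans e.finsetCongr) a = insert k ((F.supp.trans e.finsetCongr) b)) ↔
        (F.supp a = insert (e.symm k) (F.supp b)) := by
      constructor
      · intro h
        apply e.finsetCongr.injective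
        simp only [Equiv.trans_apply] at h
        rw [h]
        simp [Equiv.finsetCongr_apply, Finset.map_insert]
      · intro h
        simp only [Equiv.trans_apply]
        rw [h]
        simp [Equiv.finsetCongr_apply, Finset.map_insert]
    simp only [h1, h2]
  anti i j := F.anti _ _
  sq i := F.sq _

theorem relabel_deg (e : ι ≃ κ) (F : Fock K ι I) (w : κ → ZMod 3) :
    (F.relabel e).deg w = F.deg (fun i => w (e i)) := by
  funext b
  unfold deg relabel
  simp [Equiv.finsetCongr_apply]

/-- path products -/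
def pathP (r : ι → Finset ι → K) : List ι → K
  | [] => 1
  | a :: l => r a l.toFinset * pathP r l

theorem pathP_perm (r : ι → Finset ι → K)
    (hr : ∀ i j S, i ≠ j → i ∉ S → j ∉ S → r i (insert j S) * r j S = r j (insert i S) * r i S)
    {l l' : List ι} (h : l.Perm l') : l.Nodup → pathP r l = pathP r l' := by
  induction h with
  | nil => intro _; rfl
  | cons x h ih =>
    intro hn
    rw [List.nodup_cons] at hn
    simp only [pathP]
    rw [ih hn.2, List.toFinset_eq_of_perm _ _ h]
  | swap x y l =>
    intro hn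
    simp only [List.nodup_cons, List.mem_cons, not_or] at hn
    simp only [pathP, List.toFinset_cons, ← mul_assoc]
    rw [hr y x l.toFinset hn.1.1 (by simpa using hn.1.2) (by simpa using hn.2.1)]
  | trans h1 h2 ih1 ih2 =>
    intro hn
    rw [ih1 hn, ih2 (h1.nodup_iff.mp hn)]

theorem exists_potential (r : ι → Finset ι → K)
    (hr : ∀ i j S, i ≠ j → i ∉ S → j ∉ S → r i (insert j S) * r j S = r j (insert i S) * r i S)
    (h0 : ∀ i S, r i S ≠ 0) :
    ∃ φ : Finset ι → K, (∀ S, φ S ≠ 0) ∧ ∀ i S, i ∉ S → φ (insert i S) = r i S * φ S := by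
  refine ⟨fun S => pathP r S.toList, ?_, ?_⟩
  · intro S
    have h1 : ∀ l : List ι, pathP r l ≠ 0 := by
      intro l
      induction l with
      | nil => simp [pathP]
      | cons a l ih => simp only [pathP]; exact mul_ne_zero (h0 _ _) ih
    exact h1 _
  · intro i S hi
    have h1 := pathP_perm r hr (Finset.toList_insert hi) (Finset.nodup_toList _)
    simp only [h1, pathP, Finset.toList_toFinset]

theorem sgn_ne_zero (F : Fock K ι I) (i : ι) (b : I) : F.sgn i b ≠ 0 := by
  intro h
  have := F.sgn_sq i b
  rw [h, mul_zero] at this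
  exact zero_ne_one this

theorem sgn_cocycle (F : Fock K ι I) {i j : ι} {S : Finset ι} (hij : i ≠ j) (hi : i ∉ S)
    (hj : j ∉ S) : F.sgn i (F.supp.symm (insert j S)) * F.sgn j (F.supp.symm S) =
      -(F.sgn j (F.supp.symm (insert i S)) * F.sgn i (F.supp.symm S)) := by
  have key : ∀ i j : ι, i ≠ j → i ∉ S → j ∉ S →
      (F.x i * F.x j) (F.supp.symm (insert i (insert j S))) (F.supp.symm S) =
      F.sgn i (F.supp.symm (insert j S)) * F.sgn j (F.supp.symm S) := by
    intro i j hij hi hj
    rw [Matrix.mul_apply, Finset.sum_eq_single (F.supp.symm (insert j S))]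
    · rw [F.x_apply, F.x_apply, if_pos, if_pos]
      · simp [hj]
      · simp [hi, hij]
    · intro c _ hc
      rw [F.x_apply j, if_neg, mul_zero]
      rintro ⟨_, h⟩
      apply hc
      rw [Equiv.apply_symm_apply] at h
      rw [← h, Equiv.symm_apply_apply]
    · simp
  have h1 := key i j hij hi hj
  have h2 := key j i (Ne.symm hij) hj hi
  rw [F.anti i j, Matrix.neg_apply, Finset.insert_comm, h2] at h1
  exact h1.symm

/-- any two Fock models on the same variables are isomorphic -/
theorem transfer (F : Fock K ι I) (F' : Fock K ι I') :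
    ∃ (Φ : Matrix I' I K) (Ψ : Matrix I I' K), Φ * Ψ = 1 ∧ Ψ * Φ = 1 ∧
      (∀ i, Φ * F.x i = F'.x i * Φ) ∧ (∀ a b, Φ a b ≠ 0 → F'.supp a = F.supp b) ∧
      (∀ a b, Ψ a b ≠ 0 → F.supp a = F'.supp b) := by
  obtain ⟨φ, hφ0, hφ⟩ := exists_potential
    (fun i S => F'.sgn i (F'.supp.symm S) * F.sgn i (F.supp.symm S)) (by
      intro i j S hij hi hj
      have h1 := F.sgn_cocycle hij hi hj
      have h2 := F'.sgn_cocycle hij hi hj
      calc _ = (F'.sgn i (F'.supp.symm (insert j S)) * F'.sgn j (F'.supp.symm S)) *
            (F.sgn i (F.supp.symm (insert j S)) * F.sgn j (F.supp.symm S)) := by ring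
        _ = _ := by rw [h1, h2]; ring)
    (fun i S => mul_ne_zero (sgn_ne_zero _ _ _) (sgn_ne_zero _ _ _))
  refine ⟨Matrix.of fun a b => if F'.supp a = F.supp b then φ (F.supp b) else 0,
    Matrix.of fun b a => if F.supp b = F'.supp a then (φ (F.supp b))⁻¹ else 0, ?_, ?_, ?_, ?_, ?_⟩
  · ext a c
    rw [Matrix.mul_apply, Finset.sum_eq_single (F.supp.symm (F'.supp a))]
    · simp only [Matrix.of_apply, Equiv.apply_symm_apply, if_true]
      by_cases hac : a = c
      · subst hac
        simp [hφ0]
      · rw [Matrix.one_apply_ne hac, if_neg (fun h => hac (F'.supp.injective h)), mul_zero]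
    · intro b _ hb
      rw [Matrix.of_apply, if_neg, zero_mul]
      intro h
      apply hb
      rw [h, Equiv.symm_apply_apply]
    · simp
  · ext a c
    rw [Matrix.mul_apply, Finset.sum_eq_single (F'.supp.symm (F.supp a))]
    · simp only [Matrix.of_apply, Equiv.apply_symm_apply, if_true]
      by_cases hac : a = c
      · subst hac
        simp [hφ0]
      · rw [Matrix.one_apply_ne hac, if_neg (fun h => hac (F.supp.injective h)), mul_zero]
    · intro b _ hb
      rw [Matrix.of_apply, if_neg, zero_mul]
      intro h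
      apply hb
      rw [h, Equiv.symm_apply_apply]
    · simp
  · intro i
    ext a b
    rw [Matrix.mul_apply, Matrix.mul_apply,
      Finset.sum_eq_single (F.supp.symm (F'.supp a)),
      Finset.sum_eq_single (F'.supp.symm (F.supp b))]
    · simp only [Matrix.of_apply, Equiv.apply_symm_apply, if_true, F.x_apply, F'.x_apply]
      by_cases h : i ∉ F.supp b ∧ F'.supp a = insert i (F.supp b)
      · rw [if_pos h, if_pos h, h.2, hφ i _ h.1]
        have h3 := F.sgn_sq i b
        rw [Equiv.symm_apply_apply]
        calc _ = F'.sgn i (F'.supp.symm (F.supp b)) * φ (F.supp b) * (F.sgn i b * F.sgn i b) := by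
              ring
          _ = _ := by rw [h3, mul_one]
      · rw [if_neg h, if_neg h]; simp
    · intro c _ hc
      rw [Matrix.of_apply, if_neg, mul_zero]
      intro h
      apply hc
      rw [← h, Equiv.symm_apply_apply]
    · simp
    · intro c _ hc
      rw [Matrix.of_apply, if_neg, zero_mul]
      intro h
      apply hc
      rw [h, Equiv.symm_apply_apply]
    · simp
  · intro a b h
    by_contra h'
    rw [Matrix.of_apply, if_neg h'] at h
    exact h rfl
  · intro a b h
    by_contra h'
    rw [Matrix.of_apply, if_neg h'] at h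
    exact h rfl

end Fock

section

variable {K : Type*} [Field K] {I J : Type*} [Fintype I] [DecidableEq I] [Fintype J] [DecidableEq J]
  {degI : I → Gr} {degJ : J → Gr}

/-- transport of exactness along an isomorphism -/
theorem ex_transfer {Φ : Matrix J I K} {Ψ : Matrix I J K} (h1 : Φ * Ψ = 1) (h2 : Ψ * Φ = 1)
    (hΨ : ∀ a b, Ψ a b ≠ 0 → degI a = degJ b) {d : Matrix I I K} {e : Matrix J J K}
    (hde : Φ * d = e * Φ) {P : Gr → Prop} (hE : Ex degI d P) : Ex degJ e P := by
  intro v hv hev
  have hd : d * Ψ = Ψ * e := by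
    calc d * Ψ = Ψ * Φ * d * Ψ := by rw [h2, one_mul]
      _ = Ψ * (Φ * d) * Ψ := by simp only [Matrix.mul_assoc]
      _ = Ψ * e * (Φ * Ψ) := by rw [hde]; simp only [Matrix.mul_assoc]
      _ = Ψ * e := by rw [h1, Matrix.mul_one]
  have hs : Sup degI P (Ψ *ᵥ v) := by
    intro a ha
    simp only [Matrix.mulVec, dotProduct] at ha
    obtain ⟨b, _, hb⟩ := Finset.exists_ne_zero_of_sum_ne_zero ha
    rw [hΨ a b (left_ne_zero_of_mul hb)]
    exact hv b (right_ne_zero_of_mul hb)
  obtain ⟨w, hw⟩ := hE _ hs (by
    rw [Matrix.mulVec_mulVec, hd, ← Matrix.mulVec_mulVec, hev, Matrix.mulVec_zero])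
  refine ⟨Φ *ᵥ w, ?_⟩
  rw [Matrix.mulVec_mulVec, ← hde, ← Matrix.mulVec_mulVec, hw, Matrix.mulVec_mulVec, h1,
    Matrix.one_mulVec]

end

end Pool.Agent.GC
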