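import Pool.Agent.GC.Cone
import Pool.Agent.GC.Open
import Pool.Agent.GC.Transfer

/-! Cubic forms as operators: signs, squares, tensor products. -/

set_option linter.unusedSectionVars false
set_option linter.unusedSimpArgs false
set_option linter.unusedVariables false

namespace Pool.Agent.GC

open Matrix

section Ring

variable {K A ι κ : Type*} [Field K] [Ring A] [Algebra K A] [Fintype ι] [Fintype κ]

theorem mono_anti {x1 x2 x3 y : A} (h1 : y * x1 = -(x1 * y)) (h2 : y * x2 = -(x2 * y))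
    (h3 : y * x3 = -(x3 * y)) : y * (x1 * x2 * x3) = -(x1 * x2 * x3 * y) := by
  calc y * (x1 * x2 * x3) = (y * x1) * x2 * x3 := by simp only [mul_assoc]
    _ = -(x1 * (y * x2) * x3) := by rw [h1]; simp only [neg_mul, mul_assoc]
    _ = x1 * x2 * (y * x3) := by rw [h2]; simp only [neg_mul, mul_neg, neg_neg, mul_assoc]
    _ = -(x1 * x2 * x3 * y) := by rw [h3]; simp only [mul_neg, mul_assoc]

theorem cub_anti {x : ι → A} {y : A} (h : ∀ i, y * x i = -(x i * y)) (c : ι → ι → ι → K) :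
    y * cub x c = -(cub x c * y) := by
  unfold cub
  simp only [Finset.mul_sum, Finset.sum_mul, ← Finset.sum_neg_distrib, Algebra.mul_smul_comm,
    Algebra.smul_mul_assoc]
  refine Finset.sum_congr rfl fun i _ => Finset.sum_congr rfl fun j _ =>
    Finset.sum_congr rfl fun k _ => ?_
  rw [mono_anti (h i) (h j) (h k), smul_neg]

theorem cub_cub_anti {x : ι → A} {y : κ → A} (h : ∀ i j, y j * x i = -(x i * y j))
    (c : ι → ι → ι → K) (c' : κ → κ → κ → K) :
    cub y c' * cub x c = -(cub x c * cub y c') := by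
  have h1 : ∀ i, x i * cub y c' = -(cub y c' * x i) := fun i => by
    rw [cub_anti (fun j => ?_)]
    rw [h i j, neg_neg]
  have h2 := cub_anti (x := x) (y := cub y c') (fun i => by rw [h1 i, neg_neg]) c
  exact h2

theorem cub_bil_comm {ν : Type*} [Fintype ν] {x : ι → A} {y : κ → A} {z : ν → A}
    (hy : ∀ i j, y j * x i = -(x i * y j)) (hz : ∀ i j, z j * x i = -(x i * z j))
    (c : ι → ι → ι → K) (T : κ → ν → K) :
    cub x c * bil y z T = bil y z T * cub x c := by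
  unfold bil
  simp only [Finset.mul_sum, Finset.sum_mul, Algebra.mul_smul_comm, Algebra.smul_mul_assoc]
  refine Finset.sum_congr rfl fun j _ => Finset.sum_congr rfl fun k _ => ?_
  congr 1
  have h1 := cub_anti (x := x) (y := y j) (fun i => hy i j) c
  have h2 := cub_anti (x := x) (y := z k) (fun i => hz i k) c
  calc cub x c * (y j * z k) = (cub x c * y j) * z k := by rw [mul_assoc]
    _ = -(y j * cub x c) * z k := by rw [h1, neg_neg]
    _ = -(y j * (cub x c * z k)) := by rw [neg_mul, mul_assoc]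
    _ = y j * (z k * cub x c) := by rw [h2, mul_neg]
    _ = y j * z k * cub x c := by rw [mul_assoc]

theorem cub_add (x : ι → A) (c c' : ι → ι → ι → K) : cub x (c + c') = cub x c + cub x c' := by
  unfold cub
  simp only [Pi.add_apply, add_smul, Finset.sum_add_distrib]

theorem cub_smul (x : ι → A) (r : K) (c : ι → ι → ι → K) : cub x (r • c) = r • cub x c := by
  unfold cub
  simp only [Pi.smul_apply, smul_eq_mul, mul_smul, Finset.smul_sum]

theorem cub_equiv (e : ι ≃ κ) (x : κ → A) (c : ι → ι → ι → K) :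
    cub x (fun i j k => c (e.symm i) (e.symm j) (e.symm k)) = cub (fun i => x (e i)) c := by
  unfold cub
  rw [← Equiv.sum_comp e]
  refine Finset.sum_congr rfl fun i _ => ?_
  rw [← Equiv.sum_comp e]
  refine Finset.sum_congr rfl fun j _ => ?_
  rw [← Equiv.sum_comp e]
  refine Finset.sum_congr rfl fun k _ => ?_
  simp

theorem bil_equiv {ι' κ' : Type*} [Fintype ι'] [Fintype κ'] (e : ι ≃ ι') (e' : κ ≃ κ')
    (x : ι' → A) (y : κ' → A) (T : ι → κ → K) :
    bil x y (fun i j => T (e.symm i) (e'.symm j)) = bil (fun i => x (e i)) (fun j => y (e' j)) T := by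
  unfold bil
  rw [← Equiv.sum_comp e]
  refine Finset.sum_congr rfl fun i _ => ?_
  rw [← Equiv.sum_comp e']
  refine Finset.sum_congr rfl fun j _ => ?_
  simp

/-- direct sum of two cubic forms and a trivial variable -/
def glue3 {ι₁ ι₂ : Type*} (σ₁ : ι₁ → ι₁ → ι₁ → K) (σ₂ : ι₂ → ι₂ → ι₂ → K) :
    (ι₁ ⊕ ι₂) ⊕ Unit → (ι₁ ⊕ ι₂) ⊕ Unit → (ι₁ ⊕ ι₂) ⊕ Unit → K
  | .inl (.inl a), .inl (.inl b), .inl (.inl c) => σ₁ a b c
  | .inl (.inr a), .inl (.inr b), .inl (.inr c) => σ₂ a b c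
  | _, _, _ => 0

/-- the coupling form of the inductive step -/
def glue2 {ι₁ ι₂ κ₁ κ₂ : Type*} (T₁ : ι₁ → κ₁ → K) (T₂ : ι₂ → κ₂ → K) :
    (ι₁ ⊕ ι₂) ⊕ Unit → (κ₁ ⊕ κ₂) ⊕ Unit → K
  | .inl (.inl a), .inl (.inl b) => T₁ a b
  | .inl (.inr a), .inl (.inr b) => T₂ a b
  | .inr _, .inr _ => 1
  | _, _ => 0

/-- the form `σ + τ + u T` -/
def glueT {ι₁ ι₂ : Type*} (σ : ι₁ → ι₁ → ι₁ → K) (τ : ι₂ → ι₂ → ι₂ → K) (T : ι₁ → ι₂ → K) :
    (ι₁ ⊕ ι₂) ⊕ Unit → (ι₁ ⊕ ι₂) ⊕ Unit → (ι₁ ⊕ ι₂) ⊕ Unit → K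
  | .inl (.inl a), .inl (.inl b), .inl (.inl c) => σ a b c
  | .inl (.inr a), .inl (.inr b), .inl (.inr c) => τ a b c
  | .inr _, .inl (.inl a), .inl (.inr b) => T a b
  | _, _, _ => 0

theorem cub_glue3 {ι₁ ι₂ : Type*} [Fintype ι₁] [Fintype ι₂] (σ₁ : ι₁ → ι₁ → ι₁ → K)
    (σ₂ : ι₂ → ι₂ → ι₂ → K) (x : (ι₁ ⊕ ι₂) ⊕ Unit → A) :
    cub x (glue3 σ₁ σ₂) = cub (fun i => x (.inl (.inl i))) σ₁ +
      cub (fun i => x (.inl (.inr i))) σ₂ := by
  unfold cub
  simp [Fintype.sum_sum_type, glue3]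

theorem bil_glue2 {ι₁ ι₂ κ₁ κ₂ : Type*} [Fintype ι₁] [Fintype ι₂] [Fintype κ₁] [Fintype κ₂]
    (T₁ : ι₁ → κ₁ → K) (T₂ : ι₂ → κ₂ → K) (x : (ι₁ ⊕ ι₂) ⊕ Unit → A)
    (y : (κ₁ ⊕ κ₂) ⊕ Unit → A) :
    bil x y (glue2 T₁ T₂) = bil (fun i => x (.inl (.inl i))) (fun j => y (.inl (.inl j))) T₁ +
      bil (fun i => x (.inl (.inr i))) (fun j => y (.inl (.inr j))) T₂ +
      x (.inr ()) * y (.inr ()) := by
  unfold bil
  simp [Fintype.sum_sum_type, glue2]

theorem cub_glueT {ι₁ ι₂ : Type*} [Fintype ι₁] [Fintype ι₂] (σ : ι₁ → ι₁ → ι₁ → K)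
    (τ : ι₂ → ι₂ → ι₂ → K) (T : ι₁ → ι₂ → K) (x : (ι₁ ⊕ ι₂) ⊕ Unit → A) :
    cub x (glueT σ τ T) = cub (fun i => x (.inl (.inl i))) σ +
      cub (fun i => x (.inl (.inr i))) τ +
      x (.inr ()) * bil (fun i => x (.inl (.inl i))) (fun j => x (.inl (.inr j))) T := by
  unfold cub bil
  simp [Fintype.sum_sum_type, glueT, Finset.mul_sum, mul_assoc]

end Ring

section Mat

variable {K : Type*} [Field K] {I J : Type*} [Fintype I] [DecidableEq I] [Fintype J] [DecidableEq J]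
  {ι κ : Type*} [Fintype ι] [Fintype κ]

theorem cub_conj {Φ : Matrix J I K} {x : ι → Matrix I I K} {y : ι → Matrix J J K}
    (h : ∀ i, Φ * x i = y i * Φ) (c : ι → ι → ι → K) : Φ * cub x c = cub y c * Φ := by
  unfold cub
  simp only [Matrix.mul_sum, Matrix.sum_mul, Matrix.mul_smul, Matrix.smul_mul]
  refine Finset.sum_congr rfl fun i _ => Finset.sum_congr rfl fun j _ =>
    Finset.sum_congr rfl fun k _ => ?_
  congr 1
  rw [← Matrix.mul_assoc, ← Matrix.mul_assoc, h, Matrix.mul_assoc (y i) Φ, h, ← Matrix.mul_assoc,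
    Matrix.mul_assoc _ Φ, h, ← Matrix.mul_assoc]

theorem bil_conj {Φ : Matrix J I K} {x : ι → Matrix I I K} {y : ι → Matrix J J K}
    {x' : κ → Matrix I I K} {y' : κ → Matrix J J K}
    (h : ∀ i, Φ * x i = y i * Φ) (h' : ∀ i, Φ * x' i = y' i * Φ) (T : ι → κ → K) :
    Φ * bil x x' T = bil y y' T * Φ := by
  unfold bil
  simp only [Matrix.mul_sum, Matrix.sum_mul, Matrix.mul_smul, Matrix.smul_mul]
  refine Finset.sum_congr rfl fun i _ => Finset.sum_congr rfl fun j _ => ?_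
  congr 1
  rw [← Matrix.mul_assoc, h, Matrix.mul_assoc (y i) Φ, h', ← Matrix.mul_assoc]

theorem mul_conj' {Φ : Matrix J I K} {a b : Matrix I I K} {a' b' : Matrix J J K}
    (h : Φ * a = a' * Φ) (h' : Φ * b = b' * Φ) : Φ * (a * b) = a' * b' * Φ := by
  rw [← Matrix.mul_assoc, h, Matrix.mul_assoc, h', Matrix.mul_assoc]

theorem add_conj {Φ : Matrix J I K} {a b : Matrix I I K} {a' b' : Matrix J J K}
    (h : Φ * a = a' * Φ) (h' : Φ * b = b' * Φ) : Φ * (a + b) = (a' + b') * Φ := by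
  rw [Matrix.mul_add, h, h', Matrix.add_mul]

theorem cub_kr_one (x : ι → Matrix I I K) (c : ι → ι → ι → K) :
    cub (fun i => kr (x i) (1 : Matrix J J K)) c = kr (cub x c) 1 := by
  unfold cub
  simp only [kr_sum_left, kr_smul_left, kr_mul, mul_one]

theorem cub_kr_sg (degI : I → Gr) (x : ι → Matrix J J K) (c : ι → ι → ι → K) :
    cub (fun i => kr (sg K degI) (x i)) c = kr (sg K degI) (cub x c) := by
  unfold cub
  simp only [kr_sum_right, kr_smul_right, kr_mul, sg_mul_sg, one_mul]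

theorem bil_kr_one (x : ι → Matrix I I K) (y : κ → Matrix I I K) (T : ι → κ → K) :
    bil (fun i => kr (x i) (1 : Matrix J J K)) (fun i => kr (y i) (1 : Matrix J J K)) T =
      kr (bil x y T) 1 := by
  unfold bil
  simp only [kr_sum_left, kr_smul_left, kr_mul, mul_one]

theorem bil_kr_sg (degI : I → Gr) (x : ι → Matrix J J K) (y : κ → Matrix J J K) (T : ι → κ → K) :
    bil (fun i => kr (sg K degI) (x i)) (fun i => kr (sg K degI) (y i)) T = kr 1 (bil x y T) := by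
  unfold bil
  simp only [kr_sum_right, kr_smul_right, kr_mul, sg_mul_sg]

theorem hm_cub {deg : I → Gr} {x : ι → Matrix I I K} {w : ι → ZMod 3}
    (h : ∀ i, Hm deg (1, w i) (x i)) (c : ι → ι → ι → K)
    (hc : ∀ i j k, w i + w j + w k = 0) : Hm deg (3, 0) (cub x c) := by
  unfold cub
  refine Hm.sum _ fun i _ => Hm.sum _ fun j _ => Hm.sum _ fun k _ => Hm.smul _ ?_
  refine (((h i).mul (h j)).mul (h k)).congr ?_
  ext
  · simp
  · simpa using hc i j k

theorem hm_bil {deg : I → Gr} {x : ι → Matrix I I K} {y : κ → Matrix I I K} {a b : ZMod 3}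
    (h : ∀ i, Hm deg (1, a) (x i)) (h' : ∀ i, Hm deg (1, b) (y i)) (T : ι → κ → K) :
    Hm deg (2, a + b) (bil x y T) := by
  unfold bil
  refine Hm.sum _ fun i _ => Hm.sum _ fun j _ => Hm.smul _ ?_
  refine ((h i).mul (h' j)).congr ?_
  ext <;> simp

theorem cub_sq (h2 : (2 : K) ≠ 0) {x : ι → Matrix I I K} (h : ∀ i j, x i * x j = -(x j * x i))
    (c : ι → ι → ι → K) : cub x c * cub x c = 0 := by
  have h1 := cub_cub_anti (x := x) (y := x) (fun i j => h j i) c c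
  have h3 : (2 : K) • (cub x c * cub x c) = 0 := by
    rw [two_smul]
    nth_rewrite 1 [h1]
    simp
  rcases smul_eq_zero.mp h3 with h | h
  · exact absurd h h2
  · exact h

theorem nn_sq : nn K * nn K = 0 := by
  ext a b
  cases a <;> cases b <;> simp [nn, Matrix.mul_apply]

theorem cone_sq {deg : I → Gr} {δ : Gr} (hδ : Odd δ.1) {d T : Matrix I I K} (hd : Hm deg δ d)
    (hdd : d * d = 0) (hdT : d * T = T * d) : cone deg d T * cone deg d T = 0 := by
  unfold cone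
  have h1 : d * (sg K deg * T) = -(sg K deg * T * d) := by
    rw [← mul_assoc, hd.odd hδ, neg_mul, mul_assoc, hdT, ← mul_assoc]
  simp only [add_mul, mul_add, kr_mul, mul_one, one_mul, hdd, nn_sq, kr_zero_left, kr_zero_right,
    h1, kr_neg_left]
  simp

end Mat

end Pool.Agent.GC
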