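import Pool.Agent.GC.Steps

/-! Adding a trivial variable on both sides. -/

set_option linter.unusedSectionVars false
set_option linter.unusedSimpArgs false
set_option linter.unusedVariables false
set_option synthInstance.maxSize 2000

namespace Pool.Agent.GC

open Matrix

section Glue

/-- a cubic form with a trivial variable -/
def glueZ {K ι : Type*} [Zero K] (σ : ι → ι → ι → K) : ι ⊕ Unit → ι ⊕ Unit → ι ⊕ Unit → K
  | .inl a, .inl b, .inl c => σ a b c
  | _, _, _ => 0

/-- a bilinear form with an additional term -/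
def glueB {K ι κ : Type*} [Zero K] [One K] (T : ι → κ → K) : ι ⊕ Unit → κ ⊕ Unit → K
  | .inl a, .inl b => T a b
  | .inr _, .inr _ => 1
  | _, _ => 0

variable {K A ι κ : Type*} [Field K] [Ring A] [Algebra K A] [Fintype ι] [Fintype κ]

theorem cub_glueZ (σ : ι → ι → ι → K) (x : ι ⊕ Unit → A) :
    cub x (glueZ σ) = cub (fun i => x (.inl i)) σ := by
  unfold cub
  simp [Fintype.sum_sum_type, glueZ]

theorem bil_glueB (T : ι → κ → K) (x : ι ⊕ Unit → A) (y : κ ⊕ Unit → A) :
    bil x y (glueB T) = bil (fun i => x (.inl i)) (fun j => y (.inl j)) T +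
      x (.inr ()) * y (.inr ()) := by
  unfold bil
  simp [Fintype.sum_sum_type, glueB]

end Glue

section Comp

variable {K : Type*} [Field K] {V W : Type} [DecidableEq V] [DecidableEq W]
  [Fintype V] [Fintype W] {I J : Type} [Fintype I] [DecidableEq I] [Fintype J] [DecidableEq J]

/-- the model -/
def Mt2 (F : Fock K V I) (G : Fock K W J) :
    Fock K ((((V ⊕ W) ⊕ Unit) ⊕ Unit) ⊕ Unit) ((((I × J) × Bool) × Bool) × Bool) :=
  (((F.prod G).prod (Fock.one K)).prod (Fock.one K)).prod (Fock.one K)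

theorem nn_sg' : nn K * sg K (dU (1, 1)) = nn K := by
  ext a b
  unfold sg
  rw [Matrix.mul_diagonal]
  cases a <;> cases b <;> simp [nn, dU]

variable (F : Fock K V I) (G : Fock K W J) (σ : V → V → V → K) (τ : W → W → W → K) (T : V → W → K)

theorem y1 : (fun i => (Mt2 F G).x (.inl (.inl (.inl (.inl i))))) =
    fun i => kr (kr (kr (kr (F.x i) (1 : Matrix J J K)) (1 : Matrix Bool Bool K))
      (1 : Matrix Bool Bool K)) (1 : Matrix Bool Bool K) := rfl

theorem y2 : (fun i => (Mt2 F G).x (.inl (.inl (.inl (.inr i))))) =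
    fun i => kr (kr (kr (kr (sg K (F.deg 1)) (G.x i)) (1 : Matrix Bool Bool K))
      (1 : Matrix Bool Bool K)) (1 : Matrix Bool Bool K) := rfl

theorem sgP' : sg K (dP F G) = sg K ((F.prod G).deg 0) := by
  apply sg_congr
  intro a
  rw [prod_deg]
  rfl

theorem y3 : (Mt2 F G).x (.inl (.inl (.inr ()))) =
    kr (kr (kr (sg K (dP F G)) (nn K)) (1 : Matrix Bool Bool K))
      (1 : Matrix Bool Bool K) := by
  rw [sgP']; rfl

theorem y4 : (Mt2 F G).x (.inl (.inr ())) =
    kr (kr (sg K (dg2 (dP F G) (dU (1, 1)))) (nn K)) (1 : Matrix Bool Bool K) := by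
  have : sg K (dg2 (dP F G) (dU (1, 1))) =
      sg K (((F.prod G).prod (Fock.one K)).deg 0) := by
    apply sg_congr
    intro a
    rw [prod_deg, prod_deg, dU_one]
    obtain ⟨a, b⟩ := a
    cases b <;> rfl
  rw [this]; rfl

theorem y5 : (Mt2 F G).x (.inr ()) = kr (sg K (degA (dP F G))) (nn K) := by
  have : sg K (degA (dP F G)) =
      sg K ((((F.prod G).prod (Fock.one K)).prod (Fock.one K)).deg 0) := by
    apply sg_congr
    intro a
    rw [prod_deg, prod_deg, prod_deg, dU_one, dU_one]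
    obtain ⟨⟨a, b⟩, c⟩ := a
    cases b <;> cases c <;> rfl
  rw [this]; rfl

theorem y34 : (Mt2 F G).x (.inl (.inl (.inr ()))) * (Mt2 F G).x (.inl (.inr ())) =
    kr (kr (kr (1 : Matrix (I × J) (I × J) K) (nn K)) (nn K)) 1 := by
  rw [y3, y4, kr_mul, kr_mul, sg_dg2, kr_mul, sg_mul_sg, nn_sg', one_mul, one_mul]

theorem Mt2_expr : cone (degA (dP F G)) (dA (Dd F G σ τ)) (TA (Tt F G T)) =
    cub (fun i => (Mt2 F G).x (.inl (.inl (.inl (.inl i))))) σ +
    cub (fun i => (Mt2 F G).x (.inl (.inl (.inl (.inr i))))) τ +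
    (Mt2 F G).x (.inr ()) *
      (bil (fun i => (Mt2 F G).x (.inl (.inl (.inl (.inl i)))))
        (fun i => (Mt2 F G).x (.inl (.inl (.inl (.inr i))))) T +
       (Mt2 F G).x (.inl (.inl (.inr ()))) * (Mt2 F G).x (.inl (.inr ()))) := by
  rw [y34, y1, y2, y5]
  simp only [cub_kr_one (K := K) (ι := V), cub_kr_one (K := K) (ι := W), cub_kr_sg, bil_kr_one]
  unfold cone dA TA Dd dten Tt
  simp only [kr_add_left, kr_add_right, mul_add, kr_mul, mul_one, one_mul]

/-- the two arrangements of the variables -/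
def shuf2 {N M : Type} (eV : V ⊕ Unit ≃ N) (eW : W ⊕ Unit ≃ M) :
    (((V ⊕ W) ⊕ Unit) ⊕ Unit) ⊕ Unit ≃ (N ⊕ M) ⊕ Unit where
  toFun
    | .inl (.inl (.inl (.inl v))) => .inl (.inl (eV (.inl v)))
    | .inl (.inl (.inl (.inr w))) => .inl (.inr (eW (.inl w)))
    | .inl (.inl (.inr _)) => .inl (.inl (eV (.inr ())))
    | .inl (.inr _) => .inl (.inr (eW (.inr ())))
    | .inr _ => .inr ()
  invFun
    | .inl (.inl n) => match eV.symm n with
      | .inl v => .inl (.inl (.inl (.inl v)))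
      | .inr _ => .inl (.inl (.inr ()))
    | .inl (.inr m) => match eW.symm m with
      | .inl w => .inl (.inl (.inl (.inr w)))
      | .inr _ => .inl (.inr ())
    | .inr _ => .inr ()
  left_inv := by
    rintro ((((v | w) | u) | u) | u) <;> simp
  right_inv := by
    rintro ((n | m) | u)
    · obtain ⟨z, rfl⟩ := eV.surjective n
      rcases z with v | u <;> simp
    · obtain ⟨z, rfl⟩ := eW.surjective m
      rcases z with v | u <;> simp
    · simp

end Comp

section Main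

variable {K : Type*} [Field K]

/-- from the three injectivity statements to `GG` -/
theorem gg_of_hl (h2 : (2 : K) ≠ 0) {x y : ℕ} (hx : 1 ≤ x) (hy : 1 ≤ y)
    {V W : Type} [DecidableEq V] [DecidableEq W] [Fintype V] [Fintype W] {I J : Type} [Fintype I]
    [DecidableEq I] [Fintype J] [DecidableEq J] (F₁ : Fock K V I) (G₁ : Fock K W J)
    (hV : Fintype.card V + 2 = 4 * x) (hW : Fintype.card W + 2 = 4 * y)
    (σ : V → V → V → K) (τ : W → W → W → K) (T : V → W → K)
    (hQ : Q (dP F₁ G₁) (Dd F₁ G₁ σ τ) (2 * x - 2 + (2 * y - 2) : ℤ) ((2 * x - 2 : ℤ) : ZMod 3))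
    (hsq : HInj (dP F₁ G₁) (Dd F₁ G₁ σ τ) (Tt F₁ G₁ T * Tt F₁ G₁ T)
      (fun g => g = ((2 * x - 2 + (2 * y - 2) : ℤ), ((2 * x - 2 : ℤ) : ZMod 3))))
    (h10 : HInj (dP F₁ G₁) (Dd F₁ G₁ σ τ) (Tt F₁ G₁ T)
      (fun g => g = ((2 * x - 2 + (2 * y - 2) + 1 : ℤ), ((2 * x - 2 : ℤ) : ZMod 3))))
    (h01 : HInj (dP F₁ G₁) (Dd F₁ G₁ σ τ) (Tt F₁ G₁ T)
      (fun g => g = ((2 * x - 2 + (2 * y - 2) + 1 : ℤ), ((2 * x - 2 : ℤ) : ZMod 3) + 1))) :
    GG K x y := by
  set F := St K (4 * x - 1)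
  set G := St K (4 * y - 1)
  have eV : V ⊕ Unit ≃ Fin (4 * x - 1) :=
    Fintype.equivFinOfCardEq (by rw [Fintype.card_sum, Fintype.card_unit]; omega)
  have eW : W ⊕ Unit ≃ Fin (4 * y - 1) :=
    Fintype.equivFinOfCardEq (by rw [Fintype.card_sum, Fintype.card_unit]; omega)
  refine ⟨fun i j k => glueZ σ (eV.symm i) (eV.symm j) (eV.symm k),
    fun i j k => glueZ τ (eW.symm i) (eW.symm j) (eW.symm k),
    fun i j => glueB T (eV.symm i) (eW.symm j), ?_⟩
  have m1 := hm_Dd F₁ G₁ σ τ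
  have n1 := hm_Tt F₁ G₁ T
  have c1 := Dd_Tt F₁ G₁ σ τ T
  have key := asm m1 n1 c1 hQ hsq h10 h01
  rw [Mt2_expr] at key
  set e := shuf2 eV eW with he
  obtain ⟨Φ, Ψ, h3, h4, h5, h6, h7⟩ :=
    ((Mt2 F₁ G₁).relabel e).transfer ((F.prod G).prod (Fock.one K))
  have h8 : ∀ k, Φ * (Mt2 F₁ G₁).x k = ((F.prod G).prod (Fock.one K)).x (e k) * Φ := by
    intro k
    have := h5 (e k)
    simpa [Fock.relabel] using this
  let w : (Fin (4 * x - 1) ⊕ Fin (4 * y - 1)) ⊕ Unit → ZMod 3 :=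
    Sum.elim (Sum.elim 1 0) (fun _ => -1)
  refine ex_transfer (degI := ((Mt2 F₁ G₁).relabel e).deg w) h3 h4 ?_ ?_ (ex_deg ?_ key)
  · intro a b hab
    have e1 : dF F G b = ((F.prod G).prod (Fock.one K)).deg w b := by
      rw [prod_deg, prod_deg, dU_one]; rfl
    rw [e1]
    unfold Fock.deg
    rw [h7 a b hab]
  · rw [FF_prod]
    apply add_conj
    · apply add_conj
      · rw [cub_equiv eV, cub_glueZ]
        exact cub_conj (fun i => h8 _) _
      · rw [cub_equiv eW, cub_glueZ]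
        exact cub_conj (fun i => h8 _) _
    · apply mul_conj' (h8 _)
      rw [bil_equiv eV eW, bil_glueB]
      apply add_conj
      · exact bil_conj (fun i => h8 _) (fun i => h8 _) _
      · exact mul_conj' (h8 _) (h8 _)
  · intro a ha
    have e1 : ((Mt2 F₁ G₁).relabel e).deg w a =
        dg2 (degA (dP F₁ G₁)) (dU (1, -1)) a := by
      rw [Fock.relabel_deg]
      unfold Mt2
      rw [prod_deg, prod_deg, prod_deg, prod_deg, dU_one, dU_one, dU_one]
      rfl
    rw [← e1, ha]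
    ext
    · push_cast; ring
    · push_cast; ring

end Main

end Pool.Agent.GC
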