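import Pool.Agent.GC.SDefs

/-! Auxiliary forms of the definitions used in the statement. -/

namespace Pool.Agent.GC

open Polynomial

/-- The coordinates of a cubic form `f` in the standard basis of `⋀^3 (K^n)`, indexed by the
3-element subsets of `Fin n`. -/
noncomputable abbrev cf (K : Type*) [Field K] (n : ℕ) (f : ⋀[K]^3 (Fin n → K)) :
    Set.powersetCard (Fin n) 3 → K :=
  fun s => ((Pi.basisFun K (Fin n)).exteriorPower 3).repr f s

/-- The two-sided ideal of `⋀ (K^n)` generated by `f`, as a subspace. -/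
noncomputable def idl (K : Type*) [Field K] (n : ℕ) (f : ExteriorAlgebra K (Fin n → K)) :
    Submodule K (ExteriorAlgebra K (Fin n → K)) :=
  (TwoSidedIdeal.asIdeal (TwoSidedIdeal.span {f})).restrictScalars K

/-- The dimension of the degree `i` part of `⋀ (K^n) / (f)`: the dimension of the image of
`⋀^i (K^n)` in the quotient. -/
noncomputable def hf (K : Type*) [Field K] (n : ℕ) (f : ExteriorAlgebra K (Fin n → K)) (i : ℕ) :
    ℕ :=
  Module.finrank K ((⋀[K]^i (Fin n → K)).map (idl K n f).mkQ)

/-- The Hilbert series of `⋀ (K^n) / (f)`. -/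
noncomputable def hs (K : Type*) [Field K] (n : ℕ) (f : ExteriorAlgebra K (Fin n → K)) : ℤ[X] :=
  ∑ i ∈ Finset.range (n + 1), C (hf K n f i : ℤ) * X ^ i

end Pool.Agent.GC
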