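import Pool.Agent.GC.Link
import Pool.Agent.GC.Dual
import Pool.Agent.GC.HDefs

/-! Exactness for generic cubic forms. -/

set_option linter.unusedSectionVars false
set_option linter.unusedSimpArgs false
set_option linter.unusedVariables false

namespace Pool.Agent.GC

open Matrix

section

variable {K : Type*} [Field K] {n : ℕ}

theorem cub_cr_vop (u v w : Fin n → K) : cub (Fock.cr K) (fun i j k => u i * v j * w k) =
    vop K n u * vop K n v * vop K n w := by
  unfold cub vop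
  simp only [LinearMap.coe_mk, AddHom.coe_mk]
  rw [Finset.sum_mul_sum, Finset.sum_mul]
  refine Finset.sum_congr rfl fun i _ => ?_
  rw [Finset.sum_mul]
  refine Finset.sum_congr rfl fun j _ => ?_
  rw [Finset.mul_sum]
  refine Finset.sum_congr rfl fun k _ => ?_
  simp only [Matrix.smul_mul, Matrix.mul_smul, smul_smul]
  congr 1
  ring

/-- the operator of a cubic form is given by a tensor -/
theorem exists_tensor (h2 : (2 : K) ≠ 0) {f : ExteriorAlgebra K (Fin n → K)}
    (hf : f ∈ ⋀[K]^3 (Fin n → K)) :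
    ∃ c : Fin n → Fin n → Fin n → K, rho h2 n f = cub (Fock.cr K) c := by
  rw [← ExteriorAlgebra.ιMulti_span_fixedDegree] at hf
  induction hf using Submodule.span_induction with
  | mem x hx =>
    obtain ⟨v, rfl⟩ := hx
    refine ⟨fun i j k => v 0 i * v 1 j * v 2 k, ?_⟩
    rw [cub_cr_vop, ExteriorAlgebra.ιMulti_apply]
    simp only [List.ofFn_succ, List.ofFn_zero, List.prod_cons, List.prod_nil, mul_one, map_mul,
      rho_ι, ← mul_assoc]
    rfl
  | zero => exact ⟨0, by simp [cub]⟩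
  | add x y _ _ hx hy =>
    obtain ⟨c, hc⟩ := hx
    obtain ⟨c', hc'⟩ := hy
    exact ⟨c + c', by rw [map_add, hc, hc', cub_add]⟩
  | smul r x _ hx =>
    obtain ⟨c, hc⟩ := hx
    exact ⟨r • c, by rw [map_smul, hc, cub_smul]⟩

/-- every tensor gives a cubic form -/
theorem exists_form (h2 : (2 : K) ≠ 0) (c : Fin n → Fin n → Fin n → K) :
    ∃ f : ⋀[K]^3 (Fin n → K), rho h2 n f.1 = cub (Fock.cr K) c := by
  have h1 : ∀ u v w : Fin n → K, ExteriorAlgebra.ι K u * ExteriorAlgebra.ι K v *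
      ExteriorAlgebra.ι K w ∈ ⋀[K]^3 (Fin n → K) := by
    intro u v w
    have := ExteriorAlgebra.ιMulti_range K 3 (Set.mem_range_self (f := ExteriorAlgebra.ιMulti K 3)
      (![u, v, w] : Fin 3 → (Fin n → K)))
    rw [ExteriorAlgebra.ιMulti_apply] at this
    simpa [List.ofFn_succ, mul_assoc] using this
  refine ⟨⟨∑ i, ∑ j, ∑ k, c i j k • (ExteriorAlgebra.ι K (Pi.basisFun K (Fin n) i) *
    ExteriorAlgebra.ι K (Pi.basisFun K (Fin n) j) * ExteriorAlgebra.ι K (Pi.basisFun K (Fin n) k)),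
    ?_⟩, ?_⟩
  · exact Submodule.sum_mem _ fun i _ => Submodule.sum_mem _ fun j _ => Submodule.sum_mem _
      fun k _ => Submodule.smul_mem _ _ (h1 _ _ _)
  · simp only [map_sum, map_smul, map_mul, rho_basis]
    rfl

theorem hm_rho (h2 : (2 : K) ≠ 0) {f : ExteriorAlgebra K (Fin n → K)}
    (hf : f ∈ ⋀[K]^3 (Fin n → K)) : Hm (dc n) (3, 0) (rho h2 n f) := by
  obtain ⟨c, hc⟩ := exists_tensor h2 hf
  rw [hc, ← dc_eq (K := K)]
  exact hm_cub (fun i => (Fock.std K (Fin n)).x_hm 0 i) c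
    (fun i j k => by simp only [Pi.zero_apply]; decide)

theorem rho_sq (h2 : (2 : K) ≠ 0) {f : ExteriorAlgebra K (Fin n → K)}
    (hf : f ∈ ⋀[K]^3 (Fin n → K)) : rho h2 n f * rho h2 n f = 0 := by
  obtain ⟨c, hc⟩ := exists_tensor h2 hf
  rw [hc]
  exact cub_sq h2 (Fock.std K (Fin n)).anti c

theorem generic_ex (h2 : (2 : K) ≠ 0) (c : Fin n → Fin n → Fin n → K) {l : ℤ}
    (hE : Ex (dc n) (cub (Fock.cr K) c) (fun g => g.1 < l)) :
    ∃ P : MvPolynomial (Set.powersetCard (Fin n) 3) K, P ≠ 0 ∧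
      ∀ f : ⋀[K]^3 (Fin n → K), MvPolynomial.eval (cf K n f) P ≠ 0 →
        Ex (dc n) (rho h2 n f.1) (fun g => g.1 < l) ∧
        Ex (dc n) (rho h2 n f.1) (fun g => (n : ℤ) - l < g.1) := by
  classical
  obtain ⟨f₀, hf₀⟩ := exists_form h2 c
  have hd₀ := hm_rho h2 f₀.2
  have hs₀ := rho_sq h2 f₀.2
  rw [← hf₀] at hE
  obtain ⟨h, hh, hhh⟩ := exists_homotopy hd₀ hs₀ hE
  let Bs : Set.powersetCard (Fin n) 3 → Matrix (Finset (Fin n)) (Finset (Fin n)) K := fun s =>
    rho h2 n (((Pi.basisFun K (Fin n)).exteriorPower 3 s : ⋀[K]^3 (Fin n → K)) :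
      ExteriorAlgebra K (Fin n → K))
  have hrep : ∀ f : ⋀[K]^3 (Fin n → K), rho h2 n f.1 = ∑ s, cf K n f s • Bs s := by
    intro f
    have h3 := ((Pi.basisFun K (Fin n)).exteriorPower 3).sum_repr f
    conv_lhs => rw [← h3]
    simp [Bs]
  let N : Set.powersetCard (Fin n) 3 → Matrix (Finset (Fin n)) (Finset (Fin n)) K := fun s =>
    Bs s * h + h * Bs s
  have hN : ∀ f : ⋀[K]^3 (Fin n → K), rho h2 n f.1 * h + h * rho h2 n f.1 =
      ∑ s, cf K n f s • N s := by
    intro f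
    rw [hrep f, Finset.sum_mul, Finset.mul_sum, ← Finset.sum_add_distrib]
    refine Finset.sum_congr rfl fun s _ => ?_
    rw [Matrix.smul_mul, Matrix.mul_smul, ← smul_add]
  let Pr : Gr → Prop := fun g => g.1 < l
  let P : MvPolynomial (Set.powersetCard (Fin n) 3) K :=
    Matrix.det (∑ s, (MvPolynomial.X s : MvPolynomial (Set.powersetCard (Fin n) 3) K) •
      (blk (dc n) Pr (N s)).map MvPolynomial.C)
  have hP : ∀ f : ⋀[K]^3 (Fin n → K), MvPolynomial.eval (cf K n f) P =
      (blk (dc n) Pr (rho h2 n f.1 * h + h * rho h2 n f.1)).det := by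
    intro f
    rw [hN, RingHom.map_det]
    congr 1
    ext a b
    simp only [RingHom.mapMatrix_apply, Matrix.map_apply, Matrix.sum_apply, Matrix.smul_apply,
      blk, Matrix.submatrix_apply, smul_eq_mul, map_sum, map_mul, MvPolynomial.eval_X,
      MvPolynomial.eval_C]
  refine ⟨P, ?_, ?_⟩
  · intro h0
    have h1 := hP f₀
    rw [h0, map_zero] at h1
    have h3 : blk (dc n) Pr (rho h2 n f₀.1 * h + h * rho h2 n f₀.1) = 1 := by
      ext a b
      have h4 := hhh b.1 b.2 a.1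
      simp only [blk, Matrix.submatrix_apply]
      rw [h4]
      by_cases hab : a = b
      · subst hab; rw [Matrix.one_apply_eq, Matrix.one_apply_eq]
      · rw [Matrix.one_apply_ne hab, Matrix.one_apply_ne (fun h => hab (Subtype.ext h))]
    rw [h3, Matrix.det_one] at h1
    exact zero_ne_one h1
  · intro f hf
    have hlow : Ex (dc n) (rho h2 n f.1) (fun g => g.1 < l) := by
      apply ex_of_inj (hm_rho h2 f.2) hh (rho_sq h2 f.2)
      intro v hv h0
      apply inj_of_det (P := Pr) _ hv h0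
      rw [← hP]; exact hf
    refine ⟨hlow, ?_⟩
    obtain ⟨c', hc'⟩ := exists_tensor h2 f.2
    rw [hc', ← dc_eq (K := K)] at hlow ⊢
    have := ex_dual h2 c' hlow
    simpa using this

end

end Pool.Agent.GC
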