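import Pool.Agent.GC.Gen
import Pool.Agent.GC.HDefs

/-! The Hilbert series of the quotient by a cubic form with prescribed exactness. -/

set_option linter.unusedSectionVars false
set_option linter.unusedSimpArgs false
set_option linter.unusedVariables false

namespace Pool.Agent.GC

open Polynomial

section Ideal

variable {K : Type*} [Field K] {n : ℕ} {f : ExteriorAlgebra K (Fin n → K)}

theorem ι_anti (hf : f ∈ ⋀[K]^3 (Fin n → K)) (v : Fin n → K) :
    ExteriorAlgebra.ι K v * f = -(f * ExteriorAlgebra.ι K v) := by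
  rw [← ExteriorAlgebra.ιMulti_span_fixedDegree] at hf
  induction hf using Submodule.span_induction with
  | mem x hx =>
    obtain ⟨w, rfl⟩ := hx
    rw [ExteriorAlgebra.ιMulti_apply]
    have h1 : ∀ u w : Fin n → K, ExteriorAlgebra.ι K u * ExteriorAlgebra.ι K w =
        -(ExteriorAlgebra.ι K w * ExteriorAlgebra.ι K u) := fun u w =>
      eq_neg_of_add_eq_zero_left (ExteriorAlgebra.ι_add_mul_swap u w)
    simp only [List.ofFn_succ, List.ofFn_zero, List.prod_cons, List.prod_nil, mul_one,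
      ← mul_assoc]
    have := mono_anti (h1 v (w 0)) (h1 v (w (Fin.succ 0))) (h1 v (w (Fin.succ (Fin.succ 0))))
    simpa only [← mul_assoc] using this
  | zero => simp
  | add x y _ _ hx hy => rw [mul_add, hx, hy, add_mul]; abel
  | smul r x _ hx => rw [mul_smul_comm, hx, smul_mul_assoc, smul_neg]

theorem exists_swap (hf : f ∈ ⋀[K]^3 (Fin n → K)) (x : ExteriorAlgebra K (Fin n → K)) :
    ∃ x', x * f = f * x' := by
  induction x using ExteriorAlgebra.induction with
  | algebraMap r => exact ⟨algebraMap _ _ r, Algebra.commutes r f⟩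
  | ι v => exact ⟨-ExteriorAlgebra.ι K v, by rw [ι_anti hf, mul_neg]⟩
  | mul x y hx hy =>
    obtain ⟨x', hx'⟩ := hx
    obtain ⟨y', hy'⟩ := hy
    exact ⟨x' * y', by rw [mul_assoc, hy', ← mul_assoc, hx', mul_assoc]⟩
  | add x y hx hy =>
    obtain ⟨x', hx'⟩ := hx
    obtain ⟨y', hy'⟩ := hy
    exact ⟨x' + y', by rw [add_mul, hx', hy', mul_add]⟩

theorem mem_idl (hf : f ∈ ⋀[K]^3 (Fin n → K)) (x : ExteriorAlgebra K (Fin n → K)) :
    x ∈ idl K n f ↔ ∃ y, f * y = x := by
  unfold idl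
  rw [Submodule.restrictScalars_mem, TwoSidedIdeal.mem_asIdeal]
  constructor
  · intro h
    rw [TwoSidedIdeal.mem_span_iff] at h
    have := h (TwoSidedIdeal.mk' {x | ∃ y, f * y = x} ⟨0, mul_zero f⟩
      (by rintro x y ⟨a, rfl⟩ ⟨b, rfl⟩; exact ⟨a + b, mul_add _ _ _⟩)
      (by rintro x ⟨a, rfl⟩; exact ⟨-a, mul_neg _ _⟩)
      (by
        rintro x y ⟨a, rfl⟩
        obtain ⟨x', hx'⟩ := exists_swap hf x
        exact ⟨x' * a, by rw [← mul_assoc, ← mul_assoc, hx']⟩)
      (by rintro x y ⟨a, rfl⟩; exact ⟨a * y, (mul_assoc _ _ _).symm⟩))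
      (by
        intro y hy
        rw [Set.mem_singleton_iff] at hy
        rw [hy, SetLike.mem_coe, TwoSidedIdeal.mem_mk']
        exact ⟨1, mul_one f⟩)
    rw [TwoSidedIdeal.mem_mk'] at this
    exact this
  · rintro ⟨y, rfl⟩
    apply TwoSidedIdeal.mul_mem_right
    exact TwoSidedIdeal.subset_span (Set.mem_singleton f)

theorem ff_zero (h2 : (2 : K) ≠ 0) (hf : f ∈ ⋀[K]^3 (Fin n → K)) : f * f = 0 := by
  apply (EE K n).injective
  have h3 := rho_sq h2 hf
  have h4 : f * f = f * (f * 1) := by rw [mul_one]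
  rw [h4, EE_mul h2, EE_mul h2, Matrix.mulVec_mulVec, h3, Matrix.zero_mulVec, map_zero]

/-- multiplication by `f` -/
noncomputable def mf (f : ExteriorAlgebra K (Fin n → K)) :
    ExteriorAlgebra K (Fin n → K) →ₗ[K] ExteriorAlgebra K (Fin n → K) := LinearMap.mulLeft K f

theorem mf_apply (f x : ExteriorAlgebra K (Fin n → K)) : mf f x = f * x := rfl

/-- the degree `k` part -/
noncomputable abbrev Lk (K : Type*) [Field K] (n k : ℕ) :
    Submodule K (ExteriorAlgebra K (Fin n → K)) := ⋀[K]^k (Fin n → K)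

instance : FiniteDimensional K (ExteriorAlgebra K (Fin n → K)) :=
  Module.Basis.finiteDimensional_of_finite (eb K n)

/-- dimension of the cycles in degree `k` -/
noncomputable def zz (K : Type*) [Field K] (n : ℕ) (f : ExteriorAlgebra K (Fin n → K)) (k : ℕ) : ℕ :=
  Module.finrank K (Lk K n k ⊓ LinearMap.ker (mf f) : Submodule K (ExteriorAlgebra K (Fin n → K)))

/-- dimension of the boundaries in degree `k` -/
noncomputable def bb (K : Type*) [Field K] (n : ℕ) (f : ExteriorAlgebra K (Fin n → K)) (k : ℕ) : ℕ :=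
  Module.finrank K (Lk K n k ⊓ idl K n f : Submodule K (ExteriorAlgebra K (Fin n → K)))

theorem finrank_Lk (k : ℕ) : Module.finrank K (Lk K n k) = n.choose k := by
  have := exteriorPower.finrank_eq (M := Fin n → K) K k
  rw [Module.finrank_fin_fun] at this
  exact this

theorem fin_map_ker {V W : Type*} [AddCommGroup V] [Module K V] [FiniteDimensional K V]
    [AddCommGroup W] [Module K W] (g : V →ₗ[K] W) (S : Submodule K V) :
    Module.finrank K (S.map g) + Module.finrank K (S ⊓ LinearMap.ker g : Submodule K V) =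
      Module.finrank K S := by
  have h := LinearMap.finrank_range_add_finrank_ker (g.domRestrict S)
  rw [LinearMap.range_domRestrict, LinearMap.ker_domRestrict] at h
  rw [← h, ← Submodule.map_comap_subtype, Submodule.finrank_map_subtype_eq]

theorem hf_add_bb (k : ℕ) : hf K n f k + bb K n f k = n.choose k := by
  unfold hf bb
  rw [← finrank_Lk (K := K)]
  have h := fin_map_ker ((idl K n f).mkQ) (Lk K n k)
  rw [Submodule.ker_mkQ] at h
  exact h

/-- the boundaries in degree `k + 3` -/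
theorem map_mf (h2 : (2 : K) ≠ 0) (hf : f ∈ ⋀[K]^3 (Fin n → K)) (k : ℕ) :
    (Lk K n k).map (mf f) = Lk K n (k + 3) ⊓ idl K n f := by
  ext x
  constructor
  · rintro ⟨y, hy, rfl⟩
    refine ⟨?_, (mem_idl hf _).mpr ⟨y, rfl⟩⟩
    rw [mf_apply]
    have := SetLike.GradedMul.mul_mem (A := fun i => ⋀[K]^i (Fin n → K)) hf hy
    rw [add_comm] at this
    exact this
  · rintro ⟨hx, hx'⟩
    obtain ⟨y, rfl⟩ := (mem_idl hf _).mp hx'
    -- the degree `k` component of `y`
    let y' : ExteriorAlgebra K (Fin n → K) := (EE K n).symm (vcomp (dc n) ((k : ℤ), 0) (EE K n y))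
    have hy' : y' ∈ Lk K n k := by
      rw [mem_ext_iff]
      intro S hS
      simp only [y', LinearEquiv.apply_symm_apply] at hS
      have := sup_vcomp (deg := dc n) ((k : ℤ), 0) (EE K n y) S hS
      simpa [dc] using this
    refine ⟨y', hy', ?_⟩
    rw [mf_apply]
    apply (EE K n).injective
    rw [EE_mul h2, EE_mul h2]
    simp only [y', LinearEquiv.apply_symm_apply]
    rw [mulVec_vcomp (hm_rho h2 hf)]
    rw [SetLike.mem_coe, mem_ext_iff] at hx
    funext S
    unfold vcomp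
    by_cases hS : dc n S = ((k : ℤ), 0) + (3, 0)
    · rw [if_pos hS]
    · rw [if_neg hS]
      by_contra h0
      have h3 := hx S (by rw [EE_mul h2]; exact fun h => h0 h.symm)
      apply hS
      simp [dc, h3]

theorem zz_add_bb (h2 : (2 : K) ≠ 0) (hf : f ∈ ⋀[K]^3 (Fin n → K)) (k : ℕ) :
    bb K n f (k + 3) + zz K n f k = n.choose k := by
  unfold bb zz
  rw [← finrank_Lk (K := K), ← map_mf h2 hf]
  exact fin_map_ker (mf f) (Lk K n k)

theorem bb_le_zz (h2 : (2 : K) ≠ 0) (hf : f ∈ ⋀[K]^3 (Fin n → K)) (k : ℕ) :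
    bb K n f k ≤ zz K n f k := by
  unfold bb zz
  apply Submodule.finrank_mono
  apply inf_le_inf_left
  intro x hx
  obtain ⟨y, rfl⟩ := (mem_idl hf _).mp hx
  rw [LinearMap.mem_ker, mf_apply, ← mul_assoc, ff_zero h2 hf, zero_mul]

theorem bb_low (h2 : (2 : K) ≠ 0) (hf : f ∈ ⋀[K]^3 (Fin n → K)) {k : ℕ} (hk : k < 3) :
    bb K n f k = 0 := by
  unfold bb
  have : Lk K n k ⊓ idl K n f = ⊥ := by
    rw [eq_bot_iff]
    rintro x ⟨hx, hx'⟩
    obtain ⟨y, rfl⟩ := (mem_idl hf _).mp hx'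
    rw [SetLike.mem_coe, mem_ext_iff] at hx
    rw [Submodule.mem_bot]
    apply (EE K n).injective
    rw [map_zero]
    funext S
    by_contra h0
    have h3 := hx S h0
    rw [EE_mul h2] at h0
    simp only [Matrix.mulVec, dotProduct, Pi.zero_apply] at h0
    obtain ⟨T, _, hT⟩ := Finset.exists_ne_zero_of_sum_ne_zero h0
    have h4 := hm_rho h2 hf S T (left_ne_zero_of_mul hT)
    have h5 := congrArg Prod.fst h4
    simp only [dc, Prod.fst_add] at h5
    omega
  rw [this]
  exact finrank_bot K _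

theorem zz_eq_bb (h2 : (2 : K) ≠ 0) (hf : f ∈ ⋀[K]^3 (Fin n → K)) {k : ℕ}
    (hE : Ex (dc n) (rho h2 n f) (fun g => g.1 = k)) : zz K n f k = bb K n f k := by
  apply le_antisymm _ (bb_le_zz h2 hf k)
  unfold bb zz
  apply Submodule.finrank_mono
  rintro x ⟨hx, hx'⟩
  refine ⟨hx, ?_⟩
  rw [SetLike.mem_coe, mem_ext_iff] at hx
  rw [SetLike.mem_coe, LinearMap.mem_ker, mf_apply] at hx'
  obtain ⟨w, hw⟩ := hE (EE K n x) (by
    intro S hS
    simpa [dc] using hx S hS) (by rw [← EE_mul h2, hx', map_zero])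
  rw [SetLike.mem_coe, mem_idl hf]
  refine ⟨(EE K n).symm w, ?_⟩
  apply (EE K n).injective
  rw [EE_mul h2, LinearEquiv.apply_symm_apply, hw]

/-- homology dimensions as a polynomial -/
noncomputable def HH (K : Type*) [Field K] (n : ℕ) (f : ExteriorAlgebra K (Fin n → K)) : ℤ[X] :=
  ∑ i ∈ Finset.range (n + 1), C ((zz K n f i : ℤ) - bb K n f i) * X ^ i

theorem coeff_sum' (a : ℕ → ℤ) (k : ℕ) :
    (∑ i ∈ Finset.range (n + 1), C (a i) * X ^ i : ℤ[X]).coeff k =
      if k < n + 1 then a k else 0 := by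
  rw [Polynomial.finsetSum_coeff]
  simp only [Polynomial.coeff_C_mul_X_pow]
  rw [Finset.sum_ite_eq]
  simp

theorem main_identity (h2 : (2 : K) ≠ 0) (hf3 : f ∈ ⋀[K]^3 (Fin n → K)) :
    hs K n f * (1 + X ^ 3) = (1 + X) ^ n + X ^ 3 * HH K n f := by
  ext k
  have e1 : ∀ k, (hs K n f).coeff k = (hf K n f k : ℤ) := by
    intro k
    unfold hs
    rw [coeff_sum']
    by_cases h : k < n + 1
    · rw [if_pos h]
    · rw [if_neg h]
      have := hf_add_bb (K := K) (n := n) (f := f) k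
      rw [Nat.choose_eq_zero_of_lt (by omega)] at this
      have h3 : hf K n f k = 0 := by omega
      rw [h3]; rfl
  have e2 : ∀ k, (HH K n f).coeff k = (zz K n f k : ℤ) - bb K n f k := by
    intro k
    unfold HH
    rw [coeff_sum']
    by_cases h : k < n + 1
    · rw [if_pos h]
    · rw [if_neg h]
      have h4 := zz_add_bb h2 hf3 k
      have h5 := hf_add_bb (K := K) (n := n) (f := f) k
      rw [Nat.choose_eq_zero_of_lt (by omega)] at h4 h5
      have h6 : zz K n f k = 0 := by omega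
      have h7 : bb K n f k = 0 := by omega
      rw [h6, h7]; rfl
  rw [mul_add, mul_one, Polynomial.coeff_add, Polynomial.coeff_add, Polynomial.coeff_one_add_X_pow,
    Polynomial.coeff_mul_X_pow', Polynomial.coeff_X_pow_mul', e1]
  have h5 := hf_add_bb (K := K) (n := n) (f := f) k
  by_cases hk : 3 ≤ k
  · rw [if_pos hk, if_pos hk, e1, e2]
    obtain ⟨m, rfl⟩ := Nat.exists_eq_add_of_le' hk
    rw [Nat.add_sub_cancel]
    have h4 := zz_add_bb h2 hf3 m
    have h6 := hf_add_bb (K := K) (n := n) (f := f) m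
    omega
  · rw [if_neg hk, if_neg hk, add_zero, add_zero]
    have h7 := bb_low h2 hf3 (k := k) (by omega)
    omega

end Ideal

section Poly

theorem dvd_three : (1 + X ^ 3 : ℤ[X]) ∣ (1 + X) ^ 3 - 3 * X * (1 + X) :=
  ⟨1, by ring⟩

theorem dvd_odd (m : ℕ) : (1 + X ^ 3 : ℤ[X]) ∣ (1 + X) ^ (2 * m + 1) - (3 * X) ^ m * (1 + X) := by
  induction m with
  | zero => simp
  | succ m ih =>
    obtain ⟨a, ha⟩ := ih
    refine ⟨(1 + X) ^ 2 * a + (3 * X) ^ m, ?_⟩
    have h1 : (1 + X : ℤ[X]) ^ (2 * (m + 1) + 1) = (1 + X) ^ 2 * (1 + X) ^ (2 * m + 1) := by ring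
    have h3 : (1 + X : ℤ[X]) ^ (2 * m + 1) = (3 * X) ^ m * (1 + X) + (1 + X ^ 3) * a := by
      rw [← ha]; ring
    rw [h1, h3]
    ring

theorem eq_of_dvd {l : ℕ} {H L : ℤ[X]} (hH : ∀ i, (i < l ∨ l + 2 < i) → H.coeff i = 0)
    (hL : ∀ i, (i < l ∨ l + 2 < i) → L.coeff i = 0) {A : ℤ[X]}
    (h1 : (1 + X ^ 3 : ℤ[X]) ∣ A + X ^ 3 * H) (h2 : (1 + X ^ 3 : ℤ[X]) ∣ A + X ^ 3 * L) :
    H = L := by
  have h3 : (1 + X ^ 3 : ℤ[X]) ∣ X ^ 3 * (H - L) := by
    have := dvd_sub h1 h2
    have e : A + X ^ 3 * H - (A + X ^ 3 * L) = X ^ 3 * (H - L) := by ring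
    rwa [e] at this
  have hc : IsCoprime (1 + X ^ 3 : ℤ[X]) X := ⟨1, -X ^ 2, by ring⟩
  have h4 : (1 + X ^ 3 : ℤ[X]) ∣ H - L := (hc.pow_right).dvd_of_dvd_mul_left h3
  have h5 : (X : ℤ[X]) ^ l ∣ H - L := by
    rw [Polynomial.X_pow_dvd_iff]
    intro d hd
    rw [Polynomial.coeff_sub, hH d (Or.inl hd), hL d (Or.inl hd), sub_zero]
  obtain ⟨q, hq⟩ := h5
  rw [hq] at h4
  have h6 : (1 + X ^ 3 : ℤ[X]) ∣ q := (hc.pow_right).dvd_of_dvd_mul_left h4
  have h7 : q.natDegree ≤ 2 := by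
    rw [Polynomial.natDegree_le_iff_coeff_eq_zero]
    intro i hi
    have h8 : (H - L).coeff (i + l) = 0 := by
      rw [Polynomial.coeff_sub, hH _ (Or.inr (by omega)), hL _ (Or.inr (by omega)), sub_zero]
    rw [hq, Polynomial.coeff_X_pow_mul] at h8
    exact h8
  have h9 : q = 0 := by
    by_contra h0
    obtain ⟨r, hr⟩ := h6
    have hm : (1 + X ^ 3 : ℤ[X]).Monic := by
      have : (1 + X ^ 3 : ℤ[X]) = X ^ 3 + C 1 := by simp [add_comm]
      rw [this]
      exact Polynomial.monic_X_pow_add_C 1 (by norm_num)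
    have hr0 : r ≠ 0 := by
      intro h; rw [h, mul_zero] at hr; exact h0 hr
    have hdeg : (1 + X ^ 3 : ℤ[X]).natDegree = 3 := by
      have : (1 + X ^ 3 : ℤ[X]) = X ^ 3 + C 1 := by simp [add_comm]
      rw [this]
      exact Polynomial.natDegree_X_pow_add_C
    have := hm.natDegree_mul' hr0
    rw [← hr, hdeg] at this
    omega
  rw [h9, mul_zero] at hq
  exact sub_eq_zero.mp hq

end Poly

end Pool.Agent.GC
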