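import Pool.Agent.GC.Abs

/-! Tensor products of complexes: Künneth arguments. -/

set_option linter.unusedSectionVars false
set_option linter.unusedSimpArgs false
set_option linter.unusedVariables false

namespace Pool.Agent.GC

open Matrix

section One

variable {K : Type*} [Field K] {I : Type*} [Fintype I] [DecidableEq I] {deg : I → Gr}

theorem mulVec_congr {M N : Matrix I I K} {v : I → K} (h : ∀ a b, v b ≠ 0 → M a b = N a b) :
    M *ᵥ v = N *ᵥ v := by
  funext a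
  simp only [Matrix.mulVec, dotProduct]
  apply Finset.sum_congr rfl
  intro b _
  by_cases hb : v b = 0
  · simp [hb]
  · rw [h a b hb]

theorem sdr_zero' {d π : Matrix I I K} {P : Gr → Prop} (hπ : Hm deg 0 π) (hpd : π * d = 0)
    (hdp : d * π = 0) (hpp : π * π = π) (hE : Ex deg d P) :
    ∀ b, P (deg b) → ∀ a, π a b = 0 := by
  intro b hb a
  have h := sdr_zero hπ hpd hdp hpp hE (Pi.single b 1) (by
    intro c hc
    by_cases hcb : c = b
    · rw [hcb]; exact hb
    · simp [Pi.single_apply, hcb] at hc)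
  have h2 := congrFun h a
  rw [Matrix.mulVec_single_one] at h2
  exact h2

/-- projector onto the degree `g` -/
def pj (K : Type*) [Field K] (deg : I → Gr) (g : Gr) : Matrix I I K :=
  Matrix.diagonal fun a => if deg a = g then 1 else 0

theorem mul_pj_apply (M : Matrix I I K) (g : Gr) (a b : I) :
    (M * pj K deg g) a b = if deg b = g then M a b else 0 := by
  unfold pj
  rw [Matrix.mul_diagonal]
  by_cases h : deg b = g <;> simp [h]

theorem pj_mul_apply (M : Matrix I I K) (g : Gr) (a b : I) :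
    (pj K deg g * M) a b = if deg a = g then M a b else 0 := by
  unfold pj
  rw [Matrix.diagonal_mul]
  by_cases h : deg a = g <;> simp [h]

/-- the operator form of the injectivity on homology -/
theorem exists_linv {δ τ : Gr} {d h π T : Matrix I I K} {g : Gr} (hd : Hm deg δ d)
    (hπ : Hm deg 0 π) (hs : d * h + h * d + π = 1) (hpd : π * d = 0) (hdp : d * π = 0)
    (hpp : π * π = π) (hT : Hm deg τ T) (hdT : d * T = T * d)
    (hI : HInj deg d T (fun x => x = g)) :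
    ∃ L : Matrix I I K, L * (π * T * π) = π * pj K deg g ∧
      (∀ a b, L a b ≠ 0 → deg b = g + τ) := by
  have key : ∀ v, (π * T * π * pj K deg g) *ᵥ v = 0 → (π * pj K deg g) *ᵥ v = 0 := by
    intro v hv
    set u := (π * pj K deg g) *ᵥ v with hu
    have hus : Sup deg (fun x => x = g) u := by
      intro a ha
      rw [hu] at ha
      simp only [Matrix.mulVec, dotProduct] at ha
      obtain ⟨b, _, hb⟩ := Finset.exists_ne_zero_of_sum_ne_zero ha
      rw [mul_pj_apply] at hb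
      by_cases hb' : deg b = g
      · rw [if_pos hb'] at hb
        have := hπ a b (left_ne_zero_of_mul hb)
        rw [this, hb', add_zero]
      · rw [if_neg hb', zero_mul] at hb; exact absurd rfl hb
    have hdu : d *ᵥ u = 0 := by
      rw [hu, Matrix.mulVec_mulVec, ← mul_assoc, hdp, zero_mul, Matrix.zero_mulVec]
    have hpu : π *ᵥ u = u := by
      rw [hu, Matrix.mulVec_mulVec, ← mul_assoc, hpp]
    have h1 : π *ᵥ (T *ᵥ u) = 0 := by
      rw [hu, Matrix.mulVec_mulVec, Matrix.mulVec_mulVec]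
      simpa only [mul_assoc] using hv
    have h2 : T *ᵥ u = d *ᵥ (h *ᵥ (T *ᵥ u)) := by
      have h3 : (d * h + h * d + π) *ᵥ (T *ᵥ u) = T *ᵥ u := by rw [hs, Matrix.one_mulVec]
      have h4 : d *ᵥ (T *ᵥ u) = 0 := by
        rw [Matrix.mulVec_mulVec, hdT, ← Matrix.mulVec_mulVec, hdu, Matrix.mulVec_zero]
      rw [Matrix.add_mulVec, Matrix.add_mulVec, ← Matrix.mulVec_mulVec, ← Matrix.mulVec_mulVec,
        h4, Matrix.mulVec_zero, h1, add_zero, add_zero] at h3
      exact h3.symm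
    obtain ⟨w, hw⟩ := hI u hus hdu ⟨_, h2.symm⟩
    rw [← hpu, ← hw, Matrix.mulVec_mulVec, hpd, Matrix.zero_mulVec]
  obtain ⟨G, hG⟩ := exists_ginv (π * T * π * pj K deg g)
  have hm : Hm deg τ (π * T * π) := ((hπ.mul hT).mul hπ).congr (by abel)
  refine ⟨π * pj K deg g * G * pj K deg (g + τ), ?_, ?_⟩
  · have h1 : pj K deg (g + τ) * (π * T * π) = π * T * π * pj K deg g := by
      ext a b
      rw [mul_pj_apply, pj_mul_apply]
      by_cases h0 : (π * T * π) a b = 0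
      · simp [h0]
      · have := hm a b h0
        rw [this]
        by_cases hb : deg b = g
        · simp [hb]
        · rw [if_neg hb, if_neg]
          intro h; exact hb (add_right_cancel h)
    rw [mul_assoc, h1]
    have h2 : π * pj K deg g * (1 - G * (π * T * π * pj K deg g)) = 0 := by
      have : ∀ v, (π * pj K deg g * (1 - G * (π * T * π * pj K deg g))) *ᵥ v = 0 := by
        intro v
        rw [← Matrix.mulVec_mulVec]
        apply key
        rw [Matrix.mulVec_mulVec, mul_sub, mul_one, ← mul_assoc, hG, sub_self, Matrix.zero_mulVec]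
      ext a b
      have := congrFun (this (Pi.single b 1)) a
      rw [Matrix.mulVec_single_one] at this
      exact this
    rw [mul_sub, mul_one, sub_eq_zero] at h2
    rw [mul_assoc (π * pj K deg g)]
    exact h2.symm
  · intro a b hab
    rw [mul_pj_apply] at hab
    by_contra h
    rw [if_neg h] at hab
    exact hab rfl

end One

section Two

variable {K : Type*} [Field K] {I J : Type*} [Fintype I] [DecidableEq I] [Fintype J] [DecidableEq J]
  {degI : I → Gr} {degJ : J → Gr}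

/-- cycles are homologous to their projections -/
theorem kun_red {δ : Gr} (hδ : Odd δ.1) {d h1 π1 : Matrix I I K} {e h2 π2 : Matrix J J K}
    (hd : Hm degI δ d) (hdd : d * d = 0) (hee : e * e = 0)
    (hh1 : Hm degI (-δ) h1) (hs1 : d * h1 + h1 * d + π1 = 1)
    (hs2 : e * h2 + h2 * e + π2 = 1) {v : I × J → K} (hv : dten degI d e *ᵥ v = 0) :
    ∃ w, dten degI d e *ᵥ w = v - kr π1 π2 *ᵥ v := by
  have hDD := dten_sq (e := e) hd hδ hdd hee
  have hδ' : Odd (-δ).1 := by simpa using hδ.neg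
  set D := dten degI d e with hD
  have e1 : D * kr h1 1 + kr h1 1 * D + kr π1 1 = 1 := by
    have h3 : h1 * sg K degI = -(sg K degI * h1) := hh1.odd hδ'
    rw [hD, dten, add_mul, mul_add, kr_mul, kr_mul, kr_mul, kr_mul, h3, kr_neg_left]
    simp only [mul_one, one_mul]
    rw [← kr_one_one, ← hs1, kr_add_left, kr_add_left]
    abel
  have e2 : D * kr (sg K degI) h2 + kr (sg K degI) h2 * D + kr 1 π2 = 1 := by
    have h3 : d * sg K degI = -(sg K degI * d) := hd.odd hδ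
    rw [hD, dten, add_mul, mul_add, kr_mul, kr_mul, kr_mul, kr_mul, h3, kr_neg_left, sg_mul_sg]
    simp only [mul_one, one_mul]
    rw [← kr_one_one (I := I) (J := J), ← hs2, kr_add_right, kr_add_right]
    abel
  have f1 : v - kr π1 1 *ᵥ v = D *ᵥ (kr h1 1 *ᵥ v) := by
    have : (D * kr h1 1 + kr h1 1 * D + kr π1 1) *ᵥ v = v := by rw [e1, Matrix.one_mulVec]
    rw [Matrix.add_mulVec, Matrix.add_mulVec, ← Matrix.mulVec_mulVec, ← Matrix.mulVec_mulVec, hv,
      Matrix.mulVec_zero, add_zero] at this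
    exact (eq_sub_of_add_eq this).symm
  set v1 := kr π1 1 *ᵥ v with hv1
  have hDv1 : D *ᵥ v1 = 0 := by
    have : v1 = v - D *ᵥ (kr h1 1 *ᵥ v) := by rw [← f1]; abel
    rw [this, Matrix.mulVec_sub, hv, Matrix.mulVec_mulVec, hDD, Matrix.zero_mulVec, sub_zero]
  have f2 : v1 - kr 1 π2 *ᵥ v1 = D *ᵥ (kr (sg K degI) h2 *ᵥ v1) := by
    have : (D * kr (sg K degI) h2 + kr (sg K degI) h2 * D + kr 1 π2) *ᵥ v1 = v1 := by
      rw [e2, Matrix.one_mulVec]
    rw [Matrix.add_mulVec, Matrix.add_mulVec, ← Matrix.mulVec_mulVec, ← Matrix.mulVec_mulVec,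
      hDv1, Matrix.mulVec_zero, add_zero] at this
    exact (eq_sub_of_add_eq this).symm
  refine ⟨kr h1 1 *ᵥ v + kr (sg K degI) h2 *ᵥ v1, ?_⟩
  rw [Matrix.mulVec_add, ← f1, ← f2]
  have h5 : kr 1 π2 *ᵥ v1 = kr π1 π2 *ᵥ v := by
    rw [hv1, Matrix.mulVec_mulVec, kr_mul, one_mul, mul_one]
  rw [h5]; abel

theorem kr_pi_D {d π1 : Matrix I I K} {e π2 : Matrix J J K} (hπ1 : Hm degI 0 π1)
    (hpd : π1 * d = 0) (hpe : π2 * e = 0) : kr π1 π2 * dten degI d e = 0 := by
  rw [dten, mul_add, kr_mul, kr_mul, hpd, kr_zero_left, hpe, kr_zero_right, add_zero]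

/-- exactness of a tensor product -/
theorem ex_prod {δ : Gr} (hδ : Odd δ.1) {d : Matrix I I K} {e : Matrix J J K}
    (hd : Hm degI δ d) (hdd : d * d = 0) (he : Hm degJ δ e) (hee : e * e = 0)
    {P1 P2 P : Gr → Prop} (h1 : Ex degI d P1) (h2 : Ex degJ e P2)
    (hP : ∀ g1 g2, P (g1 + g2) → P1 g1 ∨ P2 g2) : Ex (dg2 degI degJ) (dten degI d e) P := by
  intro v hv hDv
  obtain ⟨k1, π1, hk1, hπ1, hs1, hpd1, hdp1, hpp1⟩ := exists_sdr hd hdd
  obtain ⟨k2, π2, hk2, hπ2, hs2, hpd2, hdp2, hpp2⟩ := exists_sdr he hee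
  obtain ⟨w, hw⟩ := kun_red hδ hd hdd hee hk1 hs1 hs2 hDv
  refine ⟨w, ?_⟩
  rw [hw]
  have : kr π1 π2 *ᵥ v = 0 := by
    have h0 : kr π1 π2 *ᵥ v = (0 : Matrix (I × J) (I × J) K) *ᵥ v := by
      apply mulVec_congr
      intro a b hb
      rw [kr_apply]
      rcases hP _ _ (hv b hb) with h | h
      · rw [sdr_zero' hπ1 hpd1 hdp1 hpp1 h1 _ h]; simp
      · rw [sdr_zero' hπ2 hpd2 hdp2 hpp2 h2 _ h]; simp
    rw [h0, Matrix.zero_mulVec]
  rw [this, sub_zero]

theorem Q_prod {δ : Gr} (hδ : Odd δ.1) {d : Matrix I I K} {e : Matrix J J K}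
    (hd : Hm degI δ d) (hdd : d * d = 0) (he : Hm degJ δ e) (hee : e * e = 0)
    {l1 l2 : ℤ} {c1 c2 : ZMod 3} (h1 : Q degI d l1 c1) (h2 : Q degJ e l2 c2) :
    Q (dg2 degI degJ) (dten degI d e) (l1 + l2) (c1 + c2) := by
  refine ex_prod hδ hd hdd he hee h1 h2 ?_
  rintro ⟨t1, a1⟩ ⟨t2, a2⟩ h
  simp only [Prod.mk_add_mk] at h ⊢
  by_contra hc
  push Not at hc
  obtain ⟨⟨q1, q2, q3⟩, ⟨r1, r2, r3⟩⟩ := hc
  rcases h with h | ⟨h, h'⟩ | ⟨h, h'⟩
  · omega
  · have e1 : t1 = l1 := by omega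
    have e2 : t2 = l2 := by omega
    rw [q2 e1, r2 e2] at h'
    exact h' rfl
  · by_cases e1 : t1 = l1
    · have e2 : t2 = l2 + 1 := by omega
      apply r3 e2
      rw [q2 e1] at h'
      have : c1 + a2 = c1 + (c2 + 2) := by rw [h']; ring
      exact add_left_cancel this
    · have e3 : t1 = l1 + 1 := by omega
      have e2 : t2 = l2 := by omega
      apply q3 e3
      rw [r2 e2] at h'
      have : a1 + c2 = (c1 + 2) + c2 := by rw [h']; ring
      exact add_right_cancel this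

/-- data for the two injectivity statements -/
theorem hinj_sq {δ τ : Gr} (hδ : Odd δ.1) (h2K : (2 : K) ≠ 0) {d T1 : Matrix I I K}
    {e T2 : Matrix J J K} (hd : Hm degI δ d) (hdd : d * d = 0) (he : Hm degJ δ e)
    (hee : e * e = 0) (hT1 : Hm degI τ T1) (hT2 : Hm degJ τ T2) (hτ : Even τ.1) (hτ0 : τ.1 ≠ 0)
    (c1 : d * T1 = T1 * d) (c2 : e * T2 = T2 * e)
    {l1 l2 : ℤ} {a1 a2 : ZMod 3} (hQ1 : Q degI d l1 a1) (hQ2 : Q degJ e l2 a2)
    (hI1 : HInj degI d T1 (fun x => x = (l1, a1))) (hI2 : HInj degJ e T2 (fun x => x = (l2, a2))) :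
    HInj (dg2 degI degJ) (dten degI d e) ((kr T1 1 + kr 1 T2) * (kr T1 1 + kr 1 T2))
      (fun x => x = (l1 + l2, a1 + a2)) := by
  intro v hv hDv hTv
  obtain ⟨k1, π1, hk1, hπ1, hs1, hpd1, hdp1, hpp1⟩ := exists_sdr hd hdd
  obtain ⟨k2, π2, hk2, hπ2, hs2, hpd2, hdp2, hpp2⟩ := exists_sdr he hee
  obtain ⟨w, hw⟩ := kun_red hδ hd hdd hee hk1 hs1 hs2 hDv
  obtain ⟨L1, hL1, hL1'⟩ := exists_linv hd hπ1 hs1 hpd1 hdp1 hpp1 hT1 c1 hI1
  obtain ⟨L2, hL2, hL2'⟩ := exists_linv he hπ2 hs2 hpd2 hdp2 hpp2 hT2 c2 hI2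
  set D := dten degI d e with hD
  set T := (kr T1 1 + kr 1 T2 : Matrix (I × J) (I × J) K) with hT
  have hkD : kr π1 π2 * D = 0 := kr_pi_D hπ1 hpd1 hpd2
  have hkD' : ∀ u, kr π1 π2 *ᵥ (D *ᵥ u) = 0 := by
    intro u
    rw [Matrix.mulVec_mulVec, hkD, Matrix.zero_mulVec]
  have hDT : D * T = T * D := by
    simp only [hD, hT, dten, add_mul, mul_add, kr_mul, mul_one, one_mul, c1, c2, hT1.even hτ]
    abel
  have hTD : ∀ u, T *ᵥ (D *ᵥ u) = D *ᵥ (T *ᵥ u) := by
    intro u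
    rw [Matrix.mulVec_mulVec, Matrix.mulVec_mulVec, hDT]
  refine ⟨w, ?_⟩
  rw [hw]
  -- the classes
  have hz1 := sdr_zero' hπ1 hpd1 hdp1 hpp1 hQ1
  have hz2 := sdr_zero' hπ2 hpd2 hdp2 hpp2 hQ2
  have hbi : ∀ a b, v b ≠ 0 → π1 a b.1 ≠ 0 → (degI b.1).1 ≥ l1 := by
    intro a b _ h
    by_contra hc
    exact h (hz1 _ (Or.inl (by omega)) a)
  have hbj : ∀ a b, v b ≠ 0 → π2 a b.2 ≠ 0 → (degJ b.2).1 ≥ l2 := by
    intro a b _ h
    by_contra hc
    exact h (hz2 _ (Or.inl (by omega)) a)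
  have hdeg : ∀ b, v b ≠ 0 → (degI b.1).1 + (degJ b.2).1 = l1 + l2 := by
    intro b hb
    have := hv b hb
    have := congrArg Prod.fst this
    simpa [dg2] using this
  -- the main product
  have hy : kr π1 π2 *ᵥ (T *ᵥ (T *ᵥ (kr π1 π2 *ᵥ v))) = 0 := by
    obtain ⟨u, hu⟩ := hTv
    have h1 : kr π1 π2 *ᵥ v = v - D *ᵥ w := by rw [hw]; abel
    have h2 : T *ᵥ (T *ᵥ (D *ᵥ w)) = D *ᵥ (T *ᵥ (T *ᵥ w)) := by
      rw [hTD, hTD]
    rw [h1, Matrix.mulVec_sub, Matrix.mulVec_sub, h2, Matrix.mulVec_sub]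
    have hTT : T *ᵥ (T *ᵥ v) = D *ᵥ u := by rw [Matrix.mulVec_mulVec]; exact hu.symm
    rw [hTT, hkD', hkD', sub_zero]
  have hprod : (kr L1 L2 * (kr π1 π2 * (T * (T * kr π1 π2)))) *ᵥ v =
      ((2 : K) • kr π1 π2) *ᵥ v := by
    have e1 : kr L1 L2 * (kr π1 π2 * (T * (T * kr π1 π2))) =
        kr (L1 * π1 * T1 * T1 * π1) (L2 * π2 * π2) +
        (2 : K) • kr (L1 * (π1 * T1 * π1)) (L2 * (π2 * T2 * π2)) +
        kr (L1 * π1 * π1) (L2 * π2 * T2 * T2 * π2) := by
      rw [hT]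
      simp only [mul_add, add_mul, kr_mul, mul_one, one_mul, mul_assoc, two_smul]
      abel
    rw [e1, hL1, hL2]
    apply mulVec_congr
    intro a b hb
    have hs := hdeg b hb
    simp only [Matrix.add_apply, Matrix.smul_apply, kr_apply, smul_eq_mul]
    have z1 : (L1 * π1 * T1 * T1 * π1) a.1 b.1 * (L2 * π2 * π2) a.2 b.2 = 0 := by
      by_contra h
      have h1 := left_ne_zero_of_mul h
      have h2 := right_ne_zero_of_mul h
      rw [Matrix.mul_apply] at h2
      obtain ⟨x, _, hx⟩ := Finset.exists_ne_zero_of_sum_ne_zero h2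
      have q2 := hbj x b hb (right_ne_zero_of_mul hx)
      -- the first factor
      have h1' := h1
      rw [Matrix.mul_apply] at h1'
      obtain ⟨y, _, hy1⟩ := Finset.exists_ne_zero_of_sum_ne_zero h1'
      have q1 := hbi y b hb (right_ne_zero_of_mul hy1)
      have h3 : (L1 * (π1 * T1 * T1 * π1)) a.1 b.1 ≠ 0 := by
        simpa only [mul_assoc] using h1
      · have h4 := h3
        rw [Matrix.mul_apply] at h4
        obtain ⟨z, _, hz⟩ := Finset.exists_ne_zero_of_sum_ne_zero h4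
        have g1 := hL1' _ _ (left_ne_zero_of_mul hz)
        have g2 : Hm degI (τ + τ) (π1 * T1 * T1 * π1) :=
          (((hπ1.mul hT1).mul hT1).mul hπ1).congr (by abel)
        have g3 := g2 _ _ (right_ne_zero_of_mul hz)
        rw [g1] at g3
        have g4 := congrArg Prod.fst g3
        simp only [Prod.fst_add] at g4
        omega
    have z2 : (L1 * π1 * π1) a.1 b.1 * (L2 * π2 * T2 * T2 * π2) a.2 b.2 = 0 := by
      by_contra h
      have h1 := left_ne_zero_of_mul h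
      have h2 := right_ne_zero_of_mul h
      rw [Matrix.mul_apply] at h1
      obtain ⟨x, _, hx⟩ := Finset.exists_ne_zero_of_sum_ne_zero h1
      have q1 := hbi x b hb (right_ne_zero_of_mul hx)
      have h2' := h2
      rw [Matrix.mul_apply] at h2'
      obtain ⟨y, _, hy1⟩ := Finset.exists_ne_zero_of_sum_ne_zero h2'
      have q2 := hbj y b hb (right_ne_zero_of_mul hy1)
      have h3 : (L2 * (π2 * T2 * T2 * π2)) a.2 b.2 ≠ 0 := by
        simpa only [mul_assoc] using h2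
      · have h4 := h3
        rw [Matrix.mul_apply] at h4
        obtain ⟨z, _, hz⟩ := Finset.exists_ne_zero_of_sum_ne_zero h4
        have g1 := hL2' _ _ (left_ne_zero_of_mul hz)
        have g2 : Hm degJ (τ + τ) (π2 * T2 * T2 * π2) :=
          (((hπ2.mul hT2).mul hT2).mul hπ2).congr (by abel)
        have g3 := g2 _ _ (right_ne_zero_of_mul hz)
        rw [g1] at g3
        have g4 := congrArg Prod.fst g3
        simp only [Prod.fst_add] at g4
        omega
    rw [z1, z2, zero_add, add_zero, mul_pj_apply, mul_pj_apply]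
    by_cases p1 : π1 a.1 b.1 = 0
    · simp [p1]
    · by_cases p2 : π2 a.2 b.2 = 0
      · simp [p2]
      · have q1 := hbi _ b hb p1
        have q2 := hbj _ b hb p2
        have r1 : (degI b.1).1 = l1 := by omega
        have r2 : (degJ b.2).1 = l2 := by omega
        have s1 : (degI b.1).2 = a1 := by
          by_contra hc
          exact p1 (hz1 _ (Or.inr (Or.inl ⟨r1, hc⟩)) _)
        have s2 : (degJ b.2).2 = a2 := by
          by_contra hc
          exact p2 (hz2 _ (Or.inr (Or.inl ⟨r2, hc⟩)) _)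
        rw [if_pos (Prod.ext r1 s1), if_pos (Prod.ext r2 s2)]
  have h0 : ((2 : K) • kr π1 π2) *ᵥ v = 0 := by
    rw [← hprod, ← Matrix.mulVec_mulVec, ← Matrix.mulVec_mulVec, ← Matrix.mulVec_mulVec,
      ← Matrix.mulVec_mulVec, hy, Matrix.mulVec_zero]
  rw [Matrix.smul_mulVec] at h0
  have : kr π1 π2 *ᵥ v = 0 := by
    rcases smul_eq_zero.mp h0 with h | h
    · exact absurd h h2K
    · exact h
  rw [this, sub_zero]

theorem hinj_lin {δ τ : Gr} (hδ : Odd δ.1) {d T1 : Matrix I I K}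
    {e T2 : Matrix J J K} (hd : Hm degI δ d) (hdd : d * d = 0) (he : Hm degJ δ e)
    (hee : e * e = 0) (hT1 : Hm degI τ T1) (hT2 : Hm degJ τ T2) (hτ : Even τ.1) (hτ0 : 1 < τ.1)
    (c1 : d * T1 = T1 * d) (c2 : e * T2 = T2 * e)
    {l1 l2 : ℤ} {a1 a2 : ZMod 3} (hQ1 : Q degI d l1 a1) (hQ2 : Q degJ e l2 a2)
    (hI1 : HInj degI d T1 (fun x => x = (l1, a1))) (hI2 : HInj degJ e T2 (fun x => x = (l2, a2))) :
    HInj (dg2 degI degJ) (dten degI d e) (kr T1 1 + kr 1 T2)
      (fun x => x.1 = l1 + l2 + 1) := by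
  intro v hv hDv hTv
  obtain ⟨k1, π1, hk1, hπ1, hs1, hpd1, hdp1, hpp1⟩ := exists_sdr hd hdd
  obtain ⟨k2, π2, hk2, hπ2, hs2, hpd2, hdp2, hpp2⟩ := exists_sdr he hee
  obtain ⟨w, hw⟩ := kun_red hδ hd hdd hee hk1 hs1 hs2 hDv
  obtain ⟨L1, hL1, hL1'⟩ := exists_linv hd hπ1 hs1 hpd1 hdp1 hpp1 hT1 c1 hI1
  obtain ⟨L2, hL2, hL2'⟩ := exists_linv he hπ2 hs2 hpd2 hdp2 hpp2 hT2 c2 hI2
  set D := dten degI d e with hD
  set T := (kr T1 1 + kr 1 T2 : Matrix (I × J) (I × J) K) with hT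
  have hkD : kr π1 π2 * D = 0 := kr_pi_D hπ1 hpd1 hpd2
  have hkD' : ∀ u, kr π1 π2 *ᵥ (D *ᵥ u) = 0 := by
    intro u
    rw [Matrix.mulVec_mulVec, hkD, Matrix.zero_mulVec]
  have hDT : D * T = T * D := by
    simp only [hD, hT, dten, add_mul, mul_add, kr_mul, mul_one, one_mul, c1, c2, hT1.even hτ]
    abel
  have hTD : ∀ u, T *ᵥ (D *ᵥ u) = D *ᵥ (T *ᵥ u) := by
    intro u
    rw [Matrix.mulVec_mulVec, Matrix.mulVec_mulVec, hDT]
  refine ⟨w, ?_⟩
  rw [hw]
  have hz1 := sdr_zero' hπ1 hpd1 hdp1 hpp1 hQ1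
  have hz2 := sdr_zero' hπ2 hpd2 hdp2 hpp2 hQ2
  have hbi : ∀ a b, v b ≠ 0 → π1 a b.1 ≠ 0 → (degI b.1).1 ≥ l1 := by
    intro a b _ h
    by_contra hc
    exact h (hz1 _ (Or.inl (by omega)) a)
  have hbj : ∀ a b, v b ≠ 0 → π2 a b.2 ≠ 0 → (degJ b.2).1 ≥ l2 := by
    intro a b _ h
    by_contra hc
    exact h (hz2 _ (Or.inl (by omega)) a)
  have hdeg : ∀ b, v b ≠ 0 → (degI b.1).1 + (degJ b.2).1 = l1 + l2 + 1 := by
    intro b hb
    have := hv b hb
    simpa [dg2] using this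
  have hy : kr π1 π2 *ᵥ (T *ᵥ (kr π1 π2 *ᵥ v)) = 0 := by
    obtain ⟨u, hu⟩ := hTv
    have h1 : kr π1 π2 *ᵥ v = v - D *ᵥ w := by rw [hw]; abel
    have h2 : T *ᵥ (D *ᵥ w) = D *ᵥ (T *ᵥ w) := by
      rw [hTD]
    rw [h1, Matrix.mulVec_sub, h2, Matrix.mulVec_sub]
    rw [← hu, hkD', hkD', sub_zero]
  have p1 : (kr 1 L2 * (kr π1 π2 * (T * kr π1 π2))) *ᵥ v = kr π1 (π2 * pj K degJ (l2, a2)) *ᵥ v := by
    have e1 : kr 1 L2 * (kr π1 π2 * (T * kr π1 π2)) =
        kr (π1 * T1 * π1) (L2 * π2) + kr π1 (L2 * (π2 * T2 * π2)) := by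
      have e3 : L2 * (π2 * π2) = L2 * π2 := by rw [hpp2]
      rw [hT]
      simp only [mul_add, add_mul, kr_mul, mul_one, one_mul, mul_assoc, hpp1, hpp2]
    rw [e1, hL2]
    apply mulVec_congr
    intro a b hb
    have hs := hdeg b hb
    simp only [Matrix.add_apply, kr_apply]
    have z1 : (π1 * T1 * π1) a.1 b.1 * (L2 * π2) a.2 b.2 = 0 := by
      by_contra h
      have h1 := left_ne_zero_of_mul h
      have h2 := right_ne_zero_of_mul h
      rw [Matrix.mul_apply] at h1 h2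
      obtain ⟨y, _, hy1⟩ := Finset.exists_ne_zero_of_sum_ne_zero h1
      obtain ⟨x, _, hx⟩ := Finset.exists_ne_zero_of_sum_ne_zero h2
      have q1 := hbi y b hb (right_ne_zero_of_mul hy1)
      have g1 := hL2' _ _ (left_ne_zero_of_mul hx)
      have g2 := hπ2 _ _ (right_ne_zero_of_mul hx)
      rw [g1, add_zero] at g2
      have g4 := congrArg Prod.fst g2
      simp only [Prod.fst_add] at g4
      omega
    rw [z1, zero_add]
  have p2 : (kr L1 1 * (kr π1 π2 * (T * kr π1 π2))) *ᵥ v = kr (π1 * pj K degI (l1, a1)) π2 *ᵥ v := by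
    have e1 : kr L1 1 * (kr π1 π2 * (T * kr π1 π2)) =
        kr (L1 * (π1 * T1 * π1)) π2 + kr (L1 * π1) (π2 * T2 * π2) := by
      rw [hT]
      simp only [mul_add, add_mul, kr_mul, mul_one, one_mul, mul_assoc, hpp1, hpp2]
    rw [e1, hL1]
    apply mulVec_congr
    intro a b hb
    have hs := hdeg b hb
    simp only [Matrix.add_apply, kr_apply]
    have z1 : (L1 * π1) a.1 b.1 * (π2 * T2 * π2) a.2 b.2 = 0 := by
      by_contra h
      have h1 := left_ne_zero_of_mul h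
      have h2 := right_ne_zero_of_mul h
      rw [Matrix.mul_apply] at h1 h2
      obtain ⟨y, _, hy1⟩ := Finset.exists_ne_zero_of_sum_ne_zero h2
      obtain ⟨x, _, hx⟩ := Finset.exists_ne_zero_of_sum_ne_zero h1
      have q1 := hbj y b hb (right_ne_zero_of_mul hy1)
      have g1 := hL1' _ _ (left_ne_zero_of_mul hx)
      have g2 := hπ1 _ _ (right_ne_zero_of_mul hx)
      rw [g1, add_zero] at g2
      have g4 := congrArg Prod.fst g2
      simp only [Prod.fst_add] at g4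
      omega
    rw [z1, add_zero]
  have hsum : kr π1 π2 *ᵥ v = kr π1 (π2 * pj K degJ (l2, a2)) *ᵥ v +
      kr (π1 * pj K degI (l1, a1)) π2 *ᵥ v := by
    rw [← Matrix.add_mulVec]
    apply mulVec_congr
    intro a b hb
    have hs := hdeg b hb
    simp only [Matrix.add_apply, kr_apply, mul_pj_apply]
    by_cases p1 : π1 a.1 b.1 = 0
    · simp [p1]
    · by_cases p2 : π2 a.2 b.2 = 0
      · simp [p2]
      · have q1 := hbi _ b hb p1
        have q2 := hbj _ b hb p2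
        by_cases r1 : (degI b.1).1 = l1
        · have r2 : (degJ b.2).1 ≠ l2 := by omega
          have s1 : (degI b.1).2 = a1 := by
            by_contra hc
            exact p1 (hz1 _ (Or.inr (Or.inl ⟨r1, hc⟩)) _)
          rw [if_neg (fun h => r2 (by rw [h])), if_pos (Prod.ext r1 s1)]
          ring
        · have r2 : (degJ b.2).1 = l2 := by omega
          have s2 : (degJ b.2).2 = a2 := by
            by_contra hc
            exact p2 (hz2 _ (Or.inr (Or.inl ⟨r2, hc⟩)) _)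
          rw [if_pos (Prod.ext r2 s2), if_neg (fun h => r1 (by rw [h]))]
          ring
  rw [hsum, ← p1, ← p2]
  have f1 : ∀ M : Matrix (I × J) (I × J) K, (M * (kr π1 π2 * (T * kr π1 π2))) *ᵥ v = 0 := by
    intro M
    rw [← Matrix.mulVec_mulVec, ← Matrix.mulVec_mulVec, ← Matrix.mulVec_mulVec, hy,
      Matrix.mulVec_zero]
  rw [f1, f1]; simp

end Two

end Pool.Agent.GC
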