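import Pool.Agent.GC.Forms

/-! Comparison with Mathlib's exterior algebra. -/

set_option linter.unusedSectionVars false
set_option linter.unusedSimpArgs false
set_option linter.unusedVariables false

namespace Pool.Agent.GC

open Matrix

section

variable {K : Type*} [Field K] {n : ℕ}

/-- operator of a vector -/
def vop (K : Type*) [Field K] (n : ℕ) :
    (Fin n → K) →ₗ[K] Matrix (Finset (Fin n)) (Finset (Fin n)) K where
  toFun v := ∑ i, v i • Fock.cr K i
  map_add' v w := by simp [add_smul, Finset.sum_add_distrib]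
  map_smul' r v := by simp [mul_smul, Finset.smul_sum]

theorem vop_sq (h2 : (2 : K) ≠ 0) (v : Fin n → K) : vop K n v * vop K n v = 0 := by
  have h1 : vop K n v * vop K n v = -(vop K n v * vop K n v) := by
    simp only [vop, LinearMap.coe_mk, AddHom.coe_mk, Finset.sum_mul, Finset.mul_sum,
      Matrix.smul_mul, Matrix.mul_smul]
    conv_rhs => rw [Finset.sum_comm]
    simp only [← Finset.sum_neg_distrib]
    refine Finset.sum_congr rfl fun i _ => Finset.sum_congr rfl fun j _ => ?_
    have h3 := (Fock.std K (Fin n)).anti j i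
    change Fock.cr K j * Fock.cr K i = -(Fock.cr K i * Fock.cr K j) at h3
    rw [h3, smul_neg, smul_neg, smul_comm]
  have h3 : (2 : K) • (vop K n v * vop K n v) = 0 := by
    rw [two_smul]
    nth_rewrite 1 [h1]
    simp
  rcases smul_eq_zero.mp h3 with h | h
  · exact absurd h h2
  · exact h

/-- the representation of the exterior algebra -/
noncomputable def rho (h2 : (2 : K) ≠ 0) (n : ℕ) :
    ExteriorAlgebra K (Fin n → K) →ₐ[K] Matrix (Finset (Fin n)) (Finset (Fin n)) K :=
  ExteriorAlgebra.lift K ⟨vop K n, vop_sq h2⟩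

theorem rho_ι (h2 : (2 : K) ≠ 0) (v : Fin n → K) :
    rho h2 n (ExteriorAlgebra.ι K v) = vop K n v := by
  unfold rho
  rw [ExteriorAlgebra.lift_ι_apply]

theorem rho_basis (h2 : (2 : K) ≠ 0) (i : Fin n) :
    rho h2 n (ExteriorAlgebra.ι K (Pi.basisFun K (Fin n) i)) = Fock.cr K i := by
  rw [rho_ι]
  simp [vop, Pi.basisFun_apply, Pi.single_apply]

theorem cr_single {i : Fin n} {S : Finset (Fin n)} (h : ∀ j ∈ S, i < j) :
    Fock.cr K i *ᵥ Pi.single S 1 = Pi.single (insert i S) 1 := by
  have hi : i ∉ S := fun h' => lt_irrefl _ (h i h')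
  funext a
  rw [Matrix.mulVec_single_one]
  simp only [Matrix.col_apply, Fock.cr, Pi.single_apply]
  have hb : Fock.below S i = 0 := by
    unfold Fock.below
    rw [Finset.card_eq_zero, Finset.filter_eq_empty_iff]
    intro j hj
    exact not_lt.mpr (h j hj).le
  rw [hb, pow_zero]
  by_cases ha : a = insert i S
  · simp [hi, ha]
  · simp [hi, ha]

theorem list_cr (l : List (Fin n)) (hl : l.Pairwise (· < ·)) :
    (l.map (fun i => Fock.cr K i)).prod *ᵥ Pi.single ∅ 1 = Pi.single l.toFinset (1 : K) := by
  induction l with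
  | nil => rw [List.map_nil, List.prod_nil, Matrix.one_mulVec]; rfl
  | cons a l ih =>
    rw [List.pairwise_cons] at hl
    rw [List.map_cons, List.prod_cons, ← Matrix.mulVec_mulVec, ih hl.2, cr_single,
      List.toFinset_cons]
    intro j hj
    exact hl.1 j (by simpa using hj)

/-- the basis of the exterior algebra -/
noncomputable def eb (K : Type*) [Field K] (n : ℕ) :
    Module.Basis (Finset (Fin n)) K (ExteriorAlgebra K (Fin n → K)) :=
  (Pi.basisFun K (Fin n)).ExteriorAlgebra

theorem rho_eb (h2 : (2 : K) ≠ 0) (S : Finset (Fin n)) :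
    rho h2 n (eb K n S) *ᵥ Pi.single ∅ 1 = Pi.single S 1 := by
  unfold eb
  rw [ExteriorAlgebra.basis_apply_ofCard (Pi.basisFun K (Fin n)) (s := S) rfl]
  unfold ExteriorAlgebra.ιMulti_family
  rw [ExteriorAlgebra.ιMulti_apply, map_list_prod, List.map_ofFn]
  have h1 : (⇑(rho h2 n) ∘ fun i => (ExteriorAlgebra.ι K)
      ((⇑(Pi.basisFun K (Fin n)) ∘ ⇑(Set.powersetCard.ofFinEmbEquiv.symm
        (Set.powersetCard.ofCard (rfl : S.card = S.card)))) i)) =
      fun i => Fock.cr K (Finset.orderEmbOfFin S rfl i) := by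
    funext i
    simp only [Function.comp_apply]
    rw [rho_basis]
    rfl
  rw [h1]
  have h3 : List.ofFn (fun i => Fock.cr K (Finset.orderEmbOfFin S rfl i)) =
      (List.ofFn (fun i => Finset.orderEmbOfFin S rfl i)).map (fun i => Fock.cr K i) := by
    rw [List.map_ofFn]; rfl
  rw [h3, list_cr]
  · congr 1
    ext j
    simp only [List.mem_toFinset, List.mem_ofFn]
    rw [← Set.mem_range, Finset.range_orderEmbOfFin, Finset.mem_coe]
  · rw [List.pairwise_ofFn]
    intro i j hij
    exact (Finset.orderEmbOfFin S rfl).strictMono hij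

/-- coordinates -/
noncomputable def EE (K : Type*) [Field K] (n : ℕ) :
    ExteriorAlgebra K (Fin n → K) ≃ₗ[K] (Finset (Fin n) → K) := (eb K n).equivFun

theorem EE_eq (h2 : (2 : K) ≠ 0) (x : ExteriorAlgebra K (Fin n → K)) :
    EE K n x = rho h2 n x *ᵥ Pi.single ∅ 1 := by
  let L : ExteriorAlgebra K (Fin n → K) →ₗ[K] (Finset (Fin n) → K) :=
    { toFun := fun x => rho h2 n x *ᵥ Pi.single ∅ 1
      map_add' := by intro x y; rw [map_add, Matrix.add_mulVec]
      map_smul' := by intro r x; rw [map_smul, Matrix.smul_mulVec]; rfl }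
  have h : (EE K n).toLinearMap = L := by
    apply (eb K n).ext
    intro S
    change EE K n (eb K n S) = rho h2 n (eb K n S) *ᵥ Pi.single ∅ 1
    rw [rho_eb]
    unfold EE
    rw [Module.Basis.equivFun_apply, Module.Basis.repr_self]
    funext T
    rw [Finsupp.single_apply, Pi.single_apply]
    by_cases h : S = T
    · simp [h]
    · rw [if_neg h, if_neg (fun h' => h h'.symm)]
  exact congrArg (fun f => f x) h

theorem EE_mul (h2 : (2 : K) ≠ 0) (x y : ExteriorAlgebra K (Fin n → K)) :
    EE K n (x * y) = rho h2 n x *ᵥ EE K n y := by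
  rw [EE_eq h2, EE_eq h2, map_mul, Matrix.mulVec_mulVec]

/-- degree of a finite set -/
abbrev dc (n : ℕ) : Finset (Fin n) → Gr := fun S => ((S.card : ℤ), 0)

theorem dc_eq : (Fock.std K (Fin n)).deg 0 = dc n := by
  funext S
  simp [Fock.deg, Fock.std, dc]

theorem mem_ext_iff (k : ℕ) (x : ExteriorAlgebra K (Fin n → K)) :
    x ∈ ⋀[K]^k (Fin n → K) ↔ ∀ S, EE K n x S ≠ 0 → S.card = k := by
  constructor
  · intro hx S hS
    have h1 : ∀ y : ⋀[K]^k (Fin n → K), EE K n y.1 S ≠ 0 → S.card = k := by
      intro y hy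
      by_contra hk
      apply hy
      have h2 := ((Pi.basisFun K (Fin n)).exteriorPower k).sum_repr y
      have h3 : (y : ExteriorAlgebra K (Fin n → K)) =
          ∑ s, ((Pi.basisFun K (Fin n)).exteriorPower k).repr y s •
            (((Pi.basisFun K (Fin n)).exteriorPower k s : ⋀[K]^k (Fin n → K)) :
              ExteriorAlgebra K (Fin n → K)) := by
        conv_lhs => rw [← h2]
        simp
      rw [h3, map_sum, Finset.sum_apply]
      apply Finset.sum_eq_zero
      intro s _
      rw [map_smul, Pi.smul_apply]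
      have h4 : (((Pi.basisFun K (Fin n)).exteriorPower k s : ⋀[K]^k (Fin n → K)) :
          ExteriorAlgebra K (Fin n → K)) = eb K n s.1 :=
        (ExteriorAlgebra.basis_eq_coe_basis (Pi.basisFun K (Fin n)) s).symm
      rw [h4]
      unfold EE
      rw [Module.Basis.equivFun_apply, Module.Basis.repr_self, Finsupp.single_apply, if_neg,
        smul_zero]
      intro h5
      apply hk
      rw [← h5]
      exact s.2
    exact h1 ⟨x, hx⟩ hS
  · intro h
    have h1 := (eb K n).sum_repr x
    rw [← h1]
    apply Submodule.sum_mem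
    intro S _
    by_cases h0 : EE K n x S = 0
    · have : (eb K n).repr x S = 0 := h0
      rw [this, zero_smul]
      exact Submodule.zero_mem _
    · apply Submodule.smul_mem
      have h2 := h S h0
      have h3 := ExteriorAlgebra.basis_eq_coe_basis (Pi.basisFun K (Fin n))
        (⟨S, h2⟩ : Set.powersetCard (Fin n) k)
      change eb K n S = _ at h3
      rw [h3]
      exact Submodule.coe_mem _

end

end Pool.Agent.GC
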