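import Pool.Agent.GC.Tens

/-! Fock models: standard model, one variable, products, relabelling, comparison. -/

set_option linter.unusedSectionVars false
set_option linter.unusedSimpArgs false

namespace Pool.Agent.GC

open Matrix

namespace Fock

/-- number of elements of `S` below `i` -/
def below {ι : Type*} [LinearOrder ι] (S : Finset ι) (i : ι) : ℕ := (S.filter (· < i)).card

/-- signed creation operator -/
def cr (K : Type*) [Field K] {ι : Type*} [LinearOrder ι] (i : ι) :
    Matrix (Finset ι) (Finset ι) K :=
  fun a b => if i ∉ b ∧ a = insert i b then (-1 : K) ^ below b i else 0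

theorem below_insert_lt {ι : Type*} [LinearOrder ι] {S : Finset ι} {i j : ι} (hj : j ∉ S)
    (h : j < i) : below (insert j S) i = below S i + 1 := by
  unfold below
  rw [Finset.filter_insert, if_pos h, Finset.card_insert_of_notMem]
  simp [hj]

theorem below_insert_not_lt {ι : Type*} [LinearOrder ι] {S : Finset ι} {i j : ι}
    (h : ¬ j < i) : below (insert j S) i = below S i := by
  unfold below
  rw [Finset.filter_insert, if_neg h]

theorem cr_mul_apply {K : Type*} [Field K] {ι : Type*} [LinearOrder ι] [Fintype ι] (i j : ι)
    (a b : Finset ι) : (cr K i * cr K j : Matrix (Finset ι) (Finset ι) K) a b =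
      if i ≠ j ∧ i ∉ b ∧ j ∉ b ∧ a = insert i (insert j b) then
        (-1 : K) ^ below (insert j b) i * (-1 : K) ^ below b j else 0 := by
  rw [Matrix.mul_apply]
  rw [Finset.sum_eq_single (insert j b)]
  · unfold cr
    by_cases h1 : j ∈ b
    · simp [h1]
    · by_cases h2 : i = j
      · subst h2; simp
      · by_cases h3 : i ∈ b
        · simp [h3]
        · by_cases h4 : a = insert i (insert j b)
          · simp [h1, h2, h3, h4]
          · simp [h1, h2, h3, h4]
  · intro c _ hc
    unfold cr
    simp [hc]
  · simp

/-- the standard Fock model on a linearly ordered finite set -/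
def std (K : Type*) [Field K] (ι : Type*) [LinearOrder ι] [Fintype ι] :
    Fock K ι (Finset ι) where
  x := cr K
  supp := Equiv.refl _
  sgn i b := (-1 : K) ^ below b i
  sgn_sq i b := by rw [← mul_pow]; simp
  x_apply i a b := rfl
  anti i j := by
    ext a b
    rw [Matrix.neg_apply, cr_mul_apply, cr_mul_apply]
    by_cases hij : i = j
    · subst hij; simp
    · have hji : j ≠ i := fun h => hij h.symm
      by_cases h : i ∉ b ∧ j ∉ b ∧ a = insert i (insert j b)
      · obtain ⟨h1, h2, h3⟩ := h
        have h3' : a = insert j (insert i b) := by rw [h3, Finset.insert_comm]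
        rw [if_pos ⟨hij, h1, h2, h3⟩, if_pos ⟨hji, h2, h1, h3'⟩]
        rcases lt_or_gt_of_ne hij with hlt | hlt
        · rw [below_insert_not_lt (not_lt.mpr hlt.le), below_insert_lt h1 hlt, pow_succ]
          ring
        · rw [below_insert_not_lt (S := b) (i := j) (j := i) (not_lt.mpr hlt.le), below_insert_lt h2 hlt, pow_succ]
          ring
      · rw [if_neg, if_neg, neg_zero]
        · rintro ⟨_, h2, h1, h3⟩
          exact h ⟨h1, h2, by rw [h3, Finset.insert_comm]⟩
        · rintro ⟨_, h2, h1, h3⟩
          exact h ⟨h2, h1, h3⟩
  sq i := by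
    ext a b
    rw [cr_mul_apply]; simp

variable {K : Type*} [Field K] {ι κ : Type*} [DecidableEq ι] [DecidableEq κ] {I J : Type*}
  [Fintype I] [DecidableEq I] [Fintype J] [DecidableEq J]

theorem x_hm (F : Fock K ι I) (w : ι → ZMod 3) (i : ι) : Hm (F.deg w) (1, w i) (F.x i) := by
  intro a b hab
  rw [F.x_apply] at hab
  by_cases h : i ∉ F.supp b ∧ F.supp a = insert i (F.supp b)
  · unfold deg
    rw [h.2, Finset.card_insert_of_notMem h.1, Finset.sum_insert h.1]
    ext
    · simp
    · simp [add_comm]
  · rw [if_neg h] at hab; exact absurd rfl hab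

theorem sg_deg (F : Fock K ι I) (w : ι → ZMod 3) : sg K (F.deg w) = sg K (F.deg 0) := rfl

/-- one variable -/
def one (K : Type*) [Field K] : Fock K Unit Bool where
  x _ := Matrix.of fun a b => if a = true ∧ b = false then 1 else 0
  supp :=
    { toFun := fun b => if b then {()} else ∅
      invFun := fun s => decide (() ∈ s)
      left_inv := by intro b; cases b <;> simp
      right_inv := by
        intro s
        ext u
        cases u
        by_cases h : () ∈ s <;> simp [h] }
  sgn _ _ := 1
  sgn_sq _ _ := by simp
  x_apply i a b := by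
    cases a <;> cases b <;> simp
  anti i j := by
    ext a b
    cases a <;> cases b <;> simp [Matrix.mul_apply]
  sq i := by
    ext a b
    cases a <;> cases b <;> simp [Matrix.mul_apply]

/-- pairs of finite subsets and subsets of the sum -/
def sumEquiv (ι κ : Type*) [DecidableEq ι] [DecidableEq κ] :
    Finset ι × Finset κ ≃ Finset (ι ⊕ κ) where
  toFun p := p.1.disjSum p.2
  invFun u := (u.toLeft, u.toRight)
  left_inv p := by simp
  right_inv u := by simp [Finset.toLeft_disjSum_toRight]

/-- product of two models; the variables of the second factor carry the Koszul sign -/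
def prod (F : Fock K ι I) (G : Fock K κ J) : Fock K (ι ⊕ κ) (I × J) where
  x := Sum.elim (fun i => tl (F.x i)) (fun j => tr1 (F.deg 0) (G.x j))
  supp := (F.supp.prodCongr G.supp).trans (sumEquiv ι κ)
  sgn := Sum.elim (fun i b => F.sgn i b.1) (fun j b => (-1 : K) ^ (F.supp b.1).card * G.sgn j b.2)
  sgn_sq := by
    rintro (i | j) b
    · exact F.sgn_sq i b.1
    · simp only [Sum.elim_inr]
      have h1 : ((-1 : K) ^ (F.supp b.1).card) * ((-1 : K) ^ (F.supp b.1).card) = 1 := by
        rw [← mul_pow]; simp
      calc _ = (((-1 : K) ^ (F.supp b.1).card) * ((-1 : K) ^ (F.supp b.1).card)) *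
            (G.sgn j b.2 * G.sgn j b.2) := by ring
        _ = 1 := by rw [h1, G.sgn_sq]; simp
  x_apply := by
    rintro (i | j) ⟨a1, a2⟩ ⟨b1, b2⟩
    · simp only [Sum.elim_inl, tl, Matrix.kroneckerMap_apply, Matrix.one_apply, F.x_apply,
        Equiv.trans_apply, Equiv.prodCongr_apply, Prod.map_apply, sumEquiv, Equiv.coe_fn_mk,
        Finset.inl_mem_disjSum]
      have key : ((F.supp a1).disjSum (G.supp a2) = insert (Sum.inl i)
          ((F.supp b1).disjSum (G.supp b2))) ↔ (F.supp a1 = insert i (F.supp b1) ∧ a2 = b2) := by
        constructor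
        · intro h
          constructor
          · ext u
            have := Finset.ext_iff.mp h (Sum.inl u)
            simpa using this
          · apply G.supp.injective
            ext u
            have := Finset.ext_iff.mp h (Sum.inr u)
            simpa using this
        · rintro ⟨h1, h2⟩
          subst h2
          rw [h1]
          ext u
          cases u <;> simp
      simp only [key]
      by_cases h1 : i ∈ F.supp b1
      · simp [h1]
      · by_cases h2 : F.supp a1 = insert i (F.supp b1)
        · by_cases h3 : a2 = b2
          · simp [h1, h2, h3]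
          · simp [h1, h2, h3]
        · simp [h1, h2]
    · simp only [Sum.elim_inr, tr1, Matrix.kroneckerMap_apply, sg, Matrix.diagonal_apply,
        G.x_apply, Equiv.trans_apply, Equiv.prodCongr_apply, Prod.map_apply, sumEquiv,
        Equiv.coe_fn_mk, Finset.inr_mem_disjSum, deg, zpow_natCast]
      have key : ((F.supp a1).disjSum (G.supp a2) = insert (Sum.inr j)
          ((F.supp b1).disjSum (G.supp b2))) ↔ (a1 = b1 ∧ G.supp a2 = insert j (G.supp b2)) := by
        constructor
        · intro h
          constructor
          · apply F.supp.injective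
            ext u
            have := Finset.ext_iff.mp h (Sum.inl u)
            simpa using this
          · ext u
            have := Finset.ext_iff.mp h (Sum.inr u)
            simpa using this
        · rintro ⟨h1, h2⟩
          subst h1
          rw [h2]
          ext u
          cases u <;> simp
      simp only [key]
      by_cases h1 : j ∈ G.supp b2
      · simp [h1]
      · by_cases h2 : G.supp a2 = insert j (G.supp b2)
        · by_cases h3 : a1 = b1
          · subst h3
            simp [h1, h2]
          · simp [h1, h2, h3]
        · simp [h1, h2]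
  anti := by
    have hx : ∀ i, Hm (F.deg 0) (1, 0) (F.x i) := F.x_hm 0
    rintro (i | i) (j | j)
    · simp only [Sum.elim_inl, tl_eq, kr_mul]
      rw [F.anti i j, kr_neg_left]
    · simp only [Sum.elim_inl, Sum.elim_inr, tl_eq, tr1_eq, kr_mul, mul_one, one_mul]
      rw [(hx i).odd (by simp), kr_neg_left]
    · simp only [Sum.elim_inl, Sum.elim_inr, tl_eq, tr1_eq, kr_mul, mul_one, one_mul]
      rw [(hx j).odd (by simp), kr_neg_left, neg_neg]
    · simp only [Sum.elim_inr, tr1_eq, kr_mul]
      rw [G.anti i j, kr_neg_right]
  sq := by
    rintro (i | i)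
    · simp only [Sum.elim_inl, tl_eq, kr_mul]
      rw [F.sq i, kr_zero_left]
    · simp only [Sum.elim_inr, tr1_eq, kr_mul]
      rw [G.sq i, kr_zero_right]

end Fock

end Pool.Agent.GC
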