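import Pool.Agent.GC.Opr

/-! Injectivity of a sum of tensor products of small matrices from a numerical certificate. -/

set_option linter.unusedSectionVars false
set_option linter.unusedSimpArgs false
set_option linter.unusedVariables false

namespace Pool.Agent.GC

open Matrix

/-- guarded table -/
def gS (a' b' : ℕ) (S : ℕ → ℕ → ℕ) (u t : ℕ) : ℕ := bif Nat.blt u a' && Nat.blt t b' then S u t else 0

theorem blt_true {a b : ℕ} (h : a < b) : Nat.blt a b = true := by rw [Nat.blt_eq]; exact h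

theorem blt_false {a b : ℕ} (h : ¬ a < b) : Nat.blt a b = false := by
  cases h2 : Nat.blt a b
  · rfl
  · rw [Nat.blt_eq] at h2; exact absurd h2 h

theorem gS_le {a' b' : ℕ} {S : ℕ → ℕ → ℕ} (hS : ∀ u t i, dg i (S u t) ≤ 7) (u t i : ℕ) :
    dg i (gS a' b' S u t) ≤ 7 := by
  unfold gS
  cases Nat.blt u a' && Nat.blt t b'
  · simp [dg_z]
  · exact hS u t i

section

variable {A B : Type} [Fintype A] [Fintype B] [DecidableEq A] [DecidableEq B]

/-- a bilinear form given by coefficients -/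
def Bi (d : A × B → ZMod 7) (u : A → ZMod 7) (w : B → ZMod 7) : ZMod 7 :=
  ∑ p : A × B, d p * (u p.1 * w p.2)

theorem Bi_left (d : A × B → ZMod 7) (g : ℕ → A → ZMod 7) (M : SV) (w : B → ZMod 7) :
    Bi d (lin g M) w = lin (fun u => Bi d (g u) w) M := by
  induction M with
  | nil => simp [Bi, lin]
  | cons t M ih =>
    have h : Bi d (lin g (t :: M)) w = (t.2 : ZMod 7) * Bi d (g t.1) w + Bi d (lin g M) w := by
      unfold Bi
      rw [Finset.mul_sum, ← Finset.sum_add_distrib]
      apply Finset.sum_congr rfl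
      intro p _
      simp only [lin, Pi.add_apply, Pi.smul_apply, smul_eq_mul]
      ring
    rw [h, ih]; rfl

theorem Bi_right (d : A × B → ZMod 7) (g : ℕ → B → ZMod 7) (M : SV) (u : A → ZMod 7) :
    Bi d u (lin g M) = lin (fun t => Bi d u (g t)) M := by
  induction M with
  | nil => simp [Bi, lin]
  | cons t M ih =>
    have h : Bi d u (lin g (t :: M)) = (t.2 : ZMod 7) * Bi d u (g t.1) + Bi d u (lin g M) := by
      unfold Bi
      rw [Finset.mul_sum, ← Finset.sum_add_distrib]
      apply Finset.sum_congr rfl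
      intro p _
      simp only [lin, Pi.add_apply, Pi.smul_apply, smul_eq_mul]
      ring
    rw [h, ih]; rfl

end

theorem bF_g {r u : ℕ} (h : u < r) : (bF r).g u = Pi.single ⟨u, h⟩ 1 := by
  unfold Bas.g
  rw [dif_pos (show u < (bF r).sz from h)]
  rfl

theorem bF_g' {r u : ℕ} (h : ¬ u < r) : (bF r).g u = 0 := by
  unfold Bas.g
  rw [dif_neg (show ¬ u < (bF r).sz from h)]

theorem Bi_gg {a' b' : ℕ} (S : ℕ → ℕ → ℕ) (i u t : ℕ) :
    Bi (fun p : Fin a' × Fin b' => ((dg i (gS a' b' S p.1 p.2) : ℕ) : ZMod 7))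
      ((bF a').g u) ((bF b').g t) = ((dg i (gS a' b' S u t) : ℕ) : ZMod 7) := by
  by_cases hu : u < a'
  · by_cases ht : t < b'
    · rw [bF_g hu, bF_g ht]
      unfold Bi
      rw [Finset.sum_eq_single (⟨u, hu⟩, ⟨t, ht⟩)]
      · simp
      · rintro ⟨p, q⟩ _ hpq
        by_cases hp : p = ⟨u, hu⟩
        · by_cases hq : q = ⟨t, ht⟩
          · exact absurd (by rw [hp, hq]) hpq
          · simp [Pi.single_apply, hq]
        · simp [Pi.single_apply, hp]
      · simp
    · rw [bF_g' ht]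
      have : gS a' b' S u t = 0 := by
        unfold gS
        rw [blt_false ht]; simp
      rw [this, dg_z]
      simp [Bi]
  · rw [bF_g' hu]
    have : gS a' b' S u t = 0 := by
      unfold gS
      rw [blt_false hu]; simp
    rw [this, dg_z]
    simp [Bi]

/-- injectivity from the certificate -/
theorem ninj {K a b a' b' n PT UT : ℕ} {Mt Yt : ℕ → ℕ → SV} {S : ℕ → ℕ → ℕ} (hK : K ≤ 20)
    (hM : ∀ κ φ, (Mt κ φ).length ≤ 1) (hY : ∀ κ e, (Yt κ e).length ≤ 64)
    (hS : ∀ u t i, dg i (S u t) ≤ 7)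
    (hchk : ∀ φ < a, ∀ e < b, chkS K b n Mt Yt (gS a' b' S) PT UT φ e = true)
    {x : Fin a × Fin b → ZMod 7}
    (hx : (∑ κ ∈ Finset.range K, Matrix.kroneckerMap (· * ·) ((bF a').mat (bF a) (Mt κ))
      ((bF b').mat (bF b) (Yt κ))) *ᵥ x = 0) : x = 0 := by
  set pos : ℕ → ℕ → ℕ := fun φ e => dg (φ * b + e) PT with hpos
  have h1 : ∀ φ < a, ∀ e < b, dg (pos φ e) UT = φ * b + e := by
    intro φ hφ e he
    have := hchk φ hφ e he
    unfold chkS at this
    rw [Bool.and_eq_true] at this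
    exact Nat.eq_of_beq_eq_true this.1
  have h2 : ∀ φ < a, ∀ e < b, ∀ i, ((dg i (colN Mt Yt (gS a' b' S) φ e K) : ℕ) : ZMod 7) =
      if i = pos φ e then 1 else 0 := by
    intro φ hφ e he i
    have := hchk φ hφ e he
    unfold chkS at this
    rw [Bool.and_eq_true] at this
    have h3 := zt_sound this.2 i
    have e1 : Nat.add (Nat.mul 6 (Nat.pow 65536 (dg (Nat.add (Nat.mul φ b) e) PT)))
        (colN Mt Yt (gS a' b' S) φ e K) = 6 * 65536 ^ (pos φ e) +
        colN Mt Yt (gS a' b' S) φ e K := rfl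
    have hb := colN_dg (gS_le (a' := a') (b' := b') hS) φ e (fun κ => hM κ φ) (fun κ => hY κ e) hK
    have e2 : ∀ j, dg j (6 * 65536 ^ (pos φ e)) = if j = pos φ e then 6 else 0 := by
      intro j
      rw [dg_mul]
      · rw [dg_pow]
        split_ifs <;> simp
      · intro l _
        rw [dg_pow]
        split_ifs <;> norm_num
    rw [e1, dg_add, e2] at h3
    · have h4 := (ZMod.natCast_eq_zero_iff _ 7).mpr h3
      push_cast at h4
      by_cases hi : i = pos φ e
      · rw [if_pos hi] at h4 ⊢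
        have h5 : ((dg i (colN Mt Yt (gS a' b' S) φ e K) : ℕ) : ZMod 7) = -6 := by
          rw [eq_neg_iff_add_eq_zero, add_comm]; exact_mod_cast h4
        rw [h5]; decide
      · rw [if_neg hi] at h4 ⊢
        simpa using h4
    · intro j _
      have := (hb j).1
      rw [e2]
      split_ifs <;> omega
  have h3 : ∀ s s' : Fin a × Fin b, pos s.1 s.2 = pos s'.1 s'.2 → s = s' := by
    intro s s' h
    have e1 := h1 s.1 s.1.isLt s.2 s.2.isLt
    have e2 := h1 s'.1 s'.1.isLt s'.2 s'.2.isLt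
    rw [h, e2] at e1
    have hb : 0 < b := lt_of_le_of_lt (Nat.zero_le _) s.2.isLt
    have e3 : (s.1 : ℕ) = s'.1 := by
      have h6 : ∀ u v : ℕ, v < b → (u * b + v) / b = u := by
        intro u v hv
        rw [mul_comm, Nat.mul_add_div hb, Nat.div_eq_of_lt hv, add_zero]
      have h7 := h6 s.1 s.2 s.2.isLt
      have h8 := h6 s'.1 s'.2 s'.2.isLt
      rw [← h7, ← h8, e1]
    have e4 : (s.2 : ℕ) = s'.2 := by
      rw [e3] at e1; omega
    exact Prod.ext (Fin.ext e3) (Fin.ext e4)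
  funext s0
  have h4 : ∀ i, ∑ s : Fin a × Fin b, x s * ((dg i (colN Mt Yt (gS a' b' S) s.1 s.2 K) : ℕ) : ZMod 7)
      = 0 := by
    intro i
    have e1 : ∀ s : Fin a × Fin b,
        ((dg i (colN Mt Yt (gS a' b' S) s.1 s.2 K) : ℕ) : ZMod 7) =
        ∑ p : Fin a' × Fin b', ((dg i (gS a' b' S p.1 p.2) : ℕ) : ZMod 7) *
          (∑ κ ∈ Finset.range K, Matrix.kroneckerMap (· * ·) ((bF a').mat (bF a) (Mt κ))
      ((bF b').mat (bF b) (Yt κ))) p s := by
      intro s
      rw [(colN_dg (gS_le (a' := a') (b' := b') hS) s.1 s.2 (fun κ => hM κ _)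
        (fun κ => hY κ _) hK i).2]
      have e2 : ∀ p : Fin a' × Fin b', (∑ κ ∈ Finset.range K, Matrix.kroneckerMap (· * ·)
          ((bF a').mat (bF a) (Mt κ)) ((bF b').mat (bF b) (Yt κ))) p s =
          ∑ κ ∈ Finset.range K, lin (bF a').g (Mt κ s.1) p.1 * lin (bF b').g (Yt κ s.2) p.2 := by
        intro p
        rw [Matrix.sum_apply]
        rfl
      simp only [e2, Finset.mul_sum]
      rw [Finset.sum_comm]
      apply Finset.sum_congr rfl
      intro κ _
      have e3 : ∑ p : Fin a' × Fin b', ((dg i (gS a' b' S p.1 p.2) : ℕ) : ZMod 7) *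
          (lin (bF a').g (Mt κ s.1) p.1 * lin (bF b').g (Yt κ s.2) p.2) =
          Bi (fun p : Fin a' × Fin b' => ((dg i (gS a' b' S p.1 p.2) : ℕ) : ZMod 7))
            (lin (bF a').g (Mt κ s.1)) (lin (bF b').g (Yt κ s.2)) := rfl
      rw [e3, Bi_left]
      congr 1
      funext u
      rw [Bi_right]
      congr 1
      funext t
      rw [Bi_gg]
    simp only [e1, Finset.mul_sum]
    rw [Finset.sum_comm]
    apply Finset.sum_eq_zero
    intro p _
    have e2 := congrFun hx p
    simp only [Matrix.mulVec, dotProduct, Pi.zero_apply] at e2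
    have e3 : ∀ s : Fin a × Fin b, x s * (((dg i (gS a' b' S p.1 p.2) : ℕ) : ZMod 7) *
          (∑ κ ∈ Finset.range K, Matrix.kroneckerMap (· * ·) ((bF a').mat (bF a) (Mt κ))
      ((bF b').mat (bF b) (Yt κ))) p s) = ((dg i (gS a' b' S p.1 p.2) : ℕ) : ZMod 7) *
          ((∑ κ ∈ Finset.range K, Matrix.kroneckerMap (· * ·) ((bF a').mat (bF a) (Mt κ))
      ((bF b').mat (bF b) (Yt κ))) p s * x s) := by
      intro s; ring
    simp only [e3]
    rw [← Finset.mul_sum, e2, mul_zero]
  have h5 := h4 (pos s0.1 s0.2)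
  rw [Finset.sum_eq_single s0] at h5
  · rw [h2 _ s0.1.isLt _ s0.2.isLt, if_pos rfl, mul_one] at h5
    exact h5
  · intro s _ hs
    rw [h2 _ s.1.isLt _ s.2.isLt, if_neg, mul_zero]
    intro h
    exact hs (h3 _ _ h.symm)
  · simp

end Pool.Agent.GC
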