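import Mathlib

/-! Numerical kernels: packed vectors with 16 bit digits, sparse vectors, lookup trees. -/

set_option linter.unusedSectionVars false
set_option linter.unusedSimpArgs false
set_option linter.unusedVariables false

namespace Pool.Agent.GC

/-- sparse vectors: lists of pairs (index, coefficient) -/
abbrev SV := List (ℕ × ℕ)

/-- lookup trees -/
inductive Tr : Type
  | l : ℕ → Tr
  | n : Tr → Tr → Tr

/-- lookup by the binary digits of the index -/
def Tr.get : Tr → ℕ → ℕ
  | .l x, _ => x
  | .n a b, m => bif Nat.beq (Nat.mod m 2) 0 then a.get (Nat.div m 2) else b.get (Nat.div m 2)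

/-- decoding of sparse vectors -/
def unc : ℕ → ℕ → SV
  | 0, _ => []
  | k + 1, X => bif Nat.beq X 0 then [] else
      (Nat.div (Nat.mod X 65536) 8, Nat.mod X 8) :: unc k (Nat.div X 65536)

/-- scaling -/
def sc (c : ℕ) : SV → SV
  | [] => []
  | t :: L => (t.1, Nat.mod (Nat.mul c t.2) 7) :: sc c L

/-- composition -/
def bindS (col : ℕ → SV) : SV → SV
  | [] => []
  | t :: L => sc t.2 (col t.1) ++ bindS col L

/-- packed form -/
def pk : SV → ℕ
  | [] => 0
  | t :: L => Nat.add (Nat.mul t.2 (Nat.pow 65536 t.1)) (pk L)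

/-- total of the coefficients -/
def tot : SV → ℕ
  | [] => 0
  | t :: L => Nat.add t.2 (tot L)

/-- the number with `n` digits `c` -/
def rep (c : ℕ) : ℕ → ℕ
  | 0 => 0
  | n + 1 => Nat.add c (Nat.mul 65536 (rep c n))

/-- digit -/
def dg (i X : ℕ) : ℕ := Nat.mod (Nat.div X (Nat.pow 65536 i)) 65536

/-- test whether all digits are divisible by 7 -/
def zt (n X : ℕ) : Bool :=
  Nat.blt X (Nat.pow 65536 n) && (Nat.beq (Nat.mod X 7) 0 &&
    Nat.beq (Nat.land (Nat.div X 7) (rep 57344 n)) 0)

/-- test whether a sparse vector vanishes -/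
def zL (n : ℕ) (L : SV) : Bool := Nat.blt (tot L) 65536 && zt n (pk L)

/-- all numbers below `n` -/
def allR (f : ℕ → Bool) : ℕ → Bool
  | 0 => true
  | n + 1 => f n && allR f n

/-- one step of the decompression -/
def spr (X s : ℕ) : ℕ :=
  Nat.land (Nat.lor X (Nat.shiftLeft X (Nat.mul 13 s)))
    (Nat.mul (Nat.sub (Nat.pow 2 (Nat.mul 3 s)) 1)
      (Nat.div (Nat.sub (Nat.pow 2 8192) 1) (Nat.sub (Nat.pow 2 (Nat.mul 16 s)) 1)))

/-- decompression of a packed vector; the last operation bounds the digits by 7 -/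
def dec (X : ℕ) : ℕ :=
  Nat.land (spr (spr (spr (spr (spr (spr (spr (spr (spr X 256) 128) 64) 32) 16) 8) 4) 2) 1)
    (rep 7 512)

/-- the packed vector stored at `X`: the two low bits of `X` select the offset -/
def ldS (off : ℕ → ℕ) (X : ℕ) : ℕ := Nat.mul (Nat.pow 65536 (off (Nat.mod X 4))) (dec (Nat.div X 4))

/-- linear combination of stored packed vectors -/
def acc (S : ℕ → ℕ) (c : ℕ) : SV → ℕ
  | [] => 0
  | t :: L => Nat.add (Nat.mul (Nat.mod (Nat.mul c t.2) 7) (S t.1)) (acc S c L)

def accM (S : ℕ → ℕ → ℕ) (Y : SV) : SV → ℕ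
  | [] => 0
  | t :: L => Nat.add (acc (S t.1) t.2 Y) (accM S Y L)

def colN (Mt Yt : ℕ → ℕ → SV) (S : ℕ → ℕ → ℕ) (φ e : ℕ) : ℕ → ℕ
  | 0 => 0
  | κ + 1 => Nat.add (accM S (Yt κ e) (Mt κ φ)) (colN Mt Yt S φ e κ)

/-- the check for one column -/
def chkS (K b n : ℕ) (Mt Yt : ℕ → ℕ → SV) (S : ℕ → ℕ → ℕ) (PT UT φ e : ℕ) : Bool :=
  Nat.beq (dg (dg (Nat.add (Nat.mul φ b) e) PT) UT) (Nat.add (Nat.mul φ b) e) &&
  zt n (Nat.add (Nat.mul 6 (Nat.pow 65536 (dg (Nat.add (Nat.mul φ b) e) PT)))
    (colN Mt Yt S φ e K))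

section Digits

theorem dg_def (i X : ℕ) : dg i X = X / 65536 ^ i % 65536 := rfl

theorem dg_zero (X : ℕ) : dg 0 X = X % 65536 := by simp [dg_def]

theorem dg_succ (i X : ℕ) : dg (i + 1) X = dg i (X / 65536) := by
  rw [dg_def, dg_def, pow_succ', Nat.div_div_eq_div_mul]

theorem dg_lt (i X : ℕ) : dg i X < 65536 := Nat.mod_lt _ (by norm_num)

theorem dg_z (i : ℕ) : dg i 0 = 0 := by simp [dg_def]

theorem dg_add {X Y i : ℕ} (h : ∀ j ≤ i, dg j X + dg j Y < 65536) :
    dg i (X + Y) = dg i X + dg i Y := by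
  induction i generalizing X Y with
  | zero =>
    have h0 := h 0 le_rfl
    rw [dg_zero, dg_zero] at h0
    rw [dg_zero, dg_zero, dg_zero]
    omega
  | succ i ih =>
    have h0 := h 0 (Nat.zero_le _)
    rw [dg_zero, dg_zero] at h0
    have e : (X + Y) / 65536 = X / 65536 + Y / 65536 := by omega
    rw [dg_succ, dg_succ, dg_succ, e]
    apply ih
    intro j hj
    have := h (j + 1) (by omega)
    rwa [dg_succ, dg_succ] at this

theorem dg_mul {c X i : ℕ} (h : ∀ j ≤ i, c * dg j X < 65536) :
    dg i (c * X) = c * dg i X := by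
  induction i generalizing X with
  | zero =>
    have h0 := h 0 le_rfl
    rw [dg_zero] at h0
    rw [dg_zero, dg_zero]
    have e : c * X = c * (X % 65536) + 65536 * (c * (X / 65536)) := by
      conv_lhs => rw [← Nat.mod_add_div X 65536]
      ring
    rw [e, Nat.add_mul_mod_self_left, Nat.mod_eq_of_lt h0]
  | succ i ih =>
    have h0 := h 0 (Nat.zero_le _)
    rw [dg_zero] at h0
    have e : c * X = c * (X % 65536) + 65536 * (c * (X / 65536)) := by
      conv_lhs => rw [← Nat.mod_add_div X 65536]
      ring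
    have e2 : c * X / 65536 = c * (X / 65536) := by
      rw [e, Nat.add_mul_div_left _ _ (by norm_num), Nat.div_eq_of_lt h0, zero_add]
    rw [dg_succ, dg_succ, e2]
    apply ih
    intro j hj
    have := h (j + 1) (by omega)
    rwa [dg_succ] at this

theorem dg_pow (i j : ℕ) : dg i (65536 ^ j) = if i = j then 1 else 0 := by
  induction i generalizing j with
  | zero =>
    rw [dg_zero]
    cases j with
    | zero => simp
    | succ j =>
      rw [pow_succ, Nat.mul_mod_left]
      simp
  | succ i ih =>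
    rw [dg_succ]
    cases j with
    | zero => simp [dg_z]
    | succ j =>
      rw [pow_succ, Nat.mul_div_cancel _ (by norm_num), ih]
      simp

theorem dg_land (i X Y : ℕ) : dg i (X &&& Y) = dg i X &&& dg i Y := by
  apply Nat.eq_of_testBit_eq
  intro j
  have h1 : ∀ Z : ℕ, (dg i Z).testBit j = (decide (j < 16) && Z.testBit (16 * i + j)) := by
    intro Z
    rw [dg_def, show (65536 : ℕ) = 2 ^ 16 from by norm_num, ← pow_mul, Nat.testBit_mod_two_pow,
      Nat.testBit_div_two_pow]
    rw [add_comm j]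
  rw [Nat.testBit_land, h1, h1, h1, Nat.testBit_land]
  cases decide (j < 16) <;> simp

theorem dg_rep {c : ℕ} (hc : c < 65536) (n i : ℕ) : dg i (rep c n) = if i < n then c else 0 := by
  induction n generalizing i with
  | zero => simp [rep, dg_z]
  | succ n ih =>
    have e : rep c (n + 1) = c + 65536 * rep c n := rfl
    rw [e]
    cases i with
    | zero =>
      rw [dg_zero, Nat.add_mul_mod_self_left, Nat.mod_eq_of_lt hc]
      simp
    | succ i =>
      rw [dg_succ, Nat.add_mul_div_left _ _ (by norm_num), Nat.div_eq_of_lt hc, zero_add, ih]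
      simp

theorem land_mask {y : ℕ} (hy : y < 65536) (h : y &&& 57344 = 0) : y < 8192 := by
  by_contra hc
  have h1 : (y &&& 57344) / 2 ^ 13 = y / 2 ^ 13 &&& 57344 / 2 ^ 13 := by
    apply Nat.eq_of_testBit_eq
    intro j
    rw [Nat.testBit_div_two_pow, Nat.testBit_land, Nat.testBit_land, Nat.testBit_div_two_pow,
      Nat.testBit_div_two_pow]
  rw [h] at h1
  have h2 : y / 2 ^ 13 < 8 := by omega
  have h3 : 0 < y / 2 ^ 13 := by omega
  generalize y / 2 ^ 13 = z at h1 h2 h3
  interval_cases z <;> simp at h1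

theorem zt_sound {n X : ℕ} (h : zt n X = true) : ∀ i, 7 ∣ dg i X := by
  unfold zt at h
  simp only [Bool.and_eq_true] at h
  obtain ⟨h1, h2, h3⟩ := h
  have h1' : X < 65536 ^ n := by
    rw [Nat.blt_eq] at h1
    exact h1
  have h2' : X % 7 = 0 := Nat.eq_of_beq_eq_true h2
  have h3' : X / 7 &&& rep 57344 n = 0 := Nat.eq_of_beq_eq_true h3
  intro i
  by_cases hi : i < n
  · have hX : X = 7 * (X / 7) := by omega
    have hd : ∀ j ≤ i, dg j (X / 7) < 8192 := by
      intro j hj
      apply land_mask (dg_lt _ _)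
      have h4 := dg_land j (X / 7) (rep 57344 n)
      rw [h3', dg_z, dg_rep (by norm_num), if_pos (by omega)] at h4
      exact h4.symm
    rw [hX, dg_mul]
    · exact dvd_mul_right _ _
    · intro j hj
      have := hd j hj
      omega
  · have h5 : X / 65536 ^ i = 0 := by
      apply Nat.div_eq_of_lt
      exact lt_of_lt_of_le h1' (Nat.pow_le_pow_right (by norm_num) (by omega))
    rw [dg_def, h5]
    simp

end Digits

section Lin

variable {V W : Type*} [AddCommGroup V] [Module (ZMod 7) V] [AddCommGroup W] [Module (ZMod 7) W]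

/-- the vector described by a sparse list -/
def lin (g : ℕ → V) : SV → V
  | [] => 0
  | t :: L => (t.2 : ZMod 7) • g t.1 + lin g L

theorem lin_append (g : ℕ → V) (L L' : SV) : lin g (L ++ L') = lin g L + lin g L' := by
  induction L with
  | nil => simp [lin]
  | cons t L ih => simp only [List.cons_append, lin, ih, add_assoc]

theorem lin_sc (g : ℕ → V) (c : ℕ) (L : SV) : lin g (sc c L) = (c : ZMod 7) • lin g L := by
  induction L with
  | nil => simp [lin, sc]
  | cons t L ih =>
    have e : ((Nat.mod (Nat.mul c t.2) 7 : ℕ) : ZMod 7) = (c : ZMod 7) * (t.2 : ZMod 7) := by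
      have : Nat.mod (Nat.mul c t.2) 7 = c * t.2 % 7 := rfl
      rw [this, ZMod.natCast_mod]
      push_cast
      rfl
    simp only [sc, lin, ih, e, smul_add, mul_smul]

theorem lin_bindS (g : ℕ → V) (col : ℕ → SV) (L : SV) :
    lin g (bindS col L) = lin (fun m => lin g (col m)) L := by
  induction L with
  | nil => rfl
  | cons t L ih => simp only [bindS, lin_append, lin_sc, lin, ih]

theorem lin_map (f : V →ₗ[ZMod 7] W) (g : ℕ → V) (L : SV) :
    f (lin g L) = lin (fun m => f (g m)) L := by
  induction L with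
  | nil => simp [lin]
  | cons t L ih => simp only [lin, map_add, map_smul, ih]

/-- coefficient -/
def cfn (i : ℕ) : SV → ℕ
  | [] => 0
  | t :: L => (if t.1 = i then t.2 else 0) + cfn i L

theorem cfn_le (i : ℕ) (L : SV) : cfn i L ≤ tot L := by
  induction L with
  | nil => simp [cfn, tot]
  | cons t L ih =>
    have e : tot (t :: L) = t.2 + tot L := rfl
    rw [e]
    simp only [cfn]
    by_cases h : t.1 = i
    · rw [if_pos h]; omega
    · rw [if_neg h]; omega

theorem dg_pk {L : SV} (h : tot L < 65536) (i : ℕ) : dg i (pk L) = cfn i L := by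
  induction L generalizing i with
  | nil => simp [pk, cfn, dg_z]
  | cons t L ih =>
    have e : tot (t :: L) = t.2 + tot L := rfl
    rw [e] at h
    have e2 : pk (t :: L) = t.2 * 65536 ^ t.1 + pk L := rfl
    have h1 : ∀ j, dg j (t.2 * 65536 ^ t.1) = if t.1 = j then t.2 else 0 := by
      intro j
      rw [dg_mul]
      · rw [dg_pow]
        by_cases hj : j = t.1
        · rw [if_pos hj, if_pos hj.symm, mul_one]
        · rw [if_neg hj, if_neg (Ne.symm hj), mul_zero]
      · intro l _
        rw [dg_pow]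
        by_cases hj : l = t.1
        · rw [if_pos hj]; omega
        · rw [if_neg hj]; omega
    rw [e2, dg_add]
    · rw [h1, ih (by omega)]
      simp only [cfn]
    · intro j _
      rw [h1, ih (by omega)]
      have := cfn_le j L
      by_cases hj : t.1 = j
      · rw [if_pos hj]; omega
      · rw [if_neg hj]; omega

theorem lin_eq_sum (g : ℕ → V) (L : SV) (N : ℕ) (h : ∀ t ∈ L, t.1 < N) :
    lin g L = ∑ i ∈ Finset.range N, (cfn i L : ZMod 7) • g i := by
  induction L with
  | nil => simp [lin, cfn]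
  | cons t L ih =>
    rw [lin, ih (fun u hu => h u (List.mem_cons_of_mem _ hu))]
    simp only [cfn, Nat.cast_add, add_smul, Finset.sum_add_distrib]
    congr 1
    rw [Finset.sum_eq_single t.1]
    · simp
    · intro b _ hb
      rw [if_neg (Ne.symm hb)]; simp
    · intro hn
      exact absurd (Finset.mem_range.mpr (h t (List.mem_cons_self))) hn

theorem lin_zero {n : ℕ} {L : SV} (h : zL n L = true) (g : ℕ → V) : lin g L = 0 := by
  unfold zL at h
  simp only [Bool.and_eq_true] at h
  obtain ⟨h1, h2⟩ := h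
  rw [Nat.blt_eq] at h1
  have h3 := zt_sound h2
  obtain ⟨N, hN⟩ : ∃ N, ∀ t ∈ L, t.1 < N := by
    refine ⟨(L.map Prod.fst).sum + 1, ?_⟩
    intro t ht
    have := List.single_le_sum (fun _ _ => Nat.zero_le _) t.1 (List.mem_map_of_mem (f := Prod.fst) ht)
    omega
  rw [lin_eq_sum g L N hN]
  apply Finset.sum_eq_zero
  intro i _
  have h4 := h3 i
  rw [dg_pk h1] at h4
  rw [(ZMod.natCast_eq_zero_iff _ _).mpr h4, zero_smul]

theorem allR_iff {f : ℕ → Bool} {n : ℕ} : allR f n = true ↔ ∀ m < n, f m = true := by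
  induction n with
  | zero => simp [allR]
  | succ n ih =>
    simp only [allR, Bool.and_eq_true, ih]
    constructor
    · rintro ⟨h1, h2⟩ m hm
      rcases Nat.lt_succ_iff_lt_or_eq.mp hm with h | h
      · exact h2 m h
      · rw [h]; exact h1
    · intro h
      exact ⟨h n (by omega), fun m hm => h m (by omega)⟩

end Lin

section Bound

theorem dec_le (X i : ℕ) : dg i (dec X) ≤ 7 := by
  have e : dec X = (spr (spr (spr (spr (spr (spr (spr (spr (spr X 256) 128) 64) 32) 16) 8) 4) 2) 1)
    &&& (rep 7 512) := rfl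
  rw [e, dg_land, dg_rep (by norm_num)]
  refine le_trans Nat.and_le_right ?_
  by_cases h : i < 512
  · rw [if_pos h]
  · rw [if_neg h]; omega

theorem dg_shift (s i X : ℕ) : dg i (65536 ^ s * X) = if i < s then 0 else dg (i - s) X := by
  induction s generalizing i with
  | zero => simp
  | succ s ih =>
    have e : 65536 ^ (s + 1) * X = 65536 * (65536 ^ s * X) := by ring
    rw [e]
    cases i with
    | zero => rw [dg_zero, Nat.mul_mod_right]; simp
    | succ i =>
      rw [dg_succ, Nat.mul_div_cancel_left _ (by norm_num), ih]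
      simp

theorem ldS_le (off : ℕ → ℕ) (X i : ℕ) : dg i (ldS off X) ≤ 7 := by
  have e : ldS off X = 65536 ^ (off (Nat.mod X 4)) * dec (Nat.div X 4) := rfl
  rw [e, dg_shift]
  split_ifs
  · omega
  · exact dec_le _ _

theorem unc_length (k X : ℕ) : (unc k X).length ≤ k := by
  induction k generalizing X with
  | zero => simp [unc]
  | succ k ih =>
    simp only [unc]
    cases Nat.beq X 0
    · simp only [cond_false, List.length_cons]
      have := ih (Nat.div X 65536)
      omega
    · simp

theorem acc_dg {S : ℕ → ℕ} (hS : ∀ t i, dg i (S t) ≤ 7) (c : ℕ) {L : SV}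
    (hL : 42 * L.length < 65536) (i : ℕ) :
    dg i (acc S c L) ≤ 42 * L.length ∧
      ((dg i (acc S c L) : ℕ) : ZMod 7) = (c : ZMod 7) * lin (fun t => ((dg i (S t) : ℕ) : ZMod 7)) L := by
  induction L generalizing i with
  | nil => simp [acc, lin, dg_z]
  | cons t L ih =>
    rw [List.length_cons] at hL
    have ih' := ih (by omega)
    have e : acc S c (t :: L) = (c * t.2 % 7) * S t.1 + acc S c L := rfl
    have h7 : c * t.2 % 7 ≤ 6 := by have := Nat.mod_lt (c * t.2) (show 0 < 7 by norm_num); omega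
    have hb : ∀ j, (c * t.2 % 7) * dg j (S t.1) ≤ 42 := by
      intro j
      calc _ ≤ 6 * 7 := Nat.mul_le_mul h7 (hS _ _)
        _ = 42 := by norm_num
    have h1 : ∀ j, dg j ((c * t.2 % 7) * S t.1) = (c * t.2 % 7) * dg j (S t.1) := by
      intro j
      apply dg_mul
      intro l _
      have := hb l
      omega
    have h2 : dg i (acc S c (t :: L)) = (c * t.2 % 7) * dg i (S t.1) + dg i (acc S c L) := by
      rw [e, dg_add, h1]
      intro j _
      rw [h1]
      have := hb j
      have := (ih' j).1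
      omega
    rw [h2]
    constructor
    · have := hb i
      have := (ih' i).1
      rw [List.length_cons]
      omega
    · push_cast
      rw [(ih' i).2]
      simp only [lin, smul_eq_mul, ZMod.natCast_mod, Nat.cast_mul]
      ring

theorem accM_dg {S : ℕ → ℕ → ℕ} (hS : ∀ u t i, dg i (S u t) ≤ 7) {Y M : SV}
    (hL : 42 * Y.length * M.length < 65536) (i : ℕ) :
    dg i (accM S Y M) ≤ 42 * Y.length * M.length ∧
      ((dg i (accM S Y M) : ℕ) : ZMod 7) =
        lin (fun u => lin (fun t => ((dg i (S u t) : ℕ) : ZMod 7)) Y) M := by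
  induction M generalizing i with
  | nil => simp [accM, lin, dg_z]
  | cons t M ih =>
    rw [List.length_cons, mul_add, mul_one] at hL
    have ih' := ih (by omega)
    have e : accM S Y (t :: M) = acc (S t.1) t.2 Y + accM S Y M := rfl
    have h0 := acc_dg (hS t.1) t.2 (L := Y) (by omega)
    have h2 : dg i (accM S Y (t :: M)) = dg i (acc (S t.1) t.2 Y) + dg i (accM S Y M) := by
      rw [e, dg_add]
      intro j _
      have := (h0 j).1
      have := (ih' j).1
      omega
    rw [h2]
    constructor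
    · have := (h0 i).1
      have := (ih' i).1
      rw [List.length_cons, mul_add, mul_one]
      omega
    · push_cast
      rw [(ih' i).2, (h0 i).2]
      simp only [lin, smul_eq_mul]

theorem colN_dg {Mt Yt : ℕ → ℕ → SV} {S : ℕ → ℕ → ℕ} (hS : ∀ u t i, dg i (S u t) ≤ 7) (φ e : ℕ)
    (hM : ∀ κ, (Mt κ φ).length ≤ 1) (hY : ∀ κ, (Yt κ e).length ≤ 64) {K : ℕ} (hK : K ≤ 20) (i : ℕ) :
    dg i (colN Mt Yt S φ e K) ≤ 2688 * K ∧
      ((dg i (colN Mt Yt S φ e K) : ℕ) : ZMod 7) =
        ∑ κ ∈ Finset.range K,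
          lin (fun u => lin (fun t => ((dg i (S u t) : ℕ) : ZMod 7)) (Yt κ e)) (Mt κ φ) := by
  induction K generalizing i with
  | zero => simp [colN, dg_z]
  | succ K ih =>
    have ih' := ih (by omega)
    have e1 : colN Mt Yt S φ e (K + 1) = accM S (Yt K e) (Mt K φ) + colN Mt Yt S φ e K := rfl
    have h3 : 42 * (Yt K e).length * (Mt K φ).length ≤ 2688 := by
      calc _ ≤ 42 * 64 * 1 := Nat.mul_le_mul (Nat.mul_le_mul_left _ (hY K)) (hM K)
        _ = 2688 := by norm_num
    have h0 := accM_dg hS (Y := Yt K e) (M := Mt K φ) (by omega)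
    have h2 : dg i (colN Mt Yt S φ e (K + 1)) =
        dg i (accM S (Yt K e) (Mt K φ)) + dg i (colN Mt Yt S φ e K) := by
      rw [e1, dg_add]
      intro j _
      have := (h0 j).1
      have := (ih' j).1
      omega
    rw [h2]
    constructor
    · have := (h0 i).1
      have := (ih' i).1
      omega
    · push_cast
      rw [(ih' i).2, (h0 i).2, Finset.sum_range_succ]
      ring

end Bound

end Pool.Agent.GC
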