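import Pool.Agent.GC.Skew
import Pool.Agent.GC.Final

/-! The generic Hilbert series for `n = 4 k + 1`, up to the value of one odd parameter. -/

set_option linter.unusedSectionVars false
set_option linter.unusedSimpArgs false
set_option linter.unusedVariables false

namespace Pool.Agent.GC

open Polynomial

section Semi

variable {K : Type*} [Field K] {n : ℕ}

/-- the rank of the multiplication by a form is lower semicontinuous -/
theorem rank_open (f₀ : ⋀[K]^3 (Fin n → K)) (m : ℕ) :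
    ∃ P : MvPolynomial (Set.powersetCard (Fin n) 3) K, MvPolynomial.eval (cf K n f₀) P ≠ 0 ∧
      ∀ f : ⋀[K]^3 (Fin n → K), MvPolynomial.eval (cf K n f) P ≠ 0 →
        Module.finrank K ((Lk K n m).map (mf f₀.1)) ≤ Module.finrank K ((Lk K n m).map (mf f.1)) := by
  classical
  set W := (Lk K n m).map (mf f₀.1) with hW
  set r := Module.finrank K W with hr
  let b : Module.Basis (Fin r) K W := Module.finBasisOfFinrankEq K _ hr.symm
  have hb : ∀ i, ∃ v : ExteriorAlgebra K (Fin n → K), v ∈ Lk K n m ∧ f₀.1 * v = (b i).1 := by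
    intro i
    obtain ⟨v, hv, hv'⟩ := (b i).2
    exact ⟨v, hv, hv'⟩
  choose v hv hv' using hb
  let L : (Fin r → K) →ₗ[K] ExteriorAlgebra K (Fin n → K) :=
    W.subtype ∘ₗ b.equivFun.symm.toLinearMap
  have hL : LinearMap.ker L = ⊥ := by
    rw [LinearMap.ker_eq_bot]
    exact (Subtype.val_injective).comp b.equivFun.symm.injective
  obtain ⟨φ, hφ⟩ := LinearMap.exists_leftInverse_of_injective L hL
  have hφb : ∀ i, φ (b i).1 = Pi.single i 1 := by
    intro i
    have h1 : L (Pi.single i 1) = (b i).1 := by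
      simp only [L, LinearMap.comp_apply, LinearEquiv.coe_coe]
      rw [Module.Basis.equivFun_symm_apply]
      simp [Pi.single_apply]
    rw [← h1]
    exact congrArg (fun g => g (Pi.single i (1 : K))) hφ
  let es : Set.powersetCard (Fin n) 3 → ExteriorAlgebra K (Fin n → K) := fun s =>
    (((Pi.basisFun K (Fin n)).exteriorPower 3 s : ⋀[K]^3 (Fin n → K)) :
      ExteriorAlgebra K (Fin n → K))
  have hrep : ∀ f : ⋀[K]^3 (Fin n → K), f.1 = ∑ s, cf K n f s • es s := by
    intro f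
    have h3 := ((Pi.basisFun K (Fin n)).exteriorPower 3).sum_repr f
    conv_lhs => rw [← h3]
    simp [es]
  let A : ⋀[K]^3 (Fin n → K) → Matrix (Fin r) (Fin r) K := fun f =>
    Matrix.of fun i j => φ (f.1 * v j) i
  let P : MvPolynomial (Set.powersetCard (Fin n) 3) K :=
    Matrix.det (Matrix.of fun i j => ∑ s, (MvPolynomial.X s : MvPolynomial _ K) *
      MvPolynomial.C (φ (es s * v j) i))
  have hP : ∀ f : ⋀[K]^3 (Fin n → K), MvPolynomial.eval (cf K n f) P = (A f).det := by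
    intro f
    rw [RingHom.map_det]
    congr 1
    ext i j
    simp only [RingHom.mapMatrix_apply, Matrix.map_apply, Matrix.of_apply, map_sum, map_mul,
      MvPolynomial.eval_X, MvPolynomial.eval_C, A]
    conv_rhs => rw [hrep f, Finset.sum_mul, map_sum, Finset.sum_apply]
    refine Finset.sum_congr rfl fun s _ => ?_
    rw [smul_mul_assoc, map_smul, Pi.smul_apply, smul_eq_mul]
  refine ⟨P, ?_, ?_⟩
  · rw [hP]
    have h1 : A f₀ = 1 := by
      ext i j
      simp only [A, Matrix.of_apply]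
      rw [hv', hφb, Pi.single_apply, Matrix.one_apply]
    rw [h1, Matrix.det_one]
    exact one_ne_zero
  · intro f hf
    rw [hP] at hf
    let g : (Fin r → K) →ₗ[K] ((Lk K n m).map (mf f.1)) :=
      (LinearMap.codRestrict _
        ((mf f.1) ∘ₗ (Fintype.linearCombination K v)) (by
          intro x
          refine ⟨Fintype.linearCombination K v x, ?_, rfl⟩
          rw [SetLike.mem_coe, Fintype.linearCombination_apply]
          exact Submodule.sum_mem _ fun i _ => Submodule.smul_mem _ _ (hv i)))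
    have hg : Function.Injective g := by
      rw [injective_iff_map_eq_zero]
      intro x hx
      have h1 : f.1 * (∑ j, x j • v j) = 0 := by
        have h1 : (g x).1 = 0 := by rw [hx]; rfl
        have h3 : (g x).1 = f.1 * (Fintype.linearCombination K v x) := rfl
        rw [h3, Fintype.linearCombination_apply] at h1
        exact h1
      apply Matrix.eq_zero_of_mulVec_eq_zero hf
      funext i
      have h3 : φ (f.1 * (∑ j, x j • v j)) i = 0 := by rw [h1]; simp
      rw [Finset.mul_sum, map_sum, Finset.sum_apply] at h3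
      rw [Pi.zero_apply, ← h3]
      simp only [Matrix.mulVec, dotProduct, A, Matrix.of_apply]
      refine Finset.sum_congr rfl fun j _ => ?_
      rw [mul_smul_comm, map_smul, Pi.smul_apply, smul_eq_mul, mul_comm]
    have h2 := LinearMap.finrank_le_finrank_of_injective hg
    rw [Module.finrank_fin_fun] at h2
    exact h2

end Semi

section Par

variable {K : Type*} [Field K] {n : ℕ}

/-- in the exact range the boundaries are determined -/
theorem bb_eq (h2 : (2 : K) ≠ 0) {f g : ExteriorAlgebra K (Fin n → K)}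
    (hf : f ∈ ⋀[K]^3 (Fin n → K)) (hg : g ∈ ⋀[K]^3 (Fin n → K)) {l : ℕ}
    (hEf : ∀ i < l, zz K n f i = bb K n f i) (hEg : ∀ i < l, zz K n g i = bb K n g i) :
    ∀ i, i < l + 3 → bb K n f i = bb K n g i := by
  intro i
  induction i using Nat.strong_induction_on with
  | _ i ih =>
    intro hi
    by_cases h3 : i < 3
    · rw [bb_low h2 hf h3, bb_low h2 hg h3]
    · obtain ⟨m, rfl⟩ := Nat.exists_eq_add_of_le' (not_lt.mp h3)
      have a1 := zz_add_bb h2 hf m
      have a2 := zz_add_bb h2 hg m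
      have a3 := hEf m (by omega)
      have a4 := hEg m (by omega)
      have a5 := ih m (by omega) (by omega)
      omega

theorem bb_big (k : ℕ) (hk : n < k) (f : ExteriorAlgebra K (Fin n → K)) : bb K n f k = 0 := by
  have h5 := hf_add_bb (K := K) (n := n) (f := f) k
  rw [Nat.choose_eq_zero_of_lt hk] at h5
  omega

/-- symmetry of the ranks -/
theorem bb_symm (h2 : (2 : K) ≠ 0) {f : ExteriorAlgebra K (Fin n → K)}
    (hf : f ∈ ⋀[K]^3 (Fin n → K)) {l : ℕ}
    (hE : ∀ i, (i < l ∨ n < i + l) → zz K n f i = bb K n f i) :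
    ∀ i, i < l → i ≤ n → bb K n f (i + 3) = bb K n f (n - i) := by
  intro i
  induction i using Nat.strong_induction_on with
  | _ i ih =>
    intro hi hin
    have a1 := zz_add_bb h2 hf i
    have a3 := hE i (Or.inl hi)
    have a2 := zz_add_bb h2 hf (n - i)
    have a4 := hE (n - i) (Or.inr (by omega))
    have a6 := Nat.choose_symm hin
    by_cases h3 : i < 3
    · have b1 := bb_low h2 hf h3
      have b2 := bb_big (K := K) (n - i + 3) (by omega) f
      omega
    · have a5 := ih (i - 3) (by omega) (by omega) (by omega)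
      have e1 : i - 3 + 3 = i := by omega
      have e2 : n - (i - 3) = n - i + 3 := by omega
      rw [e1, e2] at a5
      omega

theorem sum_par (g : ℕ → ℕ) (m : ℕ) (hg : ∀ i < m, g i = g (2 * m - i)) :
    ∃ s, ∑ i ∈ Finset.range (2 * m + 1), g i = 2 * s + g m := by
  refine ⟨∑ i ∈ Finset.range m, g i, ?_⟩
  have e : 2 * m + 1 = m + (m + 1) := by omega
  rw [e, Finset.sum_range_add, Finset.sum_range_succ' (fun x => g (m + x))]
  have h1 : ∑ i ∈ Finset.range m, g (m + (i + 1)) = ∑ i ∈ Finset.range m, g i := by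
    rw [← Finset.sum_range_reflect (fun i => g (m + (i + 1))) m]
    refine Finset.sum_congr rfl fun i hi => ?_
    rw [Finset.mem_range] at hi
    rw [hg i hi]
    congr 1
    omega
  rw [h1, Nat.add_zero]
  ring

end Par

section Main

variable {K : Type*} [Field K]

theorem shape_coeff (a : ℤ) (m i : ℕ) : (C a * X ^ m * (1 + X ^ 3) : ℤ[X]).coeff i =
    (if i = m then a else 0) + (if i = m + 3 then a else 0) := by
  have e : (C a * X ^ m * (1 + X ^ 3) : ℤ[X]) = C a * X ^ m + C a * X ^ (m + 3) := by ring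
  rw [e, Polynomial.coeff_add, Polynomial.coeff_C_mul_X_pow, Polynomial.coeff_C_mul_X_pow]

/-- the shape of the homology for `n = 4 k + 1` -/
theorem hh_form (h2 : (2 : K) ≠ 0) {k : ℕ} (hk : 1 ≤ k)
    {f : ExteriorAlgebra K (Fin (4 * k + 1) → K)} (hf : f ∈ ⋀[K]^3 (Fin (4 * k + 1) → K))
    (hE : ∀ i, (i < 2 * k - 1 ∨ 4 * k + 1 < i + (2 * k - 1)) →
      zz K (4 * k + 1) f i = bb K (4 * k + 1) f i) :
    HH K (4 * k + 1) f = C ((zz K (4 * k + 1) f (2 * k - 1) : ℤ) - bb K (4 * k + 1) f (2 * k - 1)) *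
      X ^ (2 * k - 1) * (1 + X ^ 3) + (3 * X) ^ (2 * k) * (1 + X) := by
  set a : ℤ := (zz K (4 * k + 1) f (2 * k - 1) : ℤ) - bb K (4 * k + 1) f (2 * k - 1) with ha
  have hmain := main_identity h2 hf
  have hco : ∀ i, (HH K (4 * k + 1) f).coeff i =
      if i < 4 * k + 1 + 1 then (zz K (4 * k + 1) f i : ℤ) - bb K (4 * k + 1) f i else 0 := by
    intro i
    unfold HH
    rw [coeff_sum']
  obtain ⟨b, hb⟩ := dvd_odd (2 * k)
  have e1 : 2 * (2 * k) + 1 = 4 * k + 1 := by omega
  rw [e1] at hb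
  have key : HH K (4 * k + 1) f - C a * X ^ (2 * k - 1) * (1 + X ^ 3) =
      (3 * X) ^ (2 * k) * (1 + X) := by
    refine eq_of_dvd (l := 2 * k) (A := (1 + X) ^ (4 * k + 1)) ?_ ?_ ?_ ?_
    · intro i hi
      rw [Polynomial.coeff_sub, hco]
      by_cases h1 : i = 2 * k - 1
      · rw [if_pos (by omega), h1, shape_coeff, if_pos rfl, if_neg (by omega)]
        ring
      · have h5 : (C a * X ^ (2 * k - 1) * (1 + X ^ 3) : ℤ[X]).coeff i = 0 := by
          rw [shape_coeff, if_neg h1, if_neg (by omega)]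
          ring
        rw [h5]
        by_cases h3 : i < 4 * k + 1 + 1
        · rw [if_pos h3, hE i (by omega)]
          ring
        · rw [if_neg h3]
          ring
    · intro i hi
      have h3 := LL_form 1 (2 * k) (by norm_num) i hi
      rw [pow_one, mul_comm] at h3
      exact h3
    · refine ⟨hs K (4 * k + 1) f - X ^ 3 * (C a * X ^ (2 * k - 1)), ?_⟩
      linear_combination -hmain
    · exact ⟨b + (3 * X) ^ (2 * k) * (1 + X), by linear_combination hb⟩
  rw [← key]
  ring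

theorem eval_sum_one (g : ℕ → ℕ) (m : ℕ) :
    (∑ i ∈ Finset.range m, C (g i : ℤ) * X ^ i : ℤ[X]).eval 1 =
      ((∑ i ∈ Finset.range m, g i : ℕ) : ℤ) := by
  rw [Polynomial.eval_finsetSum]
  push_cast
  refine Finset.sum_congr rfl fun i _ => ?_
  simp

/-- the sum of the ranks -/
theorem sum_bb {n : ℕ} (f : ExteriorAlgebra K (Fin n → K)) :
    (∑ i ∈ Finset.range (n + 1), bb K n f i) + (∑ i ∈ Finset.range (n + 1), hf K n f i) = 2 ^ n := by
  rw [← Finset.sum_add_distrib, ← Nat.sum_range_choose]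
  refine Finset.sum_congr rfl fun i _ => ?_
  rw [add_comm]
  exact hf_add_bb i

/-- the parameter is odd -/
theorem par_odd (h2 : (2 : K) ≠ 0) {k : ℕ} (hk : 1 ≤ k)
    {f : ExteriorAlgebra K (Fin (4 * k + 1) → K)} (h3f : f ∈ ⋀[K]^3 (Fin (4 * k + 1) → K))
    (hE : ∀ i, (i < 2 * k - 1 ∨ 4 * k + 1 < i + (2 * k - 1)) →
      zz K (4 * k + 1) f i = bb K (4 * k + 1) f i) :
    Odd (zz K (4 * k + 1) f (2 * k - 1) - bb K (4 * k + 1) f (2 * k - 1)) := by
  have hle := bb_le_zz h2 h3f (2 * k - 1)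
  obtain ⟨c, hc⟩ := Nat.exists_eq_add_of_le hle
  have hc' : zz K (4 * k + 1) f (2 * k - 1) - bb K (4 * k + 1) f (2 * k - 1) = c := by omega
  rw [hc']
  have hH := hh_form h2 hk h3f hE
  have hci : (zz K (4 * k + 1) f (2 * k - 1) : ℤ) - bb K (4 * k + 1) f (2 * k - 1) = c := by omega
  rw [hci] at hH
  have hmain := main_identity h2 h3f
  rw [hH] at hmain
  have h1 := congrArg (Polynomial.eval 1) hmain
  have e1 : (hs K (4 * k + 1) f).eval 1 =
      ((∑ i ∈ Finset.range (4 * k + 1 + 1), hf K (4 * k + 1) f i : ℕ) : ℤ) := by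
    unfold hs
    exact eval_sum_one _ _
  have e2 := sum_bb (K := K) f
  set S1 := ∑ i ∈ Finset.range (4 * k + 1 + 1), hf K (4 * k + 1) f i with hS1
  set S2 := ∑ i ∈ Finset.range (4 * k + 1 + 1), bb K (4 * k + 1) f i with hS2
  simp only [Polynomial.eval_mul, Polynomial.eval_add, Polynomial.eval_pow, Polynomial.eval_one,
    Polynomial.eval_X, Polynomial.eval_C, e1, one_pow, mul_one, Polynomial.eval_ofNat, one_mul] at h1
  have e3 : ∃ s, S2 = 2 * s + bb K (4 * k + 1) f (2 * k - 1 + 3) := by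
    obtain ⟨s, hs'⟩ := sum_par (fun i => bb K (4 * k + 1) f (i + 3)) (2 * k - 1) (by
      intro i hi
      have h5 := bb_symm h2 h3f (l := 2 * k - 1) hE i hi (by omega)
      rw [h5]
      congr 1
      omega)
    refine ⟨s, ?_⟩
    rw [← hs', hS2]
    have e4 : 4 * k + 1 + 1 = 3 + (2 * (2 * k - 1) + 1) := by omega
    rw [e4, Finset.sum_range_add]
    have e5 : ∑ x ∈ Finset.range 3, bb K (4 * k + 1) f x = 0 := by
      apply Finset.sum_eq_zero
      intro i hi
      exact bb_low h2 h3f (Finset.mem_range.mp hi)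
    rw [e5, zero_add]
    refine Finset.sum_congr rfl fun i _ => ?_
    rw [add_comm 3 i]
  obtain ⟨s, hs'⟩ := e3
  obtain ⟨t, ht⟩ := bb_mid_even h2 hk h3f
  have e6 : (2 : ℤ) ^ (4 * k + 1) = 2 * 16 ^ k := by
    rw [pow_succ, pow_mul]; norm_num; ring
  have e7 : (3 : ℤ) ^ (2 * k) = 9 ^ k := by
    rw [pow_mul]; norm_num
  have e8 : (S2 : ℤ) + S1 = 2 ^ (4 * k + 1) := by exact_mod_cast e2
  have e9 : (2 : ℤ) ∣ 16 ^ k := dvd_pow (by norm_num) (by omega)
  have e10 : ∃ u : ℤ, (9 : ℤ) ^ k = 2 * u + 1 := (Odd.pow (by decide : Odd (9 : ℤ)))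
  obtain ⟨u, hu⟩ := e10
  obtain ⟨w, hw⟩ := e9
  have e11 : (S2 : ℤ) = 2 * s + (t + t) := by rw [hs', ht]; push_cast; ring
  have e12 : (c : ℤ) = 2 * (w - u - s - t - 1) + 1 := by
    have h6 : (1 : ℤ) + 1 = 2 := by norm_num
    rw [h6, e6, e7, hw, hu] at h1
    rw [e6, hw] at e8
    linarith
  have e13 : Odd (c : ℤ) := ⟨_, e12⟩
  exact_mod_cast e13

/-- the generic Hilbert series for `n = 4 k + 1`, up to one odd parameter -/
theorem one_mod [Infinite K] (h2 : (2 : K) ≠ 0) {k : ℕ} (hk : 1 ≤ k)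
    (hEf : Ef K (4 * k + 1) (2 * k - 1)) :
    ∃ c : ℕ, Odd c ∧ ∃ P : MvPolynomial (Set.powersetCard (Fin (4 * k + 1)) 3) K, P ≠ 0 ∧
      ∀ f : ⋀[K]^3 (Fin (4 * k + 1) → K), MvPolynomial.eval (cf K (4 * k + 1) f) P ≠ 0 →
        hs K (4 * k + 1) f * (1 + X ^ 3) = (1 + X) ^ (4 * k + 1) +
          X ^ 3 * (C (c : ℤ) * X ^ (2 * k - 1) * (1 + X ^ 3) + (3 * X) ^ (2 * k) * (1 + X)) := by
  classical
  set n := 4 * k + 1 with hn
  obtain ⟨σ, hσ⟩ := hEf
  obtain ⟨P, hP, hPf⟩ := generic_ex h2 σ hσ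
  have hE : ∀ f : ⋀[K]^3 (Fin n → K), MvPolynomial.eval (cf K n f) P ≠ 0 →
      ∀ i, (i < 2 * k - 1 ∨ 4 * k + 1 < i + (2 * k - 1)) → zz K n f i = bb K n f i := by
    intro f hf i hi
    obtain ⟨f1, f2⟩ := hPf f hf
    apply zz_eq_bb h2 f.2
    rcases hi with hi | hi
    · exact f1.mono (by intro x hx; omega)
    · exact f2.mono (by intro x hx; omega)
  -- a form with the minimal number of cycles in the middle
  have hmin : ∃ f₁ : ⋀[K]^3 (Fin n → K), ∀ f : ⋀[K]^3 (Fin n → K),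
      zz K n f₁ (2 * k - 1) ≤ zz K n f (2 * k - 1) := by
    let S : Set ℕ := Set.range fun f : ⋀[K]^3 (Fin n → K) => zz K n f (2 * k - 1)
    have hS : S.Nonempty := ⟨_, ⟨0, rfl⟩⟩
    obtain ⟨f₁, hf₁⟩ := Nat.sInf_mem hS
    exact ⟨f₁, fun f => by
      have h1 : sInf S ≤ zz K n f (2 * k - 1) := Nat.sInf_le ⟨f, rfl⟩
      have h3 : zz K n f₁ (2 * k - 1) = sInf S := hf₁
      omega⟩
  obtain ⟨f₁, hf₁⟩ := hmin
  obtain ⟨P₁, hP₁, hPf₁⟩ := rank_open f₁ (2 * k - 1)
  have hP₁0 : P₁ ≠ 0 := by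
    intro h0
    rw [h0, map_zero] at hP₁
    exact hP₁ rfl
  have hPP : P * P₁ ≠ 0 := mul_ne_zero hP hP₁0
  have hzz : ∀ f : ⋀[K]^3 (Fin n → K), MvPolynomial.eval (cf K n f) P₁ ≠ 0 →
      zz K n f (2 * k - 1) = zz K n f₁ (2 * k - 1) := by
    intro f hf
    apply le_antisymm _ (hf₁ f)
    have h3 := hPf₁ f hf
    rw [map_mf h2 f.2, map_mf h2 f₁.2] at h3
    have h4 := zz_add_bb h2 f.2 (2 * k - 1)
    have h5 := zz_add_bb h2 f₁.2 (2 * k - 1)
    change bb K n f₁ (2 * k - 1 + 3) ≤ bb K n f (2 * k - 1 + 3) at h3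
    omega
  -- a point where both polynomials do not vanish
  obtain ⟨c₀, hc₀⟩ : ∃ c₀ : Set.powersetCard (Fin n) 3 → K,
      MvPolynomial.eval c₀ (P * P₁) ≠ 0 := by
    by_contra h
    push Not at h
    apply hPP
    apply MvPolynomial.funext
    intro x
    rw [h x, map_zero]
  obtain ⟨f₂, hf₂⟩ : ∃ f₂ : ⋀[K]^3 (Fin n → K), cf K n f₂ = c₀ := by
    refine ⟨((Pi.basisFun K (Fin n)).exteriorPower 3).equivFun.symm c₀, ?_⟩
    exact ((Pi.basisFun K (Fin n)).exteriorPower 3).equivFun.apply_symm_apply c₀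
  rw [← hf₂, map_mul] at hc₀
  have hE₂ := hE f₂ (left_ne_zero_of_mul hc₀)
  refine ⟨zz K n f₂ (2 * k - 1) - bb K n f₂ (2 * k - 1), par_odd h2 hk f₂.2 hE₂, P * P₁, hPP, ?_⟩
  intro f hf
  rw [map_mul] at hf
  have hEf := hE f (left_ne_zero_of_mul hf)
  have hb := bb_eq h2 f.2 f₂.2 (l := 2 * k - 1) (fun i hi => hEf i (Or.inl hi))
    (fun i hi => hE₂ i (Or.inl hi)) (2 * k - 1) (by omega)
  have hz : zz K n f (2 * k - 1) = zz K n f₂ (2 * k - 1) := by
    rw [hzz f (right_ne_zero_of_mul hf), hzz f₂ (right_ne_zero_of_mul hc₀)]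
  have hle := bb_le_zz h2 f₂.2 (2 * k - 1)
  rw [main_identity h2 f.2, hh_form h2 hk f.2 hEf, hb, hz, Nat.cast_sub hle]

end Main

end Pool.Agent.GC
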