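import Pool.Agent.GC.Num
import Pool.Agent.GC.Induct

/-! Sparse columns of the operators of the standard Fock model over `ZMod 7`. -/

set_option linter.unusedSectionVars false
set_option linter.unusedSimpArgs false
set_option linter.unusedVariables false

namespace Pool.Agent.GC

open Matrix

instance fact7 : Fact (Nat.Prime 7) := ⟨by norm_num⟩

/-- an enumeration of a basis -/
structure Bas (A : Type) where
  sz : ℕ
  e : Fin sz ≃ A

/-- guarded table -/
def gd (s : ℕ) (col : ℕ → SV) (m : ℕ) : SV := bif Nat.blt m s then col m else []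

namespace Bas

variable {A B C : Type} [DecidableEq A] [DecidableEq B] [DecidableEq C] [Fintype A] [Fintype B]
  [Fintype C]

/-- basis vectors -/
def g (β : Bas A) (m : ℕ) : A → ZMod 7 := if h : m < β.sz then Pi.single (β.e ⟨m, h⟩) 1 else 0

/-- index -/
def idx (β : Bas A) (a : A) : ℕ := (β.e.symm a).val

/-- the matrix with the given sparse columns -/
def mat (β : Bas A) (γ : Bas B) (col : ℕ → SV) : Matrix A B (ZMod 7) :=
  fun a b => lin β.g (col (γ.idx b)) a

theorem g_idx (γ : Bas B) (b : B) : γ.g (γ.idx b) = Pi.single b 1 := by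
  unfold g idx
  rw [dif_pos (γ.e.symm b).isLt]
  simp

theorem mat_g (β : Bas A) (γ : Bas B) (col : ℕ → SV) (m : ℕ) :
    β.mat γ col *ᵥ γ.g m = lin β.g (gd γ.sz col m) := by
  unfold gd
  by_cases h : m < γ.sz
  · have h1 : Nat.blt m γ.sz = true := by rw [Nat.blt_eq]; exact h
    rw [h1, cond_true]
    unfold g
    rw [dif_pos h, Matrix.mulVec_single_one]
    funext a
    show lin β.g (col (γ.idx (γ.e ⟨m, h⟩))) a = _
    have : γ.idx (γ.e ⟨m, h⟩) = m := by simp [idx]
    rw [this]
    rfl
  · have h1 : Nat.blt m γ.sz = false := by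
      cases h2 : Nat.blt m γ.sz
      · rfl
      · rw [Nat.blt_eq] at h2; exact absurd h2 h
    rw [h1, cond_false]
    unfold g
    rw [dif_neg h, Matrix.mulVec_zero]
    rfl

theorem mulVec_lin (M : Matrix A B (ZMod 7)) (g : ℕ → B → ZMod 7) (L : SV) :
    M *ᵥ lin g L = lin (fun m => M *ᵥ g m) L := by
  have := lin_map (Matrix.mulVecLin M) g L
  simpa using this

theorem mat_lin (β : Bas A) (γ : Bas B) (col : ℕ → SV) (L : SV) :
    β.mat γ col *ᵥ lin γ.g L = lin β.g (bindS (gd γ.sz col) L) := by
  rw [mulVec_lin, lin_bindS]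
  congr 1
  funext m
  exact mat_g β γ col m

theorem col_eq (γ : Bas B) {M N : Matrix A B (ZMod 7)} {b : B}
    (h : M *ᵥ γ.g (γ.idx b) = N *ᵥ γ.g (γ.idx b)) (a : A) : M a b = N a b := by
  rw [g_idx, Matrix.mulVec_single_one, Matrix.mulVec_single_one] at h
  exact congrFun h a

theorem idx_lt (γ : Bas B) (b : B) : γ.idx b < γ.sz := (γ.e.symm b).isLt

end Bas

/-- `Fin r` -/
def bF (r : ℕ) : Bas (Fin r) := ⟨r, Equiv.refl _⟩

/-- the subset with the given binary code -/
def fs (n m : ℕ) : Finset (Fin n) := Finset.univ.filter fun i => m.testBit i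

theorem fs_bij (n : ℕ) : Function.Bijective (fun m : Fin (2 ^ n) => fs n m) := by
  rw [Fintype.bijective_iff_injective_and_card]
  constructor
  · intro m m' h
    apply Fin.ext
    apply Nat.eq_of_testBit_eq
    intro j
    by_cases hj : j < n
    · have := Finset.ext_iff.mp h ⟨j, hj⟩
      simp only [fs, Finset.mem_filter, Finset.mem_univ, true_and] at this
      rw [Bool.eq_iff_iff]
      exact this
    · rw [Nat.testBit_lt_two_pow (lt_of_lt_of_le m.isLt (Nat.pow_le_pow_right (by norm_num)
        (by omega))), Nat.testBit_lt_two_pow (lt_of_lt_of_le m'.isLt (Nat.pow_le_pow_right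
        (by norm_num) (by omega)))]
  · simp

/-- subsets of `Fin n` -/
noncomputable def bJ (n : ℕ) : Bas (Finset (Fin n)) := ⟨2 ^ n, Equiv.ofBijective _ (fs_bij n)⟩

theorem bJ_g {n m : ℕ} (h : m < 2 ^ n) : (bJ n).g m = Pi.single (fs n m) 1 := by
  unfold Bas.g
  rw [dif_pos (show m < (bJ n).sz from h)]
  rfl

theorem bJ_g' {n m : ℕ} (h : ¬ m < 2 ^ n) : (bJ n).g m = 0 := by
  unfold Bas.g
  rw [dif_neg (show ¬ m < (bJ n).sz from h)]

theorem fs_idx {n : ℕ} (b : Finset (Fin n)) : fs n ((bJ n).idx b) = b := by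
  unfold Bas.idx bJ
  exact (Equiv.ofBijective _ (fs_bij n)).apply_symm_apply b

/-- number of ones among the first `l` binary digits -/
def bel (m : ℕ) : ℕ → ℕ
  | 0 => 0
  | l + 1 => Nat.add (Nat.mod (Nat.div m (Nat.pow 2 l)) 2) (bel m l)

theorem bel_eq {n : ℕ} (m : ℕ) {l : ℕ} (hl : l ≤ n) :
    ((fs n m).filter fun i : Fin n => i.val < l).card = bel m l := by
  induction l with
  | zero => simp [bel]
  | succ l ih =>
    have ih' := ih (by omega)
    have e : bel m (l + 1) = m / 2 ^ l % 2 + bel m l := rfl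
    have ht : m.testBit l = decide (m / 2 ^ l % 2 = 1) := Nat.testBit_eq_decide_div_mod_eq
    rw [e, ← ih']
    by_cases h : m.testBit l = true
    · rw [h] at ht
      have h1 : m / 2 ^ l % 2 = 1 := by simpa using ht.symm
      have h2 : (fs n m).filter (fun i : Fin n => i.val < l + 1) =
          insert ⟨l, by omega⟩ ((fs n m).filter fun i : Fin n => i.val < l) := by
        ext i
        simp only [fs, Finset.mem_filter, Finset.mem_univ, true_and, Finset.mem_insert, Fin.ext_iff]
        constructor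
        · rintro ⟨h3, h4⟩
          by_cases h5 : i.val = l
          · exact Or.inl h5
          · exact Or.inr ⟨h3, by omega⟩
        · rintro (h3 | ⟨h3, h4⟩)
          · rw [h3]; exact ⟨h, by omega⟩
          · exact ⟨h3, by omega⟩
      rw [h2, Finset.card_insert_of_notMem (by simp), h1]
      omega
    · have h0 : m.testBit l = false := by simpa using h
      rw [h0] at ht
      have h1 : m / 2 ^ l % 2 = 0 := by
        have : ¬ (m / 2 ^ l % 2 = 1) := by simpa using ht.symm
        omega
      have h2 : (fs n m).filter (fun i : Fin n => i.val < l + 1) =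
          ((fs n m).filter fun i : Fin n => i.val < l) := by
        ext i
        simp only [fs, Finset.mem_filter, Finset.mem_univ, true_and]
        constructor
        · rintro ⟨h3, h4⟩
          refine ⟨h3, ?_⟩
          by_cases h5 : i.val = l
          · rw [h5, h0] at h3; exact absurd h3 (by simp)
          · omega
        · rintro ⟨h3, h4⟩
          exact ⟨h3, by omega⟩
      rw [h2, h1]
      omega

theorem card_fs (n m : ℕ) : (fs n m).card = bel m n := by
  rw [← bel_eq m (le_refl n), Finset.filter_true_of_mem]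
  intro i _
  exact i.isLt

theorem card_idx {n : ℕ} (b : Finset (Fin n)) : b.card = bel ((bJ n).idx b) n := by
  rw [← card_fs, fs_idx]

/-- column of the operator of the variable `l` -/
def colX (l m : ℕ) : SV :=
  bif Nat.beq (Nat.mod (Nat.div m (Nat.pow 2 l)) 2) 1 then [] else
    [(Nat.lor m (Nat.pow 2 l), bif Nat.beq (Nat.mod (bel m l) 2) 0 then 1 else 6)]

/-- extension by zero -/
def ex0 {n : ℕ} {A : Type*} [Zero A] (x : Fin n → A) (a : ℕ) : A := if h : a < n then x ⟨a, h⟩ else 0

theorem sgn_cast (b : ℕ) : (-1 : ZMod 7) ^ b =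
    ((bif Nat.beq (Nat.mod b 2) 0 then 1 else 6 : ℕ) : ZMod 7) := by
  rw [neg_one_pow_eq_pow_mod_two]
  have h : b % 2 = 0 ∨ b % 2 = 1 := by omega
  rcases h with h | h
  · have h' : Nat.mod b 2 = 0 := h
    rw [h, h']; simp
  · have h' : Nat.mod b 2 = 1 := h
    rw [h, h']; decide

theorem colX_g {n : ℕ} (l m : ℕ) :
    ex0 (Fock.cr (ZMod 7) (ι := Fin n)) l *ᵥ (bJ n).g m = lin (bJ n).g (colX l m) := by
  unfold colX ex0
  by_cases hm : m < 2 ^ n
  · by_cases hl : l < n
    · rw [dif_pos hl, bJ_g hm, Matrix.mulVec_single_one]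
      have ht : m.testBit l = decide (m / 2 ^ l % 2 = 1) := Nat.testBit_eq_decide_div_mod_eq
      by_cases h : m.testBit l = true
      · rw [h] at ht
        have h1 : m / 2 ^ l % 2 = 1 := by simpa using ht.symm
        have h2 : Nat.beq (Nat.mod (Nat.div m (Nat.pow 2 l)) 2) 1 = true := by
          rw [Nat.beq_eq]; exact h1
        rw [h2, cond_true]
        funext a
        have h3 : (⟨l, hl⟩ : Fin n) ∈ fs n m := by simp [fs, h]
        simp [Fock.cr, h3, lin, Matrix.col_apply]
      · have h0 : m.testBit l = false := by simpa using h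
        rw [h0] at ht
        have h1 : ¬ (m / 2 ^ l % 2 = 1) := by simpa using ht.symm
        have h2 : Nat.beq (Nat.mod (Nat.div m (Nat.pow 2 l)) 2) 1 = false := by
          rw [Bool.eq_false_iff, Ne, Nat.beq_eq]; exact h1
        rw [h2, cond_false]
        have h3 : (⟨l, hl⟩ : Fin n) ∉ fs n m := by simp [fs, h0]
        have h4 : fs n (m ||| 2 ^ l) = insert ⟨l, hl⟩ (fs n m) := by
          ext i
          simp only [fs, Finset.mem_filter, Finset.mem_univ, true_and, Finset.mem_insert,
            Nat.testBit_lor, Nat.testBit_two_pow, Bool.or_eq_true, decide_eq_true_eq, Fin.ext_iff]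
          constructor
          · rintro (h | h)
            · exact Or.inr h
            · exact Or.inl h.symm
          · rintro (h | h)
            · exact Or.inr h.symm
            · exact Or.inl h
        have h5 : m ||| 2 ^ l < 2 ^ n :=
          Nat.or_lt_two_pow hm (Nat.pow_lt_pow_right (by norm_num) hl)
        have h6 : Fock.below (fs n m) ⟨l, hl⟩ = bel m l := by
          rw [← bel_eq m hl.le]; rfl
        simp only [lin, add_zero]
        rw [show Nat.lor m (Nat.pow 2 l) = m ||| 2 ^ l from rfl, bJ_g h5, h4, ← sgn_cast, ← h6]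
        funext a
        simp only [Matrix.col_apply, Fock.cr, Pi.smul_apply, smul_eq_mul, Pi.single_apply]
        by_cases ha : a = insert ⟨l, hl⟩ (fs n m)
        · simp [ha, h3]
        · simp [ha]
    · rw [dif_neg hl, Matrix.zero_mulVec]
      cases Nat.beq (Nat.mod (Nat.div m (Nat.pow 2 l)) 2) 1
      · simp only [cond_false, lin, add_zero]
        rw [show Nat.lor m (Nat.pow 2 l) = m ||| 2 ^ l from rfl, bJ_g', smul_zero]
        have h1 : 2 ^ l ≤ m ||| 2 ^ l := Nat.right_le_or
        have h2 : 2 ^ n ≤ 2 ^ l := Nat.pow_le_pow_right (by norm_num) (by omega)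
        omega
      · rfl
  · rw [bJ_g' hm, Matrix.mulVec_zero]
    cases Nat.beq (Nat.mod (Nat.div m (Nat.pow 2 l)) 2) 1
    · simp only [cond_false, lin, add_zero]
      rw [show Nat.lor m (Nat.pow 2 l) = m ||| 2 ^ l from rfl, bJ_g', smul_zero]
      have h1 : m ≤ m ||| 2 ^ l := Nat.left_le_or
      omega
    · rfl

theorem colX_lin {n : ℕ} (l : ℕ) (L : SV) :
    ex0 (Fock.cr (ZMod 7) (ι := Fin n)) l *ᵥ lin (bJ n).g L =
      lin (bJ n).g (bindS (colX l) L) := by
  rw [Bas.mulVec_lin, lin_bindS]
  congr 1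
  funext m
  exact colX_g l m

/-- lists of cubic monomials -/
abbrev FL := List (ℕ × ℕ × ℕ × ℕ)

/-- column of a cubic form -/
def colE : FL → ℕ → SV
  | [], _ => []
  | t :: fl, m => sc t.2.2.2 (bindS (colX t.1) (bindS (colX t.2.1) (colX t.2.2.1 m))) ++ colE fl m

/-- the coefficients of a cubic form -/
def cof (n : ℕ) : FL → Fin n → Fin n → Fin n → ZMod 7
  | [] => 0
  | t :: fl => (fun (i j k : Fin n) => if (i : ℕ) = t.1 then if (j : ℕ) = t.2.1 then
      if (k : ℕ) = t.2.2.1 then (t.2.2.2 : ZMod 7) else 0 else 0 else 0) + cof n fl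

theorem sum_ex0 {n : ℕ} {A : Type*} [AddCommMonoid A] (a : ℕ) (f : Fin n → A) :
    ∑ i : Fin n, (if (i : ℕ) = a then f i else 0) = ex0 f a := by
  unfold ex0
  by_cases h : a < n
  · rw [dif_pos h, Finset.sum_eq_single ⟨a, h⟩]
    · simp
    · intro b _ hb
      rw [if_neg]
      intro h'
      exact hb (Fin.ext h')
    · simp
  · rw [dif_neg h]
    apply Finset.sum_eq_zero
    intro i _
    rw [if_neg]
    intro h'
    exact h (h' ▸ i.isLt)

theorem cub_mono {n : ℕ} {A : Type*} [Ring A] [Algebra (ZMod 7) A] (x : Fin n → A) (a b c : ℕ)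
    (v : ZMod 7) :
    cub x (fun i j k : Fin n => if (i : ℕ) = a then if (j : ℕ) = b then
      if (k : ℕ) = c then v else 0 else 0 else 0) = v • (ex0 x a * ex0 x b * ex0 x c) := by
  unfold cub
  have h1 : ∀ i j k : Fin n, (if (i : ℕ) = a then if (j : ℕ) = b then
      if (k : ℕ) = c then v else 0 else 0 else 0) • (x i * x j * x k) =
      if (i : ℕ) = a then (if (j : ℕ) = b then (if (k : ℕ) = c then v • (x i * x j * x k)
        else 0) else 0) else 0 := by
    intro i j k
    split_ifs <;> simp
  simp only [h1]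
  have h2 : ∀ i : Fin n, ∑ j : Fin n, ∑ k : Fin n, (if (i : ℕ) = a then
      (if (j : ℕ) = b then (if (k : ℕ) = c then v • (x i * x j * x k) else 0) else 0) else 0) =
      if (i : ℕ) = a then ex0 (fun j => ex0 (fun k => v • (x i * x j * x k)) c) b else 0 := by
    intro i
    split_ifs
    · rw [← sum_ex0]
      apply Finset.sum_congr rfl
      intro j _
      split_ifs
      · rw [← sum_ex0]
      · simp
    · simp
  simp only [h2]
  rw [sum_ex0]
  unfold ex0
  by_cases ha : a < n <;> by_cases hb : b < n <;> by_cases hc : c < n <;> simp [ha, hb, hc]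

/-- the operator of a cubic form -/
theorem colE_g {n : ℕ} (fl : FL) (m : ℕ) :
    cub (Fock.cr (ZMod 7) (ι := Fin n)) (cof n fl) *ᵥ (bJ n).g m = lin (bJ n).g (colE fl m) := by
  induction fl with
  | nil =>
    have : cub (Fock.cr (ZMod 7) (ι := Fin n)) (cof n []) = 0 := by
      unfold cub cof
      simp
    rw [this, Matrix.zero_mulVec]
    rfl
  | cons t fl ih =>
    rw [cof, cub_add, cub_mono, Matrix.add_mulVec, ih]
    simp only [colE, lin_append, lin_sc]
    congr 1
    rw [Matrix.smul_mulVec]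
    congr 1
    rw [← Matrix.mulVec_mulVec, ← Matrix.mulVec_mulVec, colX_g, colX_lin, colX_lin]

theorem colE_lin {n : ℕ} (fl : FL) (L : SV) :
    cub (Fock.cr (ZMod 7) (ι := Fin n)) (cof n fl) *ᵥ lin (bJ n).g L =
      lin (bJ n).g (bindS (colE fl) L) := by
  rw [Bas.mulVec_lin, lin_bindS]
  congr 1
  funext m
  exact colE_g fl m

/-- linear combinations of the variables -/
def colL (T : SV) (m : ℕ) : SV := bindS (fun l => colX l m) T

theorem colL_g {n : ℕ} (T : SV) (m : ℕ) :
    lin (ex0 (Fock.cr (ZMod 7) (ι := Fin n))) T *ᵥ (bJ n).g m = lin (bJ n).g (colL T m) := by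
  unfold colL
  rw [lin_bindS]
  induction T with
  | nil => simp [lin]
  | cons t T ih => simp only [lin, Matrix.add_mulVec, Matrix.smul_mulVec, colX_g, ih]

theorem colL_lin {n : ℕ} (T L : SV) :
    lin (ex0 (Fock.cr (ZMod 7) (ι := Fin n))) T *ᵥ lin (bJ n).g L =
      lin (bJ n).g (bindS (colL T) L) := by
  rw [Bas.mulVec_lin, lin_bindS]
  congr 1
  funext m
  exact colL_g T m

/-- the sign operator -/
def colSg (n m : ℕ) : SV := [(m, bif Nat.beq (Nat.mod (bel m n) 2) 0 then 1 else 6)]

theorem colSg_g {n : ℕ} (w : Fin n → ZMod 3) (m : ℕ) :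
    sg (ZMod 7) ((St (ZMod 7) n).deg w) *ᵥ (bJ n).g m = lin (bJ n).g (colSg n m) := by
  unfold colSg
  simp only [lin, add_zero]
  by_cases hm : m < 2 ^ n
  · rw [bJ_g hm, Matrix.mulVec_single_one, ← sgn_cast, ← card_fs]
    funext a
    simp only [Matrix.col_apply, sg, Matrix.diagonal_apply, Pi.smul_apply, smul_eq_mul,
      Pi.single_apply]
    by_cases ha : a = fs n m
    · subst ha
      have : ((St (ZMod 7) n).deg w (fs n m)).1 = ((fs n m).card : ℤ) := rfl
      simp [this]
    · simp [ha]
  · rw [bJ_g' hm]; simp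

theorem colSg_lin {n : ℕ} (w : Fin n → ZMod 3) (L : SV) :
    sg (ZMod 7) ((St (ZMod 7) n).deg w) *ᵥ lin (bJ n).g L =
      lin (bJ n).g (bindS (colSg n) L) := by
  rw [Bas.mulVec_lin, lin_bindS]
  congr 1
  funext m
  exact colSg_g w m

end Pool.Agent.GC
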