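import Pool.Agent.GC.Sdr

/-! Injectivity on the homology of a tensor product from explicit contraction data. -/

set_option linter.unusedSectionVars false
set_option linter.unusedSimpArgs false
set_option linter.unusedVariables false

namespace Pool.Agent.GC

open Matrix

section

/-- Kronecker product of rectangular matrices -/
def kx {K A A' B B' : Type*} [Field K] (M : Matrix A' A K) (N : Matrix B' B K) :
    Matrix (A' × B') (A × B) K := Matrix.kroneckerMap (· * ·) M N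

theorem kx_mul {K A A' A'' B B' B'' : Type*} [Field K] [Fintype A'] [Fintype B']
    (M : Matrix A'' A' K) (M' : Matrix A' A K) (N : Matrix B'' B' K) (N' : Matrix B' B K) :
    kx M N * kx M' N' = kx (M * M') (N * N') := (Matrix.mul_kronecker_mul M M' N N').symm

theorem kx_zero_left {K A A' B B' : Type*} [Field K] (N : Matrix B' B K) :
    kx (0 : Matrix A' A K) N = 0 := by ext a b; simp [kx]

theorem kx_zero_right {K A A' B B' : Type*} [Field K] (M : Matrix A' A K) :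
    kx M (0 : Matrix B' B K) = 0 := by ext a b; simp [kx]

theorem kr_eq_kx {K I J : Type*} [Field K] [Fintype I] [Fintype J] [DecidableEq I] [DecidableEq J]
    (M : Matrix I I K) (N : Matrix J J K) : kr M N = kx M N := rfl

variable {K : Type*} [Field K] {I J A B A' B' : Type*} [Fintype I] [DecidableEq I] [Fintype J]
  [DecidableEq J] [Fintype A] [DecidableEq A] [Fintype B] [DecidableEq B] [Fintype A']
  [DecidableEq A'] [Fintype B'] [DecidableEq B'] {degI : I → Gr} {degJ : J → Gr}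

/-- abstract criterion -/
theorem hinj_crit {deg : I → Gr} {d S : Matrix I I K} {P : Gr → Prop} (hdS : d * S = S * d)
    {i : Matrix I A K} {p : Matrix A I K} {p' : Matrix A' I K}
    (h1 : ∀ v, Sup deg P v → d *ᵥ v = 0 → ∃ w, d *ᵥ w = v - i *ᵥ (p *ᵥ v))
    (h2 : p' * d = 0) (h3 : ∀ x : A → K, (p' * S * i) *ᵥ x = 0 → x = 0) : HInj deg d S P := by
  intro v hv hdv ⟨w, hw⟩
  obtain ⟨w1, hw1⟩ := h1 v hv hdv
  have h4 : p *ᵥ v = 0 := by
    apply h3
    have e1 : i *ᵥ (p *ᵥ v) = v - d *ᵥ w1 := by rw [hw1]; abel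
    rw [← Matrix.mulVec_mulVec, e1, Matrix.mulVec_sub, ← Matrix.mulVec_mulVec, ← hw,
      Matrix.mulVec_mulVec, h2, Matrix.zero_mulVec, Matrix.mulVec_mulVec, Matrix.mul_assoc p' S d,
      ← hdS, ← Matrix.mul_assoc, h2, Matrix.zero_mul, Matrix.zero_mulVec, sub_zero]
  refine ⟨w1, ?_⟩
  rw [hw1, h4, Matrix.mulVec_zero, sub_zero]

theorem prod_hinj {δ : Gr} (hδ : Odd δ.1) {d h1 : Matrix I I K} {e h2 : Matrix J J K}
    (hd : Hm degI δ d) (hdd : d * d = 0) (hee : e * e = 0) (hh1 : Hm degI (-δ) h1)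
    {S : Matrix (I × J) (I × J) K} (hS : dten degI d e * S = S * dten degI d e)
    {P : Gr → Prop} {i1 : Matrix I A K} {p1 : Matrix A I K} {i2 : Matrix J B K} {p2 : Matrix B J K}
    {p1' : Matrix A' I K} {p2' : Matrix B' J K} (hp1 : p1' * d = 0) (hp2 : p2' * e = 0)
    (hcol : ∀ b : I × J, P (dg2 degI degJ b) → ∀ a1 a2,
      (1 - (d * h1 + h1 * d) : Matrix I I K) a1 b.1 * (1 - (e * h2 + h2 * e) : Matrix J J K) a2 b.2 =
        (i1 * p1) a1 b.1 * (i2 * p2) a2 b.2)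
    (hN : ∀ x : A × B → K, (kx p1' p2' * S *
      kx i1 i2) *ᵥ x = 0 → x = 0) :
    HInj (dg2 degI degJ) (dten degI d e) S P := by
  refine hinj_crit hS (i := kx i1 i2)
    (p := kx p1 p2) (p' := kx p1' p2') ?_ ?_ hN
  · intro v hv hdv
    obtain ⟨w, hw⟩ := kun_red hδ hd hdd hee hh1 (h1 := h1) (π1 := 1 - (d * h1 + h1 * d))
      (h2 := h2) (π2 := 1 - (e * h2 + h2 * e)) (by abel) (by abel) hdv
    refine ⟨w, ?_⟩
    rw [hw]
    congr 1
    rw [Matrix.mulVec_mulVec, kx_mul]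
    apply mulVec_congr
    intro a b hb
    exact hcol b (hv b hb) a.1 a.2
  · unfold dten
    rw [Matrix.mul_add, kr_eq_kx, kr_eq_kx, kx_mul, kx_mul, hp1, hp2, kx_zero_left, kx_zero_right,
      add_zero]

end

section Data

variable {F G : Dat}

/-- the differential on the pair -/
noncomputable def DD (F G : Dat) : Matrix (Finset (Fin F.n) × Finset (Fin G.n))
    (Finset (Fin F.n) × Finset (Fin G.n)) (ZMod 7) :=
  Dd (St (ZMod 7) F.n) (St (ZMod 7) G.n) (cof F.n F.fl) (cof G.n G.fl)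

/-- hypotheses on the data -/
structure Good (F G : Dat) : Prop where
  f1 : ∀ m < Nat.pow 2 F.n, F.c1 m = true
  g1 : ∀ m < Nat.pow 2 G.n, G.c1 m = true
  f4 : ∀ m < Nat.pow 2 F.n, F.c4 m = true

theorem pair_hinj (hG : Good F G) {S : Matrix (Finset (Fin F.n) × Finset (Fin G.n))
    (Finset (Fin F.n) × Finset (Fin G.n)) (ZMod 7)} (hS : DD F G * S = S * DD F G)
    {P : Gr → Prop} {t1 t2 s1 s2 : ℕ} (hf2 : ∀ m < Nat.pow 2 F.n, F.c2 s1 m = true)
    (hg2 : ∀ m < Nat.pow 2 G.n, G.c2 s2 m = true)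
    (hP : ∀ (b1 : Finset (Fin F.n)) (b2 : Finset (Fin G.n)),
      P (((b1.card + b2.card : ℕ) : ℤ), ((b1.card : ℕ) : ZMod 3)) →
        (b1.card < F.lo ∧ b1.card ≤ F.hi ∧ b1.card ≠ t1) ∨
        (b2.card < G.lo ∧ b2.card ≤ G.hi ∧ b2.card ≠ t2) ∨
        (b1.card = t1 ∧ b2.card = t2 ∧ ¬ t1 < F.lo ∧ t1 ≤ F.hi ∧ ¬ t2 < G.lo ∧ t2 ≤ G.hi))
    (hN : ∀ x : Fin (F.r t1) × Fin (G.r t2) → ZMod 7,
      (kx (F.p s1) (G.p s2) * S *
      kx (F.i t1) (G.i t2)) *ᵥ x = 0 → x = 0) :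
    HInj (dP (St (ZMod 7) F.n) (St (ZMod 7) G.n)) (DD F G) S P := by
  have h2 : (2 : ZMod 7) ≠ 0 := by decide
  refine prod_hinj (δ := (3, 0)) (by decide) (hm_cubF _ _) (cub_sq h2 (St (ZMod 7) F.n).anti _)
    (cub_sq h2 (St (ZMod 7) G.n).anti _) (Dat.h_hm hG.f4) hS (h2 := G.h) (Dat.p_E hf2)
    (Dat.p_E hg2) (i1 := F.i t1) (p1 := F.p t1) (i2 := G.i t2) (p2 := G.p t2) ?_ hN
  rintro ⟨b1, b2⟩ hb a1 a2
  have hb' : dg2 ((St (ZMod 7) F.n).deg 1) ((St (ZMod 7) G.n).deg 0) (b1, b2) =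
      (((b1.card + b2.card : ℕ) : ℤ), ((b1.card : ℕ) : ZMod 3)) := by
    unfold dg2 Fock.deg
    ext
    · simp [Fock.std]
    · simp [Fock.std]
  rw [hb'] at hb
  have z : ∀ (D : Dat) (t : ℕ) (a b : Finset (Fin D.n)), b.card ≠ t → (D.i t * D.p t) a b = 0 := by
    intro D t a b hbt
    rw [Matrix.mul_apply]
    apply Finset.sum_eq_zero
    intro j _
    by_cases h0 : D.p t j b = 0
    · rw [h0, mul_zero]
    · exact absurd (Dat.p_supp h0) hbt
  have q1 : (1 - (cub (St (ZMod 7) F.n).x (cof F.n F.fl) * F.h +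
      F.h * cub (St (ZMod 7) F.n).x (cof F.n F.fl)) : Matrix _ _ (ZMod 7)) = F.pi := rfl
  have q2 : (1 - (cub (St (ZMod 7) G.n).x (cof G.n G.fl) * G.h +
      G.h * cub (St (ZMod 7) G.n).x (cof G.n G.fl)) : Matrix _ _ (ZMod 7)) = G.pi := rfl
  rw [q1, q2]
  show F.pi a1 b1 * G.pi a2 b2 = (F.i t1 * F.p t1) a1 b1 * (G.i t2 * G.p t2) a2 b2
  rcases hP b1 b2 hb with ⟨c1, c2, c3⟩ | ⟨c1, c2, c3⟩ | ⟨c1, c2, c3, c4, c5, c6⟩
  · rw [Dat.pi_lo hG.f1 c1 c2, z F t1 a1 b1 c3]; simp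
  · rw [Dat.pi_lo hG.g1 c1 c2, z G t2 a2 b2 c3]; simp
  · rw [Dat.pi_eq hG.f1 (by omega) (by omega), Dat.pi_eq hG.g1 (by omega) (by omega)]
    subst c1 c2
    rfl

end Data

end Pool.Agent.GC
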