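import Pool.Agent.GC.Steps

/-! Composition of two pairs. -/

set_option linter.unusedSectionVars false
set_option linter.unusedSimpArgs false
set_option linter.unusedVariables false
set_option synthInstance.maxSize 2000

namespace Pool.Agent.GC

open Matrix

section Comp

variable {K : Type*} [Field K] {V₁ W₁ V₂ W₂ : Type} [DecidableEq V₁] [DecidableEq W₁]
  [DecidableEq V₂] [DecidableEq W₂] [Fintype V₁] [Fintype W₁] [Fintype V₂] [Fintype W₂]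
  {I₁ J₁ I₂ J₂ : Type} [Fintype I₁] [DecidableEq I₁] [Fintype J₁] [DecidableEq J₁]
  [Fintype I₂] [DecidableEq I₂] [Fintype J₂] [DecidableEq J₂]

/-- the model adapted to the composition -/
def Ms (F₁ : Fock K V₁ I₁) (G₁ : Fock K W₁ J₁) (F₂ : Fock K V₂ I₂) (G₂ : Fock K W₂ J₂) :
    Fock K (((((V₁ ⊕ W₁) ⊕ (V₂ ⊕ W₂)) ⊕ Unit) ⊕ Unit) ⊕ Unit)
      (((((I₁ × J₁) × (I₂ × J₂)) × Bool) × Bool) × Bool) :=
  ((((F₁.prod G₁).prod (F₂.prod G₂)).prod (Fock.one K)).prod (Fock.one K)).prod (Fock.one K)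

theorem nn_sg : nn K * sg K (dU (1, 1)) = nn K := by
  ext a b
  unfold sg
  rw [Matrix.mul_diagonal]
  cases a <;> cases b <;> simp [nn, dU]

variable (F₁ : Fock K V₁ I₁) (G₁ : Fock K W₁ J₁) (F₂ : Fock K V₂ I₂) (G₂ : Fock K W₂ J₂)
  (σ₁ : V₁ → V₁ → V₁ → K) (τ₁ : W₁ → W₁ → W₁ → K) (T₁ : V₁ → W₁ → K)
  (σ₂ : V₂ → V₂ → V₂ → K) (τ₂ : W₂ → W₂ → W₂ → K) (T₂ : V₂ → W₂ → K)

/-- degrees of the pair of pairs -/
def dPP : (I₁ × J₁) × (I₂ × J₂) → Gr := dg2 (dP F₁ G₁) (dP F₂ G₂)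

/-- the operator `σ₁ + τ₁ + σ₂ + τ₂` -/
def DPP : Matrix ((I₁ × J₁) × (I₂ × J₂)) ((I₁ × J₁) × (I₂ × J₂)) K :=
  dten (dP F₁ G₁) (Dd F₁ G₁ σ₁ τ₁) (Dd F₂ G₂ σ₂ τ₂)

/-- the operator `T₁ + T₂` -/
def TPP : Matrix ((I₁ × J₁) × (I₂ × J₂)) ((I₁ × J₁) × (I₂ × J₂)) K :=
  kr (Tt F₁ G₁ T₁) 1 + kr 1 (Tt F₂ G₂ T₂)

theorem x1 : (fun i => (Ms F₁ G₁ F₂ G₂).x (.inl (.inl (.inl (.inl (.inl i)))))) =
    fun i => kr (kr (kr (kr (kr (F₁.x i) (1 : Matrix J₁ J₁ K)) (1 : Matrix (I₂ × J₂) (I₂ × J₂) K))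
      (1 : Matrix Bool Bool K)) (1 : Matrix Bool Bool K)) (1 : Matrix Bool Bool K) := rfl

theorem x2 : (fun i => (Ms F₁ G₁ F₂ G₂).x (.inl (.inl (.inl (.inl (.inr i)))))) =
    fun i => kr (kr (kr (kr (kr (sg K (F₁.deg 1)) (G₁.x i)) (1 : Matrix (I₂ × J₂) (I₂ × J₂) K))
      (1 : Matrix Bool Bool K)) (1 : Matrix Bool Bool K)) (1 : Matrix Bool Bool K) := rfl

theorem sgP : sg K (dP F₁ G₁) = sg K ((F₁.prod G₁).deg 0) := by
  apply sg_congr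
  intro a
  rw [prod_deg]
  rfl

theorem x3 : (fun i => (Ms F₁ G₁ F₂ G₂).x (.inl (.inl (.inl (.inr (.inl i)))))) =
    fun i => kr (kr (kr (kr (sg K (dP F₁ G₁)) (kr (F₂.x i) (1 : Matrix J₂ J₂ K)))
      (1 : Matrix Bool Bool K)) (1 : Matrix Bool Bool K)) (1 : Matrix Bool Bool K) := by
  rw [sgP]; rfl

theorem x4 : (fun i => (Ms F₁ G₁ F₂ G₂).x (.inl (.inl (.inl (.inr (.inr i)))))) =
    fun i => kr (kr (kr (kr (sg K (dP F₁ G₁)) (kr (sg K (F₂.deg 1)) (G₂.x i)))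
      (1 : Matrix Bool Bool K)) (1 : Matrix Bool Bool K)) (1 : Matrix Bool Bool K) := by
  rw [sgP]; rfl

theorem x5 : (Ms F₁ G₁ F₂ G₂).x (.inl (.inl (.inr ()))) =
    kr (kr (kr (sg K (dPP F₁ G₁ F₂ G₂)) (nn K)) (1 : Matrix Bool Bool K))
      (1 : Matrix Bool Bool K) := by
  have : sg K (dPP F₁ G₁ F₂ G₂) = sg K (((F₁.prod G₁).prod (F₂.prod G₂)).deg 0) := by
    apply sg_congr
    intro a
    rw [prod_deg, prod_deg, prod_deg]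
    rfl
  rw [this]; rfl

theorem x6 : (Ms F₁ G₁ F₂ G₂).x (.inl (.inr ())) =
    kr (kr (sg K (dg2 (dPP F₁ G₁ F₂ G₂) (dU (1, 1)))) (nn K)) (1 : Matrix Bool Bool K) := by
  have : sg K (dg2 (dPP F₁ G₁ F₂ G₂) (dU (1, 1))) =
      sg K ((((F₁.prod G₁).prod (F₂.prod G₂)).prod (Fock.one K)).deg 0) := by
    apply sg_congr
    intro a
    rw [prod_deg, prod_deg, prod_deg, prod_deg, dU_one]
    obtain ⟨a, b⟩ := a
    cases b <;> rfl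
  rw [this]; rfl

theorem x7 : (Ms F₁ G₁ F₂ G₂).x (.inr ()) =
    kr (sg K (degA (dPP F₁ G₁ F₂ G₂))) (nn K) := by
  have : sg K (degA (dPP F₁ G₁ F₂ G₂)) =
      sg K (((((F₁.prod G₁).prod (F₂.prod G₂)).prod (Fock.one K)).prod (Fock.one K)).deg 0) := by
    apply sg_congr
    intro a
    rw [prod_deg, prod_deg, prod_deg, prod_deg, prod_deg, dU_one, dU_one]
    obtain ⟨⟨a, b⟩, c⟩ := a
    cases b <;> cases c <;> rfl
  rw [this]; rfl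

theorem xs_xs' : (Ms F₁ G₁ F₂ G₂).x (.inl (.inl (.inr ()))) *
    (Ms F₁ G₁ F₂ G₂).x (.inl (.inr ())) =
    kr (kr (kr (1 : Matrix ((I₁ × J₁) × (I₂ × J₂)) ((I₁ × J₁) × (I₂ × J₂)) K) (nn K)) (nn K)) 1 := by
  rw [x5, x6, kr_mul, kr_mul, sg_dg2, kr_mul, sg_mul_sg, nn_sg, one_mul, one_mul]

theorem Ms_expr : cone (degA (dPP F₁ G₁ F₂ G₂)) (dA (DPP F₁ G₁ F₂ G₂ σ₁ τ₁ σ₂ τ₂))
      (TA (TPP F₁ G₁ F₂ G₂ T₁ T₂)) =
    (cub (fun i => (Ms F₁ G₁ F₂ G₂).x (.inl (.inl (.inl (.inl (.inl i)))))) σ₁ +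
      cub (fun i => (Ms F₁ G₁ F₂ G₂).x (.inl (.inl (.inl (.inr (.inl i)))))) σ₂) +
    (cub (fun i => (Ms F₁ G₁ F₂ G₂).x (.inl (.inl (.inl (.inl (.inr i)))))) τ₁ +
      cub (fun i => (Ms F₁ G₁ F₂ G₂).x (.inl (.inl (.inl (.inr (.inr i)))))) τ₂) +
    (Ms F₁ G₁ F₂ G₂).x (.inr ()) *
      (bil (fun i => (Ms F₁ G₁ F₂ G₂).x (.inl (.inl (.inl (.inl (.inl i))))))
        (fun i => (Ms F₁ G₁ F₂ G₂).x (.inl (.inl (.inl (.inl (.inr i)))))) T₁ +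
       bil (fun i => (Ms F₁ G₁ F₂ G₂).x (.inl (.inl (.inl (.inr (.inl i))))))
        (fun i => (Ms F₁ G₁ F₂ G₂).x (.inl (.inl (.inl (.inr (.inr i)))))) T₂ +
       (Ms F₁ G₁ F₂ G₂).x (.inl (.inl (.inr ()))) * (Ms F₁ G₁ F₂ G₂).x (.inl (.inr ()))) := by
  rw [xs_xs', x1, x2, x3, x4, x7]
  simp only [cub_kr_one (K := K) (ι := V₁), cub_kr_one (K := K) (ι := W₁),
    cub_kr_one (K := K) (ι := V₂), cub_kr_one (K := K) (ι := W₂), cub_kr_sg, bil_kr_one, bil_kr_sg]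
  unfold cone dA TA TPP DPP dten Dd dten Tt
  simp only [kr_add_left, kr_add_right, mul_add, kr_mul, mul_one, one_mul, bil_kr_sg]
  abel

/-- the two arrangements of the variables -/
def shuffle {N M : Type} (eV : (V₁ ⊕ V₂) ⊕ Unit ≃ N) (eW : (W₁ ⊕ W₂) ⊕ Unit ≃ M) :
    ((((V₁ ⊕ W₁) ⊕ (V₂ ⊕ W₂)) ⊕ Unit) ⊕ Unit) ⊕ Unit ≃ (N ⊕ M) ⊕ Unit where
  toFun
    | .inl (.inl (.inl (.inl (.inl v)))) => .inl (.inl (eV (.inl (.inl v))))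
    | .inl (.inl (.inl (.inl (.inr w)))) => .inl (.inr (eW (.inl (.inl w))))
    | .inl (.inl (.inl (.inr (.inl v)))) => .inl (.inl (eV (.inl (.inr v))))
    | .inl (.inl (.inl (.inr (.inr w)))) => .inl (.inr (eW (.inl (.inr w))))
    | .inl (.inl (.inr _)) => .inl (.inl (eV (.inr ())))
    | .inl (.inr _) => .inl (.inr (eW (.inr ())))
    | .inr _ => .inr ()
  invFun
    | .inl (.inl n) => match eV.symm n with
      | .inl (.inl v) => .inl (.inl (.inl (.inl (.inl v))))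
      | .inl (.inr v) => .inl (.inl (.inl (.inr (.inl v))))
      | .inr _ => .inl (.inl (.inr ()))
    | .inl (.inr m) => match eW.symm m with
      | .inl (.inl w) => .inl (.inl (.inl (.inl (.inr w))))
      | .inl (.inr w) => .inl (.inl (.inl (.inr (.inr w))))
      | .inr _ => .inl (.inr ())
    | .inr _ => .inr ()
  left_inv := by
    rintro (((((v | w) | (v | w)) | u) | u) | u) <;> simp
  right_inv := by
    rintro ((n | m) | u)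
    · obtain ⟨z, rfl⟩ := eV.surjective n
      rcases z with (v | v) | u <;> simp
    · obtain ⟨z, rfl⟩ := eW.surjective m
      rcases z with (v | v) | u <;> simp
    · simp

end Comp

section Main

variable {K : Type*} [Field K]

theorem r_one (h2 : (2 : K) ≠ 0) {x1 y1 x2 y2 : ℕ} (hx1 : 1 ≤ x1) (hy1 : 1 ≤ y1) (hx2 : 1 ≤ x2)
    (hy2 : 1 ≤ y2) (hA : SS K x1 y1) (hB : SS K x2 y2) : GG K (x1 + x2) (y1 + y2) := by
  obtain ⟨σ₁, τ₁, T₁, hσ₁, hτ₁, hT₁⟩ := hA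
  obtain ⟨σ₂, τ₂, T₂, hσ₂, hτ₂, hT₂⟩ := hB
  set F₁ := St K (4 * x1 - 1)
  set G₁ := St K (4 * y1 - 1)
  set F₂ := St K (4 * x2 - 1)
  set G₂ := St K (4 * y2 - 1)
  set F := St K (4 * (x1 + x2) - 1)
  set G := St K (4 * (y1 + y2) - 1)
  have eV : (Fin (4 * x1 - 1) ⊕ Fin (4 * x2 - 1)) ⊕ Unit ≃ Fin (4 * (x1 + x2) - 1) :=
    Fintype.equivFinOfCardEq (by simp; omega)
  have eW : (Fin (4 * y1 - 1) ⊕ Fin (4 * y2 - 1)) ⊕ Unit ≃ Fin (4 * (y1 + y2) - 1) :=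
    Fintype.equivFinOfCardEq (by simp; omega)
  refine ⟨fun i j k => glue3 σ₁ σ₂ (eV.symm i) (eV.symm j) (eV.symm k),
    fun i j k => glue3 τ₁ τ₂ (eW.symm i) (eW.symm j) (eW.symm k),
    fun i j => glue2 T₁ T₂ (eV.symm i) (eW.symm j), ?_⟩
  -- the complex of the pair of pairs
  have q1 := Q_pair F₁ G₁ σ₁ τ₁ h2 hσ₁ hτ₁
  have q2 := Q_pair F₂ G₂ σ₂ τ₂ h2 hσ₂ hτ₂
  have m1 := hm_Dd F₁ G₁ σ₁ τ₁
  have m2 := hm_Dd F₂ G₂ σ₂ τ₂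
  have n1 := hm_Tt F₁ G₁ T₁
  have n2 := hm_Tt F₂ G₂ T₂
  have s1 := Dd_sq F₁ G₁ σ₁ τ₁ h2
  have s2 := Dd_sq F₂ G₂ σ₂ τ₂ h2
  have c1 := Dd_Tt F₁ G₁ σ₁ τ₁ T₁
  have c2 := Dd_Tt F₂ G₂ σ₂ τ₂ T₂
  have hodd : Odd ((3, 0) : Gr).1 := by decide
  have hev : Even ((2, 1) : Gr).1 := by decide
  have hQ := Q_prod hodd m1 s1 m2 s2 q1 q2
  have hsq := hinj_sq hodd h2 m1 s1 m2 s2 n1 n2 hev (by decide) c1 c2 q1 q2 hT₁ hT₂
  have hlin := hinj_lin hodd m1 s1 m2 s2 n1 n2 hev (by decide) c1 c2 q1 q2 hT₁ hT₂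
  have mD : Hm (dPP F₁ G₁ F₂ G₂) (3, 0) (DPP F₁ G₁ F₂ G₂ σ₁ τ₁ σ₂ τ₂) := m1.dten m2
  have mT : Hm (dPP F₁ G₁ F₂ G₂) (2, 1) (TPP F₁ G₁ F₂ G₂ T₁ T₂) := (n1.tl).add (n2.tr0)
  have cDT : DPP F₁ G₁ F₂ G₂ σ₁ τ₁ σ₂ τ₂ * TPP F₁ G₁ F₂ G₂ T₁ T₂ =
      TPP F₁ G₁ F₂ G₂ T₁ T₂ * DPP F₁ G₁ F₂ G₂ σ₁ τ₁ σ₂ τ₂ := by
    simp only [DPP, TPP, dten, add_mul, mul_add, kr_mul, mul_one, one_mul, c1, c2, n1.even hev]
    abel
  have key := asm (l := (2 * x1 - 1 : ℤ) + (2 * y1 - 1 : ℤ) + ((2 * x2 - 1 : ℤ) + (2 * y2 - 1 : ℤ)))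
    mD mT cDT hQ hsq (hlin.mono (fun x hx => by rw [hx])) (hlin.mono (fun x hx => by rw [hx]))
  rw [Ms_expr] at key
  set e := shuffle eV eW with he
  obtain ⟨Φ, Ψ, h3, h4, h5, h6, h7⟩ :=
    ((Ms F₁ G₁ F₂ G₂).relabel e).transfer ((F.prod G).prod (Fock.one K))
  have h8 : ∀ k, Φ * (Ms F₁ G₁ F₂ G₂).x k = ((F.prod G).prod (Fock.one K)).x (e k) * Φ := by
    intro k
    have := h5 (e k)
    simpa [Fock.relabel] using this
  let w : (Fin (4 * (x1 + x2) - 1) ⊕ Fin (4 * (y1 + y2) - 1)) ⊕ Unit → ZMod 3 :=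
    Sum.elim (Sum.elim 1 0) (fun _ => -1)
  refine ex_transfer (degI := ((Ms F₁ G₁ F₂ G₂).relabel e).deg w) h3 h4 ?_ ?_ (ex_deg ?_ key)
  · intro a b hab
    have e1 : dF F G b = ((F.prod G).prod (Fock.one K)).deg w b := by
      rw [prod_deg, prod_deg, dU_one]; rfl
    rw [e1]
    unfold Fock.deg
    rw [h7 a b hab]
  · rw [FF_prod]
    apply add_conj
    · apply add_conj
      · rw [cub_equiv eV, cub_glue3]
        apply add_conj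
        · exact cub_conj (fun i => h8 _) _
        · exact cub_conj (fun i => h8 _) _
      · rw [cub_equiv eW, cub_glue3]
        apply add_conj
        · exact cub_conj (fun i => h8 _) _
        · exact cub_conj (fun i => h8 _) _
    · apply mul_conj' (h8 _)
      rw [bil_equiv eV eW, bil_glue2]
      apply add_conj
      · apply add_conj
        · exact bil_conj (fun i => h8 _) (fun i => h8 _) _
        · exact bil_conj (fun i => h8 _) (fun i => h8 _) _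
      · exact mul_conj' (h8 _) (h8 _)
  · intro a ha
    have e1 : ((Ms F₁ G₁ F₂ G₂).relabel e).deg w a =
        dg2 (degA (dPP F₁ G₁ F₂ G₂)) (dU (1, -1)) a := by
      rw [Fock.relabel_deg]
      unfold Ms
      rw [prod_deg, prod_deg, prod_deg, prod_deg, prod_deg, prod_deg, dU_one, dU_one, dU_one]
      rfl
    rw [← e1, ha]
    ext
    · push_cast; ring
    · push_cast; ring

end Main

end Pool.Agent.GC
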