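import Mathlib

/-! Definitions used in the statement: Hilbert series of an exterior algebra modulo a form. -/

namespace Pool.Agent.GC

open Polynomial

/-- The two-sided ideal of the `K`-algebra `A` generated by `f`, as a subspace of `A`. -/
noncomputable def idl2 (K A : Type*) [Field K] [Ring A] [Algebra K A] (f : A) : Submodule K A :=
  (TwoSidedIdeal.asIdeal (TwoSidedIdeal.span {f})).restrictScalars K

/-- The dimension of the image of the subspace `W` in the quotient space `A / I`. -/
noncomputable def qdim (K A : Type*) [Field K] [AddCommGroup A] [Module K A]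
    (W I : Submodule K A) : ℕ :=
  Module.finrank K (W.map I.mkQ)

/-- The dimension of the degree `i` part of `⋀ V / (f)`: the dimension of the image of `⋀^i V`
in the quotient. -/
noncomputable def hfun (K V : Type*) [Field K] [AddCommGroup V] [Module K V]
    (f : ExteriorAlgebra K V) (i : ℕ) : ℕ :=
  qdim K (ExteriorAlgebra K V) (⋀[K]^i V) (idl2 K (ExteriorAlgebra K V) f)

/-- The Hilbert series of `⋀ V / (f)`, when `V` has dimension `n`. -/
noncomputable def hser (K V : Type*) [Field K] [AddCommGroup V] [Module K V] (n : ℕ)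
    (f : ExteriorAlgebra K V) : ℤ[X] :=
  ∑ i ∈ Finset.range (n + 1), C (hfun K V f i : ℤ) * X ^ i

/-- The product `e i ∧ e j ∧ e k` for a 3-element subset `s = {i < j < k}`. -/
noncomputable def mono (K V : Type*) [Field K] [AddCommGroup V] [Module K V] {n : ℕ}
    (e : Fin n → V) (s : Set.powersetCard (Fin n) 3) : ExteriorAlgebra K V :=
  ExteriorAlgebra.ιMulti_family K 3 e s

/-- The cubic form `∑ c_{ijk} e i ∧ e j ∧ e k`, the sum over all `i < j < k`. -/
noncomputable def cubic (K V : Type*) [Field K] [AddCommGroup V] [Module K V] {n : ℕ}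
    (e : Fin n → V) (c : Set.powersetCard (Fin n) 3 → K) : ExteriorAlgebra K V :=
  ∑ s, c s • mono K V e s

/-- The polynomial `L_n`; for `n = 4k + j` with `j = 0, 2, 3` (the value for `j = 1` is
not used). -/
noncomputable def LL (n : ℕ) : ℤ[X] :=
  match n % 4 with
  | 0 => (1 + X) ^ 2 * (3 * X) ^ (2 * (n / 4) - 1)
  | 2 => (1 + X) ^ 2 * (3 * X) ^ (2 * (n / 4))
  | 3 => (1 + X) * (3 * X) ^ (2 * (n / 4) + 1)
  | _ => 0

end Pool.Agent.GC
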