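import Mathlib

/-! Definition used in the statement: the polynomial `L_n`, with one parameter for
`n = 4 k + 1`. -/

namespace Pool.Agent.GC

open Polynomial

/-- The polynomial `L_n` for `n = 4 k + j`. For `j = 0, 2, 3` it does not depend on `c`; for
`j = 1` it is `c t^(2k-1) (1 + t^3) + 3^(2k) t^(2k) (1 + t)`. -/
noncomputable def LLc (c n : ℕ) : ℤ[X] :=
  match n % 4 with
  | 0 => (1 + X) ^ 2 * (3 * X) ^ (2 * (n / 4) - 1)
  | 1 => C (c : ℤ) * X ^ (2 * (n / 4) - 1) * (1 + X ^ 3) + (3 * X) ^ (2 * (n / 4)) * (1 + X)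
  | 2 => (1 + X) ^ 2 * (3 * X) ^ (2 * (n / 4))
  | _ => (1 + X) * (3 * X) ^ (2 * (n / 4) + 1)

end Pool.Agent.GC
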