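import Pool.Agent.GC.Nchk

/-! Numerical contraction data for the complex of a cubic form over `ZMod 7`. -/

set_option linter.unusedSectionVars false
set_option linter.unusedSimpArgs false
set_option linter.unusedVariables false

namespace Pool.Agent.GC

open Matrix

/-- data of a contraction -/
structure Dat where
  n : ℕ
  fl : FL
  lo : ℕ
  hi : ℕ
  r : ℕ → ℕ
  hC : ℕ → SV
  iC : ℕ → ℕ → SV
  p0 : ℕ → SV

namespace Dat

variable (D : Dat)

/-- projection columns in degree `t` -/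
def pC (t m : ℕ) : SV := bif Nat.beq (bel m D.n) t then D.p0 m else []

/-- the differential -/
noncomputable def E : Matrix (Finset (Fin D.n)) (Finset (Fin D.n)) (ZMod 7) :=
  cub (St (ZMod 7) D.n).x (cof D.n D.fl)

noncomputable def h : Matrix (Finset (Fin D.n)) (Finset (Fin D.n)) (ZMod 7) :=
  (bJ D.n).mat (bJ D.n) D.hC

noncomputable def i (t : ℕ) : Matrix (Finset (Fin D.n)) (Fin (D.r t)) (ZMod 7) :=
  (bJ D.n).mat (bF (D.r t)) (D.iC t)

noncomputable def p (t : ℕ) : Matrix (Fin (D.r t)) (Finset (Fin D.n)) (ZMod 7) :=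
  (bF (D.r t)).mat (bJ D.n) (D.pC t)

noncomputable def pi : Matrix (Finset (Fin D.n)) (Finset (Fin D.n)) (ZMod 7) :=
  1 - (D.E * D.h + D.h * D.E)

/-- contraction identity -/
def c1 (m : ℕ) : Bool :=
  bif Nat.blt D.hi (bel m D.n) then true else
    zL (Nat.pow 2 D.n) (bindS (colE D.fl) (D.hC m) ++
      (bindS (gd (Nat.pow 2 D.n) D.hC) (colE D.fl m) ++
      ((bif Nat.blt (bel m D.n) D.lo then [] else
        bindS (gd (D.r (bel m D.n)) (D.iC (bel m D.n))) (D.pC (bel m D.n) m)) ++ [(m, 6)])))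

/-- the projection vanishes on boundaries -/
def c2 (t m : ℕ) : Bool :=
  zL (D.r t) (bindS (gd (Nat.pow 2 D.n) (D.pC t)) (colE D.fl m))

/-- the homotopy has degree `-3` -/
def c4 (m : ℕ) : Bool := (D.hC m).all fun t => Nat.blt t.1 (Nat.pow 2 D.n) &&
  Nat.beq (Nat.add (bel t.1 D.n) 3) (bel m D.n)

variable {D}

theorem E_lin (L : SV) : D.E *ᵥ lin (bJ D.n).g L = lin (bJ D.n).g (bindS (colE D.fl) L) :=
  colE_lin D.fl L

theorem E_g (m : ℕ) : D.E *ᵥ (bJ D.n).g m = lin (bJ D.n).g (colE D.fl m) := colE_g D.fl m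

theorem gd_of_lt {s m : ℕ} (h : m < s) (col : ℕ → SV) : gd s col m = col m := by
  unfold gd
  rw [blt_true h, cond_true]

theorem key1 (hc : ∀ m < Nat.pow 2 D.n, D.c1 m = true) (b : Finset (Fin D.n)) (hb : b.card ≤ D.hi) :
    D.pi *ᵥ (bJ D.n).g ((bJ D.n).idx b) = lin (bJ D.n).g
      (bif Nat.blt b.card D.lo then [] else
        bindS (gd (D.r b.card) (D.iC b.card)) (D.pC b.card ((bJ D.n).idx b))) := by
  set m := (bJ D.n).idx b with hm
  have hlt : m < 2 ^ D.n := (bJ D.n).idx_lt b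
  have h1 := hc m hlt
  unfold c1 at h1
  rw [← card_idx b] at h1
  rw [blt_false (by omega), cond_false] at h1
  have h2 := lin_zero h1 (bJ D.n).g
  rw [lin_append, lin_append, lin_append] at h2
  have e1 : lin (bJ D.n).g (bindS (colE D.fl) (D.hC m)) = D.E *ᵥ (D.h *ᵥ (bJ D.n).g m) := by
    unfold h
    rw [Bas.mat_g]
    have : gd (bJ D.n).sz D.hC m = D.hC m := gd_of_lt hlt _
    rw [this, E_lin]
  have e2 : lin (bJ D.n).g (bindS (gd (Nat.pow 2 D.n) D.hC) (colE D.fl m)) =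
      D.h *ᵥ (D.E *ᵥ (bJ D.n).g m) := by
    rw [E_g]
    unfold h
    rw [Bas.mat_lin]
    rfl
  have e3 : lin (bJ D.n).g [(m, 6)] = -(bJ D.n).g m := by
    simp only [lin, add_zero]
    have : ((6 : ℕ) : ZMod 7) = -1 := by decide
    rw [this, neg_smul, one_smul]
  rw [e1, e2, e3] at h2
  unfold pi
  rw [Matrix.sub_mulVec, Matrix.add_mulVec, Matrix.one_mulVec, ← Matrix.mulVec_mulVec,
    ← Matrix.mulVec_mulVec]
  rw [← sub_eq_zero]
  rw [← neg_eq_zero, ← h2]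
  abel

theorem pi_lo (hc : ∀ m < Nat.pow 2 D.n, D.c1 m = true) {b : Finset (Fin D.n)}
    (hb : b.card < D.lo) (hb' : b.card ≤ D.hi) (a : Finset (Fin D.n)) : D.pi a b = 0 := by
  have h1 := key1 hc b hb'
  rw [blt_true hb, cond_true] at h1
  have h2 := Bas.col_eq (bJ D.n) (M := D.pi) (N := 0) (b := b) (by
    rw [h1, Matrix.zero_mulVec]; rfl) a
  exact h2

theorem pi_eq (hc : ∀ m < Nat.pow 2 D.n, D.c1 m = true) {b : Finset (Fin D.n)}
    (hb : ¬ b.card < D.lo) (hb' : b.card ≤ D.hi) (a : Finset (Fin D.n)) :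
    D.pi a b = (D.i b.card * D.p b.card) a b := by
  have h1 := key1 hc b hb'
  rw [blt_false hb, cond_false] at h1
  refine Bas.col_eq (bJ D.n) (M := D.pi) (N := D.i b.card * D.p b.card) (b := b) ?_ a
  rw [h1, ← Matrix.mulVec_mulVec]
  unfold i p
  rw [Bas.mat_g, Bas.mat_lin]
  have : gd (bJ D.n).sz (D.pC b.card) ((bJ D.n).idx b) = D.pC b.card ((bJ D.n).idx b) :=
    gd_of_lt ((bJ D.n).idx_lt b) _
  rw [this]
  rfl

theorem p_E {t : ℕ} (hc : ∀ m < Nat.pow 2 D.n, D.c2 t m = true) : D.p t * D.E = 0 := by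
  ext a b
  apply Bas.col_eq (bJ D.n)
  rw [← Matrix.mulVec_mulVec, E_g, Matrix.zero_mulVec]
  unfold p
  rw [Bas.mat_lin]
  exact lin_zero (hc _ ((bJ D.n).idx_lt b)) _

theorem p_supp {t : ℕ} {a : Fin (D.r t)} {b : Finset (Fin D.n)} (h : D.p t a b ≠ 0) :
    b.card = t := by
  by_contra hc
  apply h
  show lin (bF (D.r t)).g (D.pC t ((bJ D.n).idx b)) a = 0
  unfold pC
  rw [← card_idx b]
  have : Nat.beq b.card t = false := by
    rw [Bool.eq_false_iff, Ne, Nat.beq_eq]; exact hc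
  rw [this]
  rfl

theorem lin_supp {n : ℕ} {L : SV} {a : Finset (Fin n)} (h : lin (bJ n).g L a ≠ 0) :
    ∃ t ∈ L, (bJ n).g t.1 a ≠ 0 := by
  induction L with
  | nil => exact absurd rfl h
  | cons t L ih =>
    by_cases h1 : (bJ n).g t.1 a = 0
    · have h2 : lin (bJ n).g L a ≠ 0 := by
        intro h3
        apply h
        simp only [lin, Pi.add_apply, Pi.smul_apply, h1, h3, smul_zero, add_zero]
      obtain ⟨u, hu, hu'⟩ := ih h2
      exact ⟨u, List.mem_cons_of_mem _ hu, hu'⟩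
    · exact ⟨t, List.mem_cons_self, h1⟩

theorem h_supp (hc : ∀ m < Nat.pow 2 D.n, D.c4 m = true) {a b : Finset (Fin D.n)}
    (h : D.h a b ≠ 0) : a.card + 3 = b.card := by
  have h' : lin (bJ D.n).g (D.hC ((bJ D.n).idx b)) a ≠ 0 := h
  obtain ⟨t, ht, ht'⟩ := lin_supp h'
  have h1 := hc _ ((bJ D.n).idx_lt b)
  unfold c4 at h1
  rw [List.all_eq_true] at h1
  have h2 := h1 t ht
  rw [Bool.and_eq_true, Nat.blt_eq] at h2
  have h3 := Nat.eq_of_beq_eq_true h2.2
  have h4 : t.1 < 2 ^ D.n := h2.1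
  rw [bJ_g h4] at ht'
  have h5 : a = fs D.n t.1 := by
    by_contra h6
    exact ht' (by simp [Pi.single_apply, h6])
  rw [h5, card_fs, card_idx b]
  exact h3

theorem h_hm (hc : ∀ m < Nat.pow 2 D.n, D.c4 m = true) :
    Hm ((St (ZMod 7) D.n).deg 1) (-(3, 0)) D.h := by
  intro a b hab
  have h1 := h_supp hc hab
  have h2 : ((St (ZMod 7) D.n).deg 1 a) = ((a.card : ℤ), ((a.card : ℕ) : ZMod 3)) := by
    unfold Fock.deg
    ext
    · rfl
    · simp [Fock.std]
  have h3 : ((St (ZMod 7) D.n).deg 1 b) = ((b.card : ℤ), ((b.card : ℕ) : ZMod 3)) := by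
    unfold Fock.deg
    ext
    · rfl
    · simp [Fock.std]
  rw [h2, h3, ← h1]
  ext
  · simp
  · push_cast
    have : (3 : ZMod 3) = 0 := by decide
    simp [this]

/-- check of a table for `p X i` -/
def c3 (D : Dat) (oc : SV → SV) (t t' : ℕ) (Y : ℕ → SV) (e : ℕ) : Bool :=
  zL (D.r t') (bindS (gd (Nat.pow 2 D.n) (D.pC t')) (oc (D.iC t e)) ++ sc 6 (Y e))

theorem p_op_i {oc : SV → SV} {X : Matrix (Finset (Fin D.n)) (Finset (Fin D.n)) (ZMod 7)}
    (hX : ∀ L, X *ᵥ lin (bJ D.n).g L = lin (bJ D.n).g (oc L)) {t t' : ℕ} {Y : ℕ → SV}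
    (hc : ∀ e < D.r t, D.c3 oc t t' Y e = true) :
    D.p t' * X * D.i t = (bF (D.r t')).mat (bF (D.r t)) Y := by
  ext a b
  apply Bas.col_eq (bF (D.r t))
  have hlt : (bF (D.r t)).idx b < D.r t := (bF (D.r t)).idx_lt b
  have h1 := hc _ hlt
  unfold c3 at h1
  have h2 := lin_zero h1 (bF (D.r t')).g
  rw [lin_append, lin_sc] at h2
  rw [Bas.mat_g, ← Matrix.mulVec_mulVec, ← Matrix.mulVec_mulVec]
  unfold i p
  rw [Bas.mat_g]
  have e1 : gd (bF (D.r t)).sz (D.iC t) ((bF (D.r t)).idx b) = D.iC t ((bF (D.r t)).idx b) :=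
    gd_of_lt hlt _
  have e2 : gd (bF (D.r t)).sz Y ((bF (D.r t)).idx b) = Y ((bF (D.r t)).idx b) :=
    gd_of_lt hlt _
  rw [e1, e2, hX, Bas.mat_lin]
  have e3 : ((6 : ℕ) : ZMod 7) = -1 := by decide
  rw [e3, neg_smul, one_smul] at h2
  exact eq_of_sub_eq_zero (by rw [sub_eq_add_neg]; exact h2)

end Dat

end Pool.Agent.GC
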