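import Pool.Agent.GC.SDefs2
import Pool.Agent.GC.OneMod
import Pool.Agent.GC.Fin2

/-! The generic Hilbert series for all `n`, up to one odd parameter for `n = 4 k + 1`. -/

namespace Pool.Agent.GC

open Polynomial

theorem LLc_eq (c n : ℕ) (h : n % 4 ≠ 1) : LLc c n = LL n := by
  have h1 : n % 4 = 0 ∨ n % 4 = 2 ∨ n % 4 = 3 := by omega
  unfold LLc LL
  rcases h1 with h1 | h1 | h1
  · rw [h1]; rfl
  · rw [h1]; rfl
  · rw [h1]; rfl

theorem ef_one (K : Type*) [Field K] : Ef K 1 0 := by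
  refine ⟨0, ?_⟩
  intro v hv _
  refine ⟨0, ?_⟩
  rw [Matrix.mulVec_zero]
  funext a
  by_contra h3
  have := hv a (fun h => h3 h.symm)
  change ((a.card : ℤ)) < ((0 : ℕ) : ℤ) at this
  omega

theorem series_all (K : Type*) [Field K] [CharZero K] (hC : ∀ q, 1 ≤ q → CC K q) (n : ℕ)
    (hn : 3 ≤ n) :
    ∃ c : ℕ, Odd c ∧ ∃ P : MvPolynomial (Set.powersetCard (Fin n) 3) K, P ≠ 0 ∧
      ∀ f : ⋀[K]^3 (Fin n → K), MvPolynomial.eval (cf K n f) P ≠ 0 →
        hs K n f * (1 + X ^ 3) = (1 + X) ^ n + X ^ 3 * LLc c n := by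
  by_cases h : n % 4 = 1
  · obtain ⟨k, rfl⟩ : ∃ k, n = 4 * k + 1 := ⟨n / 4, by omega⟩
    have hk : 1 ≤ k := by omega
    have h2 : (2 : K) ≠ 0 := two_ne_zero
    have h1 : Ef K (4 * k - 1) (2 * k - 1) := by
      obtain ⟨σ, hσ⟩ := hC k hk
      rw [dc_eq] at hσ
      refine ⟨σ, hσ.mono ?_⟩
      intro x hx
      omega
    have h3 := (h1.add h2 (ef_one K)).add h2 (ef_one K)
    have e : 4 * k - 1 + 1 + 1 = 4 * k + 1 := by omega
    rw [e, add_zero, add_zero] at h3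
    obtain ⟨c, hc, P, hP, h4⟩ := one_mod h2 hk h3
    refine ⟨c, hc, P, hP, ?_⟩
    intro f hf
    rw [h4 f hf]
    have e1 : (4 * k + 1) % 4 = 1 := by omega
    have e2 : (4 * k + 1) / 4 = k := by omega
    unfold LLc
    rw [e1, e2]
    rfl
  · refine ⟨1, odd_one, ?_⟩
    rw [LLc_eq 1 n h]
    exact generic_hilbert two_ne_zero hC hn h

end Pool.Agent.GC
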