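import Pool.Agent.GC.Hilb

/-! The rank of the middle map is even for `n = 4 k + 1`. -/

set_option linter.unusedSectionVars false
set_option linter.unusedSimpArgs false
set_option linter.unusedVariables false

namespace Pool.Agent.GC

open Matrix

section Skew

variable {K : Type*} [Field K] {I : Type*} [Fintype I] [DecidableEq I]

/-- a skew-symmetric matrix of odd size is singular -/
theorem det_skew_odd (h2 : (2 : K) ≠ 0) {r : ℕ} (G : Matrix (Fin r) (Fin r) K) (hG : Gᵀ = -G)
    (hr : Odd r) : G.det = 0 := by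
  have h1 : G.det = (-G).det := by rw [← hG, Matrix.det_transpose]
  rw [Matrix.det_neg, Fintype.card_fin, hr.neg_one_pow, neg_one_mul] at h1
  have h3 : (2 : K) * G.det = 0 := by
    rw [two_mul]
    nth_rewrite 1 [h1]
    simp
  exact (mul_eq_zero.mp h3).resolve_left h2

/-- the rank of a skew-symmetric matrix is even -/
theorem even_rank_of_skew (h2 : (2 : K) ≠ 0) (N : Matrix I I K) (hN : Nᵀ = -N) :
    Even (Module.finrank K (LinearMap.range N.mulVecLin)) := by
  set r := Module.finrank K (LinearMap.range N.mulVecLin) with hr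
  by_contra hodd
  rw [Nat.not_even_iff_odd] at hodd
  let b : Module.Basis (Fin r) K (LinearMap.range N.mulVecLin) := Module.finBasisOfFinrankEq K _ hr.symm
  have hb : ∀ i, ∃ v : I → K, N *ᵥ v = (b i : I → K) := by
    intro i
    obtain ⟨v, hv⟩ := (b i).2
    exact ⟨v, hv⟩
  choose v hv using hb
  have hskew : ∀ u w : I → K, u ⬝ᵥ N *ᵥ w = -(w ⬝ᵥ N *ᵥ u) := by
    intro u w
    rw [Matrix.dotProduct_mulVec, ← Matrix.mulVec_transpose, hN, Matrix.neg_mulVec,
      neg_dotProduct, dotProduct_comm]
  let G : Matrix (Fin r) (Fin r) K := Matrix.of fun i j => v i ⬝ᵥ N *ᵥ v j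
  have hG : Gᵀ = -G := by
    ext i j
    simp only [G, Matrix.transpose_apply, Matrix.neg_apply, Matrix.of_apply]
    exact hskew _ _
  have h0 := det_skew_odd h2 G hG hodd
  obtain ⟨x, hx, hGx⟩ := Matrix.exists_mulVec_eq_zero_iff.mpr h0
  apply hx
  -- the vector in the radical
  let w : I → K := ∑ j, x j • v j
  have hNw : N *ᵥ w = ∑ j, x j • (b j : I → K) := by
    simp only [w, Matrix.mulVec_sum, Matrix.mulVec_smul, hv]
  have h3 : ∀ i, v i ⬝ᵥ N *ᵥ w = 0 := by
    intro i
    have h4 := congrFun hGx i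
    simp only [Matrix.mulVec, dotProduct, G, Matrix.of_apply, Pi.zero_apply] at h4
    rw [hNw]
    simp only [← hv]
    rw [dotProduct_sum]
    simp only [dotProduct_smul, smul_eq_mul]
    rw [← h4]
    refine Finset.sum_congr rfl fun j _ => ?_
    rw [mul_comm]
    rfl
  have h5 : N *ᵥ w = 0 := by
    funext a
    have h6 : N *ᵥ (Pi.single a 1) ∈ LinearMap.range N.mulVecLin := ⟨_, rfl⟩
    have h7 := b.sum_repr ⟨_, h6⟩
    have h8 : N *ᵥ (Pi.single a 1) = ∑ j, b.repr ⟨_, h6⟩ j • (b j : I → K) := by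
      have := congrArg (Subtype.val) h7
      simp only [Submodule.coe_sum, Submodule.coe_smul] at this
      exact this.symm
    have h9 : (Pi.single a (1 : K)) ⬝ᵥ N *ᵥ w = (N *ᵥ w) a := by
      rw [single_one_dotProduct]
    rw [← h9, hskew, h8, dotProduct_sum]
    simp only [dotProduct_smul, ← hv]
    rw [Finset.sum_eq_zero]
    · simp
    · intro j _
      rw [hskew w (v j), h3 j]
      simp
  rw [hNw] at h5
  have h10 : ∑ j, x j • b j = 0 := by
    apply Subtype.ext
    simpa using h5
  funext j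
  exact (Fintype.linearIndependent_iff.mp b.linearIndependent) x h10 j

end Skew

section Star

variable {K : Type*} [Field K] {k : ℕ}

theorem below_univ {n : ℕ} (i : Fin n) : Fock.below (Finset.univ : Finset (Fin n)) i = i.val := by
  unfold Fock.below
  rw [show (Finset.univ.filter (· < i)) = Finset.Iio i by ext j; simp]
  exact Fin.card_Iio i

theorem prod_sign (K : Type*) [Field K] (k : ℕ) :
    ∏ i : Fin (4 * k + 1), (-1 : K) ^ (i.val) = 1 := by
  rw [Fin.prod_univ_eq_prod_range (fun i => (-1 : K) ^ i), Finset.prod_pow_eq_pow_sum]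
  have h := Finset.sum_range_id_mul_two (4 * k + 1)
  have h1 : ∑ i ∈ Finset.range (4 * k + 1), i = 2 * ((4 * k + 1) * k) := by
    have : (4 * k + 1 - 1) = 4 * k := by omega
    rw [this] at h
    nlinarith
  rw [h1, pow_mul]
  simp

theorem sJ_compl (a : Finset (Fin (4 * k + 1))) : sJ K aᶜ = sJ K a := by
  have h1 : sJ K a * sJ K aᶜ = 1 := by
    unfold sJ
    rw [Finset.prod_mul_prod_compl]
    simp only [below_univ]
    exact prod_sign K k
  have h2 := sJ_sq (K := K) a
  calc sJ K aᶜ = (sJ K a * sJ K a) * sJ K aᶜ := by rw [h2, one_mul]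
    _ = sJ K a * (sJ K a * sJ K aᶜ) := by ring
    _ = sJ K a := by rw [h1, mul_one]

theorem JJ_symm : (JJ K (Fin (4 * k + 1)))ᵀ = JJ K (Fin (4 * k + 1)) := by
  ext a b
  simp only [JJ, Matrix.transpose_apply, Matrix.of_apply]
  by_cases h : b = aᶜ
  · have h' : a = bᶜ := by rw [h, compl_compl]
    rw [if_pos h, if_pos h', h, sJ_compl]
  · have h' : a ≠ bᶜ := fun h1 => h (by rw [h1, compl_compl])
    rw [if_neg h, if_neg h']

/-- the projection to the degree `m` -/
def DD1 (K : Type*) [Field K] (n m : ℕ) : Matrix (Finset (Fin n)) (Finset (Fin n)) K :=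
  Matrix.diagonal fun S => if S.card = m then 1 else 0

theorem bb_mid_even (h2 : (2 : K) ≠ 0) (hk : 1 ≤ k)
    {f : ExteriorAlgebra K (Fin (4 * k + 1) → K)} (hf : f ∈ ⋀[K]^3 (Fin (4 * k + 1) → K)) :
    Even (bb K (4 * k + 1) f (2 * k - 1 + 3)) := by
  obtain ⟨c, hc⟩ := exists_tensor h2 hf
  set M := rho h2 (4 * k + 1) f with hM
  have hm : Hm (dc (4 * k + 1)) (3, 0) M := hm_rho h2 hf
  have hst : Mᵀ * JJ K (Fin (4 * k + 1)) = -(JJ K (Fin (4 * k + 1)) * M) := by
    rw [hc]; exact cub_star c
  let D := DD1 K (4 * k + 1) (2 * k - 1)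
  let N := JJ K (Fin (4 * k + 1)) * M * D
  have hDT : Dᵀ = D := Matrix.diagonal_transpose _
  have hcomm : D * (JJ K (Fin (4 * k + 1)) * M) = JJ K (Fin (4 * k + 1)) * M * D := by
    ext a b
    simp only [D, DD1]
    rw [Matrix.diagonal_mul, Matrix.mul_diagonal]
    by_cases h0 : (JJ K (Fin (4 * k + 1)) * M) a b = 0
    · rw [h0]; ring
    · have h3 : M aᶜ b ≠ 0 := by
        intro h4
        apply h0
        rw [Matrix.mul_apply, Finset.sum_eq_single aᶜ]
        · rw [h4, mul_zero]
        · intro c _ hc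
          simp [JJ, hc]
        · simp
      have h5 := congrArg Prod.fst (hm _ _ h3)
      simp only [dc, Prod.fst_add] at h5
      rw [Finset.card_compl, Fintype.card_fin] at h5
      have h6 := Finset.card_le_univ a
      rw [Fintype.card_fin] at h6
      have h7 : (a.card = 2 * k - 1) ↔ (b.card = 2 * k - 1) := by omega
      by_cases h8 : b.card = 2 * k - 1
      · rw [if_pos h8, if_pos (h7.mpr h8)]; ring
      · rw [if_neg h8, if_neg (fun h => h8 (h7.mp h))]; ring
  have hN : Nᵀ = -N := by
    simp only [N]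
    rw [Matrix.transpose_mul, Matrix.transpose_mul, JJ_symm, hDT, hst, mul_neg, hcomm]
  have hev := even_rank_of_skew h2 N hN
  have e1 : bb K (4 * k + 1) f (2 * k - 1 + 3) =
      Module.finrank K (LinearMap.range N.mulVecLin) := by
    unfold bb
    rw [← map_mf h2 hf]
    -- transport by `EE`
    have h3 : Module.finrank K ((Lk K (4 * k + 1) (2 * k - 1)).map (mf f)) =
        Module.finrank K (((Lk K (4 * k + 1) (2 * k - 1)).map (mf f)).map
          ((EE K (4 * k + 1)).toLinearMap)) :=
      (LinearEquiv.finrank_map_eq (EE K (4 * k + 1)) _).symm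
    rw [h3]
    have h4 : ((Lk K (4 * k + 1) (2 * k - 1)).map (mf f)).map ((EE K (4 * k + 1)).toLinearMap) =
        LinearMap.range (M * D).mulVecLin := by
      ext x
      constructor
      · rintro ⟨_, ⟨y, hy, rfl⟩, rfl⟩
        refine ⟨EE K _ y, ?_⟩
        rw [Matrix.mulVecLin_apply, mf_apply, LinearEquiv.coe_coe, EE_mul h2,
          ← Matrix.mulVec_mulVec]
        congr 1
        rw [SetLike.mem_coe, mem_ext_iff] at hy
        funext S
        simp only [D, DD1]
        rw [Matrix.mulVec_diagonal]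
        by_cases h5 : S.card = 2 * k - 1
        · rw [if_pos h5, one_mul]
        · rw [if_neg h5, zero_mul]
          by_contra h6
          exact h5 (hy S (fun h => h6 h.symm))
      · rintro ⟨w, rfl⟩
        refine ⟨f * (EE K _).symm (D *ᵥ w), ⟨(EE K _).symm (D *ᵥ w), ?_, rfl⟩, ?_⟩
        · rw [SetLike.mem_coe, mem_ext_iff]
          intro S hS
          rw [LinearEquiv.apply_symm_apply] at hS
          simp only [D, DD1] at hS
          rw [Matrix.mulVec_diagonal] at hS
          by_contra h5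
          rw [if_neg h5, zero_mul] at hS
          exact hS rfl
        · rw [LinearEquiv.coe_coe, EE_mul h2, LinearEquiv.apply_symm_apply,
            Matrix.mulVecLin_apply, Matrix.mulVec_mulVec]
    rw [h4]
    have h5 : N.mulVecLin = (JJ K (Fin (4 * k + 1))).mulVecLin ∘ₗ (M * D).mulVecLin := by
      rw [← Matrix.mulVecLin_mul]
      simp only [N, Matrix.mul_assoc]
    rw [h5, LinearMap.range_comp]
    have hinj : Function.Injective (JJ K (Fin (4 * k + 1))).mulVecLin := by
      intro x y hxy
      have h6 : JJ' K _ *ᵥ (JJ K (Fin (4 * k + 1)) *ᵥ x) =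
        JJ' K _ *ᵥ (JJ K (Fin (4 * k + 1)) *ᵥ y) := congrArg _ hxy
      rw [Matrix.mulVec_mulVec, Matrix.mulVec_mulVec, JJ_mul', Matrix.one_mulVec,
        Matrix.one_mulVec] at h6
      exact h6
    exact (LinearEquiv.finrank_eq (Submodule.equivMapOfInjective _ hinj _))
  rw [e1]
  exact hev

end Star

end Pool.Agent.GC
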