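import Pool.Agent.GC.Forms

/-! The inductive steps. -/

set_option linter.unusedSectionVars false
set_option linter.unusedSimpArgs false
set_option linter.unusedVariables false

namespace Pool.Agent.GC

open Matrix

section Pair

variable {K : Type*} [Field K] {ι κ : Type*} [DecidableEq ι] [DecidableEq κ] [Fintype ι] [Fintype κ]
  {I J : Type*} [Fintype I] [DecidableEq I] [Fintype J] [DecidableEq J]

theorem dU_one (w : Unit → ZMod 3) : (Fock.one K).deg w = dU (1, w ()) := by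
  funext b
  unfold Fock.deg Fock.one dU
  cases b <;> simp

theorem prod_deg (F : Fock K ι I) (G : Fock K κ J) (w : ι ⊕ κ → ZMod 3) :
    (F.prod G).deg w = dg2 (F.deg (fun i => w (.inl i))) (G.deg (fun j => w (.inr j))) := by
  funext ⟨a, b⟩
  unfold Fock.deg dg2 Fock.prod Fock.sumEquiv
  ext
  · simp
  · simp [Finset.sum_disjSum]

/-- degrees on the pair -/
def dP (F : Fock K ι I) (G : Fock K κ J) : I × J → Gr := dg2 (F.deg 1) (G.deg 0)

/-- the operator `σ + τ` -/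
def Dd (F : Fock K ι I) (G : Fock K κ J) (σ : ι → ι → ι → K) (τ : κ → κ → κ → K) :
    Matrix (I × J) (I × J) K := dten (F.deg 1) (cub F.x σ) (cub G.x τ)

/-- the operator of a bilinear form -/
def Tt (F : Fock K ι I) (G : Fock K κ J) (T : ι → κ → K) : Matrix (I × J) (I × J) K :=
  bil (fun i => kr (F.x i) 1) (fun j => kr (sg K (F.deg 1)) (G.x j)) T

/-- the operator `σ + τ + u T` -/
def FF (F : Fock K ι I) (G : Fock K κ J) (σ : ι → ι → ι → K) (τ : κ → κ → κ → K) (T : ι → κ → K) :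
    Matrix ((I × J) × Bool) ((I × J) × Bool) K := cone (dP F G) (Dd F G σ τ) (Tt F G T)

/-- degrees on the pair with `u` -/
def dF (F : Fock K ι I) (G : Fock K κ J) : (I × J) × Bool → Gr := dg2 (dP F G) (dU (1, -1))

variable (F : Fock K ι I) (G : Fock K κ J) (σ : ι → ι → ι → K) (τ : κ → κ → κ → K) (T : ι → κ → K)

theorem hm_cubF : Hm (F.deg 1) (3, 0) (cub F.x σ) :=
  hm_cub (fun i => F.x_hm 1 i) σ (fun i j k => by simp only [Pi.one_apply]; decide)

theorem hm_cubG : Hm (G.deg 0) (3, 0) (cub G.x τ) :=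
  hm_cub (fun i => G.x_hm 0 i) τ (fun i j k => by simp only [Pi.zero_apply]; decide)

theorem hm_Dd : Hm (dP F G) (3, 0) (Dd F G σ τ) := (hm_cubF F σ).dten (hm_cubG G τ)

theorem hm_Tt : Hm (dP F G) (2, 1) (Tt F G T) := by
  have h : Hm (dP F G) (2, 1 + 0) (Tt F G T) := hm_bil (fun i => (F.x_hm 1 i).tl)
    (fun j => (G.x_hm 0 j).tr1) T
  simpa using h

theorem Dd_sq (h2 : (2 : K) ≠ 0) : Dd F G σ τ * Dd F G σ τ = 0 :=
  dten_sq (hm_cubF F σ) (by decide) (cub_sq h2 F.anti σ) (cub_sq h2 G.anti τ)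

theorem Dd_eq : Dd F G σ τ = cub (fun i => kr (F.x i) 1) σ +
    cub (fun j => kr (sg K (F.deg 1)) (G.x j)) τ := by
  rw [cub_kr_one, cub_kr_sg]; rfl

theorem xl_xl (i j : ι) : kr (F.x j) (1 : Matrix J J K) * kr (F.x i) 1 =
    -(kr (F.x i) 1 * kr (F.x j) 1) := by
  rw [kr_mul, kr_mul, F.anti j i, kr_neg_left]

theorem xl_xr (i : ι) (j : κ) : kr (F.x i) (1 : Matrix J J K) * kr (sg K (F.deg 1)) (G.x j) =
    -(kr (sg K (F.deg 1)) (G.x j) * kr (F.x i) 1) := by
  rw [kr_mul, kr_mul, (F.x_hm 1 i).odd (by simp), kr_neg_left, one_mul, mul_one]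

theorem xr_xr (i j : κ) : kr (sg K (F.deg 1)) (G.x j) * kr (sg K (F.deg 1)) (G.x i) =
    -(kr (sg K (F.deg 1)) (G.x i) * kr (sg K (F.deg 1)) (G.x j)) := by
  rw [kr_mul, kr_mul, G.anti j i, kr_neg_right]

theorem Dd_Tt : Dd F G σ τ * Tt F G T = Tt F G T * Dd F G σ τ := by
  rw [Dd_eq, Tt, add_mul, mul_add]
  congr 1
  · exact cub_bil_comm (fun i j => xl_xl F i j) (fun i j => by rw [xl_xr, neg_neg]) _ _
  · exact cub_bil_comm (fun i j => xl_xr F G j i) (fun i j => xr_xr F G i j) _ _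

theorem hm_FF : Hm (dF F G) (3, 0) (FF F G σ τ T) :=
  hm_cone (hm_Dd F G σ τ) (hm_Tt F G T) (by ext <;> simp)

theorem FF_sq (h2 : (2 : K) ≠ 0) : FF F G σ τ T * FF F G σ τ T = 0 :=
  cone_sq (by decide) (hm_Dd F G σ τ) (Dd_sq F G σ τ h2) (Dd_Tt F G σ τ T)

theorem FF_line (σ' : ι → ι → ι → K) (τ' : κ → κ → κ → K) (ε : K) :
    FF F G (σ + ε • σ') (τ + ε • τ') T = FF F G σ τ T + ε • kr (Dd F G σ' τ') 1 := by
  unfold FF cone Dd dten
  rw [cub_add, cub_smul, cub_add, cub_smul]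
  simp only [kr_add_left, kr_add_right, kr_smul_left, kr_smul_right, smul_add]
  abel

theorem sg_congr {I : Type*} [Fintype I] [DecidableEq I] {deg deg' : I → Gr}
    (h : ∀ a, (deg a).1 = (deg' a).1) : sg K deg = sg K deg' := by
  unfold sg
  congr 1
  funext a
  rw [h a]

theorem FF_prod : FF F G σ τ T =
    cub (fun i => ((F.prod G).prod (Fock.one K)).x (.inl (.inl i))) σ +
    cub (fun i => ((F.prod G).prod (Fock.one K)).x (.inl (.inr i))) τ +
    ((F.prod G).prod (Fock.one K)).x (.inr ()) *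
      bil (fun i => ((F.prod G).prod (Fock.one K)).x (.inl (.inl i)))
        (fun j => ((F.prod G).prod (Fock.one K)).x (.inl (.inr j))) T := by
  have e1 : (fun i => ((F.prod G).prod (Fock.one K)).x (.inl (.inl i))) =
      fun i => kr (kr (F.x i) (1 : Matrix J J K)) (1 : Matrix Bool Bool K) := rfl
  have e2 : (fun i => ((F.prod G).prod (Fock.one K)).x (.inl (.inr i))) =
      fun i => kr (kr (sg K (F.deg 1)) (G.x i)) (1 : Matrix Bool Bool K) := rfl
  have e3 : ((F.prod G).prod (Fock.one K)).x (.inr ()) = kr (sg K (dP F G)) (nn K) := by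
    have : sg K (dP F G) = sg K ((F.prod G).deg 0) := by
      apply sg_congr
      intro a
      rw [prod_deg]
      rfl
    rw [this]
    rfl
  rw [e1, e2, e3, cub_kr_one (fun i => kr (F.x i) (1 : Matrix J J K)),
    cub_kr_one (fun i => kr (sg K (F.deg 1)) (G.x i)), bil_kr_one, ← kr_add_left, ← Dd_eq, kr_mul,
    mul_one]
  rfl

theorem Q_left {l : ℤ} (h : Ex (F.deg 1) (cub F.x σ) (fun g => g.1 < l)) :
    Q (F.deg 1) (cub F.x σ) l (l : ZMod 3) := by
  intro v hv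
  apply h
  intro a ha
  have h1 : (F.deg 1 a).2 = ((F.deg 1 a).1 : ZMod 3) := by simp [Fock.deg]
  rcases hv a ha with h | ⟨h, h'⟩ | ⟨h, h'⟩
  · exact h
  · exact absurd (by rw [h1, h]) h'
  · rw [h1, h] at h'
    push_cast at h'
    have h3 := add_left_cancel h'
    exact absurd h3 (by decide)

theorem Q_right {l : ℤ} (h : Ex (G.deg 0) (cub G.x τ) (fun g => g.1 < l)) :
    Q (G.deg 0) (cub G.x τ) l 0 := by
  intro v hv
  apply h
  intro a ha
  have h1 : (G.deg 0 a).2 = 0 := by simp [Fock.deg]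
  rcases hv a ha with h | ⟨h, h'⟩ | ⟨h, h'⟩
  · exact h
  · exact absurd h1 h'
  · rw [h1] at h'
    exact absurd h' (by decide)

theorem Q_pair (h2 : (2 : K) ≠ 0) {l m : ℤ} (h : Ex (F.deg 1) (cub F.x σ) (fun g => g.1 < l))
    (h' : Ex (G.deg 0) (cub G.x τ) (fun g => g.1 < m)) :
    Q (dP F G) (Dd F G σ τ) (l + m) (l : ZMod 3) := by
  have := Q_prod (δ := (3, 0)) (by decide) (hm_cubF F σ) (cub_sq h2 F.anti σ) (hm_cubG G τ)
    (cub_sq h2 G.anti τ) (Q_left F σ h) (Q_right G τ h')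
  rw [add_zero] at this
  exact this

/-- from the sector exactness of `σ + τ + u T` to the injectivity of `T` -/
theorem hinj_of_FF {g : Gr} (h : Ex (dF F G) (FF F G σ τ T) (fun x => x = g)) :
    HInj (dP F G) (Dd F G σ τ) (Tt F G T) (fun x => x = g) :=
  hinj_of_cone (δ := (3, 0)) (τ := (2, 1)) (by decide) (hm_Dd F G σ τ) (hm_Tt F G T)
    (by ext <;> simp) h

/-- from the injectivity of `T` to the exactness of `σ + τ + u T` -/
theorem FF_ex (h2 : (2 : K) ≠ 0) {l m : ℤ} (h : Ex (F.deg 1) (cub F.x σ) (fun g => g.1 < l))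
    (h' : Ex (G.deg 0) (cub G.x τ) (fun g => g.1 < m))
    (hT : HInj (dP F G) (Dd F G σ τ) (Tt F G T) (fun x => x = (l + m, (l : ZMod 3)))) :
    Ex (dF F G) (FF F G σ τ T) (fun g => g.1 < l + m + 1) := by
  have hQ := Q_pair F G σ τ h2 h h'
  refine cone_ex (δ := (3, 0)) (τ := (2, 1)) (by decide) (hm_Dd F G σ τ) (hm_Tt F G T)
    (by ext <;> simp) (Dd_Tt F G σ τ T) ?_ ?_
  · apply hinj_of_forall (hm_Dd F G σ τ) (hm_Tt F G T)
    rintro ⟨t, c⟩ ht
    simp only at ht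
    by_cases h1 : t < l + m
    · exact (hQ.mono (fun x hx => Or.inl (by rw [hx]; exact h1))).hinj _
    · have h3 : t = l + m := by omega
      by_cases h4 : c = (l : ZMod 3)
      · rw [h3, h4]; exact hT
      · exact (hQ.mono (fun x hx => Or.inr (Or.inl (by rw [hx]; exact ⟨h3, h4⟩)))).hinj _
  · refine hQ.mono ?_
    intro x hx
    left
    simp only [Prod.fst_add] at hx
    omega

end Pair

section Defs

/-- standard model on `Fin n` -/
abbrev St (K : Type*) [Field K] (n : ℕ) : Fock K (Fin n) (Finset (Fin n)) := Fock.std K (Fin n)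

/-- there is a cubic form in `4q - 1` variables which is exact in the degrees below `2q - 1` -/
def CC (K : Type*) [Field K] (q : ℕ) : Prop :=
  ∃ σ : Fin (4 * q - 1) → Fin (4 * q - 1) → Fin (4 * q - 1) → K,
    Ex ((St K _).deg 0) (cub (St K _).x σ) (fun g => g.1 < 2 * q - 1)

/-- pairs of forms with a coupling that is injective on the lowest homology -/
def SS (K : Type*) [Field K] (x y : ℕ) : Prop :=
  ∃ (σ : Fin (4 * x - 1) → Fin (4 * x - 1) → Fin (4 * x - 1) → K)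
    (τ : Fin (4 * y - 1) → Fin (4 * y - 1) → Fin (4 * y - 1) → K)
    (T : Fin (4 * x - 1) → Fin (4 * y - 1) → K),
    Ex ((St K _).deg 1) (cub (St K _).x σ) (fun g => g.1 < 2 * x - 1) ∧
    Ex ((St K _).deg 0) (cub (St K _).x τ) (fun g => g.1 < 2 * y - 1) ∧
    HInj (dP (St K _) (St K _)) (Dd (St K _) (St K _) σ τ) (Tt (St K _) (St K _) T)
      (fun g => g = ((2 * x - 1 : ℤ) + (2 * y - 1 : ℤ), ((2 * x - 1 : ℤ) : ZMod 3)))

/-- the weaker property, exactness in one sector -/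
def GG (K : Type*) [Field K] (x y : ℕ) : Prop :=
  ∃ (σ : Fin (4 * x - 1) → Fin (4 * x - 1) → Fin (4 * x - 1) → K)
    (τ : Fin (4 * y - 1) → Fin (4 * y - 1) → Fin (4 * y - 1) → K)
    (T : Fin (4 * x - 1) → Fin (4 * y - 1) → K),
    Ex (dF (St K _) (St K _)) (FF (St K _) (St K _) σ τ T)
      (fun g => g = ((2 * x - 1 : ℤ) + (2 * y - 1 : ℤ), ((2 * x - 1 : ℤ) : ZMod 3)))

end Defs

section

variable {K : Type*} [Field K]

theorem ex_deg {I : Type*} [Fintype I] [DecidableEq I] {deg deg' : I → Gr} {P P' : Gr → Prop}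
    (h : ∀ a, P' (deg' a) → P (deg a)) {d : Matrix I I K} (hE : Ex deg d P) : Ex deg' d P' :=
  fun v hv hd => hE v (fun a ha => h a (hv a ha)) hd

theorem pert [Infinite K] (h2 : (2 : K) ≠ 0) {x y : ℕ} (hG : GG K x y) (hx : CC K x)
    (hy : CC K y) : SS K x y := by
  obtain ⟨σ₀, τ₀, T, hF⟩ := hG
  obtain ⟨σ₁, hσ⟩ := hx
  obtain ⟨τ₁, hτ⟩ := hy
  set F := St K (4 * x - 1)
  set G := St K (4 * y - 1)
  -- the three finite sets of bad parameters
  have b1 : {ε : K | ¬ Ex (dF F G) (FF F G (σ₀ + ε • (σ₁ - σ₀)) (τ₀ + ε • (τ₁ - τ₀)) T)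
      (fun g => g = ((2 * x - 1 : ℤ) + (2 * y - 1 : ℤ), ((2 * x - 1 : ℤ) : ZMod 3)))}.Finite := by
    have := ex_open (K := K) (deg := dF F G) (δ := (3, 0)) (A := FF F G σ₀ τ₀ T)
      (B := kr (Dd F G (σ₁ - σ₀) (τ₁ - τ₀)) 1) (hm_FF F G σ₀ τ₀ T)
      ((hm_Dd F G (σ₁ - σ₀) (τ₁ - τ₀)).tl) (by
        intro ε
        rw [← FF_line]
        exact FF_sq F G _ _ _ h2) (P := fun g => g = ((2 * x - 1 : ℤ) + (2 * y - 1 : ℤ),
          ((2 * x - 1 : ℤ) : ZMod 3))) 0 (by rw [zero_smul, add_zero]; exact hF)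
    simpa only [← FF_line] using this
  have b2 : {ε : K | ¬ Ex (F.deg 1) (cub F.x (σ₀ + ε • (σ₁ - σ₀)))
      (fun g => g.1 < 2 * x - 1)}.Finite := by
    have e1 : ∀ ε : K, cub F.x (σ₀ + ε • (σ₁ - σ₀)) = cub F.x σ₀ + ε • cub F.x (σ₁ - σ₀) := by
      intro ε; rw [cub_add, cub_smul]
    have := ex_open (K := K) (deg := F.deg 1) (δ := (3, 0)) (A := cub F.x σ₀)
      (B := cub F.x (σ₁ - σ₀)) (hm_cubF F _) (hm_cubF F _) (by
        intro ε
        rw [← e1]
        exact cub_sq h2 F.anti _) (P := fun g => g.1 < 2 * x - 1) 1 (by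
          rw [← e1, one_smul, add_sub_cancel]
          exact ex_deg (fun a h => h) hσ)
    simpa only [← e1] using this
  have b3 : {ε : K | ¬ Ex (G.deg 0) (cub G.x (τ₀ + ε • (τ₁ - τ₀)))
      (fun g => g.1 < 2 * y - 1)}.Finite := by
    have e1 : ∀ ε : K, cub G.x (τ₀ + ε • (τ₁ - τ₀)) = cub G.x τ₀ + ε • cub G.x (τ₁ - τ₀) := by
      intro ε; rw [cub_add, cub_smul]
    have := ex_open (K := K) (deg := G.deg 0) (δ := (3, 0)) (A := cub G.x τ₀)
      (B := cub G.x (τ₁ - τ₀)) (hm_cubG G _) (hm_cubG G _) (by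
        intro ε
        rw [← e1]
        exact cub_sq h2 G.anti _) (P := fun g => g.1 < 2 * y - 1) 1 (by
          rw [← e1, one_smul, add_sub_cancel]
          exact hτ)
    simpa only [← e1] using this
  obtain ⟨ε, hε⟩ := ((b1.union b2).union b3).infinite_compl.nonempty
  simp only [Set.mem_compl_iff, Set.mem_union, Set.mem_ofPred_eq, not_or, not_not] at hε
  exact ⟨_, _, T, hε.1.2, hε.2, hinj_of_FF F G _ _ T hε.1.1⟩

/-- the variables of the glued form -/
theorem ss_cc (h2 : (2 : K) ≠ 0) {x y : ℕ} (hx : 1 ≤ x) (hy : 1 ≤ y) (h : SS K x y) :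
    CC K (x + y) := by
  obtain ⟨σ, τ, T, hσ, hτ, hT⟩ := h
  set F := St K (4 * x - 1)
  set G := St K (4 * y - 1)
  have hE := FF_ex F G σ τ T h2 hσ hτ hT
  have e : (Fin (4 * x - 1) ⊕ Fin (4 * y - 1)) ⊕ Unit ≃ Fin (4 * (x + y) - 1) :=
    Fintype.equivFinOfCardEq (by simp; omega)
  obtain ⟨Φ, Ψ, h3, h4, h5, h6, h7⟩ := ((((F.prod G).prod (Fock.one K)).relabel e).transfer
    (St K (4 * (x + y) - 1)))
  refine ⟨fun i j k => glueT σ τ T (e.symm i) (e.symm j) (e.symm k), ?_⟩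
  refine ex_transfer (degI := ((((F.prod G).prod (Fock.one K)).relabel e).deg 0)) h3 h4 ?_ (d := FF F G σ τ T) ?_ ?_
  · intro a b hab
    unfold Fock.deg
    rw [h7 a b hab]
  · have h8 : ∀ k, Φ * ((F.prod G).prod (Fock.one K)).x k = (St K (4 * (x + y) - 1)).x (e k) * Φ := by
      intro k
      have := h5 (e k)
      simpa [Fock.relabel] using this
    rw [cub_equiv e, ← cub_conj h8, cub_glueT, FF_prod]
  · refine ex_deg ?_ hE
    intro a ha
    have e1 : (((((F.prod G).prod (Fock.one K)).relabel e).deg 0) a).1 = (dF F G a).1 := by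
      rw [Fock.relabel_deg, prod_deg, prod_deg, dU_one]
      obtain ⟨a, b⟩ := a
      cases b <;> rfl
    rw [← e1]
    push_cast at ha
    linarith

end

end Pool.Agent.GC
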