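import Pool.Agent.GC.Defs

/-! Calculus of the operators `M ⊗ 1`, `1 ⊗ N`, signs and homogeneity. -/

set_option linter.unusedSectionVars false
set_option linter.unusedSimpArgs false

namespace Pool.Agent.GC

open Matrix

section Abs

variable {K : Type*} [Field K] {I : Type*} [Fintype I] [DecidableEq I] {deg : I → Gr}

theorem sg_mul_sg : (sg K deg : Matrix I I K) * sg K deg = 1 := by
  unfold sg
  rw [Matrix.diagonal_mul_diagonal]
  have : (fun i : I => (-1 : K) ^ (deg i).1 * (-1 : K) ^ (deg i).1) = fun _ => 1 := by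
    funext i
    rw [← mul_zpow]; simp
  rw [this, Matrix.diagonal_one]

theorem Hm.odd {M : Matrix I I K} {δ : Gr} (h : Hm deg δ M) (hδ : Odd δ.1) :
    M * sg K deg = -(sg K deg * M) := by
  ext a b
  rw [Matrix.neg_apply]
  unfold sg
  rw [Matrix.mul_diagonal, Matrix.diagonal_mul]
  by_cases hab : M a b = 0
  · simp [hab]
  · rw [h a b hab, Prod.fst_add, zpow_add₀ (by simp), hδ.neg_one_zpow]
    ring

theorem Hm.even {M : Matrix I I K} {δ : Gr} (h : Hm deg δ M) (hδ : Even δ.1) :
    M * sg K deg = sg K deg * M := by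
  ext a b
  unfold sg
  rw [Matrix.mul_diagonal, Matrix.diagonal_mul]
  by_cases hab : M a b = 0
  · simp [hab]
  · rw [h a b hab, Prod.fst_add, zpow_add₀ (by simp), hδ.neg_one_zpow]
    ring

theorem Hm.zero {δ : Gr} : Hm deg δ (0 : Matrix I I K) := by
  intro a b h; simp at h

theorem Hm.one : Hm deg 0 (1 : Matrix I I K) := by
  intro a b h
  by_cases hab : a = b
  · simp [hab]
  · simp [Matrix.one_apply, hab] at h

theorem Hm.add {δ : Gr} {M N : Matrix I I K} (h : Hm deg δ M) (h' : Hm deg δ N) :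
    Hm deg δ (M + N) := by
  intro a b hab
  by_cases h1 : M a b = 0
  · apply h'; intro h2; apply hab; simp [h1, h2]
  · exact h a b h1

theorem Hm.neg {δ : Gr} {M : Matrix I I K} (h : Hm deg δ M) : Hm deg δ (-M) := by
  intro a b hab
  apply h; intro h1; apply hab; simp [h1]

theorem Hm.sub {δ : Gr} {M N : Matrix I I K} (h : Hm deg δ M) (h' : Hm deg δ N) :
    Hm deg δ (M - N) := by
  rw [sub_eq_add_neg]; exact h.add h'.neg

theorem Hm.smul {δ : Gr} {M : Matrix I I K} (r : K) (h : Hm deg δ M) : Hm deg δ (r • M) := by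
  intro a b hab
  apply h; intro h1; apply hab; simp [h1]

theorem Hm.sum {δ : Gr} {ι : Type*} (s : Finset ι) {M : ι → Matrix I I K}
    (h : ∀ i ∈ s, Hm deg δ (M i)) : Hm deg δ (∑ i ∈ s, M i) := by
  classical
  induction s using Finset.induction_on with
  | empty => simpa using Hm.zero
  | insert i s hi ih =>
    rw [Finset.sum_insert hi]
    exact (h i (Finset.mem_insert_self _ _)).add (ih fun j hj => h j (Finset.mem_insert_of_mem hj))

theorem Hm.mul {δ δ' : Gr} {M N : Matrix I I K} (h : Hm deg δ M) (h' : Hm deg δ' N) :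
    Hm deg (δ + δ') (M * N) := by
  intro a b hab
  rw [Matrix.mul_apply] at hab
  obtain ⟨c, _, hc⟩ := Finset.exists_ne_zero_of_sum_ne_zero hab
  have h1 : M a c ≠ 0 := fun h0 => hc (by simp [h0])
  have h2 : N c b ≠ 0 := fun h0 => hc (by simp [h0])
  rw [h a c h1, h' c b h2]
  abel

theorem Hm.sg : Hm deg 0 (sg K deg) := by
  intro a b h
  by_cases hab : a = b
  · simp [hab]
  · simp [Pool.Agent.GC.sg, Matrix.diagonal_apply, hab] at h

theorem Hm.congr {δ δ' : Gr} {M : Matrix I I K} (h : Hm deg δ M) (e : δ = δ') : Hm deg δ' M := by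
  rw [← e]; exact h

theorem Sup.mulVec {δ : Gr} {M : Matrix I I K} (h : Hm deg δ M) {P P' : Gr → Prop} {v : I → K}
    (hv : Sup deg P v) (hP : ∀ g, P g → P' (g + δ)) : Sup deg P' (M *ᵥ v) := by
  intro a ha
  rw [Matrix.mulVec, dotProduct] at ha
  obtain ⟨c, _, hc⟩ := Finset.exists_ne_zero_of_sum_ne_zero ha
  have h1 : M a c ≠ 0 := fun h0 => hc (by simp [h0])
  have h2 : v c ≠ 0 := fun h0 => hc (by simp [h0])
  rw [h a c h1]
  exact hP _ (hv c h2)

theorem Sup.mono {P P' : Gr → Prop} {v : I → K} (hv : Sup deg P v) (h : ∀ g, P g → P' g) :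
    Sup deg P' v := fun a ha => h _ (hv a ha)

theorem Ex.mono {d : Matrix I I K} {P P' : Gr → Prop} (h : Ex deg d P') (hP : ∀ g, P g → P' g) :
    Ex deg d P := fun v hv hd => h v (hv.mono hP) hd

theorem HInj.mono {d T : Matrix I I K} {P P' : Gr → Prop} (h : HInj deg d T P')
    (hP : ∀ g, P g → P' g) : HInj deg d T P := fun v hv hd hT => h v (hv.mono hP) hd hT

theorem Ex.hinj {d : Matrix I I K} {P : Gr → Prop} (T : Matrix I I K) (h : Ex deg d P) :
    HInj deg d T P := fun v hv hd _ => h v hv hd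

end Abs

section Tensor

variable {K : Type*} [Field K] {I J : Type*} [Fintype I] [DecidableEq I] [Fintype J] [DecidableEq J]

/-- Kronecker product -/
def kr (M : Matrix I I K) (N : Matrix J J K) : Matrix (I × J) (I × J) K :=
  Matrix.kroneckerMap (· * ·) M N

theorem kr_apply (M : Matrix I I K) (N : Matrix J J K) (a b : I × J) :
    kr M N a b = M a.1 b.1 * N a.2 b.2 := rfl

theorem tl_eq (M : Matrix I I K) : (tl M : Matrix (I × J) (I × J) K) = kr M 1 := rfl

theorem tr0_eq (N : Matrix J J K) : (tr0 N : Matrix (I × J) (I × J) K) = kr 1 N := rfl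

theorem tr1_eq (degI : I → Gr) (N : Matrix J J K) : tr1 degI N = kr (sg K degI) N := rfl

theorem kr_mul (A B : Matrix I I K) (C D : Matrix J J K) : kr A C * kr B D = kr (A * B) (C * D) :=
  (Matrix.mul_kronecker_mul A B C D).symm

theorem kr_one_one : kr (1 : Matrix I I K) (1 : Matrix J J K) = 1 := Matrix.one_kronecker_one

theorem kr_add_left (A B : Matrix I I K) (C : Matrix J J K) : kr (A + B) C = kr A C + kr B C :=
  Matrix.add_kronecker A B C

theorem kr_add_right (A : Matrix I I K) (C D : Matrix J J K) : kr A (C + D) = kr A C + kr A D :=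
  Matrix.kronecker_add A C D

theorem kr_neg_left (A : Matrix I I K) (C : Matrix J J K) : kr (-A) C = -kr A C := by
  ext a b; simp [kr_apply]

theorem kr_neg_right (A : Matrix I I K) (C : Matrix J J K) : kr A (-C) = -kr A C := by
  ext a b; simp [kr_apply]

theorem kr_sub_left (A B : Matrix I I K) (C : Matrix J J K) : kr (A - B) C = kr A C - kr B C := by
  ext a b; simp [kr_apply, sub_mul]

theorem kr_sub_right (A : Matrix I I K) (C D : Matrix J J K) : kr A (C - D) = kr A C - kr A D := by
  ext a b; simp [kr_apply, mul_sub]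

theorem kr_smul_left (r : K) (A : Matrix I I K) (C : Matrix J J K) : kr (r • A) C = r • kr A C :=
  Matrix.smul_kronecker r A C

theorem kr_smul_right (r : K) (A : Matrix I I K) (C : Matrix J J K) : kr A (r • C) = r • kr A C :=
  Matrix.kronecker_smul r A C

theorem kr_zero_left (C : Matrix J J K) : kr (0 : Matrix I I K) C = 0 := Matrix.zero_kronecker C

theorem kr_zero_right (A : Matrix I I K) : kr A (0 : Matrix J J K) = 0 := Matrix.kronecker_zero A

theorem kr_sum_left {ι : Type*} (s : Finset ι) (A : ι → Matrix I I K) (C : Matrix J J K) :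
    kr (∑ i ∈ s, A i) C = ∑ i ∈ s, kr (A i) C := by
  ext a b; simp [kr_apply, Matrix.sum_apply, Finset.sum_mul]

theorem kr_sum_right {ι : Type*} (s : Finset ι) (A : Matrix I I K) (C : ι → Matrix J J K) :
    kr A (∑ i ∈ s, C i) = ∑ i ∈ s, kr A (C i) := by
  ext a b; simp [kr_apply, Matrix.sum_apply, Finset.mul_sum]

theorem Hm.kr {degI : I → Gr} {degJ : J → Gr} {δ ε : Gr} {M : Matrix I I K} {N : Matrix J J K}
    (h : Hm degI δ M) (h' : Hm degJ ε N) : Hm (dg2 degI degJ) (δ + ε) (kr M N) := by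
  intro a b hab
  rw [kr_apply] at hab
  have h1 : M a.1 b.1 ≠ 0 := fun h0 => hab (by simp [h0])
  have h2 : N a.2 b.2 ≠ 0 := fun h0 => hab (by simp [h0])
  unfold dg2
  rw [h _ _ h1, h' _ _ h2]
  abel

theorem Hm.tl {degI : I → Gr} {degJ : J → Gr} {δ : Gr} {M : Matrix I I K} (h : Hm degI δ M) :
    Hm (dg2 degI degJ) δ (tl M) := by
  have := h.kr (Hm.one (K := K) (deg := degJ))
  rw [add_zero] at this
  exact this

theorem Hm.tr0 {degI : I → Gr} {degJ : J → Gr} {δ : Gr} {N : Matrix J J K} (h : Hm degJ δ N) :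
    Hm (dg2 degI degJ) δ (tr0 N) := by
  have := (Hm.one (K := K) (deg := degI)).kr h
  rw [zero_add] at this
  exact this

theorem Hm.tr1 {degI : I → Gr} {degJ : J → Gr} {δ : Gr} {N : Matrix J J K} (h : Hm degJ δ N) :
    Hm (dg2 degI degJ) δ (tr1 degI N) := by
  have := (Hm.sg (K := K) (deg := degI)).kr h
  rw [zero_add] at this
  exact this

theorem sg_dg2 (degI : I → Gr) (degJ : J → Gr) :
    sg K (dg2 degI degJ) = kr (sg K degI) (sg K degJ) := by
  ext a b
  rw [kr_apply]
  unfold sg dg2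
  simp only [Matrix.diagonal_apply]
  by_cases h1 : a.1 = b.1
  · by_cases h2 : a.2 = b.2
    · have : a = b := Prod.ext h1 h2
      subst this
      simp [zpow_add₀]
    · have : a ≠ b := fun h => h2 (by rw [h])
      simp [h2, this]
  · have : a ≠ b := fun h => h1 (by rw [h])
    simp [h1, this]

/-- the differential of the tensor product of two complexes -/
def dten (degI : I → Gr) (d : Matrix I I K) (e : Matrix J J K) : Matrix (I × J) (I × J) K :=
  kr d 1 + kr (sg K degI) e

theorem dten_sq {degI : I → Gr} {d : Matrix I I K} {e : Matrix J J K} {δ : Gr}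
    (hd : Hm degI δ d) (hδ : Odd δ.1) (h1 : d * d = 0) (h2 : e * e = 0) :
    dten degI d e * dten degI d e = 0 := by
  unfold dten
  rw [add_mul, mul_add, mul_add, kr_mul, kr_mul, kr_mul, kr_mul, h1, h2, hd.odd hδ, kr_neg_left]
  simp [kr_zero_left, kr_zero_right]

theorem Hm.dten {degI : I → Gr} {degJ : J → Gr} {δ : Gr} {d : Matrix I I K} {e : Matrix J J K}
    (hd : Hm degI δ d) (he : Hm degJ δ e) : Hm (dg2 degI degJ) δ (dten degI d e) :=
  (Hm.tl (J := J) (degJ := degJ) hd).add (Hm.tr1 (degI := degI) he)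

end Tensor

end Pool.Agent.GC
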