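import Pool.Agent.GC.Phin

/-! The operators `T` and `T * T` on the homology of a pair. -/

set_option linter.unusedSectionVars false
set_option linter.unusedSimpArgs false
set_option linter.unusedVariables false

namespace Pool.Agent.GC

open Matrix

/-- coefficients of a bilinear form -/
def Tco (n1 n2 : ℕ) (Ξ : ℕ → SV) (i : Fin n1) (j : Fin n2) : ZMod 7 :=
  lin (fun l => if (j : ℕ) = l then (1 : ZMod 7) else 0) (Ξ i)

theorem sum_lin {n : ℕ} {A : Type*} [AddCommGroup A] [Module (ZMod 7) A] (y : Fin n → A) (L : SV) :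
    ∑ j : Fin n, (lin (fun l => if (j : ℕ) = l then (1 : ZMod 7) else 0) L) • y j =
      lin (ex0 y) L := by
  induction L with
  | nil => simp [lin]
  | cons t L ih =>
    simp only [lin, add_smul, Finset.sum_add_distrib, ih]
    congr 1
    rw [← sum_ex0, Finset.smul_sum]
    apply Finset.sum_congr rfl
    intro j _
    by_cases h : (j : ℕ) = t.1
    · simp [h]
    · simp [h]

/-- the components of `T` -/
noncomputable def RR (n1 n2 : ℕ) (Ξ : ℕ → SV) (κ : ℕ) :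
    Matrix (Finset (Fin n1) × Finset (Fin n2)) (Finset (Fin n1) × Finset (Fin n2)) (ZMod 7) :=
  kr (ex0 (Fock.cr (ZMod 7) (ι := Fin n1)) κ * sg (ZMod 7) ((St (ZMod 7) n1).deg 1))
    (lin (ex0 (Fock.cr (ZMod 7) (ι := Fin n2))) (Ξ κ))

theorem Tt_eq (n1 n2 : ℕ) (Ξ : ℕ → SV) :
    Tt (St (ZMod 7) n1) (St (ZMod 7) n2) (Tco n1 n2 Ξ) =
      ∑ κ ∈ Finset.range n1, RR n1 n2 Ξ κ := by
  unfold Tt bil
  rw [Finset.sum_range]
  apply Finset.sum_congr rfl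
  intro i _
  unfold RR
  have e1 : ex0 (Fock.cr (ZMod 7) (ι := Fin n1)) (i : ℕ) = Fock.cr (ZMod 7) i := by
    unfold ex0
    rw [dif_pos i.isLt]
  rw [e1, ← sum_lin, kr_sum_right]
  apply Finset.sum_congr rfl
  intro j _
  rw [kr_smul_right, kr_mul, one_mul]
  rfl

theorem ex0_anti {n : ℕ} (a b : ℕ) : ex0 (Fock.cr (ZMod 7) (ι := Fin n)) a *
    ex0 (Fock.cr (ZMod 7) (ι := Fin n)) b = -(ex0 (Fock.cr (ZMod 7) (ι := Fin n)) b *
    ex0 (Fock.cr (ZMod 7) (ι := Fin n)) a) := by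
  unfold ex0
  by_cases ha : a < n <;> by_cases hb : b < n <;> simp only [ha, hb, dif_pos, dif_neg,
    not_false_eq_true, mul_zero, zero_mul, neg_zero]
  exact (Fock.std (ZMod 7) (Fin n)).anti _ _

theorem lin_anti {A : Type*} [Ring A] [Algebra (ZMod 7) A] {x : ℕ → A}
    (h : ∀ a b, x a * x b = -(x b * x a)) (L L' : SV) : lin x L * lin x L' = -(lin x L' * lin x L) := by
  have h1 : ∀ a, ∀ L : SV, x a * lin x L = -(lin x L * x a) := by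
    intro a L
    induction L with
    | nil => simp [lin]
    | cons t L ih =>
      simp only [lin, mul_add, add_mul, ih, Algebra.mul_smul_comm, Algebra.smul_mul_assoc, h a t.1,
        smul_neg]
      abel
  induction L with
  | nil => simp [lin]
  | cons t L ih =>
    simp only [lin, mul_add, add_mul, ih, Algebra.mul_smul_comm, Algebra.smul_mul_assoc, h1 t.1 L',
      smul_neg]
    abel

theorem X_hm {n : ℕ} (a : ℕ) : Hm ((St (ZMod 7) n).deg 1) (1, 1)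
    (ex0 (Fock.cr (ZMod 7) (ι := Fin n)) a) := by
  unfold ex0
  by_cases ha : a < n
  · rw [dif_pos ha]
    exact (Fock.std (ZMod 7) (Fin n)).x_hm 1 _
  · rw [dif_neg ha]; exact Hm.zero

theorem XsXs {n : ℕ} (a b : ℕ) :
    (ex0 (Fock.cr (ZMod 7) (ι := Fin n)) a * sg (ZMod 7) ((St (ZMod 7) n).deg 1)) *
    (ex0 (Fock.cr (ZMod 7) (ι := Fin n)) b * sg (ZMod 7) ((St (ZMod 7) n).deg 1)) =
    -(ex0 (Fock.cr (ZMod 7) (ι := Fin n)) a * ex0 (Fock.cr (ZMod 7) (ι := Fin n)) b) := by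
  set X := ex0 (Fock.cr (ZMod 7) (ι := Fin n)) a
  set Y := ex0 (Fock.cr (ZMod 7) (ι := Fin n)) b
  set s := sg (ZMod 7) ((St (ZMod 7) n).deg 1)
  have h1 : Y * s = -(s * Y) := (X_hm b).odd (by simp)
  have h2 : s * s = 1 := sg_mul_sg
  calc X * s * (Y * s) = X * s * -(s * Y) := by rw [h1]
    _ = -(X * (s * s) * Y) := by simp only [Matrix.mul_assoc, Matrix.mul_neg]
    _ = -(X * Y) := by rw [h2, Matrix.mul_one]

theorem RR_comm (n1 n2 : ℕ) (Ξ : ℕ → SV) (κ l : ℕ) :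
    RR n1 n2 Ξ κ * RR n1 n2 Ξ l = RR n1 n2 Ξ l * RR n1 n2 Ξ κ := by
  unfold RR
  rw [kr_mul, kr_mul, XsXs, XsXs, ex0_anti κ l, lin_anti ex0_anti (Ξ κ) (Ξ l)]
  simp only [kr_neg_left, kr_neg_right, neg_neg]

section

variable {F G : Dat}

/-- the column operator of `x_κ sg` -/
def ocX (n κ : ℕ) (L : SV) : SV := bindS (colX κ) (bindS (colSg n) L)

theorem ocX_lin (n κ : ℕ) (L : SV) :
    (ex0 (Fock.cr (ZMod 7) (ι := Fin n)) κ * sg (ZMod 7) ((St (ZMod 7) n).deg 1)) *ᵥ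
      lin (bJ n).g L = lin (bJ n).g (ocX n κ L) := by
  unfold ocX
  rw [← Matrix.mulVec_mulVec, colSg_lin, colX_lin]

theorem kx_sum_conj {I A B A' B' : Type*} [Fintype I] (P : Matrix (A' × B') I (ZMod 7))
    (Q : Matrix I (A × B) (ZMod 7)) (s : Finset ℕ) (f : ℕ → Matrix I I (ZMod 7)) :
    P * (∑ κ ∈ s, f κ) * Q = ∑ κ ∈ s, P * f κ * Q := by
  rw [Matrix.mul_sum, Matrix.sum_mul]

/-- the operator `T` -/
theorem hinj_T (hG : Good F G) (Ξ : ℕ → SV) {P : Gr → Prop} {t1 t2 s1 s2 N PT UT : ℕ}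
    {Mt Yt : ℕ → ℕ → SV} {S : ℕ → ℕ → ℕ}
    (hf2 : ∀ m < Nat.pow 2 F.n, F.c2 s1 m = true) (hg2 : ∀ m < Nat.pow 2 G.n, G.c2 s2 m = true)
    (hP : ∀ (b1 : Finset (Fin F.n)) (b2 : Finset (Fin G.n)),
      P (((b1.card + b2.card : ℕ) : ℤ), ((b1.card : ℕ) : ZMod 3)) →
        (b1.card < F.lo ∧ b1.card ≤ F.hi ∧ b1.card ≠ t1) ∨
        (b2.card < G.lo ∧ b2.card ≤ G.hi ∧ b2.card ≠ t2) ∨
        (b1.card = t1 ∧ b2.card = t2 ∧ ¬ t1 < F.lo ∧ t1 ≤ F.hi ∧ ¬ t2 < G.lo ∧ t2 ≤ G.hi))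
    (cM : ∀ κ < F.n, ∀ e < F.r t1, F.c3 (ocX F.n κ) t1 s1 (Mt κ) e = true)
    (cY : ∀ κ < F.n, ∀ e < G.r t2, G.c3 (bindS (colL (Ξ κ))) t2 s2 (Yt κ) e = true)
    (hK : F.n ≤ 20) (hM : ∀ κ φ, (Mt κ φ).length ≤ 1) (hY : ∀ κ e, (Yt κ e).length ≤ 64)
    (hS : ∀ u t i, dg i (S u t) ≤ 7)
    (hchk : ∀ φ < F.r t1, ∀ e < G.r t2,
      chkS F.n (G.r t2) N Mt Yt (gS (F.r s1) (G.r s2) S) PT UT φ e = true) :
    HInj (dP (St (ZMod 7) F.n) (St (ZMod 7) G.n)) (DD F G)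
      (Tt (St (ZMod 7) F.n) (St (ZMod 7) G.n) (Tco F.n G.n Ξ)) P := by
  refine pair_hinj hG (Dd_Tt _ _ _ _ _) hf2 hg2 hP ?_
  intro x hx
  rw [Tt_eq, kx_sum_conj] at hx
  have e1 : ∀ κ ∈ Finset.range F.n, kx (F.p s1) (G.p s2) * RR F.n G.n Ξ κ *
      kx (F.i t1) (G.i t2) = Matrix.kroneckerMap (· * ·) ((bF (F.r s1)).mat (bF (F.r t1)) (Mt κ))
      ((bF (G.r s2)).mat (bF (G.r t2)) (Yt κ)) := by
    intro κ hκ
    rw [Finset.mem_range] at hκ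
    unfold RR
    rw [kr_eq_kx, kx_mul, kx_mul, Dat.p_op_i (ocX_lin F.n κ) (cM κ hκ),
      Dat.p_op_i (colL_lin (Ξ κ)) (cY κ hκ)]
    rfl
  rw [Finset.sum_congr rfl e1] at hx
  exact ninj hK hM hY hS hchk hx

theorem sum_six {M : Type*} [AddCommGroup M] (f : ℕ → ℕ → M) (hs : ∀ a b, f a b = f b a)
    (h0 : ∀ a < 3, ∀ b < 3, f a b = 0) (h1 : ∀ a < 3, ∀ b < 3, f (a + 3) (b + 3) = 0) :
    ∑ a ∈ Finset.range 6, ∑ b ∈ Finset.range 6, f a b =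
      2 • ∑ q ∈ Finset.range 9, f (q / 3) (q % 3 + 3) := by
  simp only [Finset.sum_range_succ, Finset.sum_range_zero, zero_add]
  have z00 := h0 0 (by norm_num) 0 (by norm_num)
  have z01 := h0 0 (by norm_num) 1 (by norm_num)
  have z02 := h0 0 (by norm_num) 2 (by norm_num)
  have z10 := h0 1 (by norm_num) 0 (by norm_num)
  have z11 := h0 1 (by norm_num) 1 (by norm_num)
  have z12 := h0 1 (by norm_num) 2 (by norm_num)
  have z20 := h0 2 (by norm_num) 0 (by norm_num)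
  have z21 := h0 2 (by norm_num) 1 (by norm_num)
  have z22 := h0 2 (by norm_num) 2 (by norm_num)
  have w00 := h1 0 (by norm_num) 0 (by norm_num)
  have w01 := h1 0 (by norm_num) 1 (by norm_num)
  have w02 := h1 0 (by norm_num) 2 (by norm_num)
  have w10 := h1 1 (by norm_num) 0 (by norm_num)
  have w11 := h1 1 (by norm_num) 1 (by norm_num)
  have w12 := h1 1 (by norm_num) 2 (by norm_num)
  have w20 := h1 2 (by norm_num) 0 (by norm_num)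
  have w21 := h1 2 (by norm_num) 1 (by norm_num)
  have w22 := h1 2 (by norm_num) 2 (by norm_num)
  simp only [zero_add, Nat.reduceAdd] at w00 w01 w02 w10 w11 w12 w20 w21 w22
  rw [hs 3 0, hs 4 0, hs 5 0, hs 3 1, hs 4 1, hs 5 1, hs 3 2, hs 4 2, hs 5 2, z00, z01, z02, z10,
    z11, z12, z20, z21, z22, w00, w01, w02, w10, w11, w12, w20, w21, w22]
  simp only [Nat.reduceDiv, Nat.reduceMod, Nat.reduceAdd, Nat.zero_div, Nat.zero_mod, zero_add,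
    Nat.one_mod]
  abel

/-- the operator `T * T` -/
theorem hinj_TT (hG : Good F G) (Ξ : ℕ → SV) {P : Gr → Prop} {t1 t2 s1 s2 N PT UT : ℕ}
    {Mt Yt : ℕ → ℕ → SV} {S : ℕ → ℕ → ℕ} (hn : F.n = 6)
    (hf2 : ∀ m < Nat.pow 2 F.n, F.c2 s1 m = true) (hg2 : ∀ m < Nat.pow 2 G.n, G.c2 s2 m = true)
    (hP : ∀ (b1 : Finset (Fin F.n)) (b2 : Finset (Fin G.n)),
      P (((b1.card + b2.card : ℕ) : ℤ), ((b1.card : ℕ) : ZMod 3)) →
        (b1.card < F.lo ∧ b1.card ≤ F.hi ∧ b1.card ≠ t1) ∨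
        (b2.card < G.lo ∧ b2.card ≤ G.hi ∧ b2.card ≠ t2) ∨
        (b1.card = t1 ∧ b2.card = t2 ∧ ¬ t1 < F.lo ∧ t1 ≤ F.hi ∧ ¬ t2 < G.lo ∧ t2 ≤ G.hi))
    (cZ : ∀ κ < 3, ∀ l < 3, ∀ e < F.r t1,
      F.c3 (fun L => ocX F.n κ (ocX F.n l L)) t1 s1 (fun _ => []) e = true)
    (cZ' : ∀ κ < 3, ∀ l < 3, ∀ e < F.r t1,
      F.c3 (fun L => ocX F.n (κ + 3) (ocX F.n (l + 3) L)) t1 s1 (fun _ => []) e = true)
    (cM : ∀ q < 9, ∀ e < F.r t1,
      F.c3 (fun L => ocX F.n (q / 3) (ocX F.n (q % 3 + 3) L)) t1 s1 (Mt q) e = true)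
    (cY : ∀ q < 9, ∀ e < G.r t2,
      G.c3 (fun L => bindS (colL (Ξ (q / 3))) (bindS (colL (Ξ (q % 3 + 3))) L)) t2 s2 (Yt q) e = true)
    (hM : ∀ κ φ, (Mt κ φ).length ≤ 1) (hY : ∀ κ e, (Yt κ e).length ≤ 64)
    (hS : ∀ u t i, dg i (S u t) ≤ 7)
    (hchk : ∀ φ < F.r t1, ∀ e < G.r t2,
      chkS 9 (G.r t2) N Mt Yt (gS (F.r s1) (G.r s2) S) PT UT φ e = true) :
    HInj (dP (St (ZMod 7) F.n) (St (ZMod 7) G.n)) (DD F G)
      (Tt (St (ZMod 7) F.n) (St (ZMod 7) G.n) (Tco F.n G.n Ξ) *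
        Tt (St (ZMod 7) F.n) (St (ZMod 7) G.n) (Tco F.n G.n Ξ)) P := by
  have hcomm := Dd_Tt (St (ZMod 7) F.n) (St (ZMod 7) G.n) (cof F.n F.fl) (cof G.n G.fl)
    (Tco F.n G.n Ξ)
  refine pair_hinj hG (by
    unfold DD
    rw [← Matrix.mul_assoc, hcomm, Matrix.mul_assoc, hcomm, Matrix.mul_assoc]) hf2 hg2 hP ?_
  intro x hx
  have hX2 : ∀ κ l, ∀ L, ((ex0 (Fock.cr (ZMod 7) (ι := Fin F.n)) κ *
      sg (ZMod 7) ((St (ZMod 7) F.n).deg 1)) * (ex0 (Fock.cr (ZMod 7) (ι := Fin F.n)) l *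
      sg (ZMod 7) ((St (ZMod 7) F.n).deg 1))) *ᵥ lin (bJ F.n).g L =
      lin (bJ F.n).g (ocX F.n κ (ocX F.n l L)) := by
    intro κ l L
    rw [← Matrix.mulVec_mulVec, ocX_lin, ocX_lin]
  have hY2 : ∀ κ l, ∀ L, (lin (ex0 (Fock.cr (ZMod 7) (ι := Fin G.n))) (Ξ κ) *
      lin (ex0 (Fock.cr (ZMod 7) (ι := Fin G.n))) (Ξ l)) *ᵥ lin (bJ G.n).g L =
      lin (bJ G.n).g (bindS (colL (Ξ κ)) (bindS (colL (Ξ l)) L)) := by
    intro κ l L
    rw [← Matrix.mulVec_mulVec, colL_lin, colL_lin]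
  set f : ℕ → ℕ → Matrix (Fin (F.r s1) × Fin (G.r s2)) (Fin (F.r t1) × Fin (G.r t2)) (ZMod 7) :=
    fun κ l => kx (F.p s1) (G.p s2) * (RR F.n G.n Ξ κ * RR F.n G.n Ξ l) *
      kx (F.i t1) (G.i t2) with hf
  have hfe : ∀ κ l, f κ l = kx (F.p s1 * ((ex0 (Fock.cr (ZMod 7) (ι := Fin F.n)) κ *
      sg (ZMod 7) ((St (ZMod 7) F.n).deg 1)) * (ex0 (Fock.cr (ZMod 7) (ι := Fin F.n)) l *
      sg (ZMod 7) ((St (ZMod 7) F.n).deg 1))) * F.i t1)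
      (G.p s2 * (lin (ex0 (Fock.cr (ZMod 7) (ι := Fin G.n))) (Ξ κ) *
      lin (ex0 (Fock.cr (ZMod 7) (ι := Fin G.n))) (Ξ l)) * G.i t2) := by
    intro κ l
    rw [hf]
    simp only
    unfold RR
    rw [kr_mul, kr_eq_kx, kx_mul, kx_mul]
  have m0 : (bF (F.r s1)).mat (bF (F.r t1)) (fun _ => ([] : SV)) = 0 := by
    ext a b; rfl
  have h0 : ∀ a < 3, ∀ b < 3, f a b = 0 := by
    intro a ha b hb
    rw [hfe, Dat.p_op_i (hX2 a b) (cZ a ha b hb), m0, kx_zero_left]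
  have h1 : ∀ a < 3, ∀ b < 3, f (a + 3) (b + 3) = 0 := by
    intro a ha b hb
    rw [hfe, Dat.p_op_i (hX2 (a + 3) (b + 3)) (cZ' a ha b hb), m0, kx_zero_left]
  have hs : ∀ a b, f a b = f b a := by
    intro a b
    rw [hf]
    simp only
    rw [RR_comm]
  have e0 : kx (F.p s1) (G.p s2) *
      (Tt (St (ZMod 7) F.n) (St (ZMod 7) G.n) (Tco F.n G.n Ξ) *
        Tt (St (ZMod 7) F.n) (St (ZMod 7) G.n) (Tco F.n G.n Ξ)) * kx (F.i t1) (G.i t2) =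
      2 • ∑ q ∈ Finset.range 9, f (q / 3) (q % 3 + 3) := by
    have hr : Finset.range F.n = Finset.range 6 := by rw [hn]
    rw [← sum_six f hs h0 h1, Tt_eq, hr, Matrix.sum_mul, kx_sum_conj]
    apply Finset.sum_congr rfl
    intro κ _
    rw [Matrix.mul_sum, kx_sum_conj]
  rw [e0] at hx
  have e1 : ∀ q ∈ Finset.range 9, f (q / 3) (q % 3 + 3) =
      Matrix.kroneckerMap (· * ·) ((bF (F.r s1)).mat (bF (F.r t1)) (Mt q))
      ((bF (G.r s2)).mat (bF (G.r t2)) (Yt q)) := by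
    intro q hq
    rw [Finset.mem_range] at hq
    rw [hfe, Dat.p_op_i (hX2 _ _) (cM q hq), Dat.p_op_i (hY2 _ _) (cY q hq)]
    rfl
  rw [Finset.sum_congr rfl e1] at hx
  have h2 : (∑ q ∈ Finset.range 9, Matrix.kroneckerMap (· * ·)
      ((bF (F.r s1)).mat (bF (F.r t1)) (Mt q))
      ((bF (G.r s2)).mat (bF (G.r t2)) (Yt q))) *ᵥ x = 0 := by
    have h3 : (2 : ZMod 7) • ((∑ q ∈ Finset.range 9, Matrix.kroneckerMap (· * ·)
      ((bF (F.r s1)).mat (bF (F.r t1)) (Mt q))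
      ((bF (G.r s2)).mat (bF (G.r t2)) (Yt q))) *ᵥ x) = 0 := by
      rw [← hx, ← Matrix.smul_mulVec]
      congr 1
      rw [two_smul, two_smul]
    rcases smul_eq_zero.mp h3 with h | h
    · exact absurd h (by decide)
    · exact h
  exact ninj (by norm_num) hM hY hS hchk h2

end

end Pool.Agent.GC
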